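import Mathlib.LinearAlgebra.Matrix.GeneralLinearGroup.Defs
import Mathlib.Data.Complex.Basic

namespace Pool.Agent.MP_2a37ed_ag

open Matrix

/-- Regular functions on `GL_n(ℂ)`: polynomials in the entries of `g` and of `g⁻¹`. -/
def IsRegular {n : ℕ} (F : GL (Fin n) ℂ → ℂ) : Prop :=
  ∃ p : MvPolynomial ((Fin n × Fin n) ⊕ (Fin n × Fin n)) ℂ, ∀ g : GL (Fin n) ℂ,
    F g = MvPolynomial.eval
      (Sum.elim (fun ij => g.val ij.1 ij.2) (fun ij => (g⁻¹).val ij.1 ij.2)) p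

/-- Zariski closed subgroups of `GL_n(ℂ)`. -/
def IsAlg {n : ℕ} (G : Subgroup (GL (Fin n) ℂ)) : Prop :=
  ∃ S : Set (GL (Fin n) ℂ → ℂ), (∀ F ∈ S, IsRegular F) ∧ ∀ g, g ∈ G ↔ ∀ F ∈ S, F g = 0

/-- `K ∩ G` is the stabiliser of a vector in a rational representation of `G`. -/
def IsVecStab {n : ℕ} (G K : Subgroup (GL (Fin n) ℂ)) : Prop :=
  ∃ (N : ℕ) (ρ : G →* GL (Fin N) ℂ) (v : Fin N → ℂ),
    (∀ i j, ∃ F : GL (Fin n) ℂ → ℂ, IsRegular F ∧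
      ∀ g : G, (ρ g).val i j = F (g : GL (Fin n) ℂ)) ∧
    ∀ g : G, (g : GL (Fin n) ℂ) ∈ K ↔ (ρ g).val *ᵥ v = v

end Pool.Agent.MP_2a37ed_ag
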