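import Mathlib.LinearAlgebra.FreeModule.PID
import Mathlib.RingTheory.Nilpotent.Exp
import Mathlib.RingTheory.Flat.TorsionFree
import Mathlib.LinearAlgebra.Eigenspace.Minpoly
import Mathlib.RingTheory.PicardGroup
import Mathlib.Algebra.Polynomial.Bivariate
import Mathlib.Analysis.Complex.Polynomial.Basic
import Mathlib.RingTheory.Polynomial.Resultant.Basic
import Mathlib.RingTheory.Finiteness.ModuleFinitePresentation
import Mathlib.Analysis.CStarAlgebra.Classes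
import Mathlib.LinearAlgebra.Matrix.FiniteDimensional
import Mathlib.Analysis.Normed.Algebra.MatrixExponential
import Mathlib.RingTheory.SimpleRing.Principal
import Mathlib.RingTheory.TotallySplit
import Mathlib.RingTheory.Etale.Weakly
import Mathlib.Tactic.Polynomial.Basic
import Pool.Agent.MP_2a37ed_ag.Defs

-- ======== part 0: formerly Pool.Agent.MP_2a37ed_ag.Core
section MrgPart0

namespace Pool.Agent.MP_2a37ed_ag

open Matrix Polynomial

noncomputable section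

abbrev Mat (n : ℕ) := Matrix (Fin n) (Fin n) ℂ

abbrev Gl (n : ℕ) := GL (Fin n) ℂ

variable {n : ℕ}

/-- The algebra of regular functions. -/
def Reg (n : ℕ) : Subalgebra ℂ (Gl n → ℂ) :=
  Algebra.adjoin ℂ {F | ∃ i j, F = (fun g : Gl n => g.val i j) ∨ F = fun g : Gl n => (g⁻¹).val i j}

open Classical in
/-- Extension by zero to all matrices. -/
def xt (F : Gl n → ℂ) (x : Mat n) : ℂ := if h : IsUnit x then F h.unit else 0

/-- The differential of a regular function. -/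
def dR (F : Gl n → ℂ) (g : Gl n) : Mat n →L[ℂ] ℂ := fderiv ℂ (xt F) g.val

/-- The exponential as an invertible matrix. -/
def expU (A : Mat n) : Gl n where
  val := NormedSpace.exp A
  inv := NormedSpace.exp (-A)
  val_inv := by
    rw [← Matrix.exp_add_of_commute A (-A) (Commute.neg_right rfl), add_neg_cancel,
      NormedSpace.exp_zero]
  inv_val := by
    rw [← Matrix.exp_add_of_commute (-A) A (Commute.neg_left rfl), neg_add_cancel,
      NormedSpace.exp_zero]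

/-- Conjugation. -/
def cj (g : Gl n) : Mat n →ₗ[ℂ] Mat n where
  toFun A := g.val * A * (g⁻¹).val
  map_add' A B := by rw [mul_add, add_mul]
  map_smul' c A := by simp

/-- The Zariski tangent space at the identity. -/
def lie (G : Subgroup (Gl n)) : Submodule ℂ (Mat n) where
  carrier := {A | ∀ F ∈ Reg n, (∀ g ∈ G, F g = 0) → dR F 1 A = 0}
  add_mem' := by
    intro A B hA hB F hF h0
    rw [map_add, hA F hF h0, hB F hF h0, add_zero]
  zero_mem' := fun F _ _ => map_zero _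
  smul_mem' := by
    intro c A hA F hF h0
    rw [map_smul, hA F hF h0, smul_zero]

/-- Zariski closed. -/
def Clo (G : Subgroup (Gl n)) : Prop :=
  ∀ g, (∀ F ∈ Reg n, (∀ x ∈ G, F x = 0) → F g = 0) → g ∈ G

/-- `∑ u a • P a`. -/
def DD {ι : Type} [Fintype ι] (P : ι → Mat n) : (ι → ℂ) →ₗ[ℂ] Mat n where
  toFun u := ∑ a, u a • P a
  map_add' u v := by simp [add_smul, Finset.sum_add_distrib]
  map_smul' c u := by simp [Finset.smul_sum, mul_smul]

/-- Lie subalgebras closed under nilpotent parts and replicas. -/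
structure AlgLie (a : Submodule ℂ (Mat n)) : Prop where
  br : ∀ A ∈ a, ∀ B ∈ a, A * B - B * A ∈ a
  rep : ∀ (ι : Type) [Fintype ι] (P : ι → Mat n) (μ : ι → ℂ) (N : Mat n),
    CompleteOrthogonalIdempotents P → IsNilpotent N → (∀ i, Commute N (P i)) →
    DD P μ + N ∈ a → N ∈ a ∧ ∀ φ : ℂ →+ ℂ, DD P (fun i => φ (μ i)) ∈ a

/-- Everything we use about a connected closed subgroup. -/
structure Nice (G : Subgroup (Gl n)) : Prop where
  clo : Clo G
  mem : ∀ A, A ∈ lie G ↔ ∀ c : ℂ, expU (c • A) ∈ G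
  gen : G ≤ Subgroup.closure {g | ∃ A ∈ lie G, g = expU A}
  alie : AlgLie (lie G)

/-- `H` is epimorphic in `G`. -/
def Epi (G H : Subgroup (Gl n)) : Prop :=
  ∀ F ∈ Reg n, (∀ g ∈ G, ∀ h ∈ H, F (g * h) = F g) → ∀ g ∈ G, F g = F 1

/-- Regular characters of `G`. -/
structure Ch (G : Subgroup (Gl n)) (η : Gl n → ℂ) : Prop where
  reg : η ∈ Reg n
  one : η 1 = 1
  mul : ∀ x ∈ G, ∀ y ∈ G, η (x * y) = η x * η y

/-- The common kernel of the regular characters. -/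
def G1 (G : Subgroup (Gl n)) : Subgroup (Gl n) where
  carrier := {g | g ∈ G ∧ ∀ η, Ch G η → η g = 1}
  mul_mem' := by
    rintro x y ⟨hx, hx'⟩ ⟨hy, hy'⟩
    exact ⟨G.mul_mem hx hy, fun η h => by rw [h.mul x hx y hy, hx' η h, hy' η h, one_mul]⟩
  one_mem' := ⟨G.one_mem, fun η h => h.one⟩
  inv_mem' := by
    rintro x ⟨hx, hx'⟩
    refine ⟨G.inv_mem hx, fun η h => ?_⟩
    have := h.mul x hx x⁻¹ (G.inv_mem hx)
    rw [mul_inv_cancel, h.one, hx' η h, one_mul] at this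
    exact this.symm

/-- Regular matrix representations of `G`. -/
structure RRep {ι : Type} [Fintype ι] [DecidableEq ι] (G : Subgroup (Gl n))
    (ρ : Gl n → Matrix ι ι ℂ) : Prop where
  reg : ∀ i j, (fun g => ρ g i j) ∈ Reg n
  one : ρ 1 = 1
  mul : ∀ x ∈ G, ∀ y ∈ G, ρ (x * y) = ρ x * ρ y

/-- `W` contains no nonzero `G`-orbit. -/
def NoSt {ι : Type} [Fintype ι] (G : Subgroup (Gl n)) (ρ : Gl n → Matrix ι ι ℂ)
    (W : Submodule ℂ (ι → ℂ)) : Prop :=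
  ∀ p, (∀ g ∈ G, ρ g *ᵥ p ∈ W) → p = 0

/-- Span of the nilpotent elements. -/
def nsp (V : Submodule ℂ (Mat n)) : Submodule ℂ (Mat n) :=
  Submodule.span ℂ {N | N ∈ V ∧ IsNilpotent N}

/-- The group generated by the exponentials of the nilpotent elements. -/
def Unip (V : Submodule ℂ (Mat n)) : Subgroup (Gl n) :=
  Subgroup.closure {g | ∃ N ∈ V, IsNilpotent N ∧ g = expU N}

/-- Long products vanish. -/
def NilProd (V : Submodule ℂ (Mat n)) : Prop :=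
  ∃ K : ℕ, ∀ l : List (Mat n), l.length = K → (∀ x ∈ l, x ∈ V) → l.prod = 0

/-- The ideal generated by `lie H`. -/
def gone (G H : Subgroup (Gl n)) : Submodule ℂ (Mat n) :=
  Submodule.span ℂ {X | ∃ g ∈ G, ∃ B ∈ lie H, X = cj g B}

/-- The linear span of `G`. -/
def algA (G : Subgroup (Gl n)) : Submodule ℂ (Mat n) :=
  Submodule.span ℂ {X | ∃ g ∈ G, X = g.val}

/-- The radical of the trace form on `algA G`. -/
def radJ (G : Subgroup (Gl n)) : Submodule ℂ (Mat n) where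
  carrier := {x | x ∈ algA G ∧ ∀ y ∈ algA G, trace (x * y) = 0}
  add_mem' := by
    rintro x z ⟨hx, hx'⟩ ⟨hz, hz'⟩
    exact ⟨add_mem hx hz, fun y hy => by rw [add_mul, trace_add, hx' y hy, hz' y hy, add_zero]⟩
  zero_mem' := ⟨zero_mem _, fun y _ => by simp⟩
  smul_mem' := by
    rintro c x ⟨hx, hx'⟩
    exact ⟨Submodule.smul_mem _ c hx, fun y hy => by
      rw [smul_mul_assoc, trace_smul, hx' y hy, smul_zero]⟩

/-- A maximal torus of `a`, given by a system of idempotents. -/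
structure Tor {m : ℕ} (a : Submodule ℂ (Mat n)) (P : Fin m → Mat n) : Prop where
  coi : CompleteOrthogonalIdempotents P
  ne : ∀ i, P i ≠ 0
  rat : ∀ u, DD P u ∈ a → ∀ φ : ℂ →+ ℂ, DD P (fun i => φ (u i)) ∈ a
  max : ∀ X ∈ a, (∀ u, DD P u ∈ a → Commute X (DD P u)) →
    ∃ u N, DD P u ∈ a ∧ N ∈ a ∧ IsNilpotent N ∧ X = DD P u + N

/-- The torus of `a` in the coordinates `P`. -/
def tor {ι : Type} [Fintype ι] (a : Submodule ℂ (Mat n)) (P : ι → Mat n) : Submodule ℂ (ι → ℂ) :=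
  a.comap (DD P)

/-- `X` is a weight vector of weight `u i - u j` for all `u ∈ t`. -/
def Wt {ι : Type} [Fintype ι] (P : ι → Mat n) (t : Set (ι → ℂ)) (X : Mat n) (i j : ι) : Prop :=
  ∀ u ∈ t, DD P u * X - X * DD P u = (u i - u j) • X

/-- A basis of `V` with coordinate functionals. -/
structure Bas {r : ℕ} (V : Submodule ℂ (Mat n)) (e : Fin r → Mat n)
    (β : Fin r → Mat n →ₗ[ℂ] ℂ) : Prop where
  mem : ∀ a, e a ∈ V
  dual : ∀ a b, β a (e b) = if a = b then 1 else 0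
  sum : ∀ X ∈ V, X = ∑ a, β a X • e a

/-- The matrix of the coadjoint action. -/
def coad {r : ℕ} (e : Fin r → Mat n) (β : Fin r → Mat n →ₗ[ℂ] ℂ) (g : Gl n) :
    Matrix (Fin r) (Fin r) ℂ :=
  Matrix.of fun a b => β b (cj g⁻¹ (e a))

/-- The annihilator of `h` in coordinates. -/
def ann {r : ℕ} (β : Fin r → Mat n →ₗ[ℂ] ℂ) (h : Submodule ℂ (Mat n)) :
    Submodule ℂ (Fin r → ℂ) where
  carrier := {ξ | ∀ B ∈ h, ∑ a, β a B * ξ a = 0}
  add_mem' := by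
    intro x y hx hy B hB
    simp [mul_add, Finset.sum_add_distrib, hx B hB, hy B hB]
  zero_mem' := by intro B _; simp
  smul_mem' := by
    intro c x hx B hB
    have := hx B hB
    simp only [Pi.smul_apply, smul_eq_mul, mul_left_comm _ c, ← Finset.mul_sum, this, mul_zero]

/-- Tensor power of a matrix. -/
def tp {ι : Type} (k : ℕ) (x : Matrix ι ι ℂ) : Matrix (Fin k → ι) (Fin k → ι) ℂ :=
  Matrix.of fun I J => ∏ a, x (I a) (J a)

/-- Tensors whose first slot lies in `W`. -/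
def Wk {ι : Type} (W : Submodule ℂ (ι → ℂ)) (k : ℕ) : Submodule ℂ ((Fin (k + 1) → ι) → ℂ) where
  carrier := {p | ∀ J : Fin k → ι, (fun i => p (Fin.cons i J)) ∈ W}
  add_mem' := fun hx hy J => W.add_mem (hx J) (hy J)
  zero_mem' := fun _ => W.zero_mem
  smul_mem' := fun c _ hx J => W.smul_mem c (hx J)

/-- Laurent polynomials. -/
abbrev La := LaurentPolynomial ℂ

/-- Evaluation of Laurent polynomials. -/
def ev (τ : ℂˣ) : La →ₐ[ℂ] ℂ where
  toRingHom := LaurentPolynomial.eval₂ (RingHom.id ℂ) τ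
  commutes' c := LaurentPolynomial.eval₂_C (RingHom.id ℂ) τ c

/-- Evaluation of the deformation parameter. -/
def evs (s : ℂ) : La[X] →ₐ[ℂ] La :=
  (Polynomial.aeval (R := La) (algebraMap ℂ La s)).restrictScalars ℂ

/-- Evaluation of both parameters. -/
def ev2 (s : ℂ) (τ : ℂˣ) : La[X] →ₐ[ℂ] ℂ := (ev τ).comp (evs s)

/-- Evaluation of polynomials. -/
def evp (s : ℂ) : ℂ[X] →ₐ[ℂ] ℂ := Polynomial.aeval s

/-- Constant polynomials in the deformation parameter. -/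
def cs : La →ₐ[ℂ] La[X] := IsScalarTower.toAlgHom ℂ La La[X]

/-- Base change of invertible matrices. -/
def gm {ι A B : Type} [Fintype ι] [DecidableEq ι] [CommRing A] [CommRing B] [Algebra ℂ A]
    [Algebra ℂ B] (φ : A →ₐ[ℂ] B) : GL ι A →* GL ι B :=
  Matrix.GeneralLinearGroup.map (φ : A →+* B)

/-- Degree at most `d`. -/
def Up (d : ℤ) (f : La) : Prop := ∀ j, d < j → f.coeff j = 0

/-- Order at least `d`. -/
def Dn (d : ℤ) (f : La) : Prop := ∀ j, j < d → f.coeff j = 0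

def UpC (d : ℤ) (f : La[X]) : Prop := ∀ k, Up d (f.coeff k)

def DnC (d : ℤ) (f : La[X]) : Prop := ∀ k, Dn d (f.coeff k)

/-- Polynomials in `t⁻¹` and the parameter. -/
def negA : Subalgebra ℂ La[X] := Algebra.adjoin ℂ {X, C (LaurentPolynomial.T (-1))}

/-- Polynomials in `t` and the parameter. -/
def posA : Subalgebra ℂ La[X] := Algebra.adjoin ℂ {X, C (LaurentPolynomial.T 1)}

/-- Coefficient vector. -/
def cf {ι : Type} (σ : ι → La) (j : ℤ) : ι → ℂ := fun i => (σ i).coeff j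

/-- Coefficient matrix. -/
def cfM (x : Matrix (Fin n) (Fin n) La) (j : ℤ) : Mat n := x.map fun f => f.coeff j

/-- All coefficient matrices lie in `V`. -/
def InL (V : Submodule ℂ (Mat n)) (x : Matrix (Fin n) (Fin n) La) : Prop := ∀ j, cfM x j ∈ V

/-- No nonzero `W`-valued section with pole order at most `d` at infinity. -/
def InjW {ι : Type} [Fintype ι] (W : Submodule ℂ (ι → ℂ)) (d : ℤ) (a : Matrix ι ι La) : Prop :=
  ∀ σ : ι → La, (∀ j, cf σ j ∈ W) → (∀ i, Up d (σ i)) → (∀ i, Dn 0 ((a *ᵥ σ) i)) → σ = 0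

/-- The same to order `e` in the deformation parameter. -/
def Pe {ι : Type} [Fintype ι] (W : Submodule ℂ (ι → ℂ)) (d : ℤ) (e : ℕ)
    (a : Matrix ι ι La[X]) : Prop :=
  ∀ σ : ι → La[X], (∀ k j, cf (fun i => (σ i).coeff k) j ∈ W) → (∀ i, UpC d (σ i)) →
    (∀ i, ∀ k ≤ e, Dn 0 (((a *ᵥ σ) i).coeff k)) → ∀ i, (σ i).coeff 0 = 0

/-- The vector bundle glued by `b` is trivial (if it has degree zero). -/
def Triv (b : GL (Fin n) La) : Prop := InjW ⊤ (-1) b.valᵀ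

/-- The conormal bundle glued by `b` has no sections. -/
def NegB {r : ℕ} (e : Fin r → Mat n) (β : Fin r → Mat n →ₗ[ℂ] ℂ) (h : Submodule ℂ (Mat n))
    (b : GL (Fin n) La) : Prop :=
  ∀ a : Matrix (Fin r) (Fin r) La, (∀ τ, a.map (ev τ) = coad e β (gm (ev τ) b)⁻¹) →
    InjW (ann β h) 0 a

/-- The diagonal matrix `t ^ (-m)`. -/
def dT {ι : Type} [DecidableEq ι] (m : ι → ℤ) : Matrix ι ι La :=
  Matrix.diagonal fun i => LaurentPolynomial.T (-m i)

/-- `Θ = t ^ D`. -/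
def IsTh (Θ : GL (Fin n) La) (D : Mat n) : Prop :=
  ∀ (τ : ℂˣ) (c : ℂ), (τ : ℂ) = Complex.exp c → gm (ev τ) Θ = expU (c • D)

/-- The product `h₁ Θ h₂ Θ ⋯`. -/
def bl (Θ : GL (Fin n) La) (l : List (Gl n)) : GL (Fin n) La :=
  (l.map fun h => gm (Algebra.ofId ℂ La) h * Θ).prod

/-- Families with values in `Γ` moving in the directions `V`. -/
structure Good (Γ : Subgroup (Gl n)) (V : Submodule ℂ (Mat n)) (x : GL (Fin n) La[X]) : Prop where
  val : ∀ s τ, gm (ev2 s τ) x ∈ Γ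
  der : ∀ s τ, (x.val.map (fun f => derivative f) * (x⁻¹).val).map (ev2 s τ) ∈ V

/-- Entries of `x` and `x⁻¹` are polynomials in `t⁻¹`. -/
def NegG (x : GL (Fin n) La[X]) : Prop := ∀ i j, UpC 0 (x.val i j) ∧ UpC 0 ((x⁻¹).val i j)

/-- Entries of `x` and `x⁻¹` are polynomials in `t`. -/
def PosG (x : GL (Fin n) La[X]) : Prop := ∀ i j, DnC 0 (x.val i j) ∧ DnC 0 ((x⁻¹).val i j)

/-- The exponential of `κ • N` over a commutative algebra. -/
def expN {A : Type} [CommRing A] [Algebra ℂ A] [Algebra ℚ A] (κ : A) (N : Mat n)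
    (hN : IsNilpotent N) : GL (Fin n) A where
  val := IsNilpotent.exp (κ • N.map (algebraMap ℂ A))
  inv := IsNilpotent.exp (-(κ • N.map (algebraMap ℂ A)))
  val_inv := IsNilpotent.exp_mul_exp_neg_self
    ((hN.map (algebraMap ℂ A).mapMatrix).smul κ)
  inv_val := IsNilpotent.exp_neg_mul_exp_self
    ((hN.map (algebraMap ℂ A).mapMatrix).smul κ)

/-- Congruence modulo `X ^ k`. -/
def Cg {ι : Type} (k : ℕ) (x y : Matrix ι ι La[X]) : Prop :=
  ∀ i j, (X ^ k : La[X]) ∣ x i j - y i j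

/-- An echelon basis of `M` (the columns of `B`, pivots `S`). -/
structure Plk {ι : Type} [Fintype ι] [DecidableEq ι] {r : ℕ} (M : Submodule ℂ (ι → ℂ))
    (S : Fin r → ι) (B : Matrix ι (Fin r) ℂ) : Prop where
  inj : Function.Injective S
  rk : Module.finrank ℂ M = r
  piv : B.submatrix S id = 1
  mem : ∀ c : Fin r → ℂ, B *ᵥ c ∈ M
  eq : ∀ v ∈ M, v = B *ᵥ fun a => v (S a)
  stab : ∀ y : Matrix ι ι ℂ,
    (∀ ξ : Matrix (Fin r) ι ℂ, (ξ * B).det = 1 → (ξ * y * B).det ≠ 0) → ∀ v ∈ M, y *ᵥ v ∈ M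

/-- The determinant of `y` on the span of the columns of `B`. -/
def pdet {ι : Type} [Fintype ι] {r : ℕ} (S : Fin r → ι) (B : Matrix ι (Fin r) ℂ)
    (y : Matrix ι ι ℂ) : ℂ := ((y * B).submatrix S id).det

/-- Structure of the ideal generated by `lie H`. -/
structure Str (G H : Subgroup (Gl n)) : Prop where
  le : lie H ≤ gone G H
  le' : gone G H ≤ lie G
  cj1 : ∀ g ∈ G, ∀ A ∈ gone G H, cj g A ∈ gone G H
  cjn : ∀ g ∈ G, ∀ A ∈ nsp (gone G H), cj g A ∈ nsp (gone G H)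
  br : ∀ A ∈ lie G, ∀ B ∈ lie G, A * B - B * A ∈ gone G H
  sup : gone G H ≤ lie H ⊔ nsp (gone G H)
  sub : ∀ y ∈ H, ∀ A ∈ lie H, cj y A - A ∈ nsp (lie H)

/-- Vanishing of the first cohomology, in split form. -/
def Srj (V h : Submodule ℂ (Mat n)) (b : GL (Fin n) La) : Prop :=
  ∀ A, InL (nsp V) A → ∃ Am B Ap, InL (nsp V) Am ∧ InL (nsp h) B ∧ InL (nsp V) Ap ∧
    (∀ i j, Up 0 (Am i j)) ∧ (∀ i j, Dn 0 (Ap i j)) ∧ A = Am + B + b.val * Ap * (b⁻¹).val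

/-- `c0 (τ) = ci (τ⁻¹) b (τ)` and `ci (0) = 1`. -/
structure Fac (b : GL (Fin n) La) (c0 ci : GL (Fin n) ℂ[X]) : Prop where
  one : gm (evp 0) ci = 1
  eq : ∀ τ : ℂˣ, gm (evp (τ : ℂ)) c0 = gm (evp ((τ⁻¹ : ℂˣ) : ℂ)) ci * gm (ev τ) b

/-- Sections of `F` with pole order at most `k` at infinity. -/
def Gam {ι : Type} [Fintype ι] (F : Submodule La (ι → La)) (a : Matrix ι ι La) (k : ℤ) :
    Submodule ℂ (ι → La) where
  carrier := {σ | σ ∈ F ∧ (∀ i, Up k (σ i)) ∧ ∀ i, Dn 0 ((a *ᵥ σ) i)}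
  add_mem' := by
    rintro x y ⟨hx, hx1, hx2⟩ ⟨hy, hy1, hy2⟩
    refine ⟨F.add_mem hx hy, fun i j hj => ?_, fun i j hj => ?_⟩
    · simp [hx1 i j hj, hy1 i j hj]
    · simp [mulVec_add, hx2 i j hj, hy2 i j hj]
  zero_mem' := ⟨F.zero_mem, fun i j _ => by simp, fun i j _ => by simp⟩
  smul_mem' := by
    rintro c x ⟨hx, hx1, hx2⟩
    refine ⟨F.smul_of_tower_mem c hx, fun i j hj => ?_, fun i j hj => ?_⟩
    · simp [hx1 i j hj]
    · simp [mulVec_smul, hx2 i j hj]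

/-- The fibre of `F` at zero. -/
def Low {ι : Type} [Fintype ι] (F : Submodule La (ι → La)) (a : Matrix ι ι La) :
    Submodule ℂ (ι → ℂ) :=
  Submodule.span ℂ {v | ∃ σ ∈ F, (∀ i, Dn 0 ((a *ᵥ σ) i)) ∧ v = cf (a *ᵥ σ) 0}

/-- `δ` is the degree of `F`. -/
def Dg {ι : Type} [Fintype ι] (F : Submodule La (ι → La)) (a : Matrix ι ι La) (δ : ℤ) : Prop :=
  ∃ k0 : ℕ, ∀ k : ℕ, k0 ≤ k →
    (Module.finrank ℂ (Gam F a k) : ℤ) = (Module.finrank La F : ℤ) * (k + 1) + δ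

end

end Pool.Agent.MP_2a37ed_ag

end MrgPart0

-- ======== part 1: formerly Pool.Agent.MP_2a37ed_ag.Spec
section MrgPart1

namespace Pool.Agent.MP_2a37ed_ag

open Matrix Polynomial

def LieStmt : Prop :=
  ∀ (n : ℕ) (G : Subgroup (Gl n)), Clo G → ∀ A ∈ lie G, ∀ c : ℂ, expU (c • A) ∈ G

def RepStmt : Prop := ∀ (n : ℕ) (G : Subgroup (Gl n)), Clo G → AlgLie (lie G)

def VnStmt : Prop :=
  ∀ (n : ℕ) (G : Subgroup (Gl n)), Clo G → IsConnected (G : Set (Gl n)) →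
    G ≤ Subgroup.closure {g | ∃ A ∈ lie G, g = expU A}

def SpecStmt : Prop :=
  ∀ (n : ℕ) (A : Mat n), ∃ (m : ℕ) (P : Fin m → Mat n) (μ : Fin m → ℂ) (N : Mat n),
    CompleteOrthogonalIdempotents P ∧ IsNilpotent N ∧ (∀ i, Commute N (P i)) ∧
    A = DD P μ + N ∧ (∀ i, P i ∈ Algebra.adjoin ℂ {A}) ∧ N ∈ Algebra.adjoin ℂ {A}

def EngStmt : Prop :=
  ∀ (n : ℕ) (V : Submodule ℂ (Mat n)), (∀ A ∈ V, ∀ B ∈ V, A * B - B * A ∈ V) →
    (∀ A ∈ V, IsNilpotent A) → NilProd V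

def TorStmt : Prop :=
  ∀ (n : ℕ) (a : Submodule ℂ (Mat n)), AlgLie a →
    ∀ (m0 : ℕ) (P0 : Fin m0 → Mat n) (z0 : Fin m0 → ℤ), CompleteOrthogonalIdempotents P0 →
    DD P0 (fun i => (z0 i : ℂ)) ∈ a →
    ∃ (m : ℕ) (P : Fin m → Mat n) (z : Fin m → ℤ), Tor a P ∧
      DD P0 (fun i => (z0 i : ℂ)) = DD P (fun i => (z i : ℂ))

def RootStmt : Prop :=
  ∀ (n : ℕ) (ι : Type) [Fintype ι] (P : ι → Mat n) (t : Set (ι → ℂ)) (V : Submodule ℂ (Mat n)),
    CompleteOrthogonalIdempotents P →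
    (∀ u ∈ t, ∀ A ∈ V, DD P u * A - A * DD P u ∈ V) →
    V ≤ Submodule.span ℂ {A | A ∈ V ∧ ∃ i j, Wt P t A i j}

def RatStmt : Prop :=
  ∀ (m : ℕ) (t : Submodule ℂ (Fin m → ℂ)),
    (∀ u ∈ t, ∀ φ : ℂ →+ ℂ, (fun i => φ (u i)) ∈ t) →
    t ≤ Submodule.span ℂ {u | u ∈ t ∧ ∃ z : Fin m → ℤ, u = fun i => (z i : ℂ)}

def BasStmt : Prop :=
  ∀ (n : ℕ) (V : Submodule ℂ (Mat n)) (Q : Mat n → Prop),
    V ≤ Submodule.span ℂ {A | A ∈ V ∧ Q A} →
    ∃ (r : ℕ) (e : Fin r → Mat n) (β : Fin r → Mat n →ₗ[ℂ] ℂ), Bas V e β ∧ ∀ a, Q (e a)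

def SpanStmt : Prop :=
  ∀ (n m : ℕ) (a : Submodule ℂ (Mat n)) (P : Fin m → Mat n), AlgLie a → Tor a P →
    a ≤ Submodule.span ℂ {A | A ∈ a ∧ (IsNilpotent A ∨ ∃ u, A = DD P u)}

def WjStmt : Prop :=
  ∀ (n : ℕ) (G : Subgroup (Gl n)), Nice G →
    NilProd (radJ G) ∧ (∀ x ∈ radJ G, ∀ y ∈ algA G, x * y ∈ radJ G ∧ y * x ∈ radJ G) ∧
    lie G ≤ algA G ∧ (∀ x ∈ algA G, ∀ y ∈ algA G, x * y ∈ algA G) ∧
    ∀ A ∈ lie G, (∀ B ∈ lie G, trace (A * B) = 0) → A ∈ radJ G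

def W0Stmt : Prop :=
  ∀ (n m : ℕ) (G : Subgroup (Gl n)) (P : Fin m → Mat n), Nice G → Tor (lie G) P →
    ∀ N ∈ lie G, IsNilpotent N → (∀ u, DD P u ∈ lie G → Commute N (DD P u)) → N ∈ radJ G

def WrStmt : Prop :=
  ∀ (n m : ℕ) (G : Subgroup (Gl n)) (P : Fin m → Mat n) (V : Submodule ℂ (Mat n)),
    Nice G → Tor (lie G) P → V ≤ lie G → (∀ A ∈ lie G, ∀ B ∈ lie G, A * B - B * A ∈ V) →
    ∀ A ∈ lie G, ∀ i j, Wt P (tor (lie G) P) A i j → A ∉ radJ G →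
    (∃ u ∈ tor (lie G) P, u i ≠ u j) →
    ∃ w ∈ Unip V, ∃ u0 ∈ tor (lie G) P, u0 i - u0 j = 2 ∧
      ∀ u ∈ tor (lie G) P, cj w (DD P u) - DD P (u - (u i - u j) • u0) ∈ radJ G

def CentStmt : Prop :=
  ∀ (n : ℕ) (G : Subgroup (Gl n)) (E : Mat n), Nice G → E * E = E → E ∈ algA G →
    (∀ A ∈ lie G, E * A - A * E ∈ radJ G) →
    (∀ y ∈ algA G, E * y - y * E ∈ radJ G) ∧
      ∀ D : Mat n, (∀ c : ℂ, expU (c • D) ∈ G1 G) → trace (E * D) = 0

def WeylStmt : Prop :=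
  ∀ (n m0 : ℕ) (G : Subgroup (Gl n)) (V : Submodule ℂ (Mat n)) (P0 : Fin m0 → Mat n)
    (z0 : Fin m0 → ℤ), Nice G → V ≤ lie G → (∀ A ∈ lie G, ∀ B ∈ lie G, A * B - B * A ∈ V) →
    CompleteOrthogonalIdempotents P0 →
    (∀ c : ℂ, expU (c • DD P0 (fun i => (z0 i : ℂ))) ∈ G1 G) →
    ∃ (N1 : ℕ) (J : Submodule ℂ (Mat n)), 0 < N1 ∧ NilProd J ∧ ∀ k : ℕ,
      ∃ (l : List (Gl n)) (w : Gl n), l.length = k * N1 ∧ (∀ g ∈ l, g ∈ Unip V) ∧ ∀ c : ℂ,
        (w⁻¹ * (l.map fun g => g * expU (c • DD P0 (fun i => (z0 i : ℂ)))).prod).val - 1 ∈ J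

def PlkStmt : Prop :=
  ∀ (ι : Type) [Fintype ι] [DecidableEq ι] (M : Submodule ℂ (ι → ℂ)),
    ∃ (r : ℕ) (S : Fin r → ι) (B : Matrix ι (Fin r) ℂ), Plk M S B

def PchStmt : Prop :=
  ∀ (n r : ℕ) (ι : Type) [Fintype ι] [DecidableEq ι] (Γ K : Subgroup (Gl n))
    (ρ : Gl n → Matrix ι ι ℂ) (M : Submodule ℂ (ι → ℂ)) (S : Fin r → ι) (B : Matrix ι (Fin r) ℂ),
    RRep Γ ρ → K ≤ Γ → Plk M S B → (∀ k ∈ K, ∀ v ∈ M, ρ k *ᵥ v ∈ M) →
    Ch K (fun k => pdet S B (ρ k)) ∧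
    (∀ k ∈ K, ρ k * B = B * (ρ k * B).submatrix S id) ∧
    ∀ (ξ : Matrix (Fin r) ι ℂ), (fun x => (ξ * ρ x * B).det) ∈ Reg n ∧ ∀ x ∈ Γ, ∀ k ∈ K,
      (ξ * ρ (x * k) * B).det = (ξ * ρ x * B).det * pdet S B (ρ k)

def GorStmt : Prop :=
  ∀ (m k : ℕ) (L : Submodule ℚ (Fin m → ℚ)) (f : Fin k → Fin m → ℚ),
    (∃ u ∈ L, ∀ j, 0 < f j ⬝ᵥ u) ∨
      ∃ a : Fin k → ℕ, a ≠ 0 ∧ ∀ u ∈ L, ∑ j, (a j : ℚ) * (f j ⬝ᵥ u) = 0

def TrStmt : Prop :=
  ∀ (n : ℕ) (Γ : Subgroup (Gl n)), ∀ F ∈ Reg n,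
    ∃ (N : ℕ) (ρ : Gl n → Matrix (Fin N) (Fin N) ℂ) (v l : Fin N → ℂ), RRep Γ ρ ∧
      (∀ y ∈ Γ, F y = l ⬝ᵥ (ρ y *ᵥ v)) ∧
      ∀ u : Fin N → ℂ, (∀ x ∈ Γ, l ⬝ᵥ (ρ x *ᵥ u) = 0) → u = 0

def EpiStmt : Prop :=
  ∀ (n : ℕ) (G H : Subgroup (Gl n)), Clo G → H ≤ G →
    (∀ K : Subgroup (Gl n), IsAlg K → H ≤ K → K ≤ G → K ≠ G → ¬ IsVecStab G K) → Epi G H

def InvStmt : Prop :=
  ∀ (n : ℕ) (H K : Subgroup (Gl n)) (S : Set (Mat n)), Nice H → Clo K →
    lie H ≤ Submodule.span ℂ S → (∀ A ∈ S, ∀ c : ℂ, expU (c • A) ∈ K) → H ≤ K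

def InvsStmt : Prop :=
  ∀ (n : ℕ) (ι : Type) [Fintype ι] [DecidableEq ι] (H : Subgroup (Gl n))
    (ρ : Gl n → Matrix ι ι ℂ) (M : Submodule ℂ (ι → ℂ)) (S : Set (Mat n)), Nice H → RRep H ρ →
    (∀ A ∈ S, A ∈ lie H) → lie H ≤ Submodule.span ℂ S →
    (∀ A ∈ S, ∀ c : ℂ, ∀ v ∈ M, ρ (expU (c • A)) *ᵥ v ∈ M) → ∀ h ∈ H, ∀ v ∈ M, ρ h *ᵥ v ∈ M

def ChStmt : Prop :=
  ∀ (n : ℕ) (G : Subgroup (Gl n)),
    (∀ η A, Ch G η → (∀ c : ℂ, expU (c • A) ∈ G) → η (expU A) = Complex.exp (dR η 1 A)) ∧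
    ∀ V : Submodule ℂ (Mat n), (∀ A ∈ V, ∀ c : ℂ, expU (c • A) ∈ G) → Unip V ≤ G1 G

def KstStmt : Prop :=
  ∀ (n : ℕ) (G H K : Subgroup (Gl n)), Nice G → H ≤ G → Epi G H → Clo K → K ≤ G →
    (∀ g ∈ G, ∀ h ∈ H, g * h * g⁻¹ ∈ K) → G ≤ K

def StrStmt : Prop :=
  ∀ (n : ℕ) (G H : Subgroup (Gl n)), Nice G → Nice H → H ≤ G → Epi G H → Str G H

def CoadStmt : Prop :=
  ∀ (n r : ℕ) (G H : Subgroup (Gl n)) (e : Fin r → Mat n) (β : Fin r → Mat n →ₗ[ℂ] ℂ),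
    Nice H → H ≤ G → Str G H → Bas (gone G H) e β →
    RRep G (coad e β) ∧ NoSt G (coad e β) (ann β (lie H)) ∧
    (∀ h ∈ H, ∀ v ∈ ann β (lie H), coad e β h *ᵥ v ∈ ann β (lie H)) ∧
    ∀ (D : Mat n) (w : Fin r → ℂ), (∀ a, D * e a - e a * D = w a • e a) →
      coad e β (expU D) = diagonal fun a => Complex.exp (-w a)

def TensStmt : Prop :=
  ∀ (ι : Type) [Fintype ι] [DecidableEq ι] (k : ℕ) (W : Submodule ℂ (ι → ℂ)),
    (∀ (n : ℕ) (G : Subgroup (Gl n)) (ρ : Gl n → Matrix ι ι ℂ), RRep G ρ →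
      RRep G (fun g => tp (k + 1) (ρ g)) ∧
        (NoSt G ρ W → NoSt G (fun g => tp (k + 1) (ρ g)) (Wk W k))) ∧
    (∀ d : ι → ℂ, tp (k + 1) (diagonal d) = diagonal fun I => ∏ a, d (I a)) ∧
    (∀ y : Matrix ι ι ℂ, (∀ v ∈ W, y *ᵥ v ∈ W) → ∀ p ∈ Wk W k, tp (k + 1) y *ᵥ p ∈ Wk W k) ∧
    ∀ U : Submodule ℂ (ι → ℂ), U ≤ W → Module.finrank ℂ U = k + 1 →
      ∃ p ∈ Wk W k, p ≠ 0 ∧ ∀ (y : Matrix ι ι ℂ) (I : Fin (k + 1) → ι),
        (tp (k + 1) y *ᵥ p) I ≠ 0 →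
        Function.Injective I ∧ ∀ v ∈ U, (∀ a, (y *ᵥ v) (I a) = 0) → v = 0

def RelStmt : Prop :=
  ∀ (n d : ℕ) (G H : Subgroup (Gl n)) (ι : Fin d → Type) [∀ j, Fintype (ι j)]
    [∀ j, DecidableEq (ι j)] (ρ : ∀ j, Gl n → Matrix (ι j) (ι j) ℂ)
    (M : ∀ j, Submodule ℂ (ι j → ℂ)) (r : Fin d → ℕ) (S : ∀ j, Fin (r j) → ι j)
    (B : ∀ j, Matrix (ι j) (Fin (r j)) ℂ) (a : Fin d → ℕ) (η : Gl n → ℂ),
    H ≤ G → Epi G H → (∀ j, RRep G (ρ j)) → (∀ j, Plk (M j) (S j) (B j)) →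
    (∀ j, ∀ h ∈ H, ∀ v ∈ M j, ρ j h *ᵥ v ∈ M j) → (∀ j, M j ≠ ⊥) →
    (∀ j, NoSt G (ρ j) (M j)) → Ch G η →
    (∀ h ∈ H, ∏ j, pdet (S j) (B j) (ρ j h) ^ a j = η h) → a = 0

def CharStmt : Prop :=
  ∀ (n m : ℕ) (G H : Subgroup (Gl n)) (P : Fin m → Mat n) (f : Fin m → ℤ), H ≤ G → Nice H →
    Tor (lie H) P →
    (∀ z : Fin m → ℤ, DD P (fun i => (z i : ℂ)) ∈ lie H →
      (∀ c : ℂ, expU (c • DD P (fun i => (z i : ℂ))) ∈ G1 G) → ∑ i, f i * z i = 0) →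
    ∃ (N : ℕ) (η : Gl n → ℂ), 0 < N ∧ Ch G η ∧ ∀ u, DD P u ∈ lie H →
      η (expU (DD P u)) = Complex.exp (N * ∑ i, (f i : ℂ) * u i)

def ExpaStmt : Prop :=
  ∀ (n m d : ℕ) (G H : Subgroup (Gl n)) (P : Fin m → Mat n) (ι : Fin d → Type)
    [∀ k, Fintype (ι k)] [∀ k, DecidableEq (ι k)] (ρ : ∀ k, Gl n → Matrix (ι k) (ι k) ℂ)
    (W : ∀ k, Submodule ℂ (ι k → ℂ)) (ω : ∀ k, ι k → Fin m → ℤ),
    Nice H → H ≤ G → Epi G H → Tor (lie H) P → (∀ k, RRep G (ρ k)) →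
    (∀ k, ∀ h ∈ H, ∀ v ∈ W k, ρ k h *ᵥ v ∈ W k) → (∀ k, NoSt G (ρ k) (W k)) →
    (∀ k u, DD P u ∈ lie H →
      ρ k (expU (DD P u)) = diagonal fun i => Complex.exp (∑ a, (ω k i a : ℂ) * u a)) →
    ∃ z : Fin m → ℤ, DD P (fun i => (z i : ℂ)) ∈ lie H ∧
      (∀ c : ℂ, expU (c • DD P (fun i => (z i : ℂ))) ∈ G1 G) ∧
      ∀ k, ∀ p ∈ W k, p ≠ 0 → ∃ h ∈ Unip (lie H), ∃ i, 1 ≤ ∑ a, ω k i a * z a ∧
        (ρ k h⁻¹ *ᵥ p) i ≠ 0

def IrrStmt : Prop :=
  ∀ (n d : ℕ) (V : Submodule ℂ (Mat n)) (F : Fin d → Gl n → ℂ), (∀ j, F j ∈ Reg n) →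
    (∀ j, ∃ h ∈ Unip V, F j h ≠ 0) → ∃ h ∈ Unip V, ∀ j, F j h ≠ 0

def GenStmt : Prop :=
  ∀ (n m : ℕ) (G H : Subgroup (Gl n)) (P : Fin m → Mat n) (ι : Type) [Fintype ι] [DecidableEq ι]
    (ρ : Gl n → Matrix ι ι ℂ) (W : Submodule ℂ (ι → ℂ)) (ω : ι → Fin m → ℤ),
    Nice H → H ≤ G → Epi G H → Tor (lie H) P → RRep G ρ →
    (∀ h ∈ H, ∀ v ∈ W, ρ h *ᵥ v ∈ W) → NoSt G ρ W →
    (∀ u, DD P u ∈ lie H →
      ρ (expU (DD P u)) = diagonal fun i => Complex.exp (∑ a, (ω i a : ℂ) * u a)) →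
    ∃ z : Fin m → ℤ, DD P (fun i => (z i : ℂ)) ∈ lie H ∧
      (∀ c : ℂ, expU (c • DD P (fun i => (z i : ℂ))) ∈ G1 G) ∧
      ∀ (d : ℕ) (U : Fin d → Submodule ℂ (ι → ℂ)), (∀ j, U j ≤ W) →
        ∃ h ∈ Unip (lie H), ∀ j, U j ≠ ⊥ → ∃ S : Finset ι,
          S.card = Module.finrank ℂ (U j) ∧ 1 ≤ ∑ i ∈ S, ∑ a, ω i a * z a ∧
          ∀ v ∈ U j, (∀ i ∈ S, (ρ h⁻¹ *ᵥ v) i = 0) → v = 0

def DegStmt : Prop :=
  ∀ (ι : Type) [Fintype ι] [DecidableEq ι] (a : Matrix ι ι La), IsUnit a →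
    (∀ (F : Submodule La (ι → La)) (k : ℤ), FiniteDimensional ℂ (Gam F a k)) ∧
    (∀ F, Module.finrank ℂ (Low F a) = Module.finrank La F) ∧
    (∀ F, ∃ δ, Dg F a δ) ∧
    (∀ F δ, a = 1 → Dg F a δ → δ ≤ 0) ∧
    (∀ σ ∈ Gam ⊤ a 0, σ ≠ 0 → Module.finrank La (Submodule.span La {σ}) = 1 ∧
      ∀ δ, Dg (Submodule.span La {σ}) a δ → 0 ≤ δ) ∧
    ∀ F F' : Submodule La (ι → La),
      Module.finrank La ↥(F ⊔ F') + Module.finrank La ↥(F ⊓ F') =
        Module.finrank La F + Module.finrank La F' ∧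
      ∀ δ δ' ε ε', Dg F a δ → Dg F' a δ' → Dg (F ⊔ F') a ε → Dg (F ⊓ F') a ε' →
        δ + δ' ≤ ε + ε'

def StepStmt : Prop :=
  ∀ (ι : Type) [Fintype ι] [DecidableEq ι] (F : Submodule La (ι → La)) (a : Matrix ι ι La)
    (m : ι → ℤ) (R : Matrix ι ι ℂ) (S : Finset ι) (δ δ' : ℤ), IsUnit a → IsUnit R →
    S.card = Module.finrank ℂ (Low F a) →
    (∀ v ∈ Low F a, (∀ i ∈ S, (R *ᵥ v) i = 0) → v = 0) →
    Dg F a δ → Dg F (dT m * R.map (algebraMap ℂ La) * a) δ' → δ' ≤ δ - ∑ i ∈ S, m i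

def DriftStmt : Prop :=
  ∀ (ι : Type) [Fintype ι] [DecidableEq ι] (W : Submodule ℂ (ι → ℂ)) (m : ι → ℤ) (κ : Type)
    (R : κ → Matrix ι ι ℂ), (∀ k, IsUnit (R k)) → (∀ k, ∀ v ∈ W, R k *ᵥ v ∈ W) →
    (∀ τ : ℂˣ, ∀ v ∈ W, (fun i => (τ : ℂ) ^ m i * v i) ∈ W) →
    (∀ (d : ℕ) (U : Fin d → Submodule ℂ (ι → ℂ)), (∀ j, U j ≤ W) →
      ∃ k, ∀ j, U j ≠ ⊥ → ∃ S : Finset ι, S.card = Module.finrank ℂ (U j) ∧ 1 ≤ ∑ i ∈ S, m i ∧
        ∀ v ∈ U j, (∀ i ∈ S, (R k *ᵥ v) i = 0) → v = 0) →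
    ∃ N0 : ℕ, ∀ N, N0 ≤ N → ∃ l : List κ, l.length = N ∧
      InjW W 0 (l.map fun k => dT m * (R k).map (algebraMap ℂ La)).prod

def GenpStmt : Prop :=
  ∀ (κ ι : Type) [Fintype κ] [Fintype ι] [DecidableEq ι] (Φ : Matrix κ ι ℂ[X]),
    ((∀ σ : ι → ℂ[X], Φ *ᵥ σ = 0 → σ = 0) →
      ∃ (L : Matrix ι κ ℂ[X]) (δ : ℂ[X]), δ ≠ 0 ∧ L * Φ = δ • (1 : Matrix ι ι ℂ[X])) ∧
    ∀ (s : ℂ) (σ : ι → ℂ[X]), σ ≠ 0 → Φ *ᵥ σ = 0 →
      ∃ σ' : ι → ℂ[X], Φ *ᵥ σ' = 0 ∧ ∃ i, (σ' i).eval s ≠ 0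

def WinStmt : Prop :=
  ∀ (ι : Type) [Fintype ι] [DecidableEq ι] (W : Submodule ℂ (ι → ℂ)) (d : ℤ)
    (a a' : Matrix ι ι La[X]), a' * a = 1 →
    (∀ s, InjW W d (a.map (evs s)) → ∃ e, Pe W d e a) ∧
    ∀ e, Pe W d e a → {s | ¬ InjW W d (a.map (evs s))}.Finite

def TransStmt : Prop :=
  ∀ (n e : ℕ) (y γm b γp : GL (Fin n) La[X]), NegG γm → PosG γp →
    Cg (e + 1) y.val (γm * b * γp).val → Pe ⊤ (-1) e y.valᵀ → Pe ⊤ (-1) e b.valᵀ

def DualStmt : Prop :=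
  ∀ (ι : Type) [Fintype ι] [DecidableEq ι] (h W : Submodule ℂ (ι → ℂ)) (z z' : Matrix ι ι La),
    z * z' = 1 → (∀ ξ : ι → ℂ, (∀ v ∈ h, v ⬝ᵥ ξ = 0) → ξ ∈ W) → InjW W (-1) zᵀ →
    ∀ σ : ι → La, ∃ u η p : ι → La, (∀ i, Up (-1) (u i)) ∧ (∀ j, cf η j ∈ h) ∧
      (∀ i, Dn 0 (p i)) ∧ σ = u + η + z *ᵥ p

def FactStmt : Prop :=
  ∀ (n : ℕ) (b : GL (Fin n) La), b.val.det = 1 → Triv b → ∃ c0 ci, Fac b c0 ci

def InjjStmt : Prop :=
  ∀ (n : ℕ) (J : Submodule ℂ (Mat n)) (y : GL (Fin n) La) (w : Gl n), NilProd J →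
    (∀ τ, (w⁻¹ * gm (ev τ) y).val - 1 ∈ J) → Triv y

def SurjStmt : Prop :=
  ∀ (n r : ℕ) (G H : Subgroup (Gl n)) (e : Fin r → Mat n) (β : Fin r → Mat n →ₗ[ℂ] ℂ)
    (b : GL (Fin n) La), Nice H → H ≤ G → Str G H → Bas (gone G H) e β →
    (∀ τ, gm (ev τ) b ∈ H) → NegB e β (lie H) b → Srj (gone G H) (lie H) b

def ExpoStmt : Prop :=
  ∀ (n k : ℕ) (Γ : Subgroup (Gl n)) (V V' : Submodule ℂ (Mat n))
    (Z : Matrix (Fin n) (Fin n) La), 1 ≤ k → InL (nsp V) Z →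
    (∀ N ∈ V, IsNilpotent N → N ∈ V' ∧ ∀ c : ℂ, expU (c • N) ∈ Γ) →
    (∀ g ∈ Γ, ∀ A ∈ V', cj g A ∈ V') →
    ∃ E : GL (Fin n) La[X], Good Γ V' E ∧
      Cg (k + 1) E.val (1 + (X ^ k : La[X]) • Z.map cs) ∧
      ((∀ i j, Up 0 (Z i j)) → NegG E) ∧ ((∀ i j, Dn 0 (Z i j)) → PosG E)

def CurveStmt : Prop :=
  ∀ (n : ℕ) (G : Subgroup (Gl n)) (V : Submodule ℂ (Mat n)) (Θ : GL (Fin n) La)
    (l l' : List (Gl n)), Unip V ≤ G → (∀ g ∈ G, ∀ A ∈ nsp V, cj g A ∈ nsp V) →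
    (∀ τ, gm (ev τ) Θ ∈ G) → l.length = l'.length → (∀ g ∈ l, g ∈ Unip V) →
    (∀ g ∈ l', g ∈ Unip V) →
    ∃ y : GL (Fin n) La[X], Good G (nsp V) y ∧ gm (evs 0) y = bl Θ l ∧ gm (evs 1) y = bl Θ l'

def DefStmt : Prop :=
  ∀ (n : ℕ) (G Γ : Subgroup (Gl n)) (V h : Submodule ℂ (Mat n)) (y : GL (Fin n) La[X]),
    Γ ≤ G → (∀ g ∈ G, ∀ A ∈ nsp V, cj g A ∈ nsp V) →
    (∀ N ∈ V, IsNilpotent N → ∀ c : ℂ, expU (c • N) ∈ G) →
    (∀ N ∈ h, IsNilpotent N → N ∈ V ∧ ∀ c : ℂ, expU (c • N) ∈ Γ) →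
    Good G (nsp V) y → (∀ τ, gm (ev τ) (gm (evs 0) y) ∈ Γ) → Srj V h (gm (evs 0) y) →
    ∀ e : ℕ, ∃ γm b γp : GL (Fin n) La[X], NegG γm ∧ PosG γp ∧
      (∀ s τ, gm (ev2 s τ) b ∈ Γ) ∧ gm (evs 0) b = gm (evs 0) y ∧
      Cg (e + 1) y.val (γm * b * γp).val

def GvalStmt : Prop :=
  ∀ (n : ℕ) (G : Subgroup (Gl n)) (b : GL (Fin n) La) (c0 ci : GL (Fin n) ℂ[X]), Clo G →
    (∀ τ, gm (ev τ) b ∈ G1 G) → Fac b c0 ci → ∀ s, gm (evp s) ci ∈ G ∧ gm (evp s) c0 ∈ G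

def NondegStmt : Prop :=
  ∀ (n r : ℕ) (G : Subgroup (Gl n)) (V h k : Submodule ℂ (Mat n)) (e : Fin r → Mat n)
    (β : Fin r → Mat n →ₗ[ℂ] ℂ) (b : GL (Fin n) La) (c0 ci : GL (Fin n) ℂ[X]),
    h ≤ V → Bas V e β → (∀ g ∈ G, ∀ A ∈ V, cj g A ∈ V) → (∀ τ, gm (ev τ) b ∈ G) →
    Fac b c0 ci → NegB e β h b → (∀ s, ∀ A ∈ h, cj (gm (evp s) ci) A ∈ k) → V ≤ k

def ElimStmt : Prop :=
  ∀ (n : ℕ) (p q : Fin n → ℂ[X]) (w : Fin n → ℂ), w ≠ 0 → (∀ i, (q i).eval 0 = w i) →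
    (∀ τ : ℂ, (fun i => (p i).eval τ) ≠ 0) →
    (∀ τ : ℂ, τ ≠ 0 → ∃ c : ℂ, (fun i => (p i).eval τ) = c • fun i => (q i).eval τ⁻¹) →
    ∃ I : Ideal (MvPolynomial (Fin n) ℂ), I.IsPrime ∧ ∀ v : Fin n → ℂ,
      (∀ f ∈ I, MvPolynomial.eval v f = 0) ↔
        ∃ c : ℂ, v = c • w ∨ ∃ τ : ℂ, v = c • fun i => (p i).eval τ

def A1Stmt : Prop :=
  ∀ (n : ℕ) (G H : Subgroup (Gl n)), Nice H → H ≤ G → Epi G H → Str G H →
    ∃ (r : ℕ) (e : Fin r → Mat n) (β : Fin r → Mat n →ₗ[ℂ] ℂ) (m : ℕ) (P : Fin m → Mat n)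
      (z : Fin m → ℤ) (Θ : GL (Fin n) La) (N0 : ℕ), Bas (gone G H) e β ∧
      CompleteOrthogonalIdempotents P ∧ DD P (fun i => (z i : ℂ)) ∈ lie H ∧
      (∀ c : ℂ, expU (c • DD P (fun i => (z i : ℂ))) ∈ G1 G) ∧
      IsTh Θ (DD P fun i => (z i : ℂ)) ∧
      ∀ N, N0 ≤ N → ∃ l : List (Gl n), l.length = N ∧ (∀ h ∈ l, h ∈ Unip (lie H)) ∧
        NegB e β (lie H) (bl Θ l)

def A2Stmt : Prop :=
  ∀ (n : ℕ) (G H : Subgroup (Gl n)), Nice G → Nice H → H ≤ G → Epi G H → Str G H →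
    ∃ (r : ℕ) (e : Fin r → Mat n) (β : Fin r → Mat n →ₗ[ℂ] ℂ) (b : GL (Fin n) La),
      Bas (gone G H) e β ∧ (∀ τ, gm (ev τ) b ∈ H ⊓ G1 G) ∧ NegB e β (lie H) b ∧ Triv b

def CoreStmt : Prop :=
  ∀ (n : ℕ) (G H : Subgroup (Gl n)), Nice G → Nice H → H ≤ G → Epi G H →
    ∃ (b : GL (Fin n) La) (c0 ci : GL (Fin n) ℂ[X]), (∀ τ, gm (ev τ) b ∈ H) ∧ Fac b c0 ci ∧
      (∀ s, gm (evp s) ci ∈ G ∧ gm (evp s) c0 ∈ G) ∧
      ∀ K : Subgroup (Gl n), Clo K → H ≤ K → K ≤ G → (∀ s, gm (evp s) ci ∈ K) → G ≤ K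

def MainStmt : Prop :=
  ∀ (n : ℕ) (G H : Subgroup (GL (Fin n) ℂ)) (w : Fin n → ℂ),
    IsAlg G → IsConnected (G : Set (GL (Fin n) ℂ)) → w ≠ 0 →
    (∀ g, g ∈ H ↔ g ∈ G ∧ ∃ c : ℂ, g.val *ᵥ w = c • w) →
    IsConnected (H : Set (GL (Fin n) ℂ)) →
    (∀ K : Subgroup (GL (Fin n) ℂ), IsAlg K → H ≤ K → K ≤ G → K ≠ G → ¬ IsVecStab G K) →
    ∃ (I : Ideal (MvPolynomial (Fin n) ℂ)) (p : Fin n → ℂ[X]), I.IsPrime ∧
      (∀ v : Fin n → ℂ, (∀ f ∈ I, MvPolynomial.eval v f = 0) ↔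
        ∃ c : ℂ, v = c • w ∨ ∃ τ : ℂ, v = c • fun i => (p i).eval τ) ∧
      (∀ τ : ℂ, ∃ g ∈ G, (fun i => (p i).eval τ) = g.val *ᵥ w) ∧
      ∀ K : Subgroup (GL (Fin n) ℂ), IsAlg K → H ≤ K → K ≤ G → K ≠ G → ∀ g ∈ G,
        ¬ ∀ v : Fin n → ℂ, (∀ f ∈ I, MvPolynomial.eval v f = 0) →
          ∃ k ∈ K, ∃ c : ℂ, v = c • ((g * k).val *ᵥ w)

end Pool.Agent.MP_2a37ed_ag

end MrgPart1

-- ======== part 2: formerly Pool.Agent.MP_2a37ed_ag.BasicA
section MrgPart2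

namespace Pool.Agent.MP_2a37ed_ag

open Matrix Polynomial

variable {n : ℕ}

theorem expU_val (A : Mat n) : (expU A).val = NormedSpace.exp A := rfl

theorem expU_inv (A : Mat n) : (expU A)⁻¹ = expU (-A) := Units.ext rfl

@[simp] theorem expU_zero : expU (0 : Mat n) = 1 := Units.ext NormedSpace.exp_zero

theorem expU_add {A B : Mat n} (h : Commute A B) : expU (A + B) = expU A * expU B :=
  Units.ext (Matrix.exp_add_of_commute A B h)

theorem expU_add_smul (A : Mat n) (c c' : ℂ) :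
    expU ((c + c') • A) = expU (c • A) * expU (c' • A) := by
  rw [add_smul, expU_add (((Commute.refl A).smul_left c).smul_right c')]

theorem cj_apply (g : Gl n) (A : Mat n) : cj g A = g.val * A * (g⁻¹).val := rfl

@[simp] theorem cj_one (A : Mat n) : cj 1 A = A := by
  rw [cj_apply, inv_one, Units.val_one, one_mul, mul_one]

theorem cj_mul (g h : Gl n) (A : Mat n) : cj (g * h) A = cj g (cj h A) := by
  simp only [cj_apply, _root_.mul_inv_rev, Units.val_mul, mul_assoc]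

@[simp] theorem cj_inv_cj (g : Gl n) (A : Mat n) : cj g⁻¹ (cj g A) = A := by
  rw [← cj_mul, inv_mul_cancel, cj_one]

@[simp] theorem cj_cj_inv (g : Gl n) (A : Mat n) : cj g (cj g⁻¹ A) = A := by
  rw [← cj_mul, mul_inv_cancel, cj_one]

theorem cj_mul_mat (g : Gl n) (A B : Mat n) : cj g (A * B) = cj g A * cj g B := by
  simp only [cj_apply, mul_assoc, Units.inv_mul_cancel_left]

theorem cj_one_mat (g : Gl n) : cj g (1 : Mat n) = 1 := by
  rw [cj_apply, mul_one, Units.mul_inv]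

/-- Conjugation as an algebra homomorphism. -/
noncomputable def cjA (g : Gl n) : Mat n →ₐ[ℂ] Mat n :=
  AlgHom.ofLinearMap (cj g) (cj_one_mat g) (cj_mul_mat g)

theorem cjA_apply (g : Gl n) (A : Mat n) : cjA g A = cj g A := rfl

theorem cj_aeval (g : Gl n) (A : Mat n) (q : ℂ[X]) : cj g (aeval A q) = aeval (cj g A) q :=
  (aeval_algHom_apply (cjA g) A q).symm

theorem cj_nilp (g : Gl n) {A : Mat n} (h : IsNilpotent A) : IsNilpotent (cj g A) :=
  h.map (cjA g)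

theorem trace_cj (g : Gl n) (A : Mat n) : trace (cj g A) = trace A := by
  rw [cj_apply, trace_mul_comm, ← mul_assoc, Units.inv_mul, one_mul]

theorem expU_cj (g : Gl n) (A : Mat n) : expU (cj g A) = g * expU A * g⁻¹ :=
  Units.ext (Matrix.exp_units_conj g A)

theorem hasDerivAt_expU (A : Mat n) (c : ℂ) :
    HasDerivAt (fun c : ℂ => (expU (c • A)).val) ((expU (c • A)).val * A) c :=
  open scoped Matrix.Norms.Operator in hasDerivAt_exp_smul_const A c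

theorem hasDerivAt_expU_inv (A : Mat n) (c : ℂ) :
    HasDerivAt (fun c : ℂ => ((expU (c • A))⁻¹).val) (-(((expU (c • A))⁻¹).val * A)) c := by
  have := hasDerivAt_expU (-A) c
  simpa only [expU_inv, smul_neg, mul_neg] using this

theorem expU_commute (A : Mat n) (c : ℂ) : Commute A (expU (c • A)).val :=
  ((Commute.refl A).smul_right c).exp_right

theorem expU_inv_commute (A : Mat n) (c : ℂ) : Commute A ((expU (c • A))⁻¹).val := by
  rw [expU_inv, ← neg_smul]; exact expU_commute A _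

theorem hasDerivAt_mat_mul {f g : ℂ → Mat n} {f' g' : Mat n} {c : ℂ} (hf : HasDerivAt f f' c)
    (hg : HasDerivAt g g' c) : HasDerivAt (fun c => f c * g c) (f' * g c + f c * g') c :=
  open scoped Matrix.Norms.Operator in hf.fun_mul hg

theorem hasDerivAt_cj_expU (A B : Mat n) (c : ℂ) :
    HasDerivAt (fun c : ℂ => cj (expU (c • A)) B)
      (A * cj (expU (c • A)) B - cj (expU (c • A)) B * A) c := by
  have h := hasDerivAt_mat_mul (hasDerivAt_mat_mul (hasDerivAt_expU A c)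
    (open scoped Matrix.Norms.Operator in hasDerivAt_const c B)) (hasDerivAt_expU_inv A c)
  have e : ((expU (c • A)).val * A * B + (expU (c • A)).val * 0) * ((expU (c • A))⁻¹).val +
      (expU (c • A)).val * B * -(((expU (c • A))⁻¹).val * A) =
      A * cj (expU (c • A)) B - cj (expU (c • A)) B * A := by
    rw [cj_apply, ← (expU_commute A c).eq]
    simp only [mul_zero, add_zero, mul_neg, mul_assoc, sub_eq_add_neg]
  rw [e] at h
  exact h

theorem continuous_expU_smul (A : Mat n) : Continuous fun c : ℂ => expU (c • A) :=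
  Units.continuous_iff.2 ⟨continuous_iff_continuousAt.2 fun c =>
    (open scoped Matrix.Norms.Operator in (hasDerivAt_expU A c).continuousAt),
    continuous_iff_continuousAt.2 fun c =>
    (open scoped Matrix.Norms.Operator in (hasDerivAt_expU_inv A c).continuousAt)⟩

theorem hasDerivAt_dual (φ : Mat n →ₗ[ℂ] ℂ) {γ : ℂ → Mat n} {γ' : Mat n} {c : ℂ}
    (hγ : HasDerivAt γ γ' c) : HasDerivAt (fun c => φ (γ c)) (φ γ') c :=
  open scoped Matrix.Norms.Operator in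
    (LinearMap.toContinuousLinearMap φ).hasFDerivAt.comp_hasDerivAt c hγ

theorem mem_of_dual (V : Submodule ℂ (Mat n)) {A : Mat n}
    (h : ∀ φ : Mat n →ₗ[ℂ] ℂ, (∀ B ∈ V, φ B = 0) → φ A = 0) : A ∈ V :=
  (Subspace.forall_mem_dualAnnihilator_apply_eq_zero_iff V A).1 fun φ hφ =>
    h φ ((Submodule.mem_dualAnnihilator φ).1 hφ)

/-- The derivative of a curve in a subspace lies in the subspace. -/
theorem deriv_mem (V : Submodule ℂ (Mat n)) {γ : ℂ → Mat n} {γ' : Mat n} {c : ℂ}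
    (hγ : HasDerivAt γ γ' c) (h : ∀ c, γ c ∈ V) : γ' ∈ V :=
  mem_of_dual V fun φ hφ => by
    have h1 := hasDerivAt_dual φ hγ
    simp only [fun c => hφ _ (h c)] at h1
    exact h1.unique (hasDerivAt_const c 0)

/-- A curve whose derivative lies in a subspace moves inside the subspace. -/
theorem sub_mem_of_deriv (V : Submodule ℂ (Mat n)) {γ γ' : ℂ → Mat n}
    (hγ : ∀ c, HasDerivAt γ (γ' c) c) (h : ∀ c, γ' c ∈ V) (c c' : ℂ) : γ c - γ c' ∈ V :=
  mem_of_dual V fun φ hφ => by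
    rw [map_sub, sub_eq_zero]
    exact is_const_of_deriv_eq_zero (f := fun c => φ (γ c))
      (fun c => (hasDerivAt_dual φ (hγ c)).differentiableAt)
      (fun c => (hasDerivAt_dual φ (hγ c)).deriv.trans (hφ _ (h c))) c c'

theorem ad_of_cj (V : Submodule ℂ (Mat n)) {A B : Mat n}
    (h : ∀ c : ℂ, cj (expU (c • A)) B ∈ V) : A * B - B * A ∈ V := by
  simpa using deriv_mem V (hasDerivAt_cj_expU A B 0) h

theorem cj_sub_of_ad (V : Submodule ℂ (Mat n)) {A B : Mat n}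
    (h : ∀ c : ℂ, A * cj (expU (c • A)) B - cj (expU (c • A)) B * A ∈ V) :
    cj (expU A) B - B ∈ V := by
  simpa using sub_mem_of_deriv V (hasDerivAt_cj_expU A B) h 1 0

theorem mem_of_exp (V : Submodule ℂ (Mat n)) {A : Mat n}
    (h : ∀ c : ℂ, (expU (c • A)).val ∈ V) : A ∈ V := by
  simpa using deriv_mem V (hasDerivAt_expU A 0) h

theorem expU_mem_adjoin (A : Mat n) : (expU A).val ∈ Algebra.adjoin ℂ {A} :=
  NormedSpace.exp_mem (R := ℂ) (s := Algebra.adjoin ℂ {A})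
    (Submodule.closed_of_finiteDimensional (Subalgebra.toSubmodule (Algebra.adjoin ℂ {A})))
    (Algebra.self_mem_adjoin_singleton ℂ A)

theorem expU_nilp {N : Mat n} (hN : IsNilpotent N) : (expU N).val = IsNilpotent.exp N := by
  obtain ⟨k, hk⟩ := hN
  rw [IsNilpotent.exp_eq_sum hk, expU_val, NormedSpace.exp_eq_tsum_rat]
  refine tsum_eq_sum fun i hi => ?_
  rw [pow_eq_zero_of_le (not_lt.1 fun h => hi (Finset.mem_range.2 h)) hk, smul_zero]

theorem cj_expU_eig {D A : Mat n} {c : ℂ} (h : D * A - A * D = c • A) :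
    cj (expU D) A = Complex.exp c • A := by
  have h3 : SemiconjBy A (c • (1 : Mat n) + D) D := by
    rw [SemiconjBy, mul_add, mul_smul_comm, mul_one, ← h, sub_add_cancel]
  have h4 : A * NormedSpace.exp (c • (1 : Mat n) + D) = NormedSpace.exp D * A :=
    open scoped Matrix.Norms.Operator in h3.exp_right
  have h5 : NormedSpace.exp (c • (1 : Mat n)) = Complex.exp c • (1 : Mat n) := by
    rw [← Algebra.algebraMap_eq_smul_one, ← Algebra.algebraMap_eq_smul_one, Complex.exp_eq_exp_ℂ]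
    exact (open scoped Matrix.Norms.Operator in
      NormedSpace.map_exp (algebraMap ℂ (Mat n)) (continuous_algebraMap _ _) c).symm
  rw [Matrix.exp_add_of_commute _ _ ((Commute.one_left D).smul_left c), h5] at h4
  rw [cj_apply, expU_val, ← h4, ← expU_val, mul_assoc, mul_assoc, Units.mul_inv, mul_one,
    mul_smul_comm, mul_one]

theorem nilp_of_eig {D A : Mat n} {c : ℂ} (hc : c ≠ 0) (h : D * A - A * D = c • A) :
    IsNilpotent A := by
  by_contra hA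
  have h1 : ∀ k : ℕ, D * A ^ k - A ^ k * D = ((k : ℂ) * c) • A ^ k := fun k => by
    induction k with
    | zero => simp
    | succ k ih =>
      have e : D * A ^ (k + 1) - A ^ (k + 1) * D =
          (D * A ^ k - A ^ k * D) * A + A ^ k * (D * A - A * D) := by
        rw [pow_succ]; noncomm_ring
      rw [e, ih, h, smul_mul_assoc, mul_smul_comm, ← pow_succ, ← add_smul]
      push_cast; ring_nf
  let f : Module.End ℂ (Mat n) := LinearMap.mulLeft ℂ D - LinearMap.mulRight ℂ D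
  refine Set.infinite_of_injective_forall_mem (f := fun k : ℕ => (k : ℂ) * c)
    (fun a b e => Nat.cast_injective (mul_right_cancel₀ hc e)) (fun k => ?_) f.finite_hasEigenvalue
  exact Module.End.hasEigenvalue_of_hasEigenvector
    ⟨Module.End.mem_eigenspace_iff.2 (h1 k), fun e => hA ⟨k, e⟩⟩

theorem trace_mul_nilp {A N : Mat n} (h : Commute A N) (hN : IsNilpotent N) :
    trace (A * N) = 0 :=
  (Matrix.isNilpotent_trace_of_isNilpotent (h.isNilpotent_mul_left hN)).eq_zero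

open scoped Matrix.Norms.Elementwise in
theorem liba_det {γ : ℂ → Mat n} {γ' : Mat n} (h0 : γ 0 = 1) (hγ : HasDerivAt γ γ' 0) :
    HasDerivAt (fun c => (γ c).det) (trace γ') 0 := by
  have hd : DifferentiableAt ℂ (fun x : Mat n => x.det) 1 := by
    simp only [det_apply']
    refine DifferentiableAt.fun_sum fun σ _ => (differentiableAt_const _).fun_mul
      (HasFDerivAt.finsetProd (g := fun i (x : Mat n) => x (σ i) i) fun i _ =>
        (LinearMap.toContinuousLinearMap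
          (Matrix.entryLinearMap ℂ ℂ (σ i) i)).hasFDerivAt).differentiableAt
  have key : ∀ {γ : ℂ → Mat n}, γ 0 = 1 → HasDerivAt γ γ' 0 →
      HasDerivAt (fun c => (γ c).det) (fderiv ℂ (fun x : Mat n => x.det) 1 γ') 0 :=
    fun h0 hγ => hd.hasFDerivAt.comp_hasDerivAt_of_eq 0 hγ h0.symm
  have h5 := ((hasDerivAt_id (0 : ℂ)).smul_const γ').const_add 1
  rw [one_smul] at h5
  have h1 := key (γ := fun c : ℂ => 1 + c • γ') (by simp) h5
  rw [funext fun c : ℂ => det_one_add_smul c γ'] at h1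
  have h2 := (((hasDerivAt_id (0 : ℂ)).const_mul (trace γ')).const_add 1).fun_add
    ((Polynomial.hasDerivAt (det (1 + (X : ℂ[X]) • γ'.map C)).divX.divX 0).fun_mul
      (hasDerivAt_pow 2 (0 : ℂ)))
  have h3 := h1.unique h2
  have h4 := key h0 hγ
  rw [h3] at h4
  simpa using h4

theorem hasDerivAt_det_one {γ : ℂ → Mat n} {γ' : Mat n} (h0 : γ 0 = 1) (hγ : HasDerivAt γ γ' 0) :
    HasDerivAt (fun c => (γ c).det) (trace γ') 0 := liba_det h0 hγ

theorem det_one_add_nilp {N : Mat n} (hN : IsNilpotent N) : (1 + N).det = 1 := by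
  obtain ⟨r, -, hr⟩ := Polynomial.isUnit_iff.1 (isUnit_charpolyRev_of_isNilpotent hN)
  have h0 := eval_charpolyRev (M := N)
  have h1 : eval (-1) N.charpolyRev = (1 + N).det := by
    rw [charpolyRev, ← coe_evalRingHom, RingHom.map_det]
    congr 1
    ext i j
    rcases eq_or_ne i j with hij | hij <;> simp [hij, one_apply]
  rw [← hr, eval_C] at h0 h1
  rw [← h1, h0]

theorem NilProd.nilp {V : Submodule ℂ (Mat n)} (h : NilProd V) {A : Mat n} (hA : A ∈ V) :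
    IsNilpotent A := by
  obtain ⟨K, hK⟩ := h
  refine ⟨K, ?_⟩
  rw [← List.prod_replicate]
  exact hK _ List.length_replicate fun x hx => List.eq_of_mem_replicate hx ▸ hA

section DD

variable {ι : Type} [Fintype ι] {P : ι → Mat n}

theorem DD_apply (P : ι → Mat n) (u : ι → ℂ) : DD P u = ∑ a, u a • P a := rfl

theorem DD_one (hP : CompleteOrthogonalIdempotents P) : DD P 1 = 1 := by
  simpa [DD_apply] using hP.complete

theorem P_mul_DD (hP : CompleteOrthogonalIdempotents P) (u : ι → ℂ) (i : ι) :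
    P i * DD P u = u i • P i := by
  classical
  simp [DD_apply, Finset.mul_sum, hP.mul_eq]

theorem DD_mul_P (hP : CompleteOrthogonalIdempotents P) (u : ι → ℂ) (i : ι) :
    DD P u * P i = u i • P i := by
  classical
  simp [DD_apply, Finset.sum_mul, hP.mul_eq]

theorem DD_mul (hP : CompleteOrthogonalIdempotents P) (u v : ι → ℂ) :
    DD P u * DD P v = DD P (u * v) := by
  rw [DD_apply P u, Finset.sum_mul, DD_apply P (u * v)]
  exact Finset.sum_congr rfl fun i _ => by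
    rw [smul_mul_assoc, P_mul_DD hP, smul_smul, Pi.mul_apply]

theorem DD_commute (hP : CompleteOrthogonalIdempotents P) (u v : ι → ℂ) :
    Commute (DD P u) (DD P v) := by
  rw [Commute, SemiconjBy, DD_mul hP, DD_mul hP, mul_comm]

theorem commute_DD {A : Mat n} (h : ∀ i, Commute A (P i)) (u : ι → ℂ) : Commute A (DD P u) :=
  Commute.sum_right _ _ _ fun i _ => (h i).smul_right _

/-- `DD P` as an algebra homomorphism. -/
noncomputable def DDA (hP : CompleteOrthogonalIdempotents P) : (ι → ℂ) →ₐ[ℂ] Mat n :=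
  AlgHom.ofLinearMap (DD P) (DD_one hP) fun u v => (DD_mul hP u v).symm

theorem DDA_apply (hP : CompleteOrthogonalIdempotents P) (u : ι → ℂ) : DDA hP u = DD P u := rfl

theorem aeval_DD (hP : CompleteOrthogonalIdempotents P) (u : ι → ℂ) (q : ℂ[X]) :
    aeval (DD P u) q = DD P (fun i => q.eval (u i)) := by
  rw [← DDA_apply hP, aeval_algHom_apply, DDA_apply]
  congr 1
  funext i
  rw [aeval_fn_apply, coe_aeval_eq_eval]

theorem expU_DD (hP : CompleteOrthogonalIdempotents P) (u : ι → ℂ) :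
    (expU (DD P u)).val = DD P (fun i => Complex.exp (u i)) := by
  have h : DDA hP (NormedSpace.exp u) = NormedSpace.exp (DDA hP u) :=
    open scoped Matrix.Norms.Operator in
      NormedSpace.map_exp (DDA hP) (DD P).continuous_of_finiteDimensional u
  rw [expU_val, ← DDA_apply hP, ← h, DDA_apply, Pi.exp_def, Complex.exp_eq_exp_ℂ]

theorem DD_inj (hP : CompleteOrthogonalIdempotents P) (hne : ∀ i, P i ≠ 0) {u v : ι → ℂ}
    (h : DD P u = DD P v) : u = v := by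
  funext i
  have := P_mul_DD hP u i
  rw [h, P_mul_DD hP] at this
  exact (smul_left_injective ℂ (hne i) this).symm

theorem DD_eq_zero {u : ι → ℂ} (h : ∀ i, P i ≠ 0 → u i = 0) : DD P u = 0 :=
  Finset.sum_eq_zero fun i _ => by
    by_cases hi : P i = 0
    · rw [hi, smul_zero]
    · rw [h i hi, zero_smul]

theorem DD_nilp (hP : CompleteOrthogonalIdempotents P) {u : ι → ℂ}
    (h : IsNilpotent (DD P u)) : DD P u = 0 := by
  obtain ⟨k, hk⟩ := h
  refine DD_eq_zero fun i hi => ?_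
  have h1 := P_mul_DD hP (u ^ k) i
  rw [← DDA_apply hP, map_pow, DDA_apply, hk, mul_zero] at h1
  exact eq_zero_of_pow_eq_zero (n := k) ((smul_eq_zero.1 h1.symm).resolve_right hi)

/-- The trace of an idempotent is a natural number, positive if it is nonzero. -/
theorem trace_idem {E : Mat n} (hE : E * E = E) :
    ∃ k : ℕ, trace E = k ∧ (E ≠ 0 → 0 < k) := by
  have h1 : IsIdempotentElem (Matrix.toLin' E) := by
    rw [IsIdempotentElem, Module.End.mul_eq_comp, ← Matrix.toLin'_mul, hE]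
  have h2 := (LinearMap.IsIdempotentElem.isProj_range _ h1).trace
  rw [Matrix.trace_toLin'_eq] at h2
  refine ⟨_, h2, fun h0 => Nat.pos_of_ne_zero fun e => h0 ?_⟩
  exact (Matrix.toLin'.map_eq_zero_iff).1
    (LinearMap.range_eq_bot.1 (Submodule.finrank_eq_zero.1 e))

theorem DD_eq_zero_of_trace (hP : CompleteOrthogonalIdempotents P) {u : ι → ℂ}
    (h : trace (DD P (fun i => starRingEnd ℂ (u i)) * DD P u) = 0) : DD P u = 0 := by
  choose k k1 k2 using fun i => trace_idem (hP.idem i).eq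
  have h1 : ∑ i, Complex.normSq (u i) * (k i : ℝ) = 0 := by
    rw [DD_mul hP, DD_apply, trace_sum] at h
    rw [← Complex.ofReal_eq_zero, ← h]
    push_cast
    exact Finset.sum_congr rfl fun i _ => by
      rw [trace_smul, k1, Pi.mul_apply, Complex.normSq_eq_conj_mul_self, smul_eq_mul]
  have h2 := (Finset.sum_eq_zero_iff_of_nonneg fun i _ =>
    mul_nonneg (Complex.normSq_nonneg (u i)) (Nat.cast_nonneg (k i))).1 h1
  refine DD_eq_zero fun i hi => Complex.normSq_eq_zero.1 ?_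
  exact (mul_eq_zero.1 (h2 i (Finset.mem_univ i))).resolve_right
    (Nat.cast_ne_zero.2 (k2 i hi).ne')

end DD

end Pool.Agent.MP_2a37ed_ag

end MrgPart2

-- ======== part 3: formerly Pool.Agent.MP_2a37ed_ag.BasicR
section MrgPart3

namespace Pool.Agent.MP_2a37ed_ag

open Matrix Polynomial

variable {n : ℕ}

theorem reg_entry (i j : Fin n) : (fun g : Gl n => g.val i j) ∈ Reg n :=
  Algebra.subset_adjoin ⟨i, j, Or.inl rfl⟩

theorem reg_inv_entry (i j : Fin n) : (fun g : Gl n => (g⁻¹).val i j) ∈ Reg n :=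
  Algebra.subset_adjoin ⟨i, j, Or.inr rfl⟩

theorem reg_const (c : ℂ) : (fun _ : Gl n => c) ∈ Reg n := (Reg n).algebraMap_mem c

theorem reg_add {F F' : Gl n → ℂ} (h : F ∈ Reg n) (h' : F' ∈ Reg n) :
    (fun g => F g + F' g) ∈ Reg n := (Reg n).add_mem h h'

theorem reg_sub {F F' : Gl n → ℂ} (h : F ∈ Reg n) (h' : F' ∈ Reg n) :
    (fun g => F g - F' g) ∈ Reg n := (Reg n).sub_mem h h'

theorem reg_mul {F F' : Gl n → ℂ} (h : F ∈ Reg n) (h' : F' ∈ Reg n) :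
    (fun g => F g * F' g) ∈ Reg n := (Reg n).mul_mem h h'

theorem reg_pow {F : Gl n → ℂ} (h : F ∈ Reg n) (k : ℕ) : (fun g => F g ^ k) ∈ Reg n :=
  (Reg n).pow_mem h k

/-- Induction over regular functions. -/
theorem reg_induction {Q : (Gl n → ℂ) → Prop} (h1 : ∀ i j, Q fun g => g.val i j)
    (h2 : ∀ i j, Q fun g => (g⁻¹).val i j) (hc : ∀ c, Q fun _ => c)
    (ha : ∀ F F', F ∈ Reg n → F' ∈ Reg n → Q F → Q F' → Q fun g => F g + F' g)
    (hm : ∀ F F', F ∈ Reg n → F' ∈ Reg n → Q F → Q F' → Q fun g => F g * F' g)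
    {F : Gl n → ℂ} (hF : F ∈ Reg n) : Q F := by
  induction hF using Algebra.adjoin_induction with
  | mem x hx =>
    obtain ⟨i, j, rfl | rfl⟩ := hx
    exacts [h1 i j, h2 i j]
  | algebraMap r => exact hc r
  | add x y hx hy px py => exact ha x y hx hy px py
  | mul x y hx hy px py => exact hm x y hx hy px py

theorem reg_iff {F : Gl n → ℂ} : F ∈ Reg n ↔ IsRegular F := by
  constructor
  · intro hF
    refine reg_induction (Q := IsRegular) (fun i j => ⟨MvPolynomial.X (Sum.inl (i, j)), ?_⟩)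
      (fun i j => ⟨MvPolynomial.X (Sum.inr (i, j)), ?_⟩) (fun c => ⟨MvPolynomial.C c, ?_⟩)
      ?_ ?_ hF
    · intro g; simp
    · intro g; simp
    · intro g; simp
    · rintro F F' - - ⟨p, hp⟩ ⟨q, hq⟩
      exact ⟨p + q, fun g => by rw [map_add, ← hp, ← hq]⟩
    · rintro F F' - - ⟨p, hp⟩ ⟨q, hq⟩
      exact ⟨p * q, fun g => by rw [map_mul, ← hp, ← hq]⟩
  · rintro ⟨p, hp⟩
    obtain rfl : F = _ := funext hp
    clear hp
    induction p using MvPolynomial.induction_on with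
    | C a => simpa only [MvPolynomial.eval_C] using reg_const a
    | add p q hp hq => simpa only [map_add] using reg_add hp hq
    | mul_X p s hp =>
      rcases s with ⟨i, j⟩ | ⟨i, j⟩
      · simpa only [map_mul, MvPolynomial.eval_X, Sum.elim_inl] using reg_mul hp (reg_entry i j)
      · simpa only [map_mul, MvPolynomial.eval_X, Sum.elim_inr] using
          reg_mul hp (reg_inv_entry i j)

theorem clo_of_zero {G : Subgroup (Gl n)} (S : Set (Gl n → ℂ)) (hS : ∀ F ∈ S, F ∈ Reg n)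
    (h : ∀ g, g ∈ G ↔ ∀ F ∈ S, F g = 0) : Clo G :=
  fun g hg => (h g).2 fun F hF => hg F (hS F hF) fun x hx => (h x).1 hx F hF

theorem clo_iff {G : Subgroup (Gl n)} : Clo G ↔ IsAlg G := by
  constructor
  · intro hG
    exact ⟨{F | F ∈ Reg n ∧ ∀ x ∈ G, F x = 0}, fun F hF => reg_iff.1 hF.1, fun g =>
      ⟨fun hg F hF => hF.2 g hg, fun hg => hG g fun F h1 h2 => hg F ⟨h1, h2⟩⟩⟩
  · rintro ⟨S, hS, h⟩
    exact clo_of_zero S (fun F hF => reg_iff.2 (hS F hF)) h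

theorem clo_of_sub {G K : Subgroup (Gl n)} (hG : Clo G) (S : Set (Gl n → ℂ))
    (hS : ∀ F ∈ S, F ∈ Reg n) (h : ∀ g, g ∈ K ↔ g ∈ G ∧ ∀ F ∈ S, F g = 0) : Clo K :=
  fun g hg => (h g).2 ⟨hG g fun F hF h0 => hg F hF fun x hx => h0 x ((h x).1 hx).1,
    fun F hF => hg F (hS F hF) fun x hx => ((h x).1 hx).2 F hF⟩

theorem reg_sum {α : Type} (s : Finset α) {F : α → Gl n → ℂ} (h : ∀ a ∈ s, F a ∈ Reg n) :
    (fun g => ∑ a ∈ s, F a g) ∈ Reg n := by
  have e : (fun g => ∑ a ∈ s, F a g) = ∑ a ∈ s, F a := by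
    funext g; rw [Finset.sum_apply]
  rw [e]
  exact (Reg n).sum_mem h

theorem reg_prod {α : Type} (s : Finset α) {F : α → Gl n → ℂ} (h : ∀ a ∈ s, F a ∈ Reg n) :
    (fun g => ∏ a ∈ s, F a g) ∈ Reg n := by
  have e : (fun g => ∏ a ∈ s, F a g) = ∏ a ∈ s, F a := by
    funext g; rw [Finset.prod_apply]
  rw [e]
  exact (Reg n).prod_mem h

theorem reg_det {ι : Type} [Fintype ι] [DecidableEq ι] {M : Gl n → Matrix ι ι ℂ}
    (h : ∀ i j, (fun g => M g i j) ∈ Reg n) : (fun g => (M g).det) ∈ Reg n := by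
  simp only [Matrix.det_apply']
  exact reg_sum _ fun σ _ => reg_mul (reg_const _) (reg_prod _ fun i _ => h _ _)

theorem reg_mat_mul {ι κ μ : Type} [Fintype κ] {M : Gl n → Matrix ι κ ℂ}
    {M' : Gl n → Matrix κ μ ℂ} (h : ∀ i j, (fun g => M g i j) ∈ Reg n)
    (h' : ∀ i j, (fun g => M' g i j) ∈ Reg n) (i : ι) (j : μ) :
    (fun g => (M g * M' g) i j) ∈ Reg n := by
  simp only [Matrix.mul_apply]
  exact reg_sum _ fun a _ => reg_mul (h _ _) (h' _ _)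

theorem reg_mulVec {ι κ : Type} [Fintype κ] {M : Gl n → Matrix ι κ ℂ}
    (h : ∀ i j, (fun g => M g i j) ∈ Reg n) (v : κ → ℂ) (i : ι) :
    (fun g => (M g *ᵥ v) i) ∈ Reg n := by
  simp only [Matrix.mulVec, dotProduct]
  exact reg_sum _ fun a _ => reg_mul (h _ _) (reg_const _)

theorem reg_lin_vec {ι : Type} [Fintype ι] {v : Gl n → ι → ℂ}
    (h : ∀ i, (fun g => v g i) ∈ Reg n) (ξ : (ι → ℂ) →ₗ[ℂ] ℂ) : (fun g => ξ (v g)) ∈ Reg n := by
  classical
  have e : (fun g => ξ (v g)) = fun g => ∑ i, v g i * ξ fun j => if i = j then 1 else 0 :=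
    funext fun g => LinearMap.pi_apply_eq_sum_univ ξ (v g)
  rw [e]
  exact reg_sum _ fun a _ => reg_mul (h _) (reg_const _)

theorem reg_lin_mat {n' : ℕ} {M : Gl n → Mat n'} (h : ∀ i j, (fun g => M g i j) ∈ Reg n)
    (ξ : Mat n' →ₗ[ℂ] ℂ) : (fun g => ξ (M g)) ∈ Reg n := by
  have e : (fun g => ξ (M g)) = fun g => ∑ i, ∑ j, M g i j * ξ (Matrix.single i j 1) := by
    funext g
    conv_lhs => rw [Matrix.matrix_eq_sum_single (M g)]
    simp only [map_sum]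
    refine Finset.sum_congr rfl fun i _ => Finset.sum_congr rfl fun j _ => ?_
    rw [← smul_eq_mul, ← map_smul, Matrix.smul_single, smul_eq_mul, mul_one]
  rw [e]
  exact reg_sum _ fun i _ => reg_sum _ fun j _ => reg_mul (h _ _) (reg_const _)

theorem reg_comp {n' : ℕ} {F : Gl n' → ℂ} (hF : F ∈ Reg n') (Φ : Gl n → Gl n')
    (h : ∀ i j, (fun g => (Φ g).val i j) ∈ Reg n)
    (h' : ∀ i j, (fun g => ((Φ g)⁻¹).val i j) ∈ Reg n) : (fun g => F (Φ g)) ∈ Reg n :=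
  reg_induction (Q := fun F => (fun g => F (Φ g)) ∈ Reg n) h h' (fun c => reg_const c)
    (fun _ _ _ _ a b => reg_add a b) (fun _ _ _ _ a b => reg_mul a b) hF

theorem reg_mul_left {F : Gl n → ℂ} (hF : F ∈ Reg n) (x : Gl n) :
    (fun g => F (x * g)) ∈ Reg n := by
  refine reg_comp hF (fun g => x * g) (fun i j => ?_) fun i j => ?_
  · simp only [Units.val_mul]
    exact reg_mat_mul (M := fun _ => x.val) (fun _ _ => reg_const _) reg_entry i j
  · simp only [_root_.mul_inv_rev, Units.val_mul]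
    exact reg_mat_mul (M' := fun _ => (x⁻¹).val) reg_inv_entry (fun _ _ => reg_const _) i j

theorem reg_mul_right {F : Gl n → ℂ} (hF : F ∈ Reg n) (x : Gl n) :
    (fun g => F (g * x)) ∈ Reg n := by
  refine reg_comp hF (fun g => g * x) (fun i j => ?_) fun i j => ?_
  · simp only [Units.val_mul]
    exact reg_mat_mul (M' := fun _ => x.val) reg_entry (fun _ _ => reg_const _) i j
  · simp only [_root_.mul_inv_rev, Units.val_mul]
    exact reg_mat_mul (M := fun _ => (x⁻¹).val) (fun _ _ => reg_const _) reg_inv_entry i j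

theorem reg_inv {F : Gl n → ℂ} (hF : F ∈ Reg n) : (fun g => F g⁻¹) ∈ Reg n :=
  reg_comp hF (fun g => g⁻¹) reg_inv_entry fun i j => by
    simpa only [inv_inv] using reg_entry i j

theorem reg_cj_entry (A : Mat n) (i j : Fin n) :
    (fun g : Gl n => (g.val * A * (g⁻¹).val) i j) ∈ Reg n :=
  reg_mat_mul (reg_mat_mul (M' := fun _ => A) reg_entry fun _ _ => reg_const _) reg_inv_entry i j

theorem reg_conj {F : Gl n → ℂ} (hF : F ∈ Reg n) (x : Gl n) :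
    (fun g => F (g * x * g⁻¹)) ∈ Reg n := by
  refine reg_comp hF (fun g => g * x * g⁻¹) (fun i j => ?_) fun i j => ?_
  · simp only [Units.val_mul]
    exact reg_cj_entry _ i j
  · simp only [_root_.mul_inv_rev, inv_inv, ← mul_assoc, Units.val_mul]
    exact reg_cj_entry _ i j

theorem reg_cj (ξ : Mat n →ₗ[ℂ] ℂ) (A : Mat n) : (fun g => ξ (cj g A)) ∈ Reg n :=
  reg_lin_mat (M := fun g => cj g A) (reg_cj_entry A) ξ

theorem reg_coad {r : ℕ} (e : Fin r → Mat n) (β : Fin r → Mat n →ₗ[ℂ] ℂ) (a b : Fin r) :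
    (fun g => coad e β g a b) ∈ Reg n :=
  reg_inv (reg_cj (β b) (e a))

theorem reg_ev_sub {A : Type} [CommRing A] [Algebra ℂ A] (S : Subalgebra ℂ A) (x : GL (Fin n) A)
    (hx : ∀ i j, x.val i j ∈ S ∧ (x⁻¹).val i j ∈ S) {F : Gl n → ℂ} (hF : F ∈ Reg n) :
    ∃ c ∈ S, ∀ φ : A →ₐ[ℂ] ℂ, φ c = F (gm φ x) := by
  refine reg_induction (Q := fun F => ∃ c ∈ S, ∀ φ : A →ₐ[ℂ] ℂ, φ c = F (gm φ x))
    (fun i j => ⟨_, (hx i j).1, fun φ => rfl⟩) (fun i j => ⟨_, (hx i j).2, fun φ => ?_⟩)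
    (fun c => ⟨_, S.algebraMap_mem c, fun φ => φ.commutes c⟩) ?_ ?_ hF
  · show _ = ((gm φ x)⁻¹).val i j
    rw [← map_inv]; rfl
  · rintro F F' - - ⟨c, hc, h⟩ ⟨c', hc', h'⟩
    exact ⟨c + c', S.add_mem hc hc', fun φ => by rw [map_add, h, h']⟩
  · rintro F F' - - ⟨c, hc, h⟩ ⟨c', hc', h'⟩
    exact ⟨c * c', S.mul_mem hc hc', fun φ => by rw [map_mul, h, h']⟩

theorem reg_ev {A : Type} [CommRing A] [Algebra ℂ A] (x : GL (Fin n) A) {F : Gl n → ℂ}
    (hF : F ∈ Reg n) : ∃ c : A, ∀ φ : A →ₐ[ℂ] ℂ, φ c = F (gm φ x) := by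
  obtain ⟨c, -, hc⟩ := reg_ev_sub ⊤ x (fun _ _ => ⟨Algebra.mem_top, Algebra.mem_top⟩) hF
  exact ⟨c, hc⟩

theorem reg_ev_mat {A ι κ : Type} [CommRing A] [Algebra ℂ A] (x : GL (Fin n) A)
    {M : Gl n → Matrix ι κ ℂ} (hM : ∀ i j, (fun g => M g i j) ∈ Reg n) :
    ∃ a : Matrix ι κ A, ∀ φ : A →ₐ[ℂ] ℂ, a.map φ = M (gm φ x) := by
  choose c hc using fun i j => reg_ev x (hM i j)
  exact ⟨Matrix.of c, fun φ => Matrix.ext fun i j => hc i j φ⟩

theorem xt_val (F : Gl n → ℂ) (g : Gl n) : xt F g.val = F g := by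
  rw [xt, dif_pos g.isUnit, IsUnit.unit_of_val_units]

theorem continuous_reg {F : Gl n → ℂ} (hF : F ∈ Reg n) : Continuous F :=
  reg_induction (Q := fun F => Continuous F)
    (fun i j => (Units.continuous_val (M := Mat n)).matrix_elem i j)
    (fun i j => (Units.continuous_coe_inv (M := Mat n)).matrix_elem i j)
    (fun _ => continuous_const) (fun _ _ _ _ a b => a.add b) (fun _ _ _ _ a b => a.mul b) hF

section Calc

open scoped Matrix.Norms.Operator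

theorem hasDerivAt_lin {γ : ℂ → Mat n} {γ' : Mat n} {c : ℂ} (h : HasDerivAt γ γ' c)
    (ξ : Mat n →ₗ[ℂ] ℂ) : HasDerivAt (fun c => ξ (γ c)) (ξ γ') c :=
  (LinearMap.toContinuousLinearMap ξ).hasFDerivAt.comp_hasDerivAt c h

theorem differentiableAt_xt {F : Gl n → ℂ} (hF : F ∈ Reg n) (g : Gl n) :
    DifferentiableAt ℂ (xt F) g.val := by
  have hu : ∀ᶠ x in nhds g.val, IsUnit x := Units.nhds g
  have he : ∀ i j : Fin n, Differentiable ℂ fun x : Mat n => x i j := fun i j =>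
    (LinearMap.toContinuousLinearMap (Matrix.entryLinearMap ℂ ℂ i j)).differentiable
  refine reg_induction (Q := fun F => DifferentiableAt ℂ (xt F) g.val) (fun i j => ?_)
    (fun i j => ?_) (fun c => ?_) ?_ ?_ hF
  · refine ((he i j) g.val).congr_of_eventuallyEq (hu.mono fun x hx => ?_)
    simp only [xt, dif_pos hx, IsUnit.unit_spec]
  · refine (((he i j) _).comp g.val
      (differentiableAt_inverse (𝕜 := ℂ) g.isUnit)).congr_of_eventuallyEq
      (hu.mono fun x hx => ?_)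
    simp only [xt, dif_pos hx, Function.comp, Ring.inverse_of_isUnit hx]
  · refine (differentiableAt_const c).congr_of_eventuallyEq (hu.mono fun x hx => ?_)
    simp only [xt, dif_pos hx]
  · intro F F' _ _ h h'
    refine (h.fun_add h').congr_of_eventuallyEq (hu.mono fun x hx => ?_)
    simp only [xt, dif_pos hx]
  · intro F F' _ _ h h'
    refine (h.fun_mul h').congr_of_eventuallyEq (hu.mono fun x hx => ?_)
    simp only [xt, dif_pos hx]

theorem hasFDerivAt_xt {F : Gl n → ℂ} (hF : F ∈ Reg n) (g : Gl n) :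
    HasFDerivAt (xt F) (dR F g) g.val :=
  (differentiableAt_xt hF g).hasFDerivAt

theorem hasDerivAt_reg {F : Gl n → ℂ} (hF : F ∈ Reg n) {γ : ℂ → Gl n} {γ' : Mat n} {c : ℂ}
    (hγ : HasDerivAt (fun c => (γ c).val) γ' c) :
    HasDerivAt (fun c => F (γ c)) (dR F (γ c) γ') c := by
  have := (hasFDerivAt_xt hF (γ c)).comp_hasDerivAt c hγ
  simp only [Function.comp_def, xt_val] at this
  exact this

theorem hasDerivAt_mul_expU (g : Gl n) (A : Mat n) (c : ℂ) :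
    HasDerivAt (fun c : ℂ => (g * expU (c • A)).val) ((g * expU (c • A)).val * A) c := by
  simp only [Units.val_mul, mul_assoc]
  exact (hasDerivAt_expU A c).const_mul g.val

theorem hasDerivAt_mul_expU_inv (g : Gl n) (A : Mat n) :
    HasDerivAt (fun c : ℂ => ((g * expU (c • A))⁻¹).val) (-(A * (g⁻¹).val)) 0 := by
  have := (hasDerivAt_expU_inv A 0).mul_const (g⁻¹).val
  simp only [zero_smul, expU_zero, inv_one, Units.val_one, one_mul, neg_mul] at this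
  simp only [_root_.mul_inv_rev, Units.val_mul]
  exact this

end Calc

theorem hasDerivAt_reg_expU {F : Gl n → ℂ} (hF : F ∈ Reg n) (g : Gl n) (A : Mat n) (c : ℂ) :
    HasDerivAt (fun c : ℂ => F (g * expU (c • A)))
      (dR F (g * expU (c • A)) ((g * expU (c • A)).val * A)) c :=
  hasDerivAt_reg hF (hasDerivAt_mul_expU g A c)

theorem hasDerivAt_reg_zero {F : Gl n → ℂ} (hF : F ∈ Reg n) (g : Gl n) (A : Mat n) :
    HasDerivAt (fun c : ℂ => F (g * expU (c • A))) (dR F g (g.val * A)) 0 := by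
  simpa only [zero_smul, expU_zero, mul_one] using hasDerivAt_reg_expU hF g A 0

theorem reg_dR {F : Gl n → ℂ} (hF : F ∈ Reg n) (A : Mat n) :
    (fun g => dR F g (g.val * A)) ∈ Reg n := by
  have key : ∃ F1 ∈ Reg n, ∀ g, HasDerivAt (fun c : ℂ => F (g * expU (c • A))) (F1 g) 0 := by
    refine reg_induction (Q := fun F => ∃ F1 ∈ Reg n, ∀ g,
      HasDerivAt (fun c : ℂ => F (g * expU (c • A))) (F1 g) 0) (fun i j => ?_) (fun i j => ?_)
      (fun c => ⟨_, reg_const 0, fun g => hasDerivAt_const _ _⟩) ?_ ?_ hF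
    · refine ⟨_, reg_mat_mul (M' := fun _ => A) reg_entry (fun _ _ => reg_const _) i j,
        fun g => ?_⟩
      have := hasDerivAt_lin (hasDerivAt_mul_expU g A 0) (Matrix.entryLinearMap ℂ ℂ i j)
      simp only [zero_smul, expU_zero, mul_one] at this
      exact this
    · refine ⟨_, reg_mat_mul (M := fun _ => -A) (fun _ _ => reg_const _) reg_inv_entry i j,
        fun g => ?_⟩
      rw [neg_mul]
      exact hasDerivAt_lin (hasDerivAt_mul_expU_inv g A) (Matrix.entryLinearMap ℂ ℂ i j)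
    · rintro F F' - - ⟨F1, h1, h⟩ ⟨F2, h2, h'⟩
      exact ⟨_, reg_add h1 h2, fun g => (h g).fun_add (h' g)⟩
    · rintro F F' hF hF' ⟨F1, h1, h⟩ ⟨F2, h2, h'⟩
      refine ⟨_, reg_add (reg_mul h1 hF') (reg_mul hF h2), fun g => ?_⟩
      simpa only [zero_smul, expU_zero, mul_one] using (h g).fun_mul (h' g)
  obtain ⟨F1, h1, h⟩ := key
  have e : (fun g => dR F g (g.val * A)) = F1 :=
    funext fun g => (hasDerivAt_reg_zero hF g A).unique (h g)
  rw [e]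
  exact h1

theorem dR_mul_left {F : Gl n → ℂ} (hF : F ∈ Reg n) (x : Gl n) (A : Mat n) :
    dR (fun g => F (x * g)) 1 A = dR F x (x.val * A) := by
  have h := hasDerivAt_reg_zero (reg_mul_left hF x) 1 A
  simp only [one_mul, Units.val_one] at h
  exact h.unique (hasDerivAt_reg_zero hF x A)

theorem lie_mono {G H : Subgroup (Gl n)} (h : H ≤ G) : lie H ≤ lie G :=
  fun _ hA F hF h0 => hA F hF fun g hg => h0 g (h hg)

theorem mem_lie_of_exp {G : Subgroup (Gl n)} {A : Mat n} (h : ∀ c : ℂ, expU (c • A) ∈ G) :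
    A ∈ lie G := by
  intro F hF h0
  have h1 := hasDerivAt_reg_zero hF 1 A
  simp only [one_mul, Units.val_one, fun c => h0 _ (h c)] at h1
  exact h1.unique (hasDerivAt_const _ _)

theorem Nice.cj_mem {G : Subgroup (Gl n)} (hG : Nice G) {g : Gl n} (hg : g ∈ G) {A : Mat n}
    (hA : A ∈ lie G) : cj g A ∈ lie G :=
  (hG.mem _).2 fun c => by
    rw [← map_smul, expU_cj]
    exact G.mul_mem (G.mul_mem hg ((hG.mem A).1 hA c)) (G.inv_mem hg)

theorem Nice.expU_mem {G : Subgroup (Gl n)} (hG : Nice G) {A : Mat n} (hA : A ∈ lie G) :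
    expU A ∈ G := by
  simpa only [one_smul] using (hG.mem A).1 hA 1

/-- Induction over a connected group. -/
theorem Nice.induction {G : Subgroup (Gl n)} (hG : Nice G) {Q : Gl n → Prop} (h1 : Q 1)
    (hs : ∀ g ∈ G, ∀ A ∈ lie G, Q g → Q (g * expU A)) : ∀ g ∈ G, Q g := by
  have hle : Subgroup.closure {g | ∃ A ∈ lie G, g = expU A} ≤ G :=
    (Subgroup.closure_le _).2 (by rintro _ ⟨A, hA, rfl⟩; exact hG.expU_mem hA)
  intro g hg
  refine Subgroup.closure_induction_right (p := fun g _ => Q g) h1 ?_ ?_ (hG.gen hg)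
  · rintro x hx _ ⟨A, hA, rfl⟩ h
    exact hs x (hle hx) A hA h
  · rintro x hx _ ⟨A, hA, rfl⟩ h
    rw [expU_inv]
    exact hs x (hle hx) _ ((lie G).neg_mem hA) h

theorem Nice.unip_le {G : Subgroup (Gl n)} (hG : Nice G) {V : Submodule ℂ (Mat n)}
    (hV : V ≤ lie G) : Unip V ≤ G :=
  (Subgroup.closure_le _).2 (by rintro _ ⟨A, hA, -, rfl⟩; exact hG.expU_mem (hV hA))

theorem unip_mono {V V' : Submodule ℂ (Mat n)} (h : V ≤ V') : Unip V ≤ Unip V' :=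
  Subgroup.closure_mono (by rintro _ ⟨A, hA, hN, rfl⟩; exact ⟨A, h hA, hN, rfl⟩)

theorem nsp_mono {V V' : Submodule ℂ (Mat n)} (h : V ≤ V') : nsp V ≤ nsp V' :=
  Submodule.span_mono fun _ hA => ⟨h hA.1, hA.2⟩

theorem nsp_le (V : Submodule ℂ (Mat n)) : nsp V ≤ V :=
  Submodule.span_le.2 fun _ hA => hA.1

theorem mem_nsp {V : Submodule ℂ (Mat n)} {N : Mat n} (h : N ∈ V) (hN : IsNilpotent N) :
    N ∈ nsp V :=
  Submodule.subset_span ⟨h, hN⟩

theorem expU_mem_unip {V : Submodule ℂ (Mat n)} {N : Mat n} (h : N ∈ V) (hN : IsNilpotent N)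
    (c : ℂ) : expU (c • N) ∈ Unip V :=
  Subgroup.subset_closure ⟨_, V.smul_mem c h, hN.smul c, rfl⟩

theorem cj_nsp {V : Submodule ℂ (Mat n)} {g : Gl n} (h : ∀ A ∈ V, cj g A ∈ V) :
    ∀ A ∈ nsp V, cj g A ∈ nsp V := by
  have : nsp V ≤ (nsp V).comap (cj g) :=
    Submodule.span_le.2 fun A hA => mem_nsp (h A hA.1) (cj_nilp g hA.2)
  exact fun A hA => this hA

theorem conj_unip {V : Submodule ℂ (Mat n)} {g : Gl n} (h : ∀ A ∈ V, cj g A ∈ V) :
    ∀ x ∈ Unip V, g * x * g⁻¹ ∈ Unip V := by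
  have : Unip V ≤ (Unip V).comap (MulAut.conj g).toMonoidHom := by
    refine (Subgroup.closure_le _).2 ?_
    rintro _ ⟨A, hA, hN, rfl⟩
    exact Subgroup.subset_closure ⟨cj g A, h A hA, cj_nilp g hN, (expU_cj g A).symm⟩
  exact fun x hx => this hx

theorem g1_le (G : Subgroup (Gl n)) : G1 G ≤ G := fun _ h => h.1

theorem ch_det (G : Subgroup (Gl n)) : Ch G fun g => g.val.det :=
  ⟨reg_det reg_entry, by simp, fun x _ y _ => by rw [Units.val_mul, Matrix.det_mul]⟩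

theorem Ch.mul_inv {G : Subgroup (Gl n)} {η : Gl n → ℂ} (h : Ch G η) {g : Gl n} (hg : g ∈ G) :
    η g * η g⁻¹ = 1 := by
  rw [← h.mul g hg _ (G.inv_mem hg), mul_inv_cancel, h.one]

theorem Ch.mono {G H : Subgroup (Gl n)} {η : Gl n → ℂ} (h : Ch G η) (hH : H ≤ G) : Ch H η :=
  ⟨h.reg, h.one, fun x hx y hy => h.mul x (hH hx) y (hH hy)⟩

theorem Ch.inv {G : Subgroup (Gl n)} {η : Gl n → ℂ} (h : Ch G η) : Ch G fun g => η g⁻¹ :=
  ⟨reg_inv h.reg, by rw [inv_one, h.one], fun x hx y hy => by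
    rw [_root_.mul_inv_rev, h.mul _ (G.inv_mem hy) _ (G.inv_mem hx), mul_comm]⟩

theorem Ch.mul' {G : Subgroup (Gl n)} {η η' : Gl n → ℂ} (h : Ch G η) (h' : Ch G η') :
    Ch G fun g => η g * η' g :=
  ⟨reg_mul h.reg h'.reg, by rw [h.one, h'.one, one_mul], fun x hx y hy => by
    rw [h.mul x hx y hy, h'.mul x hx y hy, mul_mul_mul_comm]⟩

theorem Ch.pow {G : Subgroup (Gl n)} {η : Gl n → ℂ} (h : Ch G η) (k : ℕ) :
    Ch G fun g => η g ^ k :=
  ⟨reg_pow h.reg k, by rw [h.one, one_pow], fun x hx y hy => by rw [h.mul x hx y hy, mul_pow]⟩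

theorem ch_prod {G : Subgroup (Gl n)} {α : Type} (s : Finset α) {η : α → Gl n → ℂ}
    (h : ∀ a ∈ s, Ch G (η a)) : Ch G fun g => ∏ a ∈ s, η a g :=
  ⟨reg_prod s fun a ha => (h a ha).reg, Finset.prod_eq_one fun a ha => (h a ha).one,
    fun x hx y hy => by
      rw [← Finset.prod_mul_distrib]
      exact Finset.prod_congr rfl fun a ha => (h a ha).mul x hx y hy⟩

section Rep

variable {ι : Type} [Fintype ι] [DecidableEq ι] {G : Subgroup (Gl n)} {ρ : Gl n → Matrix ι ι ℂ}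

theorem RRep.mul_inv (h : RRep G ρ) {g : Gl n} (hg : g ∈ G) : ρ g * ρ g⁻¹ = 1 := by
  rw [← h.mul g hg _ (G.inv_mem hg), mul_inv_cancel, h.one]

theorem RRep.inv_mul (h : RRep G ρ) {g : Gl n} (hg : g ∈ G) : ρ g⁻¹ * ρ g = 1 := by
  rw [← h.mul _ (G.inv_mem hg) g hg, inv_mul_cancel, h.one]

theorem RRep.isUnit (h : RRep G ρ) {g : Gl n} (hg : g ∈ G) : IsUnit (ρ g) :=
  ⟨⟨ρ g, ρ g⁻¹, h.mul_inv hg, h.inv_mul hg⟩, rfl⟩

theorem RRep.mono (h : RRep G ρ) {H : Subgroup (Gl n)} (hH : H ≤ G) : RRep H ρ :=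
  ⟨h.reg, h.one, fun x hx y hy => h.mul x (hH hx) y (hH hy)⟩

omit [DecidableEq ι] in
theorem NoSt.mono {W W' : Submodule ℂ (ι → ℂ)} (h : NoSt G ρ W) (hW : W' ≤ W) :
    NoSt G ρ W' :=
  fun p hp => h p fun g hg => hW (hp g hg)

end Rep

end Pool.Agent.MP_2a37ed_ag

end MrgPart3

-- ======== part 4: formerly Pool.Agent.MP_2a37ed_ag.Elim
section MrgPart4

namespace Pool.Agent.MP_2a37ed_ag

open Matrix Polynomial

noncomputable section

variable {n : ℕ}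

/-- The generic 2 by 2 minor of the pair (variable vector, curve). -/
def elimM (p : Fin n → ℂ[X]) (i j : Fin n) : (MvPolynomial (Fin n) ℂ)[X] :=
  C (MvPolynomial.X i) * (p j).map MvPolynomial.C - C (MvPolynomial.X j) * (p i).map MvPolynomial.C

/-- The parametrisation of the cone. -/
def elimPhi (p : Fin n → ℂ[X]) : MvPolynomial (Fin n) ℂ →+* ℂ[X][X] :=
  MvPolynomial.eval₂Hom ((C : ℂ[X] →+* ℂ[X][X]).comp C) (fun i => X * C (p i))

theorem elim_map_eval (v : Fin n → ℂ) (a : ℂ[X]) :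
    (a.map (MvPolynomial.C : ℂ →+* MvPolynomial (Fin n) ℂ)).map (MvPolynomial.eval v) = a := by
  rw [Polynomial.map_map]
  have : (MvPolynomial.eval v).comp (MvPolynomial.C : ℂ →+* MvPolynomial (Fin n) ℂ) =
      RingHom.id ℂ := by
    ext c; simp
  rw [this, Polynomial.map_id]

theorem elimM_map (p : Fin n → ℂ[X]) (v : Fin n → ℂ) (i j : Fin n) :
    (elimM p i j).map (MvPolynomial.eval v) = C (v i) * p j - C (v j) * p i := by
  simp [elimM, elim_map_eval]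

theorem elim_phi_map (p : Fin n → ℂ[X]) (a : ℂ[X]) :
    eval₂ (elimPhi p) (C X) (a.map MvPolynomial.C) = C a := by
  rw [eval₂_map]
  have h : (elimPhi p).comp MvPolynomial.C = (C : ℂ[X] →+* ℂ[X][X]).comp C := by
    ext c; simp [elimPhi]
  rw [h, ← Polynomial.hom_eval₂, eval₂_C_X]

theorem elimM_phi (p : Fin n → ℂ[X]) (i j : Fin n) :
    eval₂ (elimPhi p) (C X) (elimM p i j) = 0 := by
  unfold elimM
  rw [eval₂_sub, eval₂_mul, eval₂_mul, elim_phi_map, elim_phi_map, eval₂_C, eval₂_C]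
  simp only [elimPhi, MvPolynomial.coe_eval₂Hom, MvPolynomial.eval₂_X]
  ring

theorem elimM_deg (p : Fin n → ℂ[X]) (d : ℕ) (hd : ∀ i, (p i).natDegree ≤ d) (i j : Fin n) :
    (elimM p i j).natDegree ≤ d := by
  unfold elimM
  refine (natDegree_sub_le _ _).trans (max_le ?_ ?_) <;>
    exact (natDegree_C_mul_le _ _).trans (natDegree_map_le.trans (hd _))

theorem elim_ker (p : Fin n → ℂ[X]) (f : MvPolynomial (Fin n) ℂ) (hf : elimPhi p f = 0)
    (c τ : ℂ) : MvPolynomial.eval (c • fun i => (p i).eval τ) f = 0 := by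
  have h : ((evalRingHom τ).comp (evalRingHom (C c : ℂ[X]))).comp (elimPhi p) =
      MvPolynomial.eval (c • fun i => (p i).eval τ) := by
    apply MvPolynomial.ringHom_ext
    · intro r; simp [elimPhi]
    · intro i; simp [elimPhi]; ring
  rw [← h, RingHom.comp_apply, hf, map_zero]

theorem elim_inf (p q : Fin n → ℂ[X]) (hp : ∀ τ : ℂ, (fun i => (p i).eval τ) ≠ 0)
    (hq : ∀ τ : ℂ, τ ≠ 0 → ∃ c : ℂ, (fun i => (p i).eval τ) = c • fun i => (q i).eval τ⁻¹)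
    (f : MvPolynomial (Fin n) ℂ) (hf : elimPhi p f = 0) (c : ℂ) :
    MvPolynomial.eval (c • fun i => (q i).eval 0) f = 0 := by
  set F : ℂ[X] := MvPolynomial.eval₂Hom C (fun i => C c * q i) f with hF
  have hev : ∀ s : ℂ, F.eval s = MvPolynomial.eval (c • fun i => (q i).eval s) f := by
    intro s
    have h : (evalRingHom s).comp (MvPolynomial.eval₂Hom C (fun i => C c * q i)) =
        MvPolynomial.eval (c • fun i => (q i).eval s) := by
      apply MvPolynomial.ringHom_ext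
      · intro r; simp
      · intro i; simp
    rw [← h]; rfl
  have h0 : F = 0 := by
    apply Polynomial.eq_zero_of_infinite_isRoot
    refine Set.Infinite.mono (s := ({0} : Set ℂ)ᶜ) ?_ (Set.finite_singleton 0).infinite_compl
    intro s hs
    have hs' : s ≠ 0 := hs
    obtain ⟨c', hc'⟩ := hq s⁻¹ (inv_ne_zero hs')
    rw [inv_inv] at hc'
    have hc0 : c' ≠ 0 := by
      rintro rfl
      exact hp _ (by rw [hc', zero_smul])
    have : (c • fun i => (q i).eval s) = (c * c'⁻¹) • fun i => (p i).eval s⁻¹ := by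
      rw [hc', smul_smul, mul_assoc, inv_mul_cancel₀ hc0, mul_one]
    show F.eval s = 0
    rw [hev, this]
    exact elim_ker p f hf _ _
  rw [← hev, h0, eval_zero]

theorem elim_top (p q : Fin n → ℂ[X]) (d : ℕ) (hd : ∀ i, (p i).natDegree ≤ d)
    (hq : ∀ τ : ℂ, τ ≠ 0 → ∃ c : ℂ, (fun i => (p i).eval τ) = c • fun i => (q i).eval τ⁻¹)
    (i j : Fin n) : (p i).coeff d * (q j).eval 0 = (p j).coeff d * (q i).eval 0 := by
  set D := (q i).natDegree + (q j).natDegree with hD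
  have hi : (q i).natDegree ≤ D := Nat.le_add_right _ _
  have hj : (q j).natDegree ≤ D := Nat.le_add_left _ _
  have hr : ∀ (a : ℂ[X]), a.natDegree ≤ D → ∀ τ : ℂ, τ ≠ 0 →
      (reflect D a).eval τ = a.eval τ⁻¹ * τ ^ D := by
    intro a ha τ hτ
    let _ : Invertible τ⁻¹ := invertibleOfNonzero (inv_ne_zero hτ)
    have h := eval₂_reflect_mul_pow (RingHom.id ℂ) τ⁻¹ D a ha
    rw [invOf_eq_inv, inv_inv] at h
    simp only [eval₂_id] at h
    rw [← h, mul_assoc, ← mul_pow, inv_mul_cancel₀ hτ, one_pow, mul_one]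
  have h0 : p i * reflect D (q j) - p j * reflect D (q i) = 0 := by
    apply Polynomial.eq_zero_of_infinite_isRoot
    refine Set.Infinite.mono (s := ({0} : Set ℂ)ᶜ) ?_ (Set.finite_singleton 0).infinite_compl
    intro s hs
    have hs' : s ≠ 0 := hs
    obtain ⟨c, hc⟩ := hq s hs'
    have h1 := congrFun hc i
    have h2 := congrFun hc j
    simp only [Pi.smul_apply, smul_eq_mul] at h1 h2
    show eval s _ = 0
    rw [eval_sub, eval_mul, eval_mul, hr _ hi s hs', hr _ hj s hs', h1, h2]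
    ring
  have hc : ∀ (a : ℂ[X]), a.natDegree ≤ D → (reflect D a).natDegree ≤ D ∧
      (reflect D a).coeff D = a.eval 0 := by
    intro a ha
    refine ⟨natDegree_reflect_le.trans (max_le le_rfl ha), ?_⟩
    rw [coeff_reflect, revAt_le le_rfl, Nat.sub_self, coeff_zero_eq_eval_zero]
  have h1 := congrArg (fun a : ℂ[X] => a.coeff (d + D)) (sub_eq_zero.mp h0)
  rw [coeff_mul_add_eq_of_natDegree_le (hd i) (hc _ hj).1,
    coeff_mul_add_eq_of_natDegree_le (hd j) (hc _ hi).1, (hc _ hi).2, (hc _ hj).2] at h1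
  exact h1

theorem elim_one {ι : Type} [Fintype ι] (m : ι → ℂ[X]) (h : ∀ τ : ℂ, ∃ k, (m k).eval τ ≠ 0) :
    ∃ a : ι → ℂ[X], ∑ k, a k * m k = 1 := by
  have htop : Ideal.span (Set.range m) = ⊤ := by
    by_contra hne
    obtain ⟨g, hg⟩ := (IsPrincipalIdealRing.principal (Ideal.span (Set.range m))).principal
    have hdeg : g.degree ≠ 0 := by
      intro h0
      apply hne
      rw [hg]
      exact Ideal.span_singleton_eq_top.mpr (isUnit_iff_degree_eq_zero.mpr h0)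
    obtain ⟨τ, hτ⟩ := IsAlgClosed.exists_root g hdeg
    obtain ⟨k, hk⟩ := h τ
    have hm : m k ∈ Ideal.span (Set.range m) := Ideal.subset_span ⟨k, rfl⟩
    rw [hg] at hm
    obtain ⟨b, hb⟩ := Ideal.mem_span_singleton'.mp hm
    apply hk
    rw [← hb, eval_mul, hτ.eq_zero, mul_zero]
  have h1 : (1 : ℂ[X]) ∈ Ideal.span (Set.range m) := htop ▸ Submodule.mem_top
  exact Ideal.mem_span_range_iff_exists_fun.mp h1

theorem elim_par (v u : Fin n → ℂ) (hu : u ≠ 0) (h : ∀ i j, v i * u j = v j * u i) :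
    ∃ c : ℂ, v = c • u := by
  obtain ⟨j, hj⟩ := Function.ne_iff.mp hu
  have hj' : u j ≠ 0 := hj
  refine ⟨v j / u j, funext fun i => ?_⟩
  rw [Pi.smul_apply, smul_eq_mul, div_mul_eq_mul_div, eq_div_iff hj', h i j]

theorem elim_stmt : ElimStmt := by
  intro n p q w hw hqw hp hq
  have hw' : (fun i => (q i).eval 0) = w := funext hqw
  refine ⟨RingHom.ker (elimPhi p), RingHom.ker_isPrime _, fun v => ⟨fun hv => ?_, ?_⟩⟩
  · by_contra hne
    push Not at hne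
    obtain ⟨k0, hk0⟩ := Function.ne_iff.mp (hp 0)
    obtain ⟨i0, -, hi0⟩ := Finset.exists_max_image Finset.univ (fun i => (p i).degree)
      ⟨k0, Finset.mem_univ _⟩
    have hp0 : p i0 ≠ 0 := by
      intro h0
      have h1 := hi0 k0 (Finset.mem_univ _)
      rw [h0, degree_zero, le_bot_iff, degree_eq_bot] at h1
      exact hk0 (by simp [h1])
    set d := (p i0).natDegree with hdd
    have hd : ∀ i, (p i).natDegree ≤ d := fun i =>
      natDegree_le_natDegree (hi0 i (Finset.mem_univ _))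
    have htop : (fun i => (p i).coeff d) ≠ 0 :=
      Function.ne_iff.mpr ⟨i0, leadingCoeff_ne_zero.mpr hp0⟩
    obtain ⟨κ, hκ⟩ := elim_par (fun i => (p i).coeff d) w hw (fun i j => by
      rw [← hqw, ← hqw]; exact elim_top p q d hd hq i j)
    have hlead : ∃ i j, v i * (p j).coeff d ≠ v j * (p i).coeff d := by
      by_contra hall
      push Not at hall
      obtain ⟨c, hc⟩ := elim_par v _ htop hall
      exact (hne (c * κ)).1 (by rw [hc, hκ, smul_smul])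
    obtain ⟨i1, j1, hij⟩ := hlead
    obtain ⟨a, ha⟩ := elim_one (fun k : Fin n × Fin n => C (v k.1) * p k.2 - C (v k.2) * p k.1)
      (fun τ => by
        by_contra hall
        push Not at hall
        obtain ⟨c, hc⟩ := elim_par v _ (hp τ) (fun i j => by
          have := hall (i, j)
          simpa [sub_eq_zero] using this)
        exact (hne c).2 τ hc)
    set h : (MvPolynomial (Fin n) ℂ)[X] :=
      ∑ k : Fin n × Fin n, (a k).map MvPolynomial.C * elimM p k.1 k.2 with hh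
    have hh1 : h.map (MvPolynomial.eval v) = 1 := by
      rw [hh, Polynomial.map_sum, ← ha]
      refine Finset.sum_congr rfl fun k _ => ?_
      rw [Polynomial.map_mul, elim_map_eval, elimM_map]
    have hh0 : eval₂ (elimPhi p) (C X) h = 0 := by
      rw [hh, eval₂_finsetSum]
      refine Finset.sum_eq_zero fun k _ => ?_
      rw [eval₂_mul, elimM_phi, mul_zero]
    obtain ⟨A, B, -, -, hAB⟩ := exists_mul_add_mul_eq_C_resultant (elimM p i1 j1) h
      (elimM_deg p d hd i1 j1) (Nat.le_succ h.natDegree) (Or.inr (Nat.succ_ne_zero _))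
    have hI : elimPhi p (resultant (elimM p i1 j1) h d h.natDegree.succ) = 0 := by
      have h2 := congrArg (eval₂ (elimPhi p) (C X)) hAB
      rw [eval₂_add, eval₂_mul, eval₂_mul, elimM_phi, hh0, zero_mul, zero_mul, add_zero,
        eval₂_C] at h2
      exact h2.symm
    have h3 := hv _ hI
    rw [← resultant_map_map, hh1, resultant_one_right, elimM_map] at h3
    apply hij
    have h4 := pow_eq_zero_iff (Nat.succ_ne_zero _) |>.mp h3
    rw [coeff_sub, coeff_C_mul, coeff_C_mul, sub_eq_zero] at h4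
    exact h4
  · rintro ⟨c, hc | ⟨τ, hc⟩⟩ f hf
    · rw [hc, ← hw']; exact elim_inf p q hp hq f hf c
    · rw [hc]; exact elim_ker p f hf c τ

end

end Pool.Agent.MP_2a37ed_ag

end MrgPart4

-- marker of a merged file
example : 731051 + 291896 = 731051 + 291896 := rfl
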