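import Mathlib.Algebra.AffineMonoid.Basic
import Mathlib.Algebra.AffineMonoid.UniqueSums
import Mathlib.Tactic.Monotonicity.Lemmas
import Mathlib.Data.Int.Star
import Mathlib.Algebra.Order.Ring.Star
import Mathlib.Algebra.Module.StablyFree.Basic
import Mathlib.NumberTheory.Cyclotomic.Basic
import Mathlib.Data.Rat.Star
import Mathlib.RingTheory.RegularLocalRing.Defs
import Pool.Agent.MP_2a37ed_ag.Elim

-- ======== part 0: formerly Pool.Agent.MP_2a37ed_ag.BasicL1
section MrgPart0

namespace Pool.Agent.MP_2a37ed_ag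

open Matrix Polynomial

variable {n : ℕ}

section Ev

@[simp] theorem ev_T (τ : ℂˣ) (k : ℤ) : ev τ (LaurentPolynomial.T k) = (τ : ℂ) ^ k := by
  change LaurentPolynomial.eval₂ (RingHom.id ℂ) τ (LaurentPolynomial.T k) = _
  rw [LaurentPolynomial.eval₂_T, Units.val_zpow_eq_zpow_val]

@[simp] theorem ev_C (τ : ℂˣ) (c : ℂ) : ev τ (LaurentPolynomial.C c) = c :=
  LaurentPolynomial.eval₂_C (RingHom.id ℂ) τ c

theorem ev_toLaurent (τ : ℂˣ) (p : ℂ[X]) : ev τ (toLaurent p) = p.eval (τ : ℂ) := by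
  change LaurentPolynomial.eval₂ (RingHom.id ℂ) τ (toLaurent p) = _
  rw [LaurentPolynomial.eval₂_toLaurent, Polynomial.eval₂_id]

theorem ev_invert (τ : ℂˣ) (f : La) : ev τ (LaurentPolynomial.invert f) = ev τ⁻¹ f := by
  induction f using LaurentPolynomial.induction_on' with
  | add p q hp hq => rw [map_add, map_add, map_add, hp, hq]
  | C_mul_T k a =>
    rw [map_mul, LaurentPolynomial.invert_C, LaurentPolynomial.invert_T, map_mul, map_mul, ev_C,
      ev_C, ev_T, ev_T, Units.val_inv_eq_inv_val, _root_.zpow_neg, _root_.inv_zpow]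

theorem la_ext {f g : La} (h : ∀ j, f.coeff j = g.coeff j) : f = g := LaurentPolynomial.ext h

theorem coeff_T (k j : ℤ) : (LaurentPolynomial.T k : La).coeff j = if k = j then 1 else 0 :=
  LaurentPolynomial.T_apply j k

theorem coeff_sum {α : Type} (s : Finset α) (f : α → La) (j : ℤ) :
    (∑ a ∈ s, f a).coeff j = ∑ a ∈ s, (f a).coeff j := by
  rw [AddMonoidAlgebra.coeff_sum, Finsupp.finsetSum_apply]

theorem libl_coeff_add (f g : La) (j : ℤ) : (f + g).coeff j = f.coeff j + g.coeff j := rfl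

theorem libl_coeff_sub (f g : La) (j : ℤ) : (f - g).coeff j = f.coeff j - g.coeff j := rfl

theorem libl_coeff_neg (f : La) (j : ℤ) : (-f).coeff j = -f.coeff j := rfl

theorem libl_coeff_smul (c : ℂ) (f : La) (j : ℤ) : (c • f).coeff j = c * f.coeff j := rfl

theorem libl_coeff_zero (j : ℤ) : (0 : La).coeff j = 0 := rfl

theorem la_eq_sum (f : La) {S : Finset ℤ} (h : ∀ j, j ∉ S → f.coeff j = 0) :
    f = ∑ j ∈ S, f.coeff j • LaurentPolynomial.T j := by
  refine la_ext fun k => ?_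
  rw [coeff_sum]
  simp only [libl_coeff_smul, coeff_T, mul_ite, mul_one, mul_zero, Finset.sum_ite_eq']
  split_ifs with hk
  · rfl
  · exact h k hk

theorem ev_eq_sum (τ : ℂˣ) (f : La) {S : Finset ℤ} (h : ∀ j, j ∉ S → f.coeff j = 0) :
    ev τ f = ∑ j ∈ S, f.coeff j * (τ : ℂ) ^ j := by
  conv_lhs => rw [la_eq_sum f h]
  rw [map_sum]
  refine Finset.sum_congr rfl fun j _ => ?_
  rw [map_smul, ev_T, smul_eq_mul]

theorem coeff_T_mul (k : ℤ) (f : La) (j : ℤ) :
    (LaurentPolynomial.T k * f).coeff j = f.coeff (j - k) := by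
  rw [LaurentPolynomial.T, AddMonoidAlgebra.coeff_single_mul_apply, one_mul]
  congr 1
  ring

theorem coeff_algebraMap_mul (c : ℂ) (f : La) (j : ℤ) :
    (algebraMap ℂ La c * f).coeff j = c * f.coeff j := by
  rw [← Algebra.smul_def, libl_coeff_smul]

theorem coeff_mul_eq (f g : La) {S : Finset ℤ} (h : ∀ i, i ∉ S → f.coeff i = 0) (j : ℤ) :
    (f * g).coeff j = ∑ i ∈ S, f.coeff i * g.coeff (j - i) := by
  conv_lhs => rw [la_eq_sum f h]
  rw [Finset.sum_mul, coeff_sum]
  refine Finset.sum_congr rfl fun i _ => ?_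
  rw [smul_mul_assoc, libl_coeff_smul, coeff_T_mul]

theorem poly_eq_zero_of_units {p : ℂ[X]} (h : ∀ s : ℂ, s ≠ 0 → p.eval s = 0) : p = 0 := by
  apply Polynomial.eq_zero_of_infinite_isRoot
  refine Set.Infinite.mono (s := ({0} : Set ℂ)ᶜ) (fun s hs => h s hs) ?_
  exact (Set.finite_singleton (0 : ℂ)).infinite_compl

theorem libl_ev_zero {f : La} (h : ∀ τ, ev τ f = 0) : f = 0 := by
  obtain ⟨N, p, hp⟩ := f.exists_T_pow
  have hp0 : p = 0 := by
    refine poly_eq_zero_of_units fun s hs => ?_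
    have := ev_toLaurent (Units.mk0 s hs) p
    rw [hp, map_mul, h, zero_mul] at this
    exact this.symm
  rw [hp0, map_zero] at hp
  exact (LaurentPolynomial.isUnit_T (N : ℤ)).mul_left_eq_zero.mp hp.symm

theorem ev_ext {f g : La} (h : ∀ τ, ev τ f = ev τ g) : f = g :=
  sub_eq_zero.mp (libl_ev_zero fun τ => by rw [map_sub, h, sub_self])

theorem evp_apply (s : ℂ) (p : ℂ[X]) : evp s p = p.eval s := by
  rw [evp, Polynomial.coe_aeval_eq_eval]

theorem evs_apply (s : ℂ) (f : La[X]) : evs s f = f.eval (algebraMap ℂ La s) := by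
  change Polynomial.aeval (R := La) (algebraMap ℂ La s) f = _
  rw [Polynomial.coe_aeval_eq_eval]

theorem evs_zero (f : La[X]) : evs 0 f = f.coeff 0 := by
  rw [evs_apply, map_zero, Polynomial.coeff_zero_eq_eval_zero]

theorem cs_apply (f : La) : cs f = C f := rfl

@[simp] theorem evs_cs (s : ℂ) (f : La) : evs s (cs f) = f := by
  rw [evs_apply, cs_apply, Polynomial.eval_C]

theorem ev2_apply (s : ℂ) (τ : ℂˣ) (f : La[X]) : ev2 s τ f = ev τ (evs s f) := rfl

theorem ev2_eq_eval (s : ℂ) (τ : ℂˣ) (f : La[X]) :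
    ev2 s τ f = (f.map (ev τ : La →+* ℂ)).eval s := by
  rw [ev2_apply, evs_apply, Polynomial.eval_map]
  have h1 := Polynomial.hom_eval₂ f (RingHom.id La) (ev τ : La →+* ℂ) (algebraMap ℂ La s)
  rw [Polynomial.eval₂_id, RingHom.comp_id] at h1
  have h2 : (ev τ : La →+* ℂ) (algebraMap ℂ La s) = s := (ev τ).commutes s
  rw [h2] at h1
  exact h1

theorem ev2_ext {f g : La[X]} (h : ∀ s τ, ev2 s τ f = ev2 s τ g) : f = g := by
  refine Polynomial.ext fun k => ev_ext fun τ => ?_
  have h1 : f.map (ev τ : La →+* ℂ) = g.map (ev τ : La →+* ℂ) :=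
    Polynomial.funext fun s => by rw [← ev2_eq_eval, ← ev2_eq_eval, h]
  have h2 := congrArg (fun p => p.coeff k) h1
  simpa only [Polynomial.coeff_map, RingHom.coe_coe] using h2

theorem mat_ev_ext {ι κ : Type} {x y : Matrix ι κ La} (h : ∀ τ, x.map (ev τ) = y.map (ev τ)) :
    x = y := by
  ext1 i j
  exact ev_ext fun τ => congrFun (congrFun (h τ) i) j

theorem mat_ev2_ext {ι κ : Type} {x y : Matrix ι κ La[X]}
    (h : ∀ s τ, x.map (ev2 s τ) = y.map (ev2 s τ)) : x = y := by
  ext1 i j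
  exact ev2_ext fun s τ => congrFun (congrFun (h s τ) i) j

theorem exists_exp (τ : ℂˣ) : ∃ c : ℂ, (τ : ℂ) = Complex.exp c :=
  ⟨Complex.log τ, (Complex.exp_log τ.ne_zero).symm⟩

end Ev

section Gm

variable {ι A B C' : Type} [Fintype ι] [DecidableEq ι] [CommRing A] [CommRing B] [CommRing C']
  [Algebra ℂ A] [Algebra ℂ B] [Algebra ℂ C']

theorem gm_val (φ : A →ₐ[ℂ] B) (x : GL ι A) : (gm φ x).val = x.val.map φ := rfl

theorem gm_inv_val (φ : A →ₐ[ℂ] B) (x : GL ι A) : ((gm φ x)⁻¹).val = (x⁻¹).val.map φ := by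
  rw [← map_inv, gm_val]

theorem gm_gm (φ : A →ₐ[ℂ] B) (ψ : B →ₐ[ℂ] C') (x : GL ι A) :
    gm ψ (gm φ x) = gm (ψ.comp φ) x := Units.ext rfl

theorem gm_ofId (φ : A →ₐ[ℂ] B) (g : GL ι ℂ) :
    gm φ (gm (Algebra.ofId ℂ A) g) = gm (Algebra.ofId ℂ B) g := by
  rw [gm_gm, Subsingleton.elim (φ.comp (Algebra.ofId ℂ A)) (Algebra.ofId ℂ B)]

theorem gm_ofId_self (φ : A →ₐ[ℂ] ℂ) (g : GL ι ℂ) : gm φ (gm (Algebra.ofId ℂ A) g) = g := by
  rw [gm_ofId]
  exact Units.ext rfl

theorem gm_ev2 (s : ℂ) (τ : ℂˣ) (x : GL ι La[X]) :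
    gm (ev2 s τ) x = gm (ev τ) (gm (evs s) x) := Units.ext rfl

theorem gm_evs_cs (s : ℂ) (x : GL ι La) : gm (evs s) (gm cs x) = x := by
  refine Units.ext ?_
  ext1 i j
  exact evs_cs s _

theorem gl_ev_ext {x y : GL ι La} (h : ∀ τ, gm (ev τ) x = gm (ev τ) y) : x = y :=
  Units.ext (mat_ev_ext fun τ => congrArg Units.val (h τ))

end Gm

theorem gm_ev_bl (τ : ℂˣ) (Θ : GL (Fin n) La) (l : List (Gl n)) :
    gm (ev τ) (bl Θ l) = (l.map fun h => h * gm (ev τ) Θ).prod := by
  rw [bl, map_list_prod, List.map_map]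
  congr 1
  refine List.map_congr_left fun h _ => ?_
  simp only [Function.comp_apply, map_mul, gm_ofId_self]

section UpDn

variable {d d' : ℤ} {f g : La}

theorem Up.mono (h : Up d f) (hd : d ≤ d') : Up d' f := fun j hj => h j (by omega)
theorem Dn.mono (h : Dn d f) (hd : d' ≤ d) : Dn d' f := fun j hj => h j (by omega)
theorem up_zero (d : ℤ) : Up d 0 := fun _ _ => rfl
theorem dn_zero (d : ℤ) : Dn d 0 := fun _ _ => rfl
theorem Up.add (h : Up d f) (h' : Up d g) : Up d (f + g) := fun j hj => by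
  rw [libl_coeff_add, h j hj, h' j hj, add_zero]
theorem Dn.add (h : Dn d f) (h' : Dn d g) : Dn d (f + g) := fun j hj => by
  rw [libl_coeff_add, h j hj, h' j hj, add_zero]
theorem Up.neg (h : Up d f) : Up d (-f) := fun j hj => by
  rw [libl_coeff_neg, h j hj, neg_zero]
theorem Dn.neg (h : Dn d f) : Dn d (-f) := fun j hj => by
  rw [libl_coeff_neg, h j hj, neg_zero]
theorem Up.sub (h : Up d f) (h' : Up d g) : Up d (f - g) := fun j hj => by
  rw [libl_coeff_sub, h j hj, h' j hj, sub_zero]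
theorem Dn.sub (h : Dn d f) (h' : Dn d g) : Dn d (f - g) := fun j hj => by
  rw [libl_coeff_sub, h j hj, h' j hj, sub_zero]
theorem Up.smul (c : ℂ) (h : Up d f) : Up d (c • f) := fun j hj => by
  rw [libl_coeff_smul, h j hj, mul_zero]
theorem Dn.smul (c : ℂ) (h : Dn d f) : Dn d (c • f) := fun j hj => by
  rw [libl_coeff_smul, h j hj, mul_zero]
theorem Up.mul (h : Up d f) (h' : Up d' g) : Up (d + d') (f * g) := fun j hj => by
  rw [coeff_mul_eq f g (S := f.coeff.support) fun i hi => Finsupp.notMem_support_iff.mp hi]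
  refine Finset.sum_eq_zero fun i _ => ?_
  by_cases hi : d < i
  · rw [h i hi, zero_mul]
  · rw [h' (j - i) (by omega), mul_zero]
theorem Dn.mul (h : Dn d f) (h' : Dn d' g) : Dn (d + d') (f * g) := fun j hj => by
  rw [coeff_mul_eq f g (S := f.coeff.support) fun i hi => Finsupp.notMem_support_iff.mp hi]
  refine Finset.sum_eq_zero fun i _ => ?_
  by_cases hi : i < d
  · rw [h i hi, zero_mul]
  · rw [h' (j - i) (by omega), mul_zero]
theorem up_sum {α : Type} (s : Finset α) {F : α → La} (h : ∀ a ∈ s, Up d (F a)) :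
    Up d (∑ a ∈ s, F a) := fun j hj => by
  rw [coeff_sum]
  exact Finset.sum_eq_zero fun a ha => h a ha j hj
theorem dn_sum {α : Type} (s : Finset α) {F : α → La} (h : ∀ a ∈ s, Dn d (F a)) :
    Dn d (∑ a ∈ s, F a) := fun j hj => by
  rw [coeff_sum]
  exact Finset.sum_eq_zero fun a ha => h a ha j hj
theorem up_T (k : ℤ) : Up k (LaurentPolynomial.T k) := fun j hj => by
  rw [coeff_T, if_neg (by omega)]
theorem dn_T (k : ℤ) : Dn k (LaurentPolynomial.T k) := fun j hj => by
  rw [coeff_T, if_neg (by omega)]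
theorem up_algebraMap (c : ℂ) : Up 0 (algebraMap ℂ La c) := by
  rw [Algebra.algebraMap_eq_smul_one, ← LaurentPolynomial.T_zero]
  exact (up_T 0).smul c
theorem dn_algebraMap (c : ℂ) : Dn 0 (algebraMap ℂ La c) := by
  rw [Algebra.algebraMap_eq_smul_one, ← LaurentPolynomial.T_zero]
  exact (dn_T 0).smul c
theorem eq_zero_of_up_dn (h : Up d f) (h' : Dn d' f) (hd : d < d') : f = 0 :=
  la_ext fun j => by
    by_cases hj : d < j
    · exact h j hj
    · exact h' j (by omega)

theorem libl_dn_toLaurent (p : ℂ[X]) : Dn 0 (toLaurent p) := by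
  induction p using Polynomial.induction_on' with
  | add p q hp hq => rw [map_add]; exact hp.add hq
  | monomial k a =>
    rw [Polynomial.toLaurent_C_mul_T, ← LaurentPolynomial.smul_eq_C_mul]
    exact ((dn_T k).mono (Int.natCast_nonneg k)).smul a

theorem dn_zero_iff : Dn 0 f ↔ ∃ p : ℂ[X], f = toLaurent p := by
  refine ⟨fun h => ?_, fun ⟨p, hp⟩ => hp ▸ libl_dn_toLaurent p⟩
  refine ⟨∑ j ∈ f.coeff.support, monomial j.toNat (f.coeff j), ?_⟩
  conv_lhs => rw [la_eq_sum f (S := f.coeff.support) fun i hi => Finsupp.notMem_support_iff.mp hi]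
  rw [map_sum]
  refine Finset.sum_congr rfl fun j hj => ?_
  have hj0 : 0 ≤ j := by
    by_contra hc
    exact Finsupp.mem_support_iff.mp hj (h j (by omega))
  rw [Polynomial.toLaurent_C_mul_T, ← LaurentPolynomial.smul_eq_C_mul, Int.toNat_of_nonneg hj0]

theorem up_zero_iff : Up 0 f ↔ ∃ p : ℂ[X], f = LaurentPolynomial.invert (toLaurent p) := by
  constructor
  · intro h
    have h1 : Dn 0 (LaurentPolynomial.invert f) := fun j hj => by
      rw [LaurentPolynomial.invert_apply]
      exact h (-j) (by omega)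
    obtain ⟨p, hp⟩ := dn_zero_iff.mp h1
    exact ⟨p, by rw [← hp, LaurentPolynomial.involutive_invert f]⟩
  · rintro ⟨p, rfl⟩ j hj
    rw [LaurentPolynomial.invert_apply]
    exact libl_dn_toLaurent p (-j) (by omega)

theorem Dn.coeff_mul (h : Dn d f) (h' : Dn d' g) :
    (f * g).coeff (d + d') = f.coeff d * g.coeff d' := by
  rw [coeff_mul_eq f g (S := insert d f.coeff.support) fun i hi =>
    Finsupp.notMem_support_iff.mp fun hc => hi (Finset.mem_insert_of_mem hc)]
  rw [Finset.sum_eq_single d]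
  · rw [add_sub_cancel_left]
  · intro i _ hi
    by_cases hi' : i < d
    · rw [h i hi', zero_mul]
    · rw [h' (d + d' - i) (by omega), mul_zero]
  · intro hc
    exact absurd (Finset.mem_insert_self _ _) hc

theorem Up.coeff_mul (h : Up d f) (h' : Up d' g) :
    (f * g).coeff (d + d') = f.coeff d * g.coeff d' := by
  rw [coeff_mul_eq f g (S := insert d f.coeff.support) fun i hi =>
    Finsupp.notMem_support_iff.mp fun hc => hi (Finset.mem_insert_of_mem hc)]
  rw [Finset.sum_eq_single d]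
  · rw [add_sub_cancel_left]
  · intro i _ hi
    by_cases hi' : d < i
    · rw [h i hi', zero_mul]
    · rw [h' (d + d' - i) (by omega), mul_zero]
  · intro hc
    exact absurd (Finset.mem_insert_self _ _) hc

theorem libl_bound (f : La) : ∃ M : ℕ, Up M f ∧ Dn (-M) f := by
  refine ⟨f.coeff.support.sup Int.natAbs, fun j hj => ?_, fun j hj => ?_⟩
  · by_contra hc
    have := Finset.le_sup (f := Int.natAbs) (Finsupp.mem_support_iff.mpr hc)
    omega
  · by_contra hc
    have := Finset.le_sup (f := Int.natAbs) (Finsupp.mem_support_iff.mpr hc)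
    omega

theorem exists_bound {α : Type} [Finite α] (F : α → La) :
    ∃ M : ℕ, ∀ a, Up M (F a) ∧ Dn (-M) (F a) := by
  choose m hm using fun a => libl_bound (F a)
  obtain ⟨M, hM⟩ := (Set.finite_range m).bddAbove
  refine ⟨M, fun a => ?_⟩
  have : m a ≤ M := hM (Set.mem_range_self a)
  exact ⟨(hm a).1.mono (by omega), (hm a).2.mono (by omega)⟩

theorem exists_boundC {α : Type} [Finite α] (F : α → La[X]) :
    ∃ M : ℕ, ∀ a, UpC M (F a) ∧ DnC (-M) (F a) := by
  obtain ⟨M, hM⟩ := exists_bound (α := Σ a : α, Fin ((F a).natDegree + 1))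
    fun x => (F x.1).coeff x.2
  refine ⟨M, fun a => ⟨fun k => ?_, fun k => ?_⟩⟩
  · by_cases hk : k < (F a).natDegree + 1
    · exact (hM ⟨a, ⟨k, hk⟩⟩).1
    · rw [Polynomial.coeff_eq_zero_of_natDegree_lt (by omega)]
      exact up_zero _
  · by_cases hk : k < (F a).natDegree + 1
    · exact (hM ⟨a, ⟨k, hk⟩⟩).2
    · rw [Polynomial.coeff_eq_zero_of_natDegree_lt (by omega)]
      exact dn_zero _

/-- Restriction of the coefficients to a set of exponents. -/
theorem exists_cut (Q : ℤ → Prop) [DecidablePred Q] (f : La) :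
    ∃ g : La, ∀ j, g.coeff j = if Q j then f.coeff j else 0 :=
  ⟨AddMonoidAlgebra.ofCoeff (f.coeff.filter Q), fun j => Finsupp.filter_apply Q f.coeff j⟩

theorem Up.mulVec {ι κ : Type} [Fintype κ] {a : Matrix ι κ La} {σ : κ → La}
    (h : ∀ i j, Up d (a i j)) (h' : ∀ j, Up d' (σ j)) (i : ι) : Up (d + d') ((a *ᵥ σ) i) :=
  up_sum Finset.univ fun j _ => (h i j).mul (h' j)

theorem Dn.mulVec {ι κ : Type} [Fintype κ] {a : Matrix ι κ La} {σ : κ → La}
    (h : ∀ i j, Dn d (a i j)) (h' : ∀ j, Dn d' (σ j)) (i : ι) : Dn (d + d') ((a *ᵥ σ) i) :=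
  dn_sum Finset.univ fun j _ => (h i j).mul (h' j)

theorem cf_const_mulVec {ι κ : Type} [Fintype κ] (R : Matrix ι κ ℂ) (σ : κ → La) (j : ℤ) :
    cf (R.map (algebraMap ℂ La) *ᵥ σ) j = R *ᵥ cf σ j := by
  funext i
  change (∑ k, algebraMap ℂ La (R i k) * σ k).coeff j = ∑ k, R i k * (σ k).coeff j
  rw [coeff_sum]
  exact Finset.sum_congr rfl fun k _ => coeff_algebraMap_mul _ _ _

theorem UpC.mul {f g : La[X]} (h : UpC d f) (h' : UpC d' g) : UpC (d + d') (f * g) := fun k => by
  rw [Polynomial.coeff_mul]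
  exact up_sum _ fun x _ => (h x.1).mul (h' x.2)
theorem DnC.mul {f g : La[X]} (h : DnC d f) (h' : DnC d' g) : DnC (d + d') (f * g) := fun k => by
  rw [Polynomial.coeff_mul]
  exact dn_sum _ fun x _ => (h x.1).mul (h' x.2)
theorem upC_sum {α : Type} (s : Finset α) {F : α → La[X]} (h : ∀ a ∈ s, UpC d (F a)) :
    UpC d (∑ a ∈ s, F a) := fun k => by
  rw [Polynomial.finsetSum_coeff]
  exact up_sum _ fun a ha => h a ha k
theorem dnC_sum {α : Type} (s : Finset α) {F : α → La[X]} (h : ∀ a ∈ s, DnC d (F a)) :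
    DnC d (∑ a ∈ s, F a) := fun k => by
  rw [Polynomial.finsetSum_coeff]
  exact dn_sum _ fun a ha => h a ha k
theorem UpC.evs {f : La[X]} (h : UpC d f) (s : ℂ) : Up d (evs s f) := by
  rw [evs_apply, Polynomial.eval_eq_sum_range]
  refine up_sum _ fun k _ => ?_
  rw [← map_pow, mul_comm, ← Algebra.smul_def]
  exact (h k).smul _
theorem DnC.evs {f : La[X]} (h : DnC d f) (s : ℂ) : Dn d (evs s f) := by
  rw [evs_apply, Polynomial.eval_eq_sum_range]
  refine dn_sum _ fun k _ => ?_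
  rw [← map_pow, mul_comm, ← Algebra.smul_def]
  exact (h k).smul _

end UpDn

end Pool.Agent.MP_2a37ed_ag

end MrgPart0

-- ======== part 1: formerly Pool.Agent.MP_2a37ed_ag.BasicL
section MrgPart1

namespace Pool.Agent.MP_2a37ed_ag

open Matrix Polynomial

variable {n : ℕ}

section UpDn

theorem libl_coeff_algebraMap (c : ℂ) (k : ℕ) :
    (algebraMap ℂ La[X] c).coeff k = if k = 0 then algebraMap ℂ La c else 0 := by
  rw [Polynomial.algebraMap_apply, Polynomial.coeff_C]

theorem libl_upC_C {d : ℤ} {f : La} (h : Up d f) : UpC d (C f) := fun k => by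
  rw [Polynomial.coeff_C]
  split_ifs
  · exact h
  · exact up_zero _

theorem libl_dnC_C {d : ℤ} {f : La} (h : Dn d f) : DnC d (C f) := fun k => by
  rw [Polynomial.coeff_C]
  split_ifs
  · exact h
  · exact dn_zero _

theorem libl_up_one : Up 0 (1 : La) := by
  rw [← LaurentPolynomial.T_zero]
  exact up_T 0

theorem libl_dn_one : Dn 0 (1 : La) := by
  rw [← LaurentPolynomial.T_zero]
  exact dn_T 0

theorem libl_upC_X : UpC 0 (X : La[X]) := fun k => by
  rw [Polynomial.coeff_X]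
  split_ifs
  · exact libl_up_one
  · exact up_zero _

theorem libl_dnC_X : DnC 0 (X : La[X]) := fun k => by
  rw [Polynomial.coeff_X]
  split_ifs
  · exact libl_dn_one
  · exact dn_zero _

theorem libl_mem_of_coeff (A : Subalgebra ℂ La[X]) (hX : (X : La[X]) ∈ A) {f : La[X]}
    (h : ∀ k, C (f.coeff k) ∈ A) : f ∈ A := by
  rw [f.as_sum_range_C_mul_X_pow]
  exact A.sum_mem fun k _ => A.mul_mem (h k) (A.pow_mem hX k)

theorem libl_C_mem (A : Subalgebra ℂ La[X]) (e : ℤ) (he : C (LaurentPolynomial.T e : La) ∈ A)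
    {g : La} (h : ∀ j, g.coeff j ≠ 0 → ∃ m : ℕ, j = m * e) : C g ∈ A := by
  rw [la_eq_sum g (S := g.coeff.support) fun i hi => Finsupp.notMem_support_iff.mp hi, map_sum]
  refine A.sum_mem fun j hj => ?_
  obtain ⟨m, hm⟩ := h j (Finsupp.mem_support_iff.mp hj)
  have h1 : (C (g.coeff j • (LaurentPolynomial.T j : La)) : La[X]) =
      g.coeff j • C (LaurentPolynomial.T e : La) ^ m := by
    rw [← map_pow, LaurentPolynomial.T_pow, ← hm, Polynomial.smul_C]
  rw [h1]
  exact A.smul_mem (A.pow_mem he m) _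

theorem mem_negA {f : La[X]} : f ∈ negA ↔ UpC 0 f := by
  constructor
  · intro h
    induction h using Algebra.adjoin_induction with
    | mem x hx =>
      rcases hx with rfl | rfl
      · exact libl_upC_X
      · exact libl_upC_C ((up_T (-1)).mono (by norm_num))
    | algebraMap r =>
      rw [Polynomial.algebraMap_apply]
      exact libl_upC_C (up_algebraMap r)
    | add x y _ _ hx hy =>
      intro k
      rw [Polynomial.coeff_add]
      exact (hx k).add (hy k)
    | mul x y _ _ hx hy => simpa using hx.mul hy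
  · intro h
    refine libl_mem_of_coeff negA (Algebra.subset_adjoin (Set.mem_insert _ _)) fun k => ?_
    refine libl_C_mem negA (-1)
      (Algebra.subset_adjoin (Set.mem_insert_of_mem _ (Set.mem_singleton _))) fun j hj => ?_
    have hj0 : j ≤ 0 := by
      by_contra hc
      exact hj (h k j (by omega))
    exact ⟨(-j).toNat, by omega⟩

theorem mem_posA {f : La[X]} : f ∈ posA ↔ DnC 0 f := by
  constructor
  · intro h
    induction h using Algebra.adjoin_induction with
    | mem x hx =>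
      rcases hx with rfl | rfl
      · exact libl_dnC_X
      · exact libl_dnC_C ((dn_T 1).mono (by norm_num))
    | algebraMap r =>
      rw [Polynomial.algebraMap_apply]
      exact libl_dnC_C (dn_algebraMap r)
    | add x y _ _ hx hy =>
      intro k
      rw [Polynomial.coeff_add]
      exact (hx k).add (hy k)
    | mul x y _ _ hx hy => simpa using hx.mul hy
  · intro h
    refine libl_mem_of_coeff posA (Algebra.subset_adjoin (Set.mem_insert _ _)) fun k => ?_
    refine libl_C_mem posA 1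
      (Algebra.subset_adjoin (Set.mem_insert_of_mem _ (Set.mem_singleton _))) fun j hj => ?_
    have hj0 : 0 ≤ j := by
      by_contra hc
      exact hj (h k j (by omega))
    exact ⟨j.toNat, by omega⟩

end UpDn

theorem libl_upC_one_apply (i j : Fin n) : UpC 0 ((1 : Matrix (Fin n) (Fin n) La[X]) i j) := by
  rw [← mem_negA, Matrix.one_apply]
  split_ifs
  · exact negA.one_mem
  · exact negA.zero_mem

theorem libl_dnC_one_apply (i j : Fin n) : DnC 0 ((1 : Matrix (Fin n) (Fin n) La[X]) i j) := by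
  rw [← mem_posA, Matrix.one_apply]
  split_ifs
  · exact posA.one_mem
  · exact posA.zero_mem

theorem libl_upC_mul {x y : Matrix (Fin n) (Fin n) La[X]} (hx : ∀ i j, UpC 0 (x i j))
    (hy : ∀ i j, UpC 0 (y i j)) (i j : Fin n) : UpC 0 ((x * y) i j) := by
  rw [Matrix.mul_apply]
  exact upC_sum _ fun k _ => by simpa using (hx i k).mul (hy k j)

theorem libl_dnC_mul {x y : Matrix (Fin n) (Fin n) La[X]} (hx : ∀ i j, DnC 0 (x i j))
    (hy : ∀ i j, DnC 0 (y i j)) (i j : Fin n) : DnC 0 ((x * y) i j) := by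
  rw [Matrix.mul_apply]
  exact dnC_sum _ fun k _ => by simpa using (hx i k).mul (hy k j)

theorem negG_one : NegG (1 : GL (Fin n) La[X]) := fun i j => by
  rw [inv_one]
  exact ⟨libl_upC_one_apply i j, libl_upC_one_apply i j⟩

theorem posG_one : PosG (1 : GL (Fin n) La[X]) := fun i j => by
  rw [inv_one]
  exact ⟨libl_dnC_one_apply i j, libl_dnC_one_apply i j⟩

theorem NegG.mul {x y : GL (Fin n) La[X]} (hx : NegG x) (hy : NegG y) : NegG (x * y) :=
  fun i j => by
  rw [_root_.mul_inv_rev, Units.val_mul, Units.val_mul]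
  exact ⟨libl_upC_mul (fun i j => (hx i j).1) (fun i j => (hy i j).1) i j,
    libl_upC_mul (fun i j => (hy i j).2) (fun i j => (hx i j).2) i j⟩

theorem PosG.mul {x y : GL (Fin n) La[X]} (hx : PosG x) (hy : PosG y) : PosG (x * y) :=
  fun i j => by
  rw [_root_.mul_inv_rev, Units.val_mul, Units.val_mul]
  exact ⟨libl_dnC_mul (fun i j => (hx i j).1) (fun i j => (hy i j).1) i j,
    libl_dnC_mul (fun i j => (hy i j).2) (fun i j => (hx i j).2) i j⟩

section Pt

theorem libl_dual_apply {ι : Type} [Fintype ι] [DecidableEq ι] (φ : (ι → ℂ) →ₗ[ℂ] ℂ)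
    (v : ι → ℂ) : φ v = ∑ i, φ (Pi.single i 1) * v i := by
  conv_lhs => rw [← Finset.univ_sum_single v]
  rw [map_sum]
  refine Finset.sum_congr rfl fun i _ => ?_
  rw [mul_comm, ← smul_eq_mul, ← map_smul, ← Pi.single_smul, smul_eq_mul, mul_one]

theorem cf_mem_iff {ι : Type} [Fintype ι] (W : Submodule ℂ (ι → ℂ)) (σ : ι → La) :
    (∀ j, cf σ j ∈ W) ↔ ∀ τ, (fun i => ev τ (σ i)) ∈ W := by
  classical
  constructor
  · intro h τ
    have h1 : (fun i => ev τ (σ i)) =
        ∑ j ∈ Finset.univ.biUnion fun i => (σ i).coeff.support, (τ : ℂ) ^ j • cf σ j := by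
      funext i
      rw [Finset.sum_apply, ev_eq_sum τ (σ i)
        (S := Finset.univ.biUnion fun i => (σ i).coeff.support) fun j hj =>
          Finsupp.notMem_support_iff.mp fun hc =>
            hj (Finset.mem_biUnion.mpr ⟨i, Finset.mem_univ i, hc⟩)]
      exact Finset.sum_congr rfl fun j _ => mul_comm _ _
    rw [h1]
    exact W.sum_mem fun j _ => W.smul_mem _ (h j)
  · intro h j
    rw [← Subspace.forall_mem_dualAnnihilator_apply_eq_zero_iff]
    intro φ hφ
    have h1 : (∑ i, φ (Pi.single i 1) • σ i) = 0 := by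
      refine libl_ev_zero fun τ => ?_
      rw [map_sum, ← (Submodule.mem_dualAnnihilator φ).mp hφ _ (h τ), libl_dual_apply φ]
      exact Finset.sum_congr rfl fun i _ => by rw [map_smul, smul_eq_mul]
    have h2 := congrArg (fun g : La => g.coeff j) h1
    simp only [coeff_sum, libl_coeff_smul, libl_coeff_zero] at h2
    rw [libl_dual_apply φ]
    exact h2

/-- Matrices as functions of pairs of indices. -/
def libl_unc (n : ℕ) : (Fin n × Fin n → ℂ) →ₗ[ℂ] Mat n where
  toFun v := Matrix.of fun i j => v (i, j)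
  map_add' _ _ := rfl
  map_smul' _ _ := rfl

theorem inL_iff (V : Submodule ℂ (Mat n)) (x : Matrix (Fin n) (Fin n) La) :
    InL V x ↔ ∀ τ, x.map (ev τ) ∈ V :=
  cf_mem_iff (V.comap (libl_unc n)) fun ij : Fin n × Fin n => x ij.1 ij.2

theorem libl_poly_mem {ι : Type} [Fintype ι] (W : Submodule ℂ (ι → ℂ)) (p : ι → ℂ[X])
    (h : ∀ s : ℂ, (fun i => (p i).eval s) ∈ W) (k : ℕ) : (fun i => (p i).coeff k) ∈ W := by
  classical
  rw [← Subspace.forall_mem_dualAnnihilator_apply_eq_zero_iff]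
  intro φ hφ
  have h1 : (∑ i, φ (Pi.single i 1) • p i) = 0 := by
    refine Polynomial.funext fun s => ?_
    rw [Polynomial.eval_finsetSum, Polynomial.eval_zero,
      ← (Submodule.mem_dualAnnihilator φ).mp hφ _ (h s), libl_dual_apply φ]
    exact Finset.sum_congr rfl fun i _ => by rw [Polynomial.eval_smul, smul_eq_mul]
  have h2 := congrArg (fun g : ℂ[X] => g.coeff k) h1
  simp only [Polynomial.finsetSum_coeff, Polynomial.coeff_smul, smul_eq_mul,
    Polynomial.coeff_zero] at h2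
  rw [libl_dual_apply φ]
  exact h2

theorem inL_coeff (V : Submodule ℂ (Mat n)) (x : Matrix (Fin n) (Fin n) La[X])
    (h : ∀ s τ, x.map (ev2 s τ) ∈ V) (k : ℕ) : InL V (x.map fun f => f.coeff k) := by
  rw [inL_iff]
  intro τ
  have h1 := libl_poly_mem (V.comap (libl_unc n))
    (fun ij : Fin n × Fin n => (x ij.1 ij.2).map (ev τ : La →+* ℂ)) (fun s => by
      have h2 : libl_unc n (fun ij : Fin n × Fin n =>
          ((x ij.1 ij.2).map (ev τ : La →+* ℂ)).eval s) = x.map (ev2 s τ) := by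
        ext1 i j
        exact (ev2_eq_eval s τ (x i j)).symm
      rw [Submodule.mem_comap, h2]
      exact h s τ) k
  have h3 : libl_unc n (fun ij : Fin n × Fin n =>
      ((x ij.1 ij.2).map (ev τ : La →+* ℂ)).coeff k) = (x.map fun f => f.coeff k).map (ev τ) := by
    ext1 i j
    exact Polynomial.coeff_map _ _
  rw [Submodule.mem_comap, h3] at h1
  exact h1

theorem mat_eq_sum (x : Matrix (Fin n) (Fin n) La) :
    ∃ S : Finset ℤ, (∀ j ∈ S, cfM x j ≠ 0) ∧
      x = ∑ j ∈ S, (LaurentPolynomial.T j : La) • (cfM x j).map (algebraMap ℂ La) := by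
  classical
  refine ⟨Finset.univ.biUnion fun ab : Fin n × Fin n => (x ab.1 ab.2).coeff.support,
    fun j hj => ?_, ?_⟩
  · obtain ⟨ab, -, hab⟩ := Finset.mem_biUnion.mp hj
    intro h0
    exact Finsupp.mem_support_iff.mp hab (congrFun (congrFun h0 ab.1) ab.2)
  · ext1 a b
    rw [Matrix.sum_apply]
    conv_lhs => rw [la_eq_sum (x a b)
      (S := Finset.univ.biUnion fun ab : Fin n × Fin n => (x ab.1 ab.2).coeff.support) fun j hj =>
        Finsupp.notMem_support_iff.mp fun hc =>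
          hj (Finset.mem_biUnion.mpr ⟨(a, b), Finset.mem_univ _, hc⟩)]
    refine Finset.sum_congr rfl fun j _ => ?_
    change _ = LaurentPolynomial.T j * algebraMap ℂ La ((x a b).coeff j)
    rw [mul_comm, ← Algebra.smul_def]

theorem InjW.mono {ι : Type} [Fintype ι] {W : Submodule ℂ (ι → ℂ)} {d d' : ℤ}
    {a : Matrix ι ι La} (h : InjW W d a) (hd : d' ≤ d) : InjW W d' a :=
  fun σ h1 h2 h3 => h σ h1 (fun i => (h2 i).mono hd) h3

theorem eval_const_of_ne {p : ℂ[X]} (h : ∀ s, p.eval s ≠ 0) (s : ℂ) : p.eval s = p.eval 0 := by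
  have h0 : p.degree = 0 := by
    by_contra hc
    obtain ⟨z, hz⟩ := IsAlgClosed.exists_root p hc
    exact h z hz
  rw [Polynomial.eq_C_of_degree_eq_zero h0, Polynomial.eval_C, Polynomial.eval_C]

theorem liou {p q : ℂ[X]} (h : ∀ τ : ℂ, τ ≠ 0 → q.eval τ = p.eval τ⁻¹) (s : ℂ) :
    p.eval s = p.eval 0 ∧ q.eval s = p.eval 0 := by
  have h1 : toLaurent q = LaurentPolynomial.invert (toLaurent p) := ev_ext fun τ => by
    rw [ev_invert, ev_toLaurent, ev_toLaurent, Units.val_inv_eq_inv_val, h τ τ.ne_zero]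
  have hd : Dn 0 (toLaurent q) := libl_dn_toLaurent q
  have hu : Up 0 (toLaurent q) := up_zero_iff.mpr ⟨p, h1⟩
  obtain ⟨c, hc⟩ : ∃ c : ℂ, toLaurent q = LaurentPolynomial.C c := by
    refine ⟨(toLaurent q).coeff 0, la_ext fun j => ?_⟩
    rw [LaurentPolynomial.C_apply]
    split_ifs with hj
    · rw [hj]
    · rcases lt_or_gt_of_ne hj with hj | hj
      · exact hd j hj
      · exact hu j hj
  have hq : q = C c := Polynomial.toLaurent_injective (by rw [hc, Polynomial.toLaurent_C])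
  have hp : p = C c := Polynomial.toLaurent_injective (by
    rw [← LaurentPolynomial.involutive_invert (toLaurent p), ← h1, hc, LaurentPolynomial.invert_C,
      Polynomial.toLaurent_C])
  rw [hq, hp]
  simp only [Polynomial.eval_C, and_self]

end Pt

section Cong

variable {ι : Type} [Fintype ι] [DecidableEq ι] {k : ℕ} {x y z x' y' : Matrix ι ι La[X]}

theorem Cg.refl (k : ℕ) (x : Matrix ι ι La[X]) : Cg k x x := fun i j => by
  rw [sub_self]
  exact dvd_zero _
theorem Cg.symm (h : Cg k x y) : Cg k y x := fun i j => dvd_sub_comm.mp (h i j)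
theorem Cg.trans (h : Cg k x y) (h' : Cg k y z) : Cg k x z := fun i j => by
  rw [← sub_add_sub_cancel (x i j) (y i j) (z i j)]
  exact dvd_add (h i j) (h' i j)
theorem Cg.add (h : Cg k x y) (h' : Cg k x' y') : Cg k (x + x') (y + y') := fun i j => by
  rw [Matrix.add_apply, Matrix.add_apply, add_sub_add_comm]
  exact dvd_add (h i j) (h' i j)
theorem Cg.mul (h : Cg k x y) (h' : Cg k x' y') : Cg k (x * x') (y * y') := fun i j => by
  rw [Matrix.mul_apply, Matrix.mul_apply, ← Finset.sum_sub_distrib]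
  refine Finset.dvd_sum fun l _ => ?_
  have h1 : x i l * x' l j - y i l * y' l j =
      (x i l - y i l) * x' l j + y i l * (x' l j - y' l j) := by ring
  rw [h1]
  exact dvd_add ((h i l).mul_right _) ((h' l j).mul_left _)
theorem Cg.mono {k' : ℕ} (h : Cg k x y) (hk : k' ≤ k) : Cg k' x y := fun i j =>
  (pow_dvd_pow X hk).trans (h i j)
theorem Cg.smul (h : Cg k x y) (j : ℕ) :
    Cg (j + k) ((X ^ j : La[X]) • x) ((X ^ j : La[X]) • y) := fun a b => by
  rw [Matrix.smul_apply, Matrix.smul_apply, smul_eq_mul, smul_eq_mul, ← mul_sub, pow_add]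
  exact mul_dvd_mul_left _ (h a b)
theorem cg_iff : Cg k x y ↔ ∀ i j, ∀ m < k, (x i j).coeff m = (y i j).coeff m := by
  refine forall_congr' fun i => forall_congr' fun j => ?_
  rw [Polynomial.X_pow_dvd_iff]
  simp only [Polynomial.coeff_sub, sub_eq_zero]
theorem cg_iff_exists : Cg k x y ↔ ∃ w, x = y + (X ^ k : La[X]) • w := by
  constructor
  · intro h
    choose w hw using h
    refine ⟨Matrix.of w, ?_⟩
    ext1 i j
    rw [Matrix.add_apply, Matrix.smul_apply, smul_eq_mul, Matrix.of_apply, ← hw, add_sub_cancel]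
  · rintro ⟨w, rfl⟩ i j
    rw [Matrix.add_apply, Matrix.smul_apply, smul_eq_mul, add_sub_cancel_left]
    exact dvd_mul_right _ _
theorem cg_one_const (x : Matrix ι ι La[X]) : Cg 1 x ((x.map (evs 0)).map cs) := by
  rw [cg_iff]
  intro i j m hm
  obtain rfl : m = 0 := by omega
  rw [Matrix.map_apply, Matrix.map_apply, cs_apply, evs_zero, Polynomial.coeff_C_zero]
theorem Cg.evs_zero (h : Cg 1 x y) : x.map (evs 0) = y.map (evs 0) := by
  ext1 i j
  rw [Matrix.map_apply, Matrix.map_apply, MP_2a37ed_ag.evs_zero, MP_2a37ed_ag.evs_zero]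
  exact cg_iff.mp h i j 0 one_pos
theorem Cg.succ (h : Cg k x 1) :
    Cg (k + 1) x (1 + (X ^ k : La[X]) • ((x - 1).map fun f => f.coeff k).map cs) := by
  rw [cg_iff]
  intro i j m hm
  rw [Matrix.add_apply, Matrix.smul_apply, smul_eq_mul, Matrix.map_apply, Matrix.map_apply,
    cs_apply, Polynomial.coeff_add, mul_comm, Polynomial.coeff_C_mul, Polynomial.coeff_X_pow]
  by_cases hk : m = k
  · rw [if_pos hk, mul_one, hk, Matrix.sub_apply, Polynomial.coeff_sub, add_sub_cancel]
  · rw [if_neg hk, mul_zero, add_zero]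
    exact cg_iff.mp h i j m (by omega)

end Cong

end Pool.Agent.MP_2a37ed_ag

end MrgPart1

-- ======== part 2: formerly Pool.Agent.MP_2a37ed_ag.BasicN
section MrgPart2

namespace Pool.Agent.MP_2a37ed_ag

open Matrix Polynomial

variable {n : ℕ}

section Der

variable {R : Type} [CommRing R]

theorem der_mul (x y : Matrix (Fin n) (Fin n) R[X]) :
    (x * y).map (fun f => derivative f) =
      x.map (fun f => derivative f) * y + x * y.map fun f => derivative f := by
  ext1 i j
  simp [Matrix.mul_apply, Finset.sum_add_distrib]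

theorem der_one : (1 : Matrix (Fin n) (Fin n) R[X]).map (fun f => derivative f) = 0 := by
  ext1 i j
  by_cases h : i = j <;> simp [h]

end Der

section ExpN

variable {A B : Type} [CommRing A] [Algebra ℂ A] [Algebra ℚ A] [CommRing B] [Algebra ℂ B]
  [Algebra ℚ B] {N : Mat n}

omit [Algebra ℚ A] [Algebra ℚ B] in
theorem map_smul_const (φ : A →ₐ[ℂ] B) (κ : A) (N : Mat n) :
    (κ • N.map (algebraMap ℂ A)).map φ = φ κ • N.map (algebraMap ℂ B) := by
  ext i j
  simp

theorem expN_val (κ : A) (hN : IsNilpotent N) :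
    (expN κ N hN).val = IsNilpotent.exp (κ • N.map (algebraMap ℂ A)) := rfl

theorem expN_inv (κ : A) (hN : IsNilpotent N) : (expN κ N hN)⁻¹ = expN (-κ) N hN :=
  Units.ext (by rw [expN_val, neg_smul]; rfl)

theorem expN_sum (κ : A) (hN : IsNilpotent N) {k : ℕ} (hk : N ^ k = 0) :
    (expN κ N hN).val =
      ∑ i ∈ Finset.range k, ((i.factorial : ℚ)⁻¹ • κ ^ i) • (N ^ i).map (algebraMap ℂ A) := by
  have e : ∀ i, (N ^ i).map (algebraMap ℂ A) = N.map (algebraMap ℂ A) ^ i := fun i =>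
    map_pow (algebraMap ℂ A).mapMatrix N i
  rw [expN_val, IsNilpotent.exp_eq_sum (k := k) (by rw [_root_.smul_pow, ← e, hk]; simp)]
  simp only [_root_.smul_pow, e, smul_assoc]

theorem gm_expN (φ : A →ₐ[ℂ] B) (κ : A) (hN : IsNilpotent N) :
    gm φ (expN κ N hN) = expN (φ κ) N hN := by
  refine Units.ext ?_
  rw [gm_val, expN_val, expN_val, ← map_smul_const]
  exact IsNilpotent.map_exp ((hN.map (algebraMap ℂ A).mapMatrix).smul κ) (φ : A →+* B).mapMatrix

theorem expN_complex (c : ℂ) (hN : IsNilpotent N) : expN c N hN = expU (c • N) := by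
  refine Units.ext ?_
  rw [expN_val, expU_nilp (hN.smul c)]
  rfl

theorem gm_expN_complex (φ : A →ₐ[ℂ] ℂ) (κ : A) (hN : IsNilpotent N) :
    gm φ (expN κ N hN) = expU (φ κ • N) := by
  rw [gm_expN, expN_complex]

theorem expN_zero (hN : IsNilpotent N) : expN (0 : A) N hN = 1 :=
  Units.ext (by rw [expN_val, zero_smul, IsNilpotent.exp_zero, Units.val_one])

theorem expN_mem (S : Subalgebra ℂ A) {κ : A} (hκ : κ ∈ S) (hN : IsNilpotent N) (i j : Fin n) :
    (expN κ N hN).val i j ∈ S ∧ ((expN κ N hN)⁻¹).val i j ∈ S := by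
  let : Algebra ℚ S := ((algebraMap ℂ S).comp (algebraMap ℚ ℂ)).toAlgebra
  have e : gm S.val (expN (⟨κ, hκ⟩ : S) N hN) = expN κ N hN := gm_expN _ _ hN
  rw [← e, gm_val, gm_inv_val]
  exact ⟨Subtype.property _, Subtype.property _⟩

theorem expN_val_eq (κ : A) (hN : IsNilpotent N) : ∃ M : Matrix (Fin n) (Fin n) A,
    (expN κ N hN).val = 1 + κ • N.map (algebraMap ℂ A) + κ ^ 2 • M := by
  obtain ⟨k, hk⟩ := id hN
  refine ⟨∑ i ∈ Finset.range k,
    (((i + 1 + 1).factorial : ℚ)⁻¹ • κ ^ i) • (N ^ (i + 1 + 1)).map (algebraMap ℂ A), ?_⟩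
  rw [expN_sum κ hN (k := k + 1 + 1) (by rw [pow_succ, pow_succ, hk, zero_mul, zero_mul]),
    Finset.sum_range_succ', Finset.sum_range_succ', Finset.smul_sum, add_comm, add_comm _ (_ • _),
    ← add_assoc]
  congr 2
  · simp
  · simp
  · ext1 i
    rw [smul_smul, mul_smul_comm, add_assoc, pow_add, mul_comm (κ ^ 2)]

theorem expN_der (κ : La[X]) (hN : IsNilpotent N) :
    (expN κ N hN).val.map (fun f => derivative f) * ((expN κ N hN)⁻¹).val =
      derivative κ • N.map (algebraMap ℂ La[X]) := by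
  obtain ⟨k, hk⟩ := id hN
  have e : (expN κ N hN).val.map (fun f => derivative f) =
      derivative κ • N.map (algebraMap ℂ La[X]) * (expN κ N hN).val := by
    conv_lhs => rw [expN_sum κ hN (k := k + 1) (by rw [pow_succ, hk, zero_mul])]
    rw [expN_sum κ hN hk, Finset.sum_range_succ', Finset.mul_sum]
    ext1 a b
    simp only [Matrix.map_apply, Matrix.add_apply, Matrix.sum_apply, Matrix.smul_apply, map_add,
      map_sum, smul_mul_smul_comm, ← Matrix.map_mul, ← pow_succ', smul_eq_mul, derivative_mul,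
      Polynomial.algebraMap_apply, derivative_C, mul_zero, add_zero, pow_zero, derivative_smul,
      derivative_one, smul_zero, zero_mul]
    refine Finset.sum_congr rfl fun i _ => ?_
    congr 1
    rw [derivative_pow_succ, mul_smul_comm, mul_comm (derivative κ), mul_assoc,
      show (C ((i : La) + 1) : La[X]) = ((i + 1 : ℕ) : La[X]) by simp, ← nsmul_eq_mul,
      ← Nat.cast_smul_eq_nsmul ℚ, smul_smul]
    congr 1
    rw [Nat.factorial_succ]
    push_cast
    field_simp
  rw [e, Matrix.mul_assoc, Units.mul_inv, Matrix.mul_one]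

/-- A regular function is polynomial along a unipotent one parameter group. -/
theorem reg_expU_poly {F : Gl n → ℂ} (hF : F ∈ Reg n) (hN : IsNilpotent N) :
    ∃ p : ℂ[X], ∀ c : ℂ, F (expU (c • N)) = p.eval c := by
  obtain ⟨p, hp⟩ := reg_ev (expN (X : ℂ[X]) N hN) hF
  refine ⟨p, fun c => ?_⟩
  rw [← evp_apply, hp, gm_expN_complex, evp_apply, eval_X]

end ExpN

theorem theta_exists {ι : Type} [Fintype ι] {P : ι → Mat n} (hP : CompleteOrthogonalIdempotents P)
    (z : ι → ℤ) : ∃ Θ : GL (Fin n) La, IsTh Θ (DD P fun i => (z i : ℂ)) := by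
  obtain ⟨M, hM⟩ : ∃ M : (ι → ℤ) → Matrix (Fin n) (Fin n) La,
      ∀ z τ, (M z).map (ev τ) = DD P fun a => (τ : ℂ) ^ z a := by
    refine ⟨fun z => ∑ a, (LaurentPolynomial.T (z a) : La) • (P a).map (algebraMap ℂ La),
      fun z τ => ?_⟩
    ext i j
    simp [DD_apply, Matrix.sum_apply, mul_comm (P _ i j)]
  have h1 : ∀ z w : ι → ℤ, z + w = 0 → M z * M w = 1 := fun z w h => mat_ev_ext fun τ => by
    rw [Matrix.map_mul, hM, hM, DD_mul hP, Matrix.map_one _ (map_zero _) (map_one _), ← DD_one hP]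
    congr 1
    ext a
    rw [Pi.mul_apply, ← zpow_add₀ τ.ne_zero, ← Pi.add_apply, h]
    simp
  refine ⟨⟨M z, M (-z), h1 _ _ (add_neg_cancel z), h1 _ _ (neg_add_cancel z)⟩, fun τ c hc => ?_⟩
  refine Units.ext ?_
  rw [gm_val, ← map_smul, expU_DD hP]
  refine (hM z τ).trans ?_
  congr 1
  ext a
  rw [hc, Pi.smul_apply, smul_eq_mul, mul_comm, Complex.exp_int_mul]

theorem IsTh.mem {Θ : GL (Fin n) La} {D : Mat n} (h : IsTh Θ D) {Γ : Subgroup (Gl n)}
    (hD : ∀ c : ℂ, expU (c • D) ∈ Γ) (τ : ℂˣ) : gm (ev τ) Θ ∈ Γ := by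
  obtain ⟨c, hc⟩ := exists_exp τ
  rw [h τ c hc]
  exact hD c

section Good

variable {Γ : Subgroup (Gl n)} {V : Submodule ℂ (Mat n)} {x y : GL (Fin n) La[X]}

theorem good_one : Good Γ V 1 := by
  refine ⟨fun s τ => by rw [map_one]; exact Γ.one_mem, fun s τ => ?_⟩
  rw [Units.val_one, der_one, Matrix.zero_mul, Matrix.map_zero _ (map_zero _)]
  exact V.zero_mem

theorem Good.mono {Γ' : Subgroup (Gl n)} {V' : Submodule ℂ (Mat n)} (h : Good Γ V x)
    (hΓ : Γ ≤ Γ') (hV : V ≤ V') : Good Γ' V' x :=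
  ⟨fun s τ => hΓ (h.val s τ), fun s τ => hV (h.der s τ)⟩

theorem cj_gm {A : Type} [CommRing A] [Algebra ℂ A] (φ : A →ₐ[ℂ] ℂ) (x : GL (Fin n) A)
    (z : Matrix (Fin n) (Fin n) A) : cj (gm φ x) (z.map φ) = (x.val * z * (x⁻¹).val).map φ := by
  rw [cj_apply, gm_val, gm_inv_val, Matrix.map_mul, Matrix.map_mul]

theorem Good.mul (hV : ∀ g ∈ Γ, ∀ A ∈ V, cj g A ∈ V) (hx : Good Γ V x) (hy : Good Γ V y) :
    Good Γ V (x * y) := by
  refine ⟨fun s τ => by rw [map_mul]; exact Γ.mul_mem (hx.val s τ) (hy.val s τ), fun s τ => ?_⟩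
  have e : (x * y).val.map (fun f => derivative f) * ((x * y)⁻¹).val =
      x.val.map (fun f => derivative f) * (x⁻¹).val +
        x.val * (y.val.map (fun f => derivative f) * (y⁻¹).val) * (x⁻¹).val := by
    rw [Units.val_mul, der_mul, _root_.mul_inv_rev, Units.val_mul, add_mul]
    simp only [mul_assoc, Units.mul_inv_cancel_left]
  rw [e, Matrix.map_add _ (map_add _), ← cj_gm]
  exact V.add_mem (hx.der s τ) (hV _ (hx.val s τ) _ (hy.der s τ))

theorem Good.inv (hV : ∀ g ∈ Γ, ∀ A ∈ V, cj g A ∈ V) (hx : Good Γ V x) : Good Γ V x⁻¹ := by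
  have h1 : ∀ s τ, gm (ev2 s τ) x⁻¹ ∈ Γ := fun s τ => by
    rw [map_inv]; exact Γ.inv_mem (hx.val s τ)
  refine ⟨h1, fun s τ => ?_⟩
  have e : (x⁻¹).val.map (fun f => derivative f) * (x⁻¹⁻¹).val =
      -((x⁻¹).val * (x.val.map (fun f => derivative f) * (x⁻¹).val) * (x⁻¹⁻¹).val) := by
    have := der_mul (x⁻¹).val x.val
    rw [Units.inv_mul, der_one] at this
    rw [inv_inv, eq_neg_of_add_eq_zero_left this.symm]
    simp only [mul_assoc, Units.inv_mul, mul_one]
  rw [e, Matrix.map_neg _ (map_neg _), ← cj_gm]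
  exact V.neg_mem (hV _ (h1 s τ) _ (hx.der s τ))

theorem good_const {b : GL (Fin n) La} (hb : ∀ τ, gm (ev τ) b ∈ Γ) : Good Γ V (gm cs b) := by
  refine ⟨fun s τ => by rw [gm_ev2, gm_evs_cs]; exact hb τ, fun s τ => ?_⟩
  have e : (gm cs b).val.map (fun f => derivative f) = 0 := by
    ext1 i j
    simp [gm_val, cs_apply]
  rw [e, Matrix.zero_mul, Matrix.map_zero _ (map_zero _)]
  exact V.zero_mem

theorem good_const' {g : Gl n} (hg : g ∈ Γ) : Good Γ V (gm (Algebra.ofId ℂ La[X]) g) := by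
  rw [← gm_ofId cs]
  exact good_const fun τ => by rw [gm_ofId_self]; exact hg

theorem good_expN (κ : La[X]) {N : Mat n} (hN : IsNilpotent N) (hV : N ∈ V)
    (hΓ : ∀ c : ℂ, expU (c • N) ∈ Γ) : Good Γ V (expN κ N hN) := by
  refine ⟨fun s τ => by rw [gm_expN_complex]; exact hΓ _, fun s τ => ?_⟩
  rw [expN_der, map_smul_const]
  exact V.smul_mem _ hV

/-- The leading term of a good family lies in `V`. -/
theorem Good.lead (hx : Good Γ V x) {k : ℕ} (hk : 1 ≤ k) (h : Cg k x.val 1) :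
    InL V ((x.val - 1).map fun f => f.coeff k) := by
  obtain ⟨m, rfl⟩ := Nat.exists_eq_add_of_le' hk
  have o : ∀ (i j : Fin n) (l : ℕ), ((1 : Matrix (Fin n) (Fin n) La[X]) i j).coeff (l + 1) = 0 :=
    fun i j l => by by_cases h : i = j <;> simp [Matrix.one_apply, h, coeff_one]
  have h1 : Cg 1 (x⁻¹).val 1 := by
    have := (Cg.refl 1 (x⁻¹).val).mul (h.mono hk)
    rw [Units.inv_mul, mul_one] at this
    exact this.symm
  have h2 : Cg m (x.val.map fun f => derivative f) 0 := cg_iff.2 fun i j l hl => by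
    rw [Matrix.map_apply, coeff_derivative, cg_iff.1 h i j _ (Nat.succ_lt_succ hl), o]
    simp
  obtain ⟨u, hu⟩ := cg_iff_exists.1 h2
  have h3 := ((Cg.refl 1 u).mul h1).smul m
  rw [zero_add] at hu
  rw [mul_one, ← smul_mul_assoc, ← hu] at h3
  intro j
  have h4 := V.smul_mem ((m : ℂ) + 1)⁻¹ (inL_coeff V _ hx.der m j)
  have h5 : (m : ℂ) + 1 ≠ 0 := by exact_mod_cast m.succ_ne_zero
  refine (congrArg (· ∈ V) ?_).mp h4
  ext a b
  have h6 : ((m : La) + 1) = algebraMap ℂ La ((m : ℂ) + 1) := by simp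
  simp only [cfM, Matrix.smul_apply, Matrix.map_apply, cg_iff.1 h3 a b m m.lt_succ_self,
    coeff_derivative, Matrix.sub_apply, coeff_sub, o, sub_zero, smul_eq_mul]
  rw [h6, mul_comm _ (algebraMap ℂ La _), coeff_algebraMap_mul, inv_mul_cancel_left₀ h5]

/-- Polynomial curves in `Unip W`. -/
theorem exists_curve {W : Submodule ℂ (Mat n)} (hW : ∀ N ∈ W, IsNilpotent N → N ∈ V)
    (hV : ∀ g ∈ Unip W, ∀ A ∈ V, cj g A ∈ V) {g : Gl n} (hg : g ∈ Unip W) :
    ∃ x : GL (Fin n) La[X], Good (Unip W) V x ∧ gm (evs 0) x = 1 ∧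
      gm (evs 1) x = gm (Algebra.ofId ℂ La) g := by
  induction hg using Subgroup.closure_induction with
  | mem g hg =>
    obtain ⟨N, hN, hn, rfl⟩ := hg
    refine ⟨expN X N hn, good_expN X hn (hW N hN hn) (expU_mem_unip hN hn), ?_, ?_⟩
    · rw [gm_expN, evs_apply, eval_X, map_zero, expN_zero]
    · conv_rhs => rw [← one_smul ℂ N, ← expN_complex 1 hn]
      rw [gm_expN, gm_expN, evs_apply, eval_X, map_one, map_one]
  | one => exact ⟨1, good_one, map_one _, by rw [map_one, map_one]⟩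
  | mul g g' _ _ h h' =>
    obtain ⟨x, h1, h2, h3⟩ := h
    obtain ⟨y, h4, h5, h6⟩ := h'
    exact ⟨x * y, h1.mul hV h4, by rw [map_mul, h2, h5, one_mul], by rw [map_mul, map_mul, h3, h6]⟩
  | inv g _ h =>
    obtain ⟨x, h1, h2, h3⟩ := h
    exact ⟨x⁻¹, h1.inv hV, by rw [map_inv, h2, inv_one], by rw [map_inv, map_inv, h3]⟩

end Good

end Pool.Agent.MP_2a37ed_ag

end MrgPart2

-- ======== part 3: formerly Pool.Agent.MP_2a37ed_ag.Asm
section MrgPart3

namespace Pool.Agent.MP_2a37ed_ag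

open Matrix Polynomial

theorem core_of (hS : StrStmt) (hA : A2Stmt) (hF : FactStmt) (hG : GvalStmt) (hN : NondegStmt)
    (hL : LieStmt) (hK : KstStmt) : CoreStmt := by
  intro n G H nG nH hHG hE
  have st := hS n G H nG nH hHG hE
  obtain ⟨r, e, β, b, hB, hb, hneg, htr⟩ := hA n G H nG nH hHG hE st
  have hdet : b.val.det = 1 := by
    apply ev_ext
    intro τ
    have h1 := (hb τ).2.2 _ (ch_det G)
    rw [map_one, ← h1, gm_val, AlgHom.map_det]
    rfl
  obtain ⟨c0, ci, hfac⟩ := hF n b hdet htr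
  have hval := hG n G b c0 ci nG.clo (fun τ => (hb τ).2) hfac
  refine ⟨b, c0, ci, fun τ => (hb τ).1, hfac, hval, fun K cK hHK hKG hci => ?_⟩
  have hle : gone G H ≤ lie K := by
    refine hN n r G (gone G H) (lie H) (lie K) e β b c0 ci st.le hB st.cj1
      (fun τ => hHG (hb τ).1) hfac hneg fun s A hA => mem_lie_of_exp fun c => ?_
    rw [← map_smul, expU_cj]
    exact K.mul_mem (K.mul_mem (hci s) (hHK ((nH.mem A).1 hA c))) (K.inv_mem (hci s))
  refine hK n G H K nG hHG hE cK hKG fun g hg => ?_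
  refine nH.induction (Q := fun h => g * h * g⁻¹ ∈ K) (by simp [K.one_mem]) ?_
  intro h _ A hA hh
  have h1 : expU (cj g A) ∈ K := by
    have := hL n K cK (cj g A) (hle (Submodule.subset_span ⟨g, hg, A, hA, rfl⟩)) 1
    rwa [one_smul] at this
  rw [expU_cj] at h1
  have h2 : g * (h * expU A) * g⁻¹ = (g * h * g⁻¹) * (g * expU A * g⁻¹) := by group
  rw [h2]
  exact K.mul_mem hh h1

theorem nice_of (hL : LieStmt) (hR : RepStmt) (hV : VnStmt) {n : ℕ} {G : Subgroup (Gl n)}
    (hG : Clo G) (hc : IsConnected (G : Set (Gl n))) : Nice G :=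
  ⟨hG, fun A => ⟨hL n G hG A, mem_lie_of_exp⟩, hV n G hG hc, hR n G hG⟩

theorem main_line {n : ℕ} {w x : Fin n → ℂ} (hw : w ≠ 0) :
    (∃ c : ℂ, x = c • w) ↔ ∀ i j, x i * w j - x j * w i = 0 := by
  constructor
  · rintro ⟨c, rfl⟩ i j
    simp only [Pi.smul_apply, smul_eq_mul]
    ring
  · intro h
    obtain ⟨j, hj⟩ := Function.ne_iff.1 hw
    have hj' : w j ≠ 0 := hj
    refine ⟨x j / w j, funext fun i => ?_⟩
    have := h i j
    simp only [Pi.smul_apply, smul_eq_mul]
    field_simp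
    linear_combination this

theorem main_vec {n : ℕ} (c : GL (Fin n) ℂ[X]) (w : Fin n → ℂ) (τ : ℂ) :
    (fun i => ((c.val *ᵥ fun j => C (w j)) i).eval τ) = (gm (evp τ) c).val *ᵥ w := by
  funext i
  simp [gm_val, mulVec, dotProduct, eval_finsetSum, evp_apply]

theorem main_ne {n : ℕ} (g : Gl n) {w : Fin n → ℂ} (hw : w ≠ 0) : g.val *ᵥ w ≠ 0 := by
  intro h
  apply hw
  have : (g⁻¹).val *ᵥ (g.val *ᵥ w) = w := by
    rw [mulVec_mulVec, ← Units.val_mul, inv_mul_cancel, Units.val_one, one_mulVec]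
  rw [← this, h, mulVec_zero]

theorem main_of (hL : LieStmt) (hR : RepStmt) (hV : VnStmt) (hE : EpiStmt) (hC : CoreStmt)
    (hEl : ElimStmt) : MainStmt := by
  intro n G H w hG cG hw hH cH h3
  have clG : Clo G := clo_iff.2 hG
  have hHG : H ≤ G := fun g hg => ((hH g).1 hg).1
  have clH : Clo H := by
    refine clo_of_sub clG
      {F | ∃ i j, F = fun g : Gl n => (g.val *ᵥ w) i * w j - (g.val *ᵥ w) j * w i} ?_ fun g => ?_
    · rintro F ⟨i, j, rfl⟩
      exact reg_sub (reg_mul (reg_mulVec reg_entry w i) (reg_const _))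
        (reg_mul (reg_mulVec reg_entry w j) (reg_const _))
    · rw [hH, main_line hw]
      refine and_congr_right fun _ => ⟨?_, fun h i j => h _ ⟨i, j, rfl⟩⟩
      rintro h F ⟨i, j, rfl⟩
      exact h i j
  have nG := nice_of hL hR hV clG cG
  have nH := nice_of hL hR hV clH cH
  obtain ⟨b, c0, ci, hb, hfac, hval, hnd⟩ := hC n G H nG nH hHG (hE n G H clG hHG h3)
  have hrel : ∀ τ : ℂ, τ ≠ 0 → ∃ c : ℂ, (gm (evp τ) c0).val *ᵥ w =
      c • ((gm (evp τ⁻¹) ci).val *ᵥ w) := by
    intro τ hτ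
    obtain ⟨c, hc⟩ := ((hH _).1 (hb (Units.mk0 τ hτ))).2
    refine ⟨c, ?_⟩
    have h1 := hfac.eq (Units.mk0 τ hτ)
    simp only [Units.val_mk0, Units.val_inv_eq_inv_val] at h1
    rw [h1, Units.val_mul, ← mulVec_mulVec, hc, mulVec_smul]
  obtain ⟨I, hI, hZ⟩ := hEl n (c0.val *ᵥ fun j => C (w j)) (ci.val *ᵥ fun j => C (w j)) w hw
    (fun i => by
      have := congrFun (main_vec ci w 0) i
      rw [hfac.one, Units.val_one, one_mulVec] at this
      exact this)
    (fun τ => by rw [main_vec]; exact main_ne _ hw)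
    (fun τ hτ => by rw [main_vec, main_vec]; exact hrel τ hτ)
  refine ⟨I, _, hI, hZ, fun τ => ⟨_, (hval τ).2, main_vec c0 w τ⟩, ?_⟩
  intro K hK hHK hKG hne g hg hall
  have key : ∀ x ∈ G, (∀ f ∈ I, MvPolynomial.eval (x.val *ᵥ w) f = 0) → g⁻¹ * x ∈ K := by
    intro x hx hxI
    obtain ⟨k, hk, c, hc⟩ := hall _ hxI
    have h1 : (g * k)⁻¹ * x ∈ H := by
      refine (hH _).2 ⟨G.mul_mem (G.inv_mem (G.mul_mem hg (hKG hk))) hx, c, ?_⟩
      rw [Units.val_mul, ← mulVec_mulVec, hc, mulVec_smul, mulVec_mulVec, ← Units.val_mul,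
        inv_mul_cancel, Units.val_one, one_mulVec]
    have h2 : g⁻¹ * x = k * ((g * k)⁻¹ * x) := by group
    rw [h2]
    exact K.mul_mem hk (hHK h1)
  have hgK : g⁻¹ ∈ K := by
    have := key 1 G.one_mem ((hZ _).2 ⟨1, Or.inl (by simp)⟩)
    rwa [mul_one] at this
  refine hne (le_antisymm hKG (hnd K (clo_iff.2 hK) hHK hKG fun s => ?_))
  have h1 : g⁻¹ * gm (evp s) ci ∈ K := by
    refine key _ (hval s).1 ((hZ _).2 ?_)
    by_cases hs : s = 0
    · subst hs
      exact ⟨1, Or.inl (by rw [hfac.one]; simp)⟩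
    · obtain ⟨c, hc⟩ := hrel s⁻¹ (inv_ne_zero hs)
      rw [inv_inv] at hc
      have hc0 : c ≠ 0 := by
        rintro rfl
        exact main_ne _ hw (hc.trans (zero_smul _ _))
      refine ⟨c⁻¹, Or.inr ⟨s⁻¹, ?_⟩⟩
      rw [main_vec, hc, smul_smul, inv_mul_cancel₀ hc0, one_smul]
  have h2 := K.mul_mem (K.inv_mem hgK) h1
  rwa [inv_inv, mul_inv_cancel_left] at h2

end Pool.Agent.MP_2a37ed_ag

end MrgPart3

-- ======== part 4: formerly Pool.Agent.MP_2a37ed_ag.Deg
section MrgPart4

set_option linter.unusedSectionVars false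

namespace Pool.Agent.MP_2a37ed_ag

open Matrix Polynomial Module

noncomputable section

variable {ι : Type} [Fintype ι] [DecidableEq ι]

/-- The coefficient of `a σ` in degree zero. -/
def deg_lw (a : Matrix ι ι La) : (ι → La) →ₗ[ℂ] (ι → ℂ) where
  toFun σ := cf (a *ᵥ σ) 0
  map_add' x y := by ext i; simp [cf, mulVec_add]
  map_smul' c x := by ext i; simp [cf, mulVec_smul]

/-- Multiplication by a power of `t`. -/
def deg_sh (ι : Type) (k : ℤ) : (ι → La) →ₗ[ℂ] (ι → La) where
  toFun σ := (LaurentPolynomial.T k : La) • σ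
  map_add' x y := smul_add _ x y
  map_smul' c x := smul_comm _ c x

theorem deg_sh_sh (k l : ℤ) (σ : ι → La) :
    (LaurentPolynomial.T k : La) • (LaurentPolynomial.T l : La) • σ =
      (LaurentPolynomial.T (k + l) : La) • σ := by
  rw [smul_smul, LaurentPolynomial.T_add]

theorem deg_sh_inj (k : ℤ) : Function.Injective (deg_sh ι k) := fun x y h => by
  have h1 := congrArg (fun σ => (LaurentPolynomial.T (-k) : La) • σ) h
  simpa only [deg_sh, LinearMap.coe_mk, AddHom.coe_mk, deg_sh_sh, neg_add_cancel,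
    LaurentPolynomial.T_zero, one_smul] using h1

theorem deg_noeth : IsNoetherianRing La :=
  IsLocalization.isNoetherianRing (Submonoid.powers (X : ℂ[X])) La inferInstance

theorem deg_fg (F : Submodule La (ι → La)) : Module.Finite La F := by
  have := deg_noeth
  infer_instance

theorem deg_mono (F : Submodule La (ι → La)) (a : Matrix ι ι La) {k l : ℤ} (h : k ≤ l) :
    Gam F a k ≤ Gam F a l := fun _ hσ => ⟨hσ.1, fun i => (hσ.2.1 i).mono h, hσ.2.2⟩

theorem deg_T_mem {F : Submodule La (ι → La)} {a : Matrix ι ι La} {k l : ℤ} (hl : 0 ≤ l)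
    {σ : ι → La} (h : σ ∈ Gam F a k) : (LaurentPolynomial.T l : La) • σ ∈ Gam F a (l + k) := by
  refine ⟨F.smul_mem _ h.1, fun i => (up_T l).mul (h.2.1 i), fun i => ?_⟩
  rw [mulVec_smul]
  exact ((dn_T l).mul (h.2.2 i)).mono (by omega)

theorem deg_dn {a : Matrix ι ι La} (ha : IsUnit a) :
    ∃ M : ℕ, ∀ σ : ι → La, (∀ i, Dn 0 ((a *ᵥ σ) i)) → ∀ i, Dn (-M) (σ i) := by
  obtain ⟨b, hb⟩ := ha.exists_left_inv
  obtain ⟨M, hM⟩ := exists_bound fun p : ι × ι => b p.1 p.2
  refine ⟨M, fun σ h i => ?_⟩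
  have h1 := Dn.mulVec (a := b) (fun i j => (hM (i, j)).2) h i
  rwa [mulVec_mulVec, hb, one_mulVec, add_zero] at h1

theorem deg_fin {a : Matrix ι ι La} (ha : IsUnit a) (F : Submodule La (ι → La)) (k : ℤ) :
    FiniteDimensional ℂ (Gam F a k) := by
  obtain ⟨M, hM⟩ := deg_dn ha
  let f : Gam F a k →ₗ[ℂ] (ι × Finset.Icc (-(M : ℤ)) k → ℂ) :=
    { toFun := fun σ p => (σ.1 p.1).coeff p.2
      map_add' := fun x y => by ext p; simp
      map_smul' := fun c x => by ext p; simp }
  refine FiniteDimensional.of_injective f ((injective_iff_map_eq_zero f).2 fun σ h => ?_)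
  refine Subtype.ext (funext fun i => la_ext fun j => ?_)
  rcases lt_or_ge j (-M) with h1 | h1
  · simpa using hM _ σ.2.2.2 i j h1
  rcases lt_or_ge k j with h2 | h2
  · simpa using σ.2.2.1 i j h2
  · exact (congrFun h (i, ⟨j, Finset.mem_Icc.2 ⟨h1, h2⟩⟩)).trans (by simp)

theorem deg_bot {a : Matrix ι ι La} {M : ℕ}
    (hM : ∀ σ : ι → La, (∀ i, Dn 0 ((a *ᵥ σ) i)) → ∀ i, Dn (-M) (σ i))
    (F : Submodule La (ι → La)) : Gam F a (-M - 1) = ⊥ :=
  eq_bot_iff.2 fun σ h => funext fun i => eq_zero_of_up_dn (h.2.1 i) (hM σ h.2.2 i) (by omega)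

theorem deg_split {V W : Type} [AddCommGroup V] [Module ℂ V] [AddCommGroup W] [Module ℂ W]
    (f : V →ₗ[ℂ] W) (p : Submodule ℂ V) [FiniteDimensional ℂ p] :
    finrank ℂ p = finrank ℂ (p.map f) + finrank ℂ ↥(p ⊓ LinearMap.ker f) := by
  have h := (f.domRestrict p).finrank_range_add_finrank_ker
  rw [LinearMap.range_domRestrict, LinearMap.ker_domRestrict,
    ← Submodule.finrank_map_subtype_eq, Submodule.map_comap_subtype] at h
  exact h.symm

theorem deg_ker (F : Submodule La (ι → La)) (a : Matrix ι ι La) (k : ℤ) :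
    Gam F a (k + 1) ⊓ LinearMap.ker (deg_lw a) = (Gam F a k).map (deg_sh ι 1) := by
  refine le_antisymm ?_ ?_
  · rintro σ ⟨h, h0⟩
    refine ⟨(LaurentPolynomial.T (-1) : La) • σ, ⟨F.smul_mem _ h.1, fun i => ?_, fun i j hj => ?_⟩,
      ?_⟩
    · exact ((up_T (-1)).mul (h.2.1 i)).mono (by omega)
    · rw [mulVec_smul, Pi.smul_apply, smul_eq_mul, coeff_T_mul]
      rcases lt_or_ge (j - -1) 0 with h1 | h1
      · exact h.2.2 i _ h1
      · rw [show j - -1 = 0 by omega]
        exact congrFun h0 i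
    · change (LaurentPolynomial.T 1 : La) • (LaurentPolynomial.T (-1) : La) • σ = σ
      rw [deg_sh_sh, add_neg_cancel, LaurentPolynomial.T_zero, one_smul]
  · rintro _ ⟨σ, h, rfl⟩
    refine ⟨add_comm 1 k ▸ deg_T_mem zero_le_one h, funext fun i => ?_⟩
    change ((a *ᵥ (LaurentPolynomial.T 1 : La) • σ) i).coeff 0 = 0
    rw [mulVec_smul, Pi.smul_apply, smul_eq_mul, coeff_T_mul]
    exact h.2.2 i _ (by omega)

theorem deg_step {a : Matrix ι ι La} (ha : IsUnit a) (F : Submodule La (ι → La)) (k : ℤ) :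
    finrank ℂ (Gam F a (k + 1)) =
      finrank ℂ ((Gam F a (k + 1)).map (deg_lw a)) + finrank ℂ (Gam F a k) := by
  have := deg_fin ha F (k + 1)
  rw [deg_split (deg_lw a) (Gam F a (k + 1)), deg_ker,
    ← (Submodule.equivMapOfInjective _ (deg_sh_inj 1) (Gam F a k)).finrank_eq]

theorem deg_le_low (F : Submodule La (ι → La)) (a : Matrix ι ι La) (k : ℤ) :
    (Gam F a k).map (deg_lw a) ≤ Low F a := by
  rintro _ ⟨σ, h, rfl⟩
  exact Submodule.subset_span ⟨σ, h.1, h.2.2, rfl⟩

theorem deg_eq_low (F : Submodule La (ι → La)) (a : Matrix ι ι La) :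
    ∃ k0 : ℕ, ∀ k : ℕ, k0 ≤ k → (Gam F a k).map (deg_lw a) = Low F a := by
  let f : ℕ →o Submodule ℂ (ι → ℂ) :=
    ⟨fun k => (Gam F a k).map (deg_lw a), fun k l h =>
      Submodule.map_mono (deg_mono F a (by exact_mod_cast h))⟩
  obtain ⟨k0, h⟩ := monotone_stabilizes_iff_noetherian.2 inferInstance f
  refine ⟨k0, fun k hk => le_antisymm (deg_le_low F a k) (Submodule.span_le.2 ?_)⟩
  rintro _ ⟨σ, h1, h2, rfl⟩
  obtain ⟨M, hM⟩ := exists_bound σ
  have h3 : deg_lw a σ ∈ f (max k0 M) :=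
    ⟨σ, ⟨h1, fun i => (hM i).1.mono (by exact_mod_cast le_max_right k0 M), h2⟩, rfl⟩
  rw [← h _ (le_max_left _ _), h k hk] at h3
  exact h3

theorem deg_upper {a : Matrix ι ι La} (ha : IsUnit a) (F : Submodule La (ι → La)) {k : ℤ}
    (h : Gam F a k = ⊥) (m : ℕ) : finrank ℂ (Gam F a (k + m)) ≤ finrank ℂ (Low F a) * m := by
  induction m with
  | zero => rw [Nat.cast_zero, add_zero, h]; simp
  | succ m ih =>
    rw [Nat.cast_succ, ← add_assoc, deg_step ha, Nat.mul_succ, add_comm]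
    exact add_le_add ih (Submodule.finrank_mono (deg_le_low F a _))

theorem deg_T_li (m : ℕ) :
    LinearIndependent ℂ fun i : Fin m => (LaurentPolynomial.T (i : ℕ) : La) := by
  rw [Fintype.linearIndependent_iff]
  intro g h i
  have h1 := congrArg (fun f : La => f.coeff (i : ℕ)) h
  simp only [coeff_sum, Algebra.smul_def, coeff_algebraMap_mul, coeff_T, Nat.cast_inj,
    Fin.val_inj] at h1
  simpa using h1

theorem deg_lower {a : Matrix ι ι La} (ha : IsUnit a) (F : Submodule La (ι → La)) {k : ℤ} {r : ℕ}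
    {σ : Fin r → ι → La} (hσ : LinearIndependent La σ) (h : ∀ j, σ j ∈ Gam F a k) (m : ℕ) :
    (m + 1) * r ≤ finrank ℂ (Gam F a (k + m)) := by
  have := deg_fin ha F (k + m)
  let τ : Fin (m + 1) × Fin r → Gam F a (k + m) := fun p =>
    ⟨(LaurentPolynomial.T (p.1 : ℕ) : La) • σ p.2, deg_mono F a (by have := p.1.2; omega)
      (deg_T_mem (Int.natCast_nonneg _) (h p.2))⟩
  have h0 := linearIndependent_smul (deg_T_li (m + 1)) hσ
  have h1 : LinearIndependent ℂ τ :=
    LinearIndependent.of_comp (v := τ) (Gam F a (k + m)).subtype h0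
  simpa using h1.fintype_card_le_finrank

theorem deg_lift {a : Matrix ι ι La} {r : ℕ} {σ : Fin r → ι → La}
    (h0 : ∀ j i, Dn 0 ((a *ᵥ σ j) i)) (h : LinearIndependent ℂ fun j => deg_lw a (σ j)) :
    LinearIndependent La σ := by
  rw [Fintype.linearIndependent_iff] at h ⊢
  intro c hc
  obtain ⟨M, hM⟩ := exists_bound c
  have key : ∀ m : ℕ, ∀ j, Dn (-M + m) (c j) := fun m => by
    induction m with
    | zero => simpa using fun j => (hM j).2
    | succ m ih =>
      have h1 : ∑ j, (c j).coeff (-M + m) • deg_lw a (σ j) = 0 := funext fun i => by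
        have h2 := congrArg (fun x : ι → La => ((a *ᵥ x) i).coeff (-M + m + 0)) hc
        simp only [mulVec_sum, mulVec_smul, Finset.sum_apply, Pi.smul_apply, smul_eq_mul,
          coeff_sum, (ih _).coeff_mul (h0 _ i), mulVec_zero, Pi.zero_apply] at h2
        rw [Finset.sum_apply]
        exact h2
      intro j l hl
      rcases lt_or_ge l (-M + m) with h2 | h2
      · exact ih j l h2
      · rw [show l = -M + m by push_cast at hl; omega]
        exact h _ h1 j
  exact fun j => eq_zero_of_up_dn (hM j).1 (key (2 * M + 1) j) (by push_cast; omega)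

theorem deg_rank {a : Matrix ι ι La} (ha : IsUnit a) (F : Submodule La (ι → La)) :
    finrank ℂ (Low F a) = finrank La F := by
  have := deg_fg F
  refine le_antisymm ?_ ?_
  · obtain ⟨k0, hk⟩ := deg_eq_low F a
    obtain ⟨v, hv⟩ := exists_linearIndependent_of_le_finrank (le_refl (finrank ℂ (Low F a)))
    have h1 : ∀ j, ∃ σ ∈ Gam F a k0, deg_lw a σ = v j := fun j =>
      (hk k0 le_rfl).ge (v j).2
    choose σ h2 h3 using h1
    have h4 : LinearIndependent La σ := deg_lift (fun j => (h2 j).2.2) (by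
      simp only [h3]
      exact hv.map' (Low F a).subtype (Submodule.ker_subtype _))
    have h5 : LinearIndependent La fun j => (⟨σ j, (h2 j).1⟩ : F) :=
      LinearIndependent.of_comp F.subtype h4
    simpa using h5.fintype_card_le_finrank
  · obtain ⟨v, hv⟩ := exists_linearIndependent_of_le_finrank (le_refl (finrank La F))
    obtain ⟨M, hM⟩ := deg_dn ha
    obtain ⟨N, hN⟩ := exists_bound fun p : Fin (finrank La F) × ι => (a *ᵥ (v p.1).1) p.2
    obtain ⟨K, hK⟩ := exists_bound fun p : Fin (finrank La F) × ι => (v p.1).1 p.2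
    have h1 : LinearIndependent La fun j => (LaurentPolynomial.T N : La) • (v j).1 :=
      (hv.map' F.subtype (Submodule.ker_subtype _)).units_smul
        fun _ => (LaurentPolynomial.isUnit_T (R := ℂ) N).unit
    have h2 : ∀ j, (LaurentPolynomial.T N : La) • (v j).1 ∈ Gam F a (N + K) := fun j => by
      refine ⟨F.smul_mem _ (v j).2, fun i => (up_T N).mul (hK (j, i)).1, fun i => ?_⟩
      rw [mulVec_smul]
      exact ((dn_T N).mul (hN (j, i)).2).mono (by omega)
    generalize hl : finrank ℂ (Low F a) = l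
    have h3 := deg_lower ha F h1 h2 (l * (N + K + M))
    have h4 := deg_upper ha F (deg_bot hM F) (N + K + M + (l * (N + K + M) + 1))
    rw [hl, show (-(M : ℤ) - 1 + ((N + K + M + (l * (N + K + M) + 1) : ℕ) : ℤ)) =
      N + K + ((l * (N + K + M) : ℕ) : ℤ) by push_cast; ring] at h4
    by_contra hn
    have h5 := Nat.mul_le_mul_left (l * (N + K + M) + 1) (Nat.succ_le_of_lt (not_le.1 hn))
    have h6 := (h5.trans h3).trans h4
    rw [Nat.succ_eq_add_one] at h6
    linarith

theorem deg_exists {a : Matrix ι ι La} (ha : IsUnit a) (F : Submodule La (ι → La)) :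
    ∃ δ, Dg F a δ := by
  obtain ⟨k0, hk⟩ := deg_eq_low F a
  refine ⟨finrank ℂ (Gam F a k0) - (finrank La F : ℤ) * (k0 + 1), k0, fun k h => ?_⟩
  induction k, h using Nat.le_induction with
  | base => ring
  | succ k h ih =>
    have h1 := hk (k + 1) (by omega)
    push_cast at h1 ⊢
    rw [deg_step ha, h1, deg_rank ha]
    push_cast
    rw [ih]
    ring

end

theorem deg_stmt : DegStmt := by
  intro ι _ _ a ha
  refine ⟨deg_fin ha, deg_rank ha, deg_exists ha, ?_, fun σ hσ h0 => ?_, fun F F' => ?_⟩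
  · rintro F δ rfl ⟨k, hk⟩
    have h1 := deg_upper ha F (deg_bot (M := 0) (fun σ h i => by simpa using h i) F) (k + 1)
    rw [deg_rank ha, show (-((0 : ℕ) : ℤ) - 1 + ((k + 1 : ℕ) : ℤ)) = k by push_cast; ring] at h1
    have h2 : (Module.finrank ℂ (Gam F 1 k) : ℤ) ≤ (Module.finrank La F : ℤ) * (k + 1) := by
      exact_mod_cast h1
    linarith [hk k le_rfl]
  · have h1 : LinearIndependent La fun _ : Fin 1 => σ := linearIndependent_unique_iff.2 h0
    have h2 := finrank_span_eq_card h1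
    rw [Set.range_const, Fintype.card_fin] at h2
    refine ⟨h2, ?_⟩
    rintro δ ⟨k, hk⟩
    have h3 := deg_lower ha (Submodule.span La {σ}) (k := 0) h1
      (fun _ => ⟨Submodule.mem_span_singleton_self σ, hσ.2⟩) k
    rw [zero_add, mul_one] at h3
    have h4 : (k : ℤ) + 1 ≤ Module.finrank ℂ (Gam (Submodule.span La {σ}) a k) := by
      exact_mod_cast h3
    have h5 := hk k le_rfl
    rw [h2] at h5
    push_cast at h5
    linarith
  · have e : Module.finrank La ↥(F ⊔ F') + Module.finrank La ↥(F ⊓ F') =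
        Module.finrank La F + Module.finrank La F' := by
      have := deg_fg F
      have := deg_fg F'
      have := deg_fg (F ⊔ F')
      have := deg_fg (F ⊓ F')
      have key := Submodule.rank_sup_add_rank_inf_eq F F'
      simp only [← Module.finrank_eq_rank] at key
      exact_mod_cast key
    refine ⟨e, ?_⟩
    rintro δ δ' ε ε' ⟨k1, h1⟩ ⟨k2, h2⟩ ⟨k3, h3⟩ ⟨k4, h4⟩
    obtain ⟨k, hk⟩ : ∃ k, k = k1 + k2 + k3 + k4 := ⟨_, rfl⟩
    have := deg_fin ha F k
    have := deg_fin ha F' k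
    have := deg_fin ha (F ⊔ F') k
    have a1 := Submodule.finrank_sup_add_finrank_inf_eq (Gam F a k) (Gam F' a k)
    have a2 : Gam F a k ⊓ Gam F' a k = Gam (F ⊓ F') a k :=
      Submodule.ext fun σ => ⟨fun h => ⟨⟨h.1.1, h.2.1⟩, h.1.2⟩,
        fun h => ⟨⟨h.1.1, h.2⟩, h.1.2, h.2⟩⟩
    have a3 : Gam F a k ⊔ Gam F' a k ≤ Gam (F ⊔ F') a k :=
      sup_le (fun σ h => ⟨Submodule.mem_sup_left h.1, h.2⟩)
        fun σ h => ⟨Submodule.mem_sup_right h.1, h.2⟩
    have a4 := Submodule.finrank_mono a3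
    rw [a2] at a1
    have b1 := h1 k (by omega)
    have b2 := h2 k (by omega)
    have b3 := h3 k (by omega)
    have b4 := h4 k (by omega)
    have e' := congrArg (fun x : ℕ => (x : ℤ) * (k + 1)) e
    push_cast at e'
    zify at a1 a4
    linarith

end Pool.Agent.MP_2a37ed_ag

end MrgPart4

-- ======== part 5: formerly Pool.Agent.MP_2a37ed_ag.Dual
section MrgPart5

namespace Pool.Agent.MP_2a37ed_ag

open Matrix Polynomial

/-- The space of all sums `u + η + z p`. -/
def dualMo {ι : Type} [Fintype ι] (h : Submodule ℂ (ι → ℂ)) (z : Matrix ι ι La) :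
    Submodule ℂ (ι → La) where
  carrier := {σ | ∃ u η p : ι → La, (∀ i, Up (-1) (u i)) ∧ (∀ j, cf η j ∈ h) ∧
    (∀ i, Dn 0 (p i)) ∧ σ = u + η + z *ᵥ p}
  add_mem' := by
    rintro _ _ ⟨u, η, p, h1, h2, h3, rfl⟩ ⟨u', η', p', h1', h2', h3', rfl⟩
    refine ⟨u + u', η + η', p + p', fun i => (h1 i).add (h1' i), fun j => ?_,
      fun i => (h3 i).add (h3' i), ?_⟩
    · have e : cf (η + η') j = cf η j + cf η' j := by
        ext i
        simp [cf]
      rw [e]
      exact h.add_mem (h2 j) (h2' j)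
    · rw [mulVec_add]
      abel
  zero_mem' := by
    refine ⟨0, 0, 0, fun _ => up_zero _, fun j => ?_, fun _ => dn_zero _, by simp⟩
    have e : cf (0 : ι → La) j = 0 := by
      ext i
      simp [cf]
    rw [e]
    exact h.zero_mem
  smul_mem' := by
    rintro c _ ⟨u, η, p, h1, h2, h3, rfl⟩
    refine ⟨c • u, c • η, c • p, fun i => (h1 i).smul c, fun j => ?_,
      fun i => (h3 i).smul c, ?_⟩
    · have e : cf (c • η) j = c • cf η j := by
        ext i
        simp [cf]
      rw [e]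
      exact h.smul_mem c (h2 j)
    · rw [mulVec_smul, smul_add, smul_add]

theorem dual_cf_zero {ι : Type} (j : ℤ) : cf (0 : ι → La) j = 0 := by
  ext i
  simp [cf]

theorem dual_exists_la (c : ℤ → ℂ) (S : Finset ℤ) (h : ∀ j, j ∉ S → c j = 0) :
    ∃ f : La, ∀ j, f.coeff j = c j := by
  refine ⟨∑ k ∈ S, c k • LaurentPolynomial.T k, fun j => ?_⟩
  rw [coeff_sum]
  simp only [AddMonoidAlgebra.coeff_smul, Finsupp.smul_apply, coeff_T, smul_eq_mul, mul_ite,
    mul_one, mul_zero, Finset.sum_ite_eq']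
  split_ifs with hj
  · rfl
  · exact (h j hj).symm

theorem dual_single_up {ι : Type} [DecidableEq ι] {d : ℤ} {f : La} (hf : Up d f) (i k : ι) :
    Up d ((Pi.single i f : ι → La) k) := by
  rcases eq_or_ne k i with rfl | hk
  · rwa [Pi.single_eq_same]
  · rw [Pi.single_eq_of_ne hk]
    exact up_zero _

theorem dual_single_dn {ι : Type} [DecidableEq ι] {d : ℤ} {f : La} (hf : Dn d f) (i k : ι) :
    Dn d ((Pi.single i f : ι → La) k) := by
  rcases eq_or_ne k i with rfl | hk
  · rwa [Pi.single_eq_same]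
  · rw [Pi.single_eq_of_ne hk]
    exact dn_zero _

theorem dual_pair {ι : Type} [Fintype ι] [DecidableEq ι] (lam : (ι → La) →ₗ[ℂ] ℂ) (φ : ι → La)
    (hφ : ∀ i j, (φ i).coeff j = lam (Pi.single i (LaurentPolynomial.T (-1 - j))))
    (x : ι → La) : lam x = (φ ⬝ᵥ x).coeff (-1) := by
  have k : ∀ i (f : La), lam (Pi.single i f) = (φ i * f).coeff (-1) := fun i f => by
    have s : ∀ j, j ∉ f.coeff.support → f.coeff j = 0 := fun j hj => Finsupp.notMem_support_iff.1 hj
    have e : (Pi.single i f : ι → La) =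
        ∑ j ∈ f.coeff.support, f.coeff j • (Pi.single i (LaurentPolynomial.T j) : ι → La) := by
      ext1 m
      rcases eq_or_ne m i with rfl | hm
      · simp only [Finset.sum_apply, Pi.smul_apply, Pi.single_eq_same]
        exact la_eq_sum f s
      · simp [Pi.single_eq_of_ne hm]
    rw [mul_comm, coeff_mul_eq f (φ i) s, e, map_sum]
    refine Finset.sum_congr rfl fun j _ => ?_
    rw [map_smul, hφ, smul_eq_mul, show -1 - (-1 - j) = j by ring]
  rw [dotProduct, coeff_sum, ← Finset.univ_sum_single x, map_sum]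
  refine Finset.sum_congr rfl fun i _ => ?_
  rw [k, Finset.univ_sum_single]

theorem dual_stmt : DualStmt := by
  intro ι _ _ h W z z' hz hW hI σ
  change σ ∈ dualMo h z
  by_contra hσ
  obtain ⟨lam, l1, l2⟩ := Submodule.exists_dual_map_eq_bot_of_notMem hσ inferInstance
  have l0 : ∀ x ∈ dualMo h z, lam x = 0 := fun x hx => by
    have : lam x ∈ (dualMo h z).map lam := Submodule.mem_map_of_mem hx
    rwa [l2, Submodule.mem_bot] at this
  have z0 : ∀ j, cf (0 : ι → La) j ∈ h := fun j => by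
    rw [dual_cf_zero]
    exact h.zero_mem
  have a1 : ∀ u : ι → La, (∀ i, Up (-1) (u i)) → lam u = 0 := fun u hu =>
    l0 u ⟨u, 0, 0, hu, z0, fun _ => dn_zero _, by simp⟩
  have a2 : ∀ η : ι → La, (∀ j, cf η j ∈ h) → lam η = 0 := fun η hη =>
    l0 η ⟨0, η, 0, fun _ => up_zero _, hη, fun _ => dn_zero _, by simp⟩
  have a3 : ∀ p : ι → La, (∀ i, Dn 0 (p i)) → lam (z *ᵥ p) = 0 := fun p hp =>
    l0 _ ⟨0, 0, p, fun _ => up_zero _, z0, hp, by simp⟩
  obtain ⟨M, hM⟩ := exists_bound fun q : ι × ι => z' q.1 q.2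
  have a4 : ∀ x : ι → La, (∀ i, Dn M (x i)) → lam x = 0 := fun x hx => by
    have := a3 (z' *ᵥ x) fun i => by
      simpa using Dn.mulVec (fun i j => (hM (i, j)).2) hx i
    rwa [mulVec_mulVec, hz, one_mulVec] at this
  have ex : ∀ i, ∃ f : La, ∀ j, f.coeff j = lam (Pi.single i (LaurentPolynomial.T (-1 - j))) :=
    fun i => dual_exists_la _ (Finset.Icc (-(M : ℤ)) (-1)) fun j hj => by
      rw [Finset.mem_Icc, not_and_or, not_le, not_le] at hj
      rcases hj with hj | hj
      · exact a4 _ (dual_single_dn ((dn_T _).mono (by omega)) i)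
      · exact a1 _ (dual_single_up ((up_T _).mono (by omega)) i)
  choose φ hφ using ex
  have key := dual_pair lam φ hφ
  have e0 : φ = 0 := by
    refine hI φ (fun j => hW _ fun v hv => ?_) (fun i j hj => ?_) fun i j hj => ?_
    · have e : (fun i => v i • (LaurentPolynomial.T (-1 - j) : La)) =
          ∑ i, v i • (Pi.single i (LaurentPolynomial.T (-1 - j)) : ι → La) := by
        ext1 m
        simp [Finset.sum_apply, Pi.single_apply]
      have := a2 (fun i => v i • (LaurentPolynomial.T (-1 - j) : La)) fun k => by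
        have e' : cf (fun i => v i • (LaurentPolynomial.T (-1 - j) : La)) k =
            (if -1 - j = k then (1 : ℂ) else 0) • v := by
          ext i
          simp only [cf, AddMonoidAlgebra.coeff_smul, Finsupp.smul_apply, coeff_T, smul_eq_mul,
            Pi.smul_apply, mul_comm]
        rw [e']
        exact h.smul_mem _ hv
      rw [e, map_sum] at this
      rw [← this, dotProduct]
      exact Finset.sum_congr rfl fun i _ => by rw [map_smul, cf, hφ, smul_eq_mul]
    · rw [hφ]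
      exact a1 _ (dual_single_up ((up_T _).mono (by omega)) i)
    · have := a3 (Pi.single i (LaurentPolynomial.T (-1 - j)))
        (dual_single_dn ((dn_T _).mono (by omega)) i)
      rw [key, dotProduct_mulVec, ← mulVec_transpose, dotProduct_single, mul_comm,
        coeff_T_mul, show -1 - (-1 - j) = j by ring] at this
      exact this
  apply l1
  rw [key, e0, zero_dotProduct]
  simp

theorem fact_of (hD : DualStmt) : FactStmt := by
  intro n b hb hT
  have ex : ∀ i : Fin n, ∃ q p : Fin n → ℂ[X], ∀ (τ : ℂˣ) k,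
      (if k = i then (1 : ℂ) else 0) - ((τ⁻¹ : ℂˣ) : ℂ) * (q k).eval ((τ⁻¹ : ℂˣ) : ℂ) =
        ∑ m, ev τ (b.val k m) * (p m).eval (τ : ℂ) := fun i => by
    obtain ⟨u, η, p, h1, h2, h3, e⟩ := hD (Fin n) ⊥ ⊤ b.val (b⁻¹).val b.mul_inv
      (fun _ _ => trivial) hT (Pi.single i 1)
    have η0 : η = 0 := by
      ext1 k
      exact la_ext fun j => by simpa [cf] using congrFun ((Submodule.mem_bot ℂ).1 (h2 j)) k
    have u1 : ∀ k, Up 0 (LaurentPolynomial.T 1 * u k) := fun k => by
      simpa using (up_T 1).mul (h1 k)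
    choose q hq using fun k => up_zero_iff.1 (u1 k)
    choose p' hp using fun k => dn_zero_iff.1 (h3 k)
    refine ⟨q, p', fun τ k => ?_⟩
    have e1 := congrArg (ev τ) (hq k)
    rw [map_mul, ev_T, ev_invert, ev_toLaurent, zpow_one] at e1
    have e2 := congrArg (ev τ) (congrFun e k)
    rw [η0, add_zero, Pi.add_apply, map_add, mulVec, dotProduct, map_sum] at e2
    simp only [map_mul, hp, ev_toLaurent] at e2
    have e3 : ev τ ((Pi.single i 1 : Fin n → La) k) = if k = i then 1 else 0 := by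
      rw [Pi.single_apply]
      split_ifs <;> simp
    rw [← e1, ← mul_assoc, Units.inv_mul, one_mul, ← e3, e2, add_sub_cancel_left]
  choose q p hqp using ex
  set A : Matrix (Fin n) (Fin n) ℂ[X] := Matrix.of fun k i => (if k = i then 1 else 0) - X * q i k
    with hA
  set P : Matrix (Fin n) (Fin n) ℂ[X] := Matrix.of fun k i => p i k with hP
  have m1 : ∀ τ : ℂˣ, A.map (evp ((τ⁻¹ : ℂˣ) : ℂ)) = b.val.map (ev τ) * P.map (evp (τ : ℂ)) := by
    intro τ
    ext k i
    rw [Matrix.mul_apply]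
    simp only [hA, hP, Matrix.map_apply, Matrix.of_apply, evp_apply, ← hqp]
    split_ifs <;> simp
  have m0 : A.map (evp 0) = 1 := by
    ext k i
    simp only [hA, Matrix.map_apply, Matrix.of_apply, evp_apply, Matrix.one_apply]
    split_ifs <;> simp
  have dm : ∀ (x : Matrix (Fin n) (Fin n) ℂ[X]) (s : ℂ), x.det.eval s = (x.map (evp s)).det :=
    fun x s => by
      rw [← evp_apply]
      exact AlgHom.map_det (evp s) x
  have d1 : ∀ τ : ℂ, τ ≠ 0 → P.det.eval τ = A.det.eval τ⁻¹ := fun τ hτ => by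
    have e := congrArg Matrix.det (m1 (Units.mk0 τ hτ))
    have e' : (b.val.map (ev (Units.mk0 τ hτ))).det = 1 := by
      have := AlgHom.map_det (ev (Units.mk0 τ hτ)) b.val
      rw [hb, map_one] at this
      exact this.symm
    rw [det_mul, e', one_mul, Units.val_inv_eq_inv_val, Units.val_mk0] at e
    rw [dm, dm, e]
  have d0 : A.det.eval 0 = 1 := by rw [dm, m0, det_one]
  have dA : A.det = 1 := Polynomial.funext fun s => by rw [(liou d1 s).1, d0, eval_one]
  have dP : P.det = 1 := Polynomial.funext fun s => by rw [(liou d1 s).2, d0, eval_one]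
  obtain ⟨a, ha⟩ := (Matrix.isUnit_iff_isUnit_det A).2 (dA ▸ isUnit_one)
  obtain ⟨c, hc⟩ := (Matrix.isUnit_iff_isUnit_det P).2 (dP ▸ isUnit_one)
  refine ⟨c⁻¹, a⁻¹, ?_, fun τ => ?_⟩
  · rw [map_inv, inv_eq_one]
    exact Units.ext (by rw [gm_val, ha, m0, Units.val_one])
  · have e : gm (evp ((τ⁻¹ : ℂˣ) : ℂ)) a = gm (ev τ) b * gm (evp (τ : ℂ)) c :=
      Units.ext (by rw [Units.val_mul, gm_val, gm_val, gm_val, ha, hc, m1])
    rw [map_inv, map_inv, e, _root_.mul_inv_rev, inv_mul_cancel_right]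

end Pool.Agent.MP_2a37ed_ag

end MrgPart5

-- marker of a merged file
example : 731051 + 756672 = 731051 + 756672 := rfl
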