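import Pool.Agent.MP_2a37ed_ag.Elim
import Pool.Agent.MP_2a37ed_ag.Dual

-- ======== part 0: formerly Pool.Agent.MP_2a37ed_ag.Chev
section MrgPart0

namespace Pool.Agent.MP_2a37ed_ag

open Matrix Polynomial

variable {n : ℕ}

/-- `H` is the stabiliser of a line in a regular representation of `GL_n`. -/
def LineSt (H : Set (Gl n)) : Prop :=
  ∃ (ι : Type) (_ : Fintype ι) (_ : DecidableEq ι) (ρ : Gl n → Matrix ι ι ℂ) (w : ι → ℂ),
    RRep ⊤ ρ ∧ w ≠ 0 ∧ ∀ g, g ∈ H ↔ ∃ c : ℂ, ρ g *ᵥ w = c • w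

theorem chev_det {ι κ : Type} [Fintype ι] [Fintype κ] [DecidableEq κ] (ξ : Matrix κ ι ℂ)
    (Z : Matrix ι κ ℂ) :
    (ξ * Z).det = ∑ I : κ → ι, (∏ a, ξ a (I a)) * (Z.submatrix I id).det := by
  have h1 : (ξ * Z) = Matrix.of fun a => ∑ i, ξ a i • Z i := by
    ext a b
    simp [mul_apply, Finset.sum_apply]
  have h2 := (detRowAlternating (n := κ) (R := ℂ)).toMultilinearMap.map_sum
    (fun a i => ξ a i • Z i)
  rw [h1]
  refine h2.trans (Finset.sum_congr rfl fun I _ => ?_)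
  exact (detRowAlternating (n := κ) (R := ℂ)).toMultilinearMap.map_smul_univ
    (fun a => ξ a (I a)) fun a => Z (I a)

theorem chev_ne {ι : Type} [Fintype ι] [DecidableEq ι] {ρ : Gl n → Matrix ι ι ℂ}
    (h : RRep ⊤ ρ) (g : Gl n) {w : ι → ℂ} (hw : w ≠ 0) : ρ g *ᵥ w ≠ 0 := by
  intro h0
  apply hw
  have : ρ g⁻¹ *ᵥ (ρ g *ᵥ w) = w := by
    rw [mulVec_mulVec, h.inv_mul trivial, one_mulVec]
  rw [← this, h0, mulVec_zero]

theorem chev_tp {ι : Type} [Fintype ι] [DecidableEq ι] {ρ : Gl n → Matrix ι ι ℂ}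
    (h : RRep ⊤ ρ) (r : ℕ) : RRep ⊤ fun g => tp r (ρ g) := by
  refine ⟨fun I J => reg_prod Finset.univ fun a _ => h.reg (I a) (J a), ?_, fun x _ y _ => ?_⟩
  · ext I J
    simp only [tp, h.one, of_apply, one_apply]
    by_cases hIJ : I = J
    · simp [hIJ]
    · obtain ⟨a, ha⟩ := Function.ne_iff.1 hIJ
      rw [if_neg hIJ]
      exact Finset.prod_eq_zero (Finset.mem_univ a) (if_neg ha)
  · ext I J
    simp only [tp, h.mul x trivial y trivial, of_apply, mul_apply]
    rw [Finset.prod_univ_sum]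
    simp only [Fintype.piFinset_univ, Finset.prod_mul_distrib]

theorem chev_sub (hP : PlkStmt) {ι : Type} [Fintype ι] [DecidableEq ι] {ρ : Gl n → Matrix ι ι ℂ}
    (h : RRep ⊤ ρ) (M : Submodule ℂ (ι → ℂ)) : LineSt {g | ∀ v ∈ M, ρ g *ᵥ v ∈ M} := by
  obtain ⟨r, S, B, hB⟩ := hP ι M
  have hw : (fun I : Fin r → ι => (B.submatrix I id).det) ≠ 0 := by
    intro h0
    have := congrFun h0 S
    simp [hB.piv] at this
  have htp : ∀ y : Matrix ι ι ℂ, tp r y *ᵥ (fun I : Fin r → ι => (B.submatrix I id).det) =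
      fun I => ((y * B).submatrix I id).det := by
    intro y
    funext I
    have : (y * B).submatrix I id = y.submatrix I id * B := by
      ext a b
      simp [mul_apply]
    rw [this, chev_det]
    rfl
  refine ⟨Fin r → ι, inferInstance, inferInstance, fun g => tp r (ρ g), _, chev_tp h r, hw,
    fun g => ⟨fun hg => ?_, ?_⟩⟩
  · have h1 : ρ g * B = B * (ρ g * B).submatrix S id := by
      ext i b
      have h2 := congrFun (hB.eq _ (hg _ (hB.mem (Pi.single b 1)))) i
      simpa [mulVec_mulVec, mul_apply, mulVec, dotProduct, Pi.single_apply] using h2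
    refine ⟨((ρ g * B).submatrix S id).det, ?_⟩
    rw [htp]
    funext I
    have h3 : (B * (ρ g * B).submatrix S id).submatrix I id =
        B.submatrix I id * (ρ g * B).submatrix S id := by
      ext a b
      simp [mul_apply]
    rw [h1, h3, det_mul, ← h1, Pi.smul_apply, smul_eq_mul, mul_comm]
  · rintro ⟨c, hc⟩
    have hc0 : c ≠ 0 := by
      rintro rfl
      exact chev_ne (chev_tp h r) g hw (hc.trans (zero_smul _ _))
    refine hB.stab _ fun ξ hξ => ?_
    rw [htp] at hc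
    rw [Matrix.mul_assoc, chev_det]
    rw [chev_det] at hξ
    have h4 : ∀ I, ((ρ g * B).submatrix I id).det = c * (B.submatrix I id).det :=
      fun I => congrFun hc I
    simp only [h4, mul_left_comm _ c, ← Finset.mul_sum, hξ, mul_one]
    exact hc0

theorem chev_univ : LineSt (Set.univ : Set (Gl n)) := by
  refine ⟨Unit, inferInstance, inferInstance, fun _ => 1, fun _ => 1,
    ⟨fun i j => reg_const _, rfl, fun _ _ _ _ => (mul_one _).symm⟩, ?_, fun g => ?_⟩
  · intro h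
    simpa using congrFun h ()
  · simp only [Set.mem_univ, one_mulVec, true_iff]
    exact ⟨1, (one_smul _ _).symm⟩

theorem chev_inter {H K : Set (Gl n)} (hH : LineSt H) (hK : LineSt K) : LineSt (H ∩ K) := by
  obtain ⟨ι, _, _, ρ, w, hρ, hw, hH⟩ := hH
  obtain ⟨κ, _, _, σ, u, hσ, hu, hK⟩ := hK
  have hmv : ∀ g (x : ι × κ), (kroneckerMap (· * ·) (ρ g) (σ g) *ᵥ fun x => w x.1 * u x.2) x =
      (ρ g *ᵥ w) x.1 * (σ g *ᵥ u) x.2 := by
    intro g x
    simp only [mulVec, dotProduct, kroneckerMap_apply, Fintype.sum_prod_type, Finset.sum_mul_sum]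
    exact Finset.sum_congr rfl fun i _ => Finset.sum_congr rfl fun j _ => by ring
  obtain ⟨i0, hi0⟩ := Function.ne_iff.1 hw
  obtain ⟨j0, hj0⟩ := Function.ne_iff.1 hu
  refine ⟨ι × κ, inferInstance, inferInstance, fun g => kroneckerMap (· * ·) (ρ g) (σ g),
    fun x => w x.1 * u x.2, ⟨fun x y => reg_mul (hρ.reg _ _) (hσ.reg _ _), ?_,
      fun x _ y _ => ?_⟩, ?_, fun g => ⟨?_, ?_⟩⟩
  · rw [hρ.one, hσ.one]
    exact one_kronecker_one
  · rw [hρ.mul x trivial y trivial, hσ.mul x trivial y trivial]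
    exact mul_kronecker_mul _ _ _ _
  · intro h
    exact mul_ne_zero hi0 hj0 (congrFun h (i0, j0))
  · rintro ⟨h1, h2⟩
    obtain ⟨c, hc⟩ := (hH g).1 h1
    obtain ⟨d, hd⟩ := (hK g).1 h2
    refine ⟨c * d, funext fun x => ?_⟩
    rw [hmv, hc, hd]
    simp only [Pi.smul_apply, smul_eq_mul]
    ring
  · rintro ⟨c, hc⟩
    have h1 : ∀ i j, (ρ g *ᵥ w) i * (σ g *ᵥ u) j = c * (w i * u j) := fun i j => by
      rw [← hmv g (i, j), hc]
      rfl
    obtain ⟨i1, hi1⟩ := Function.ne_iff.1 (chev_ne hρ g hw)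
    obtain ⟨j1, hj1⟩ := Function.ne_iff.1 (chev_ne hσ g hu)
    have hi1' : (ρ g *ᵥ w) i1 ≠ 0 := hi1
    have hj1' : (σ g *ᵥ u) j1 ≠ 0 := hj1
    refine ⟨(hH g).2 ⟨c * u j1 / (σ g *ᵥ u) j1, funext fun i => ?_⟩,
      (hK g).2 ⟨c * w i1 / (ρ g *ᵥ w) i1, funext fun j => ?_⟩⟩
    · simp only [Pi.smul_apply, smul_eq_mul]
      field_simp
      linear_combination h1 i j1
    · simp only [Pi.smul_apply, smul_eq_mul]
      field_simp
      linear_combination h1 i1 j

theorem chev_one (hT : TrStmt) (hP : PlkStmt) (H : Subgroup (Gl n)) {F : Gl n → ℂ}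
    (hF : F ∈ Reg n) (h0 : ∀ h ∈ H, F h = 0) :
    ∃ K : Set (Gl n), LineSt K ∧ (H : Set (Gl n)) ⊆ K ∧ ∀ g ∈ K, F g = 0 := by
  obtain ⟨N, ρ, v, l, hρ, hv, -⟩ := hT n ⊤ F hF
  let M : Submodule ℂ (Fin N → ℂ) :=
    { carrier := {u | ∀ h ∈ H, l ⬝ᵥ (ρ h *ᵥ u) = 0}
      add_mem' := fun ha hb h hh => by rw [mulVec_add, dotProduct_add, ha h hh, hb h hh, add_zero]
      zero_mem' := fun h _ => by simp
      smul_mem' := fun c u hu h hh => by
        rw [mulVec_smul, dotProduct_smul, hu h hh, smul_zero] }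
  refine ⟨_, chev_sub hP hρ M, fun k hk u hu h hh => ?_, fun g hg => ?_⟩
  · rw [mulVec_mulVec, ← hρ.mul h trivial k trivial]
    exact hu _ (H.mul_mem hh hk)
  · have := hg v (fun h hh => by rw [← hv h trivial, h0 h hh]) 1 H.one_mem
    rwa [hρ.one, one_mulVec, ← hv g trivial] at this

theorem chev_fin {H : Subgroup (Gl n)} (hH : Clo H) :
    ∃ S : Finset (Gl n → ℂ), (∀ F ∈ S, F ∈ Reg n ∧ ∀ h ∈ H, F h = 0) ∧
      ∀ g, (∀ F ∈ S, F g = 0) → g ∈ H := by
  classical
  let pt : Gl n → (Fin n × Fin n) ⊕ (Fin n × Fin n) → ℂ := fun g =>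
    Sum.elim (fun ij => g.val ij.1 ij.2) (fun ij => (g⁻¹).val ij.1 ij.2)
  let I : Ideal (MvPolynomial ((Fin n × Fin n) ⊕ (Fin n × Fin n)) ℂ) :=
    ⨅ h : H, RingHom.ker (MvPolynomial.eval (pt h))
  have hI : ∀ p, p ∈ I ↔ ∀ h ∈ H, MvPolynomial.eval (pt h) p = 0 := by
    intro p
    simp [I, Submodule.mem_iInf, RingHom.mem_ker]
  obtain ⟨T, hT⟩ := (IsNoetherian.noetherian I : I.FG)
  refine ⟨T.image fun p g => MvPolynomial.eval (pt g) p, fun F hF => ?_, fun g hg => ?_⟩
  · obtain ⟨p, hp, rfl⟩ := Finset.mem_image.1 hF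
    exact ⟨reg_iff.2 ⟨p, fun g => rfl⟩, (hI p).1 (hT ▸ Ideal.subset_span hp)⟩
  · refine hH g fun F hF h0 => ?_
    obtain ⟨p, hp⟩ := reg_iff.1 hF
    have h1 : p ∈ I := (hI p).2 fun h hh => (hp h).symm.trans (h0 h hh)
    have h2 : I ≤ RingHom.ker (MvPolynomial.eval (pt g)) := by
      rw [← hT, Ideal.span_le]
      intro q hq
      exact hg _ (Finset.mem_image.2 ⟨q, hq, rfl⟩)
    exact (hp g).trans (h2 h1)

theorem chev_line (hT : TrStmt) (hP : PlkStmt) {H : Subgroup (Gl n)} (hH : Clo H) :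
    LineSt (H : Set (Gl n)) := by
  classical
  obtain ⟨S, hS, hS'⟩ := chev_fin hH
  have key : ∀ T : Finset (Gl n → ℂ), T ⊆ S →
      ∃ K : Set (Gl n), LineSt K ∧ (H : Set (Gl n)) ⊆ K ∧ ∀ g ∈ K, ∀ F ∈ T, F g = 0 := by
    intro T
    induction T using Finset.induction_on with
    | empty => exact fun _ => ⟨_, chev_univ, Set.subset_univ _, by simp⟩
    | insert F T _ ih =>
      intro hT'
      obtain ⟨K, h1, h2, h3⟩ := ih fun x hx => hT' (Finset.mem_insert_of_mem hx)
      have hF := hS F (hT' (Finset.mem_insert_self _ _))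
      obtain ⟨K', h1', h2', h3'⟩ := chev_one hT hP H hF.1 hF.2
      refine ⟨K ∩ K', chev_inter h1 h1', Set.subset_inter h2 h2', fun g hg F' hF' => ?_⟩
      rcases Finset.mem_insert.1 hF' with rfl | hF'
      · exact h3' g hg.2
      · exact h3 g hg.1 F' hF'
  obtain ⟨K, h1, h2, h3⟩ := key S le_rfl
  have : (H : Set (Gl n)) = K := Set.Subset.antisymm h2 fun g hg => hS' g (h3 g hg)
  rwa [this]

theorem chev_of (hT : TrStmt) (hP : PlkStmt) {H : Subgroup (Gl n)} (hH : Clo H) :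
    ∃ (N : ℕ) (ρ : Gl n → Matrix (Fin N) (Fin N) ℂ) (w : Fin N → ℂ),
      RRep ⊤ ρ ∧ w ≠ 0 ∧ ∀ g, g ∈ H ↔ ∃ c : ℂ, ρ g *ᵥ w = c • w := by
  obtain ⟨ι, _, _, ρ, w, hρ, hw, h⟩ := chev_line hT hP hH
  let e := (Fintype.equivFin ι).symm
  have hmv : ∀ g, (ρ g).submatrix e e *ᵥ (w ∘ e) = (ρ g *ᵥ w) ∘ e := by
    intro g
    rw [submatrix_mulVec_equiv]
    congr 2
    funext i
    simp
  refine ⟨_, fun g => (ρ g).submatrix e e, w ∘ e, ⟨fun i j => hρ.reg _ _, ?_, fun x _ y _ => ?_⟩,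
    ?_, fun g => (h g).trans (exists_congr fun c => ?_)⟩
  · rw [hρ.one, submatrix_one_equiv]
  · rw [hρ.mul x trivial y trivial, submatrix_mul_equiv]
  · intro h0
    apply hw
    funext i
    simpa using congrFun h0 (e.symm i)
  · rw [hmv]
    constructor
    · intro hc
      rw [hc]
      rfl
    · intro hc
      funext i
      simpa using congrFun hc (e.symm i)

end Pool.Agent.MP_2a37ed_ag

end MrgPart0

-- ======== part 1: formerly Pool.Agent.MP_2a37ed_ag.Tor
section MrgPart1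

namespace Pool.Agent.MP_2a37ed_ag

open Matrix Polynomial

variable {n : ℕ}

theorem tor_range {ι : Type} [Fintype ι] (P : ι → Mat n) :
    LinearMap.range (DD P) = Submodule.span ℂ (Set.range P) := by
  ext X
  rw [Submodule.mem_span_range_iff_exists_fun, LinearMap.mem_range]
  rfl

/-- Dropping the zero idempotents and renumbering. -/
theorem tor_reindex {ι : Type} [Fintype ι] {P : ι → Mat n}
    (hP : CompleteOrthogonalIdempotents P) :
    ∃ (m : ℕ) (P' : Fin m → Mat n), CompleteOrthogonalIdempotents P' ∧ (∀ i, P' i ≠ 0) ∧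
      LinearMap.range (DD P') = LinearMap.range (DD P) := by
  classical
  let e := (Fintype.equivFin {i // P i ≠ 0}).symm
  refine ⟨_, fun i => P (e i).1, ⟨⟨fun i => hP.idem _, fun i j hij => ?_⟩, ?_⟩,
    fun i => (e i).2, ?_⟩
  · exact hP.ortho fun h => hij (e.injective (Subtype.ext h))
  · rw [← hP.complete, Equiv.sum_comp e fun i => P i.1]
    rw [← Finset.sum_subtype (Finset.univ.filter fun i => P i ≠ 0) (by simp) P]
    exact Finset.sum_filter_ne_zero _
  · rw [tor_range, tor_range]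
    apply le_antisymm
    · refine Submodule.span_mono ?_
      rintro _ ⟨i, rfl⟩
      exact ⟨_, rfl⟩
    · refine Submodule.span_le.2 ?_
      rintro _ ⟨i, rfl⟩
      by_cases h : P i = 0
      · rw [h]
        exact Submodule.zero_mem _
      · refine Submodule.subset_span ⟨e.symm ⟨i, h⟩, ?_⟩
        simp only [Equiv.apply_symm_apply]

/-- Coarsening along a map of index sets. -/
theorem tor_coarse {ι κ : Type} [Fintype ι] [Fintype κ] [DecidableEq κ] {P : ι → Mat n}
    (hP : CompleteOrthogonalIdempotents P) (π : ι → κ) :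
    CompleteOrthogonalIdempotents (fun c => DD P fun i => if π i = c then 1 else 0) ∧
      ∀ w : κ → ℂ, DD (fun c => DD P fun i => if π i = c then 1 else 0) w =
        DD P fun i => w (π i) := by
  have key : ∀ w : κ → ℂ, DD (fun c => DD P fun i => if π i = c then 1 else 0) w =
      DD P fun i => w (π i) := by
    intro w
    rw [DD_apply]
    simp only [← map_smul]
    rw [← map_sum]
    congr 1
    funext i
    simp [Finset.sum_apply]
  refine ⟨⟨⟨fun c => ?_, fun c d hcd => ?_⟩, ?_⟩, key⟩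
  · show _ * _ = _
    rw [DD_mul hP]
    congr 1
    funext i
    by_cases h : π i = c <;> simp [h]
  · show _ * _ = _
    rw [DD_mul hP, ← (DD P).map_zero]
    congr 1
    funext i
    by_cases h : π i = c
    · have h' : ¬ π i = d := fun h' => hcd (h.symm.trans h')
      simp [h']
    · simp [h]
  · have h1 := key 1
    rw [DD_apply] at h1
    simp only [Pi.one_apply, one_smul] at h1
    rw [h1]
    exact DD_one hP

/-- The common refinement of two commuting systems. -/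
theorem tor_refine {ι κ : Type} [Fintype ι] [Fintype κ] {P : ι → Mat n} {Q : κ → Mat n}
    (hP : CompleteOrthogonalIdempotents P) (hQ : CompleteOrthogonalIdempotents Q)
    (h : ∀ i j, Commute (P i) (Q j)) :
    CompleteOrthogonalIdempotents (fun p : ι × κ => P p.1 * Q p.2) ∧
      (∀ w : ι → ℂ, DD (fun p : ι × κ => P p.1 * Q p.2) (fun p => w p.1) = DD P w) ∧
      ∀ w : κ → ℂ, DD (fun p : ι × κ => P p.1 * Q p.2) (fun p => w p.2) = DD Q w := by
  have hm : ∀ p q : ι × κ, P p.1 * Q p.2 * (P q.1 * Q q.2) = P p.1 * P q.1 * (Q p.2 * Q q.2) := by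
    intro p q
    rw [mul_assoc, ← mul_assoc (Q p.2), ← (h q.1 p.2).eq, mul_assoc, ← mul_assoc]
  refine ⟨⟨⟨fun p => ?_, fun p q hpq => ?_⟩, ?_⟩, fun w => ?_, fun w => ?_⟩
  · show _ * _ = _
    rw [hm, (hP.idem p.1).eq, (hQ.idem p.2).eq]
  · show _ * _ = _
    rw [hm]
    by_cases h1 : p.1 = q.1
    · have h2 : p.2 ≠ q.2 := fun h2 => hpq (Prod.ext h1 h2)
      rw [hQ.ortho h2, mul_zero]
    · rw [hP.ortho h1, zero_mul]
  · rw [Fintype.sum_prod_type]
    simp only [← Finset.mul_sum, hQ.complete, mul_one, hP.complete]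
  · rw [DD_apply, DD_apply, Fintype.sum_prod_type]
    simp only [← Finset.smul_sum, ← Finset.mul_sum, hQ.complete, mul_one]
  · rw [DD_apply, DD_apply, Fintype.sum_prod_type_right]
    simp only [← Finset.smul_sum, ← Finset.sum_mul, hP.complete, one_mul]

/-- The weights `v` such that `Y` commutes with `DD P v`. -/
def tor_comm {ι : Type} [Fintype ι] {P : ι → Mat n} (hP : CompleteOrthogonalIdempotents P)
    (Y : Mat n) : Subalgebra ℂ (ι → ℂ) where
  carrier := {v | Commute Y (DD P v)}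
  mul_mem' := by
    intro u v hu hv
    show Commute Y _
    rw [← DD_mul hP]
    exact Commute.mul_right hu hv
  add_mem' := by
    intro u v hu hv
    show Commute Y _
    rw [map_add]
    exact Commute.add_right hu hv
  algebraMap_mem' := by
    intro c
    show Commute Y _
    rw [Algebra.algebraMap_eq_smul_one, map_smul, DD_one hP]
    exact (Commute.one_right Y).smul_right c

open Classical in
/-- A subalgebra containing `t` contains the indicators of the classes of `t`. -/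
theorem tor_ind {ι : Type} [Fintype ι] (t : Set (ι → ℂ)) (B : Subalgebra ℂ (ι → ℂ))
    (h : ∀ u ∈ t, u ∈ B) (i0 : ι) :
    (fun i => if ∀ u ∈ t, u i = u i0 then (1 : ℂ) else 0) ∈ B := by
  have h1 : ∀ j : ι, ∃ w ∈ B, (∀ i, (∀ u ∈ t, u i = u i0) → w i = 1) ∧
      ((¬ ∀ u ∈ t, u j = u i0) → w j = 0) := by
    intro j
    by_cases hj : ∀ u ∈ t, u j = u i0
    · exact ⟨1, B.one_mem, fun _ _ => rfl, fun h' => absurd hj h'⟩
    · obtain ⟨u, hu, hne⟩ : ∃ u ∈ t, u j ≠ u i0 := by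
        by_contra hc
        exact hj fun u hu => by_contra fun hne => hc ⟨u, hu, hne⟩
      refine ⟨(u i0 - u j)⁻¹ • (u - algebraMap ℂ _ (u j)),
        B.smul_mem (B.sub_mem (h u hu) (B.algebraMap_mem _)) _, fun i hi => ?_, fun _ => ?_⟩
      · have h2 : u i0 - u j ≠ 0 := sub_ne_zero.2 hne.symm
        simp only [Pi.smul_apply, Pi.sub_apply, Pi.algebraMap_apply, Algebra.algebraMap_self,
          RingHom.id_apply, smul_eq_mul, hi u hu]
        exact inv_mul_cancel₀ h2
      · simp only [Pi.smul_apply, Pi.sub_apply, Pi.algebraMap_apply, Algebra.algebraMap_self,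
          RingHom.id_apply, sub_self, smul_zero]
  choose w hwB hw1 hw0 using h1
  have h3 : (fun i => if ∀ u ∈ t, u i = u i0 then (1 : ℂ) else 0) = ∏ j, w j := by
    funext i
    rw [Finset.prod_apply]
    by_cases hi : ∀ u ∈ t, u i = u i0
    · rw [if_pos hi]
      exact (Finset.prod_eq_one fun j _ => hw1 j i hi).symm
    · rw [if_neg hi]
      exact (Finset.prod_eq_zero (f := fun c => w c i) (Finset.mem_univ i) (hw0 i hi)).symm
  rw [h3]
  exact B.prod_mem fun j _ => hwB j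

/-- A system commuting with the torus can be added to it. -/
theorem tor_enlarge {ι κ : Type} [Fintype ι] [Fintype κ] {P : ι → Mat n} {Q : κ → Mat n}
    (hP : CompleteOrthogonalIdempotents P) (hQ : CompleteOrthogonalIdempotents Q)
    (t : Set (ι → ℂ)) (h : ∀ j, ∀ u ∈ t, Commute (Q j) (DD P u)) :
    ∃ (m : ℕ) (R : Fin m → Mat n), CompleteOrthogonalIdempotents R ∧ (∀ i, R i ≠ 0) ∧
      (∀ u ∈ t, DD P u ∈ LinearMap.range (DD R)) ∧ ∀ w, DD Q w ∈ LinearMap.range (DD R) := by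
  classical
  let s : Setoid ι := ⟨fun i j => ∀ u ∈ t, u i = u j, fun _ _ _ => rfl,
    fun h u hu => (h u hu).symm, fun h h' u hu => (h u hu).trans (h' u hu)⟩
  obtain ⟨hP', hkey⟩ := tor_coarse hP (Quotient.mk s)
  have hc : ∀ (c : Quotient s) (j : κ),
      Commute (DD P fun i => if Quotient.mk s i = c then (1 : ℂ) else 0) (Q j) := by
    intro c j
    obtain ⟨i0, rfl⟩ := Quotient.exists_rep c
    have h1 := tor_ind t (tor_comm hP (Q j)) (h j) i0
    have h2 : (fun i => if Quotient.mk s i = Quotient.mk s i0 then (1 : ℂ) else 0) =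
        fun i => if ∀ u ∈ t, u i = u i0 then (1 : ℂ) else 0 := by
      funext i
      exact if_congr Quotient.eq rfl rfl
    rw [h2]
    exact Commute.symm h1
  obtain ⟨hR, hR1, hR2⟩ := tor_refine hP' hQ hc
  obtain ⟨m, R, hR', hne, hrange⟩ := tor_reindex hR
  refine ⟨m, R, hR', hne, fun u hu => ?_, fun w => ?_⟩
  · rw [hrange]
    refine ⟨_, (hR1 (Quotient.lift u fun i j hij => hij u hu)).trans ?_⟩
    rw [hkey]
    rfl
  · rw [hrange]
    exact ⟨_, hR2 w⟩

theorem tor_int {m0 m : ℕ} {P0 : Fin m0 → Mat n} {P : Fin m → Mat n} {z0 : Fin m0 → ℤ}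
    {u : Fin m → ℂ} (hP0 : CompleteOrthogonalIdempotents P0)
    (hP : CompleteOrthogonalIdempotents P) (hne : ∀ i, P i ≠ 0)
    (h : DD P u = DD P0 fun i => (z0 i : ℂ)) : ∃ z : Fin m → ℤ, u = fun i => (z i : ℂ) := by
  let q : ℂ[X] := ∏ j, (X - C (z0 j : ℂ))
  have hq : ∀ c : ℂ, q.eval c = ∏ j, (c - (z0 j : ℂ)) := by
    intro c
    simp only [q, eval_prod, eval_sub, eval_X, eval_C]
  have h1 : DD P (fun i => q.eval (u i)) = DD P 0 := by
    rw [← aeval_DD hP, h, aeval_DD hP0, map_zero, ← (DD P0).map_zero]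
    congr 1
    funext i
    rw [hq]
    exact Finset.prod_eq_zero (Finset.mem_univ i) (sub_self _)
  have h2 := DD_inj hP hne h1
  have h3 : ∀ i, ∃ k : ℤ, u i = k := by
    intro i
    have h4 : q.eval (u i) = 0 := congrFun h2 i
    rw [hq, Finset.prod_eq_zero_iff] at h4
    obtain ⟨j, -, hj⟩ := h4
    exact ⟨z0 j, sub_eq_zero.1 hj⟩
  choose z hz using h3
  exact ⟨z, funext hz⟩

theorem tor_of (hS : SpecStmt) : TorStmt := by
  intro n a ha m0 P0 z0 hP0 hD
  classical
  set D := DD P0 fun i => (z0 i : ℂ) with hDdef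
  let Q : ℕ → Prop := fun k => ∃ (m : ℕ) (P : Fin m → Mat n), CompleteOrthogonalIdempotents P ∧
    (∀ i, P i ≠ 0) ∧ D ∈ LinearMap.range (DD P) ∧
      Module.finrank ℂ ↥(a ⊓ LinearMap.range (DD P)) = k
  have hb : ∀ k, Q k → k ≤ Module.finrank ℂ (Mat n) := by
    rintro k ⟨m, P, -, -, -, rfl⟩
    exact Submodule.finrank_le _
  have hex : ∃ k, Q k := by
    obtain ⟨m, P, hP, hne, hr⟩ := tor_reindex hP0
    exact ⟨_, m, P, hP, hne, by rw [hr]; exact ⟨_, rfl⟩, rfl⟩
  obtain ⟨k0, hk0⟩ := hex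
  have hQ : Q (Nat.findGreatest Q (Module.finrank ℂ (Mat n))) :=
    Nat.findGreatest_spec (hb k0 hk0) hk0
  obtain ⟨m, P, hP, hne, ⟨u0, hu0⟩, hrk⟩ := hQ
  obtain ⟨z, hz⟩ := tor_int hP0 hP hne hu0
  refine ⟨m, P, z, ⟨hP, hne, fun u hu φ => ?_, fun X hX hc => ?_⟩, by rw [← hz, hu0]⟩
  · exact (ha.rep _ P u 0 hP IsNilpotent.zero (fun i => Commute.zero_left _)
      (by rwa [add_zero])).2 φ
  · obtain ⟨m', R, μ, N, hR, hN, hNR, hXe, hRX, -⟩ := hS n X
    have hNa : N ∈ a := (ha.rep _ R μ N hR hN hNR (hXe ▸ hX)).1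
    have hRa : DD R μ ∈ a := by
      have := a.sub_mem hX hNa
      rwa [hXe, add_sub_cancel_right] at this
    have hcomm : ∀ j, ∀ u ∈ {u | DD P u ∈ a}, Commute (R j) (DD P u) := by
      intro j u hu
      exact (Algebra.commute_of_mem_adjoin_singleton_of_commute (hRX j) (hc u hu).symm).symm
    obtain ⟨m2, R2, hR2, hne2, hA, hB⟩ := tor_enlarge hP hR _ hcomm
    have hle : a ⊓ LinearMap.range (DD P) ≤ a ⊓ LinearMap.range (DD R2) := by
      rintro Y ⟨hY, u, rfl⟩
      exact ⟨hY, hA u hY⟩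
    have hD2 : D ∈ LinearMap.range (DD R2) := (hle ⟨hD, u0, hu0⟩).2
    have hQ2 : Q (Module.finrank ℂ ↥(a ⊓ LinearMap.range (DD R2))) :=
      ⟨m2, R2, hR2, hne2, hD2, rfl⟩
    have hle2 := Nat.le_findGreatest (hb _ hQ2) hQ2
    rw [← hrk] at hle2
    have heq := Submodule.eq_of_le_of_finrank_le hle hle2
    have hmem : DD R μ ∈ a ⊓ LinearMap.range (DD P) := by
      rw [heq]
      exact ⟨hRa, hB μ⟩
    obtain ⟨-, u, hu⟩ := hmem
    exact ⟨u, N, hu ▸ hRa, hNa, hN, by rw [hu, hXe]⟩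

end Pool.Agent.MP_2a37ed_ag

end MrgPart1

-- ======== part 2: formerly Pool.Agent.MP_2a37ed_ag.Wj
section MrgPart2

namespace Pool.Agent.MP_2a37ed_ag

open Matrix Polynomial

variable {n : ℕ} {G : Subgroup (Gl n)}

theorem wj_val_mem {g : Gl n} (hg : g ∈ G) : g.val ∈ algA G := Submodule.subset_span ⟨g, hg, rfl⟩

theorem wj_mul_mem {x y : Mat n} (hx : x ∈ algA G) (hy : y ∈ algA G) : x * y ∈ algA G := by
  induction hx using Submodule.span_induction with
  | mem x hx =>
    obtain ⟨g, hg, rfl⟩ := hx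
    induction hy using Submodule.span_induction with
    | mem y hy =>
      obtain ⟨h, hh, rfl⟩ := hy
      exact wj_val_mem (mul_mem hg hh)
    | zero => rw [mul_zero]; exact zero_mem _
    | add a b _ _ ha hb => rw [mul_add]; exact add_mem ha hb
    | smul c a _ ha => rw [mul_smul_comm]; exact Submodule.smul_mem _ c ha
  | zero => rw [zero_mul]; exact zero_mem _
  | add a b _ _ ha hb => rw [add_mul]; exact add_mem ha hb
  | smul c a _ ha => rw [smul_mul_assoc]; exact Submodule.smul_mem _ c ha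

/-- The span of `G` as an algebra. -/
def wjAlg (G : Subgroup (Gl n)) : Subalgebra ℂ (Mat n) :=
  (algA G).toSubalgebra (wj_val_mem (one_mem G)) fun _ _ => wj_mul_mem

theorem wj_ideal {x y : Mat n} (hx : x ∈ radJ G) (hy : y ∈ algA G) :
    x * y ∈ radJ G ∧ y * x ∈ radJ G :=
  ⟨⟨wj_mul_mem hx.1 hy, fun z hz => by rw [mul_assoc]; exact hx.2 _ (wj_mul_mem hy hz)⟩,
    ⟨wj_mul_mem hy hx.1, fun z hz => by
      rw [mul_assoc, trace_mul_comm, mul_assoc]; exact hx.2 _ (wj_mul_mem hz hy)⟩⟩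

/-- The conjugate trick. -/
theorem wj_eq_nilp {ι : Type} [Fintype ι] {P : ι → Mat n} (hP : CompleteOrthogonalIdempotents P)
    {μ : ι → ℂ} {N : Mat n} (hN : IsNilpotent N)
    (hc : Commute (DD P fun i => starRingEnd ℂ (μ i)) N)
    (h : trace (DD P (fun i => starRingEnd ℂ (μ i)) * (DD P μ + N)) = 0) :
    IsNilpotent (DD P μ + N) := by
  rw [mul_add, trace_add, trace_mul_nilp hc hN, add_zero] at h
  rwa [DD_eq_zero_of_trace hP h, zero_add]

theorem wj_trace_nilp {N : Mat n} (hN : IsNilpotent N) : trace N = 0 := by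
  simpa using trace_mul_nilp (Commute.one_left N) hN

/-- The kernel of the trace form of the Lie algebra. -/
def wjKer (a : Submodule ℂ (Mat n)) : Submodule ℂ (Mat n) where
  carrier := {X | X ∈ a ∧ ∀ B ∈ a, trace (X * B) = 0}
  add_mem' := by
    rintro x z ⟨hx, hx'⟩ ⟨hz, hz'⟩
    exact ⟨add_mem hx hz, fun y hy => by rw [add_mul, trace_add, hx' y hy, hz' y hy, add_zero]⟩
  zero_mem' := ⟨zero_mem _, fun y _ => by simp⟩
  smul_mem' := by
    rintro c x ⟨hx, hx'⟩
    exact ⟨Submodule.smul_mem _ c hx, fun y hy => by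
      rw [smul_mul_assoc, trace_smul, hx' y hy, smul_zero]⟩

theorem wj_of (hS : SpecStmt) (hE : EngStmt) : WjStmt := by
  intro n G hG
  have h1 : lie G ≤ algA G := fun A hA =>
    mem_of_exp _ fun c => wj_val_mem ((hG.mem A).1 hA c)
  refine ⟨hE n _ (fun A hA B hB => sub_mem (wj_ideal hA hB.1).1 (wj_ideal hA hB.1).2)
    fun x hx => ?_, fun x hx y hy => wj_ideal hx hy, h1, fun x hx y hy => wj_mul_mem hx hy,
    fun A hA h => ⟨h1 hA, fun y hy => ?_⟩⟩
  · obtain ⟨m, P, μ, N, hP, hN, hc, rfl, hP', -⟩ := hS n x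
    have h2 : Algebra.adjoin ℂ {DD P μ + N} ≤ wjAlg G :=
      Algebra.adjoin_le (Set.singleton_subset_iff.2 hx.1)
    refine wj_eq_nilp hP hN (commute_DD hc _).symm ?_
    rw [trace_mul_comm]
    refine hx.2 _ ?_
    rw [DD_apply]
    exact sum_mem fun i _ => Submodule.smul_mem _ _ (h2 (hP' i))
  · obtain ⟨K, hK⟩ : NilProd (wjKer (lie G)) := by
      refine hE n _ (fun X hX Y hY => ⟨hG.alie.br X hX.1 Y hY.1, fun B hB => ?_⟩) fun X hX => ?_
      · have := hX.2 _ (hG.alie.br Y hY.1 B hB)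
        rw [mul_sub, trace_sub] at this
        rwa [sub_mul, trace_sub, mul_assoc, mul_assoc, trace_mul_comm Y, mul_assoc]
      · obtain ⟨m, P, μ, N, hP, hN, hc, rfl, -, -⟩ := hS n X
        refine wj_eq_nilp hP hN (commute_DD hc _).symm ?_
        rw [trace_mul_comm]
        exact hX.2 _ ((hG.alie.rep _ P μ N hP hN hc hX.1).2 (starRingEnd ℂ).toAddMonoidHom)
    have h2 : ∀ g ∈ G, cj g A ∈ wjKer (lie G) := fun g hg => ⟨hG.cj_mem hg hA, fun B hB => by
      rw [← cj_cj_inv g B, ← cj_mul_mat, trace_cj]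
      exact h _ (hG.cj_mem (inv_mem hg) hB)⟩
    induction hy using Submodule.span_induction with
    | mem y hy =>
      obtain ⟨g, hg, rfl⟩ := hy
      have h3 : ∀ j : ℕ, ∃ l : List (Mat n), l.length = j ∧ (∀ x ∈ l, x ∈ wjKer (lie G)) ∧
          (A * g.val) ^ j = l.prod * (g ^ j).val := by
        intro j
        induction j with
        | zero => exact ⟨[], rfl, by simp, by simp⟩
        | succ j ih =>
          obtain ⟨l, e1, e2, e3⟩ := ih
          refine ⟨l ++ [cj (g ^ j) A], by simp [e1], fun x hx => ?_, ?_⟩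
          · rcases List.mem_append.1 hx with hx | hx
            · exact e2 x hx
            · rw [List.mem_singleton.1 hx]; exact h2 _ (pow_mem hg j)
          · rw [pow_succ, e3, List.prod_append, List.prod_singleton, cj_apply, pow_succ,
              Units.val_mul]
            simp only [mul_assoc, Units.inv_mul_cancel_left]
      obtain ⟨l, e1, e2, e3⟩ := h3 K
      exact wj_trace_nilp ⟨K, by rw [e3, hK l e1 e2, zero_mul]⟩
    | zero => simp
    | add a b _ _ ha hb => rw [mul_add, trace_add, ha, hb, add_zero]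
    | smul c a _ ha => rw [mul_smul_comm, trace_smul, ha, smul_zero]

theorem wj_nilp_mul {V : Submodule ℂ (Mat n)} (h : NilProd V) {x y : Mat n} (hx : x ∈ V)
    (hy : y ∈ V) : IsNilpotent (x * y) := by
  obtain ⟨K, hK⟩ := h
  have h1 : ∀ j : ℕ, ∃ l : List (Mat n), j ≤ l.length ∧ (∀ z ∈ l, z ∈ V) ∧ (x * y) ^ j = l.prod := by
    intro j
    induction j with
    | zero => exact ⟨[], le_rfl, by simp, by simp⟩
    | succ j ih =>
      obtain ⟨l, e1, e2, e3⟩ := ih
      refine ⟨x :: y :: l, by simp; omega, by simpa [hx, hy] using e2, ?_⟩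
      rw [pow_succ', e3, List.prod_cons, List.prod_cons, mul_assoc]
  obtain ⟨l, e1, e2, e3⟩ := h1 K
  refine ⟨K, ?_⟩
  rw [e3, ← List.take_append_drop K l, List.prod_append,
    hK _ (List.length_take_of_le e1) fun z hz => e2 z (List.mem_of_mem_take hz), zero_mul]

/-- The elements of the centraliser of the torus that are orthogonal to the torus. -/
def wjZ {m : ℕ} (a : Submodule ℂ (Mat n)) (P : Fin m → Mat n) : Submodule ℂ (Mat n) where
  carrier := {Y | Y ∈ a ∧ ∀ u, DD P u ∈ a → Commute Y (DD P u) ∧ trace (DD P u * Y) = 0}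
  add_mem' := by
    rintro x z ⟨hx, hx'⟩ ⟨hz, hz'⟩
    exact ⟨add_mem hx hz, fun u hu => ⟨(hx' u hu).1.add_left (hz' u hu).1, by
      rw [mul_add, trace_add, (hx' u hu).2, (hz' u hu).2, add_zero]⟩⟩
  zero_mem' := ⟨zero_mem _, fun u _ => ⟨Commute.zero_left _, by simp⟩⟩
  smul_mem' := by
    rintro c x ⟨hx, hx'⟩
    exact ⟨Submodule.smul_mem _ c hx, fun u hu => ⟨(hx' u hu).1.smul_left c, by
      rw [mul_smul_comm, trace_smul, (hx' u hu).2, smul_zero]⟩⟩

theorem w0_of (hE : EngStmt) (hR : RootStmt) (hJ : WjStmt) : W0Stmt := by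
  intro n m G P hG hT N hN hN' hc
  refine (hJ n G hG).2.2.2.2 N hN fun B hB => ?_
  have hm : ∀ Y ∈ lie G, IsNilpotent Y → (∀ u, DD P u ∈ lie G → Commute Y (DD P u)) →
      Y ∈ wjZ (lie G) P := fun Y hY hY' h =>
    ⟨hY, fun u hu => ⟨h u hu, trace_mul_nilp (h u hu).symm hY'⟩⟩
  have hs : ∀ {v : Fin m → ℂ} {Y : Mat n}, (∀ u, DD P u ∈ lie G → Commute (DD P v + Y) (DD P u)) →
      ∀ u, DD P u ∈ lie G → Commute Y (DD P u) := fun {v Y} h u hu => by
    simpa using (h u hu).sub_left (DD_commute hT.coi v u)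
  have hZ : NilProd (wjZ (lie G) P) := by
    refine hE n _ (fun X hX Y hY => ⟨hG.alie.br X hX.1 Y hY.1, fun u hu =>
      ⟨((hX.2 u hu).1.mul_left (hY.2 u hu).1).sub_left ((hY.2 u hu).1.mul_left (hX.2 u hu).1), ?_⟩⟩)
      fun Y hY => ?_
    · rw [mul_sub, trace_sub, ← mul_assoc _ Y, ← (hY.2 u hu).1.eq, mul_assoc Y, trace_mul_comm Y,
        mul_assoc, sub_self]
    · obtain ⟨v, M, hv, hM, hM', rfl⟩ := hT.max Y hY.1 fun u hu => (hY.2 u hu).1
      have h1 := hT.rat v hv (starRingEnd ℂ).toAddMonoidHom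
      exact wj_eq_nilp hT.coi hM' (hs (fun u hu => (hY.2 u hu).1) _ h1).symm (hY.2 _ h1).2
  have hB' := hR n (Fin m) P (tor (lie G) P) (lie G) hT.coi
    (fun u hu A hA => hG.alie.br _ hu A hA) hB
  clear hB
  induction hB' using Submodule.span_induction with
  | mem B hB =>
    obtain ⟨hB, i, j, hw⟩ := hB
    by_cases h : ∀ u, DD P u ∈ lie G → u i = u j
    · have h1 : ∀ u, DD P u ∈ lie G → Commute B (DD P u) := fun u hu => by
        have := hw u hu
        rw [h u hu, sub_self, zero_smul, sub_eq_zero] at this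
        exact this.symm
      obtain ⟨v, M, hv, hM, hM', rfl⟩ := hT.max B hB h1
      rw [mul_add, trace_add, trace_mul_comm, trace_mul_nilp (hc v hv).symm hN', zero_add]
      exact wj_trace_nilp (wj_nilp_mul hZ (hm N hN hN' hc) (hm M hM hM' (hs h1)))
    · push Not at h
      obtain ⟨u, hu, hne⟩ := h
      have h1 := congrArg (fun X => trace (N * X)) (hw u hu)
      simp only [mul_smul_comm, trace_smul, smul_eq_mul] at h1
      rw [mul_sub, trace_sub, ← mul_assoc, (hc u hu).eq, ← mul_assoc N, trace_mul_comm (N * B),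
        mul_assoc, sub_self] at h1
      exact (mul_eq_zero.1 h1.symm).resolve_left (sub_ne_zero.2 hne)
  | zero => simp
  | add a b _ _ ha hb => rw [mul_add, trace_add, ha, hb, add_zero]
  | smul c a _ ha => rw [mul_smul_comm, trace_smul, ha, smul_zero]

theorem wj_det_unit (hJ : NilProd (radJ G)) {a j : Mat n} (ha : a ∈ algA G) (hj : j ∈ radJ G)
    (hu : a.det ≠ 0) : (a + j).det = a.det := by
  have h1 : IsUnit a := (isUnit_iff_isUnit_det a).2 hu.isUnit
  obtain ⟨b, hb⟩ := LinearMap.surjective_of_injective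
    (f := LinearMap.mulLeft ℂ (⟨a, ha⟩ : wjAlg G))
    (fun x y e => Subtype.ext (h1.mul_left_cancel (congrArg Subtype.val e))) 1
  have h2 : a * b.1 = 1 := congrArg Subtype.val hb
  rw [show a + j = a * (1 + b.1 * j) by rw [mul_add, mul_one, ← mul_assoc, h2, one_mul], det_mul,
    det_one_add_nilp (hJ.nilp (wj_ideal hj b.2).2), mul_one]

theorem wj_det (hJ : NilProd (radJ G)) {a j : Mat n} (ha : a ∈ algA G) (hj : j ∈ radJ G) :
    (a + j).det = a.det := by
  by_cases hu : a.det = 0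
  · by_contra h
    have := wj_det_unit hJ (add_mem ha hj.1) (neg_mem hj) (by rwa [hu] at h)
    rw [add_neg_cancel_right] at this
    exact h this.symm
  · exact wj_det_unit hJ ha hj hu

/-- The elements that commute with `E` modulo the radical. -/
def wjC (G : Subgroup (Gl n)) (E : Mat n) : Subalgebra ℂ (Mat n) where
  carrier := {y | y ∈ algA G ∧ E * y - y * E ∈ radJ G}
  mul_mem' := by
    rintro x y ⟨hx, hx'⟩ ⟨hy, hy'⟩
    refine ⟨wj_mul_mem hx hy, ?_⟩
    rw [show E * (x * y) - x * y * E = (E * x - x * E) * y + x * (E * y - y * E) by noncomm_ring]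
    exact add_mem (wj_ideal hx' hy).1 (wj_ideal hy' hx).2
  add_mem' := by
    rintro x y ⟨hx, hx'⟩ ⟨hy, hy'⟩
    refine ⟨add_mem hx hy, ?_⟩
    rw [show E * (x + y) - (x + y) * E = (E * x - x * E) + (E * y - y * E) by noncomm_ring]
    exact add_mem hx' hy'
  algebraMap_mem' c := ⟨(wjAlg G).algebraMap_mem c, by
    rw [Algebra.commutes, sub_self]; exact zero_mem _⟩

open scoped Matrix.Norms.Operator in
theorem wj_deriv (E D : Mat n) :
    HasDerivAt (fun c : ℂ => E * (expU (c • D)).val * E + (1 - E)) (E * D * E) 0 := by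
  have := (((hasDerivAt_expU D 0).const_mul E).mul_const E).add_const (1 - E)
  rwa [zero_smul, expU_zero, Units.val_one, one_mul] at this

theorem cent_of (hJ : WjStmt) : CentStmt := by
  intro n G E hG hE hA h
  obtain ⟨h1, -, h2, -, -⟩ := hJ n G hG
  have h3 : ∀ g ∈ G, g.val ∈ wjC G E := hG.induction (one_mem (wjC G E)) fun g _ A hA' hg =>
    mul_mem hg (Algebra.adjoin_le (S := wjC G E)
      (Set.singleton_subset_iff.2 ⟨h2 hA', h A hA'⟩) (expU_mem_adjoin A))
  refine ⟨fun y hy => And.right (?_ : y ∈ wjC G E), fun D hD => ?_⟩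
  · refine (Submodule.span_le (p := Subalgebra.toSubmodule (wjC G E))).2 ?_ hy
    rintro _ ⟨g, hg, rfl⟩
    exact h3 g hg
  have h0 : E * 1 * E + (1 - E) = 1 := by rw [mul_one, hE, add_sub_cancel]
  have hE1 : 1 - E ∈ algA G := sub_mem (one_mem (wjAlg G)) hA
  have hM : ∀ x ∈ G, E * x.val * E + (1 - E) ∈ algA G := fun x hx =>
    add_mem (wj_mul_mem (wj_mul_mem hA (wj_val_mem hx)) hA) hE1
  have hC : Ch G fun g => (E * g.val * E + (1 - E)).det := by
    refine ⟨reg_det fun i j => reg_add (reg_mat_mul (reg_mat_mul (fun i j => reg_const (E i j))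
      reg_entry) (fun i j => reg_const (E i j)) i j) (reg_const _), ?_, fun x hx y hy => ?_⟩
    · rw [Units.val_one, h0, det_one]
    · have e1 : E * (1 - E) = 0 := by rw [mul_sub, mul_one, hE, sub_self]
      have e2 : (1 - E) * E = 0 := by rw [sub_mul, one_mul, hE, sub_self]
      have e3 : (1 - E) * (1 - E) = 1 - E := by rw [mul_sub, mul_one, e2, sub_zero]
      rw [← det_mul, ← wj_det h1 (wj_mul_mem (hM x hx) (hM y hy)) (wj_ideal (wj_ideal (wj_ideal
        (h3 x hx).2 hE1).1 (wj_val_mem hy)).1 hA).1, Units.val_mul]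
      congr 1
      have e4 : (E * x.val * E + (1 - E)) * (E * y.val * E + (1 - E)) =
          E * x.val * (E * E) * y.val * E + E * x.val * (E * (1 - E)) + (1 - E) * E * y.val * E +
            (1 - E) * (1 - E) := by noncomm_ring
      have e5 : (E * x.val - x.val * E) * (1 - E) =
          E * x.val * (1 - E) - x.val * (E * (1 - E)) := by noncomm_ring
      rw [e4, e5, hE, e1, e2, e3]
      noncomm_ring
  have h4 := hasDerivAt_det_one (by simpa using h0) (wj_deriv E D)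
  rw [funext fun c => (hD c).2 _ hC] at h4
  rw [← hE, mul_assoc, trace_mul_comm]
  exact h4.unique (hasDerivAt_const _ _)

end Pool.Agent.MP_2a37ed_ag

end MrgPart2

-- ======== part 3: formerly Pool.Agent.MP_2a37ed_ag.Tens
section MrgPart3

namespace Pool.Agent.MP_2a37ed_ag

open Matrix Polynomial

section Tp

variable {ι : Type} [Fintype ι]

theorem tens_mul (k : ℕ) (x y : Matrix ι ι ℂ) : tp k (x * y) = tp k x * tp k y := by
  classical
  ext I K
  simp only [tp, of_apply, mul_apply]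
  rw [Finset.prod_univ_sum, Fintype.piFinset_univ]
  exact Finset.sum_congr rfl fun J _ => Finset.prod_mul_distrib

omit [Fintype ι] in
theorem tens_diag [DecidableEq ι] (k : ℕ) (d : ι → ℂ) :
    tp k (diagonal d) = diagonal fun I : Fin k → ι => ∏ a, d (I a) := by
  ext I J
  simp only [tp, of_apply]
  by_cases h : I = J
  · subst h
    simp only [diagonal_apply_eq]
  · rw [diagonal_apply_ne _ h]
    obtain ⟨a, ha⟩ := Function.ne_iff.1 h
    exact Finset.prod_eq_zero (Finset.mem_univ a) (diagonal_apply_ne _ ha)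

omit [Fintype ι] in
theorem tens_one [DecidableEq ι] (k : ℕ) : tp k (1 : Matrix ι ι ℂ) = 1 := by
  rw [← diagonal_one, tens_diag]
  simp

theorem tens_slice (k : ℕ) (y : Matrix ι ι ℂ) (p : (Fin (k + 1) → ι) → ℂ) (J : Fin k → ι) :
    (fun i => (tp (k + 1) y *ᵥ p) (Fin.cons i J)) =
      ∑ J' : Fin k → ι, tp k y J J' • (y *ᵥ fun i => p (Fin.cons i J')) := by
  ext i
  simp only [mulVec, dotProduct, tp, of_apply, Finset.sum_apply, Pi.smul_apply, smul_eq_mul,
    Finset.mul_sum]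
  rw [← (Fin.consEquiv fun _ : Fin (k + 1) => ι).sum_comp, Fintype.sum_prod_type,
    Finset.sum_comm]
  refine Finset.sum_congr rfl fun J' _ => Finset.sum_congr rfl fun i' _ => ?_
  simp only [Fin.consEquiv_apply, Fin.prod_univ_succ, Fin.cons_zero, Fin.cons_succ]
  have e : (Fin.consEquiv fun _ : Fin (k + 1) => ι) (i', J') = Fin.cons i' J' := rfl
  rw [e]
  ring

theorem tens_cb {r : ℕ} (C : Matrix (Fin r) ι ℂ) (B : Matrix ι (Fin r) ℂ) :
    (C * B).det = ∑ J : Fin r → ι, (∏ a, C a (J a)) * (B.submatrix J id).det := by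
  classical
  have e : ∀ M : Matrix (Fin r) (Fin r) ℂ, M.det =
      ∑ σ : Equiv.Perm (Fin r), ((Equiv.Perm.sign σ : ℤ) : ℂ) * ∏ a, M a (σ a) := fun M => by
    rw [← det_transpose, det_apply']
    rfl
  simp only [e, mul_apply, Finset.mul_sum, submatrix_apply, id]
  rw [Finset.sum_comm]
  refine Finset.sum_congr rfl fun σ _ => ?_
  rw [Finset.prod_univ_sum, Fintype.piFinset_univ, Finset.mul_sum]
  refine Finset.sum_congr rfl fun J _ => ?_
  rw [Finset.prod_mul_distrib]
  ring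

theorem tens_plk [DecidableEq ι] (k : ℕ) (W U : Submodule ℂ (ι → ℂ)) (hU : U ≤ W)
    (hk : Module.finrank ℂ U = k + 1) :
    ∃ p ∈ Wk W k, p ≠ 0 ∧ ∀ (y : Matrix ι ι ℂ) (I : Fin (k + 1) → ι),
      (tp (k + 1) y *ᵥ p) I ≠ 0 →
      Function.Injective I ∧ ∀ v ∈ U, (∀ a, (y *ᵥ v) (I a) = 0) → v = 0 := by
  let u := Module.finBasisOfFinrankEq ℂ U hk
  let B : Matrix ι (Fin (k + 1)) ℂ := of fun i b => (u b : ι → ℂ) i
  have hB : ∀ c : Fin (k + 1) → ℂ, B *ᵥ c = ((∑ b, c b • u b : U) : ι → ℂ) := fun c => by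
    ext i
    simp only [B, mulVec, dotProduct, of_apply, Submodule.coe_sum, Submodule.coe_smul,
      Finset.sum_apply, Pi.smul_apply, smul_eq_mul, mul_comm]
  refine ⟨fun I => (B.submatrix I id).det, fun J => ?_, fun h0 => ?_, fun y I hI => ?_⟩
  · have e : (fun i => (B.submatrix (Fin.cons i J : Fin (k + 1) → ι) id).det) =
        B *ᵥ fun b => (-1) ^ (b : ℕ) * (B.submatrix J b.succAbove).det := by
      ext i
      rw [det_succ_row_zero]
      refine Finset.sum_congr rfl fun b _ => ?_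
      have e2 : (B.submatrix (Fin.cons i J : Fin (k + 1) → ι) id).submatrix Fin.succ b.succAbove =
          B.submatrix J b.succAbove := rfl
      rw [e2]
      simp only [submatrix_apply, Fin.cons_zero, id]
      ring
    rw [e, hB]
    exact hU (Submodule.coe_mem _)
  · have inj : LinearMap.ker (toLin' B) = ⊥ := by
      rw [LinearMap.ker_eq_bot']
      intro c hc
      rw [toLin'_apply, hB, Submodule.coe_eq_zero] at hc
      exact funext (Fintype.linearIndependent_iff.1 u.linearIndependent c hc)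
    obtain ⟨g, hg⟩ := (toLin' B).exists_leftInverse_of_injective inj
    have e : LinearMap.toMatrix' g * B = 1 := by
      rw [← LinearMap.toMatrix'_toLin' B, ← LinearMap.toMatrix'_comp, hg, LinearMap.toMatrix'_id]
    have k1 := tens_cb (LinearMap.toMatrix' g) B
    rw [e, det_one, Finset.sum_eq_zero fun J _ => by rw [congrFun h0 J, Pi.zero_apply, mul_zero]]
      at k1
    exact one_ne_zero k1
  · have e : (tp (k + 1) y *ᵥ fun I => (B.submatrix I id).det) I = (y.submatrix I id * B).det :=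
      (tens_cb (y.submatrix I id) B).symm
    rw [e] at hI
    refine ⟨fun a a' h => ?_, fun v hv h => ?_⟩
    · by_contra hne
      refine hI (det_zero_of_row_eq hne ?_)
      ext b
      simp only [mul_apply, submatrix_apply, h]
    · have e2 : v = B *ᵥ fun b => u.repr ⟨v, hv⟩ b := by rw [hB, u.sum_repr]
      have e3 : (y.submatrix I id * B) *ᵥ (fun b => u.repr ⟨v, hv⟩ b) = 0 := by
        rw [← mulVec_mulVec, ← e2]
        ext a
        exact h a
      rw [e2, eq_zero_of_mulVec_eq_zero hI e3, mulVec_zero]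

end Tp

theorem tens_stmt : TensStmt := by
  intro ι _ _ k W
  refine ⟨fun n G ρ hρ => ⟨⟨fun I J => ?_, ?_, fun x hx y hy => ?_⟩, fun hN p hp => ?_⟩,
    fun d => tens_diag _ d, fun y hy p hp J => ?_, tens_plk k W⟩
  · exact reg_prod Finset.univ (F := fun a g => ρ g (I a) (J a)) fun a _ => hρ.reg _ _
  · simp only [hρ.one, tens_one]
  · simp only [hρ.mul x hx y hy, tens_mul]
  · have k1 : ∀ J : Fin k → ι, (fun i => p (Fin.cons i J)) = 0 := fun J => by
      refine hN _ fun g hg => ?_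
      have e : tp k (ρ g⁻¹) * tp k (ρ g) = 1 := by rw [← tens_mul, hρ.inv_mul hg, tens_one]
      have e2 : (ρ g *ᵥ fun i => p (Fin.cons i J)) = ∑ J', tp k (ρ g⁻¹) J J' •
          ∑ J'', tp k (ρ g) J' J'' • (ρ g *ᵥ fun i => p (Fin.cons i J'')) := by
        simp only [Finset.smul_sum, smul_smul]
        rw [Finset.sum_comm]
        simp only [← Finset.sum_smul, ← mul_apply, e, one_apply, ite_smul, one_smul, zero_smul,
          Finset.sum_ite_eq, Finset.mem_univ, if_true]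
      rw [e2]
      refine W.sum_mem fun J' _ => W.smul_mem _ ?_
      rw [← tens_slice]
      exact hp g hg J'
    ext I
    have := congrFun (k1 (Fin.tail I)) (I 0)
    rwa [Fin.cons_self_tail] at this
  · rw [tens_slice]
    exact W.sum_mem fun J' _ => W.smul_mem _ (hy _ (hp J'))

theorem tens_two {n : ℕ} (V : Submodule ℂ (Mat n)) {F F' : Gl n → ℂ} (hF : F ∈ Reg n)
    (hF' : F' ∈ Reg n) {h h' : Gl n} (hh : h ∈ Unip V) (hh' : h' ∈ Unip V) (h0 : F h ≠ 0)
    (h0' : F' h' ≠ 0) : ∃ g ∈ Unip V, F g ≠ 0 ∧ F' g ≠ 0 := by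
  obtain ⟨x, hx, x0, x1⟩ := exists_curve (V := ⊤) (W := V) (fun _ _ _ => trivial)
    (fun _ _ _ _ => trivial) ((Unip V).mul_mem ((Unip V).inv_mem hh) hh')
  obtain ⟨c, hc⟩ := reg_ev x (reg_mul_left hF h)
  obtain ⟨c', hc'⟩ := reg_ev x (reg_mul_left hF' h)
  have q0 : c.map (ev 1 : La →+* ℂ) ≠ 0 := fun e => by
    have := hc (ev2 0 1)
    rw [ev2_eq_eval, e, eval_zero, gm_ev2, x0, map_one, mul_one] at this
    exact h0 this.symm
  have q1 : c'.map (ev 1 : La →+* ℂ) ≠ 0 := fun e => by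
    have := hc' (ev2 1 1)
    rw [ev2_eq_eval, e, eval_zero, gm_ev2, x1, gm_ofId_self, mul_inv_cancel_left] at this
    exact h0' this.symm
  obtain ⟨s, hs⟩ : ∃ s : ℂ, (c.map (ev 1 : La →+* ℂ) * c'.map (ev 1 : La →+* ℂ)).eval s ≠ 0 := by
    by_contra hn
    refine mul_ne_zero q0 q1 (Polynomial.funext fun s => ?_)
    rw [eval_zero]
    exact not_not.1 fun e => hn ⟨s, e⟩
  rw [eval_mul, ← ev2_eq_eval, ← ev2_eq_eval, hc, hc'] at hs
  exact ⟨_, (Unip V).mul_mem hh (hx.val s 1), left_ne_zero_of_mul hs, right_ne_zero_of_mul hs⟩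

theorem irr_stmt : IrrStmt := by
  intro n d V
  induction d with
  | zero => exact fun F _ _ => ⟨1, (Unip V).one_mem, fun j => j.elim0⟩
  | succ d ih =>
    intro F hF hne
    obtain ⟨h, hh, h0⟩ := ih (fun j => F j.succ) (fun j => hF _) fun j => hne _
    obtain ⟨h', hh', h0'⟩ := hne 0
    obtain ⟨g, hg, g0, g1⟩ := tens_two V
      (reg_prod Finset.univ (F := fun j : Fin d => F j.succ) fun j _ => hF _) (hF 0) hh hh'
      (Finset.prod_ne_zero_iff.2 fun j _ => h0 j) h0'
    refine ⟨g, hg, fun j => ?_⟩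
    induction j using Fin.cases with
    | zero => exact g1
    | succ j => exact Finset.prod_ne_zero_iff.1 g0 j (Finset.mem_univ j)

theorem gen_of (hT : TensStmt) (hI : IrrStmt) (hE : ExpaStmt) : GenStmt := by
  intro n m G H P ι _ _ ρ W ω hH hHG hEp hTor hρ hW hN hD
  obtain ⟨z, z1, z2, z3⟩ := hE n m (Fintype.card ι) G H P (fun k => Fin (k + 1) → ι)
    (fun k g => tp (k + 1) (ρ g)) (fun k => Wk W k) (fun k I b => ∑ a, ω (I a) b) hH hHG hEp hTor
    (fun k => ((hT ι k W).1 n G ρ hρ).1) (fun k h hh => (hT ι k W).2.2.1 _ (hW h hh))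
    (fun k => ((hT ι k W).1 n G ρ hρ).2 hN) (fun k u hu => by
      simp only [hD u hu, (hT ι k W).2.1]
      congr 1
      ext I
      rw [← Complex.exp_sum, Finset.sum_comm]
      simp only [Int.cast_sum, Finset.sum_mul])
  refine ⟨z, z1, z2, fun d U hU => ?_⟩
  have key : ∀ j, ∃ F ∈ Reg n, (∃ h ∈ Unip (lie H), F h ≠ 0) ∧ ∀ h, F h ≠ 0 → U j ≠ ⊥ →
      ∃ S : Finset ι, S.card = Module.finrank ℂ (U j) ∧ 1 ≤ ∑ i ∈ S, ∑ a, ω i a * z a ∧
        ∀ v ∈ U j, (∀ i ∈ S, (ρ h⁻¹ *ᵥ v) i = 0) → v = 0 := fun j => by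
    by_cases h0 : U j = ⊥
    · exact ⟨fun _ => 1, reg_const 1, ⟨1, Subgroup.one_mem _, one_ne_zero⟩,
        fun _ _ h => absurd h0 h⟩
    have r0 : Module.finrank ℂ (U j) ≠ 0 := fun e => h0 (Submodule.finrank_eq_zero.1 e)
    have r1 : Module.finrank ℂ (U j) ≤ Fintype.card ι := by
      simpa using Submodule.finrank_le (U j)
    obtain ⟨k, hk⟩ := Nat.exists_eq_succ_of_ne_zero r0
    obtain ⟨p, hp, p0, hq⟩ := (hT ι k W).2.2.2 (U j) (hU j) hk
    obtain ⟨h, hh, I, I1, I2⟩ := z3 ⟨k, by omega⟩ p hp p0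
    refine ⟨fun g => (tp (k + 1) (ρ g⁻¹) *ᵥ p) I,
      reg_inv (reg_mulVec ((hT ι k W).1 n G ρ hρ).1.reg p I), ⟨h, hh, I2⟩, fun g hg _ => ?_⟩
    obtain ⟨inj, ker⟩ := hq _ I hg
    refine ⟨Finset.univ.image I, ?_, ?_, fun v hv h => ker v hv fun a =>
      h _ (Finset.mem_image_of_mem I (Finset.mem_univ a))⟩
    · rw [Finset.card_image_of_injective _ inj, hk, Finset.card_univ, Fintype.card_fin]
    · rw [Finset.sum_image fun a _ b _ e => inj e, Finset.sum_comm]
      simpa only [Finset.sum_mul] using I1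
  choose F hF hne hS using key
  obtain ⟨h, hh, h0⟩ := hI n d (lie H) F hF hne
  exact ⟨h, hh, fun j => hS j h (h0 j)⟩

end Pool.Agent.MP_2a37ed_ag

end MrgPart3

-- ======== part 4: formerly Pool.Agent.MP_2a37ed_ag.Step
section MrgPart4

namespace Pool.Agent.MP_2a37ed_ag

open Matrix Polynomial Module

variable {ι : Type} [Fintype ι] [DecidableEq ι] {F : Submodule La (ι → La)} {a : Matrix ι ι La}
  {R : Matrix ι ι ℂ} {S : Finset ι}

theorem step_dn_T {d k : ℤ} {f : La} : Dn d (LaurentPolynomial.T k * f) ↔ Dn (d - k) f := by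
  refine ⟨fun h j hj => ?_, fun h j hj => ?_⟩
  · have := h (j + k) (by omega)
    rwa [coeff_T_mul, add_sub_cancel_right] at this
  · rw [coeff_T_mul]; exact h _ (by omega)

theorem step_dn_const (R : Matrix ι ι ℂ) {d : ℤ} {σ : ι → La} (h : ∀ i, Dn d (σ i)) (i : ι) :
    Dn d ((R.map (algebraMap ℂ La) *ᵥ σ) i) := by
  simpa using Dn.mulVec (a := R.map (algebraMap ℂ La)) (fun i j => dn_algebraMap (R i j)) h i

theorem step_mem_low {v : ι → ℂ} (hv : v ∈ Low F a) :
    ∃ σ ∈ F, (∀ i, Dn 0 ((a *ᵥ σ) i)) ∧ v = cf (a *ᵥ σ) 0 := by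
  induction hv using Submodule.span_induction with
  | mem v hv => exact hv
  | zero => exact ⟨0, F.zero_mem, fun i => by simpa using dn_zero 0, by ext i; simp [cf]⟩
  | add x y _ _ hx hy =>
    obtain ⟨σ, h1, h2, rfl⟩ := hx
    obtain ⟨τ, h3, h4, rfl⟩ := hy
    exact ⟨σ + τ, F.add_mem h1 h3, fun i => by rw [mulVec_add]; exact (h2 i).add (h4 i),
      by ext i; simp [cf, mulVec_add]⟩
  | smul c x _ hx =>
    obtain ⟨σ, h1, h2, rfl⟩ := hx
    exact ⟨c • σ, F.smul_of_tower_mem c h1, fun i => by rw [mulVec_smul]; exact (h2 i).smul c,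
      by ext i; simp [cf, mulVec_smul]⟩

/-- Sections with prescribed lowest coefficients on `S`. -/
theorem step_low (hc : S.card = finrank ℂ (Low F a))
    (hi : ∀ v ∈ Low F a, (∀ i ∈ S, (R *ᵥ v) i = 0) → v = 0) : ∃ k0 : ℕ, ∀ v : ι → ℂ,
      ∃ σ ∈ F, (∀ i, Up k0 (σ i)) ∧ (∀ i, Dn 0 ((a *ᵥ σ) i)) ∧
        ∀ i ∈ S, (R *ᵥ cf (a *ᵥ σ) 0) i = v i := by
  let L : Low F a →ₗ[ℂ] S → ℂ :=
    (LinearMap.funLeft ℂ ℂ Subtype.val).comp (R.mulVecLin.comp (Low F a).subtype)
  have hL : Function.Surjective L :=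
    (LinearMap.injective_iff_surjective_of_finrank_eq_finrank (by simp [hc])).1
      ((injective_iff_map_eq_zero L).2 fun v hv =>
        Subtype.ext (hi v v.2 fun i h => congrFun hv ⟨i, h⟩))
  choose w hw using fun i : S => hL (Pi.single i 1)
  choose σ h1 h2 h3 using fun i : S => step_mem_low (w i).2
  obtain ⟨M, hM⟩ := exists_bound fun x : S × ι => σ x.1 x.2
  refine ⟨M, fun v => ⟨∑ i : S, v i • σ i, F.sum_mem fun i _ => F.smul_of_tower_mem _ (h1 i),
    fun i => ?_, fun i => ?_, fun i hi => ?_⟩⟩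
  · rw [Finset.sum_apply]
    exact up_sum _ fun j _ => (hM (j, i)).1.smul _
  · rw [mulVec_sum, Finset.sum_apply]
    exact dn_sum _ fun j _ => by rw [mulVec_smul]; exact (h2 j i).smul _
  · have e : cf (a *ᵥ ∑ i : S, v i • σ i) 0 = (∑ j : S, v j • w j : Low F a) := by
      ext l
      simp [cf, mulVec_sum, mulVec_smul, h3]
    have := congrFun (map_sum L (fun j : S => v j • w j) Finset.univ) ⟨i, hi⟩
    rw [e]
    refine this.trans ?_
    simp [hw, Pi.single_apply]

/-- Sections with prescribed coefficients in a window. -/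
theorem step_win {k0 : ℕ} (h : ∀ v : ι → ℂ, ∃ σ ∈ F, (∀ i, Up k0 (σ i)) ∧
    (∀ i, Dn 0 ((a *ᵥ σ) i)) ∧ ∀ i ∈ S, (R *ᵥ cf (a *ᵥ σ) 0) i = v i) (M : ℤ) (r : ℕ)
    (c : ι → ℤ → ℂ) : ∃ σ ∈ F, (∀ i, Up (k0 + M) (σ i)) ∧ (∀ i, Dn (M - r) ((a *ᵥ σ) i)) ∧
      ∀ i ∈ S, ∀ j, M - r ≤ j → j < M → (R *ᵥ cf (a *ᵥ σ) j) i = c i j := by
  induction r generalizing c with
  | zero =>
    exact ⟨0, F.zero_mem, fun i => up_zero _, fun i => by simpa using dn_zero _,
      fun i _ j h1 h2 => by omega⟩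
  | succ r ih =>
    obtain ⟨τ, t1, t2, t3, t4⟩ := h fun i => c i (M - r - 1)
    have e : ∀ j, cf (a *ᵥ ((LaurentPolynomial.T (M - r - 1) : La) • τ)) j =
        cf (a *ᵥ τ) (j - (M - r - 1)) := fun j => by
      ext i
      simp only [cf, mulVec_smul, Pi.smul_apply, smul_eq_mul, coeff_T_mul]
    obtain ⟨σ, s1, s2, s3, s4⟩ := ih fun i j => c i j - (R *ᵥ cf (a *ᵥ τ) (j - (M - r - 1))) i
    refine ⟨(LaurentPolynomial.T (M - r - 1) : La) • τ + σ, F.add_mem (F.smul_mem _ t1) s1,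
      fun i => Up.add (((up_T _).mul (t2 i)).mono (by omega)) (s2 i), fun i => ?_,
      fun i hi j j1 j2 => ?_⟩
    · rw [mulVec_add, mulVec_smul]
      exact Dn.add (step_dn_T.2 ((t3 i).mono (by push_cast; omega)))
        ((s3 i).mono (by push_cast; omega))
    · have e' : cf (a *ᵥ ((LaurentPolynomial.T (M - r - 1) : La) • τ + σ)) j =
          cf (a *ᵥ τ) (j - (M - r - 1)) + cf (a *ᵥ σ) j := by
        rw [← e]; ext l; simp [cf, mulVec_add]
      rw [e', mulVec_add, Pi.add_apply]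
      by_cases hj : M - r ≤ j
      · rw [s4 i hi j hj j2, add_sub_cancel]
      · obtain rfl : j = M - r - 1 := by push_cast at j1; omega
        have : cf (a *ᵥ σ) (M - r - 1) = 0 := funext fun l => s3 l _ (by omega)
        rw [this, sub_self, t4 i hi]
        simp

theorem step_ker (hi : ∀ v ∈ Low F a, (∀ i ∈ S, (R *ᵥ v) i = 0) → v = 0) {σ : ι → La} (hσ : σ ∈ F)
    (r : ℕ) (h1 : ∀ i, Dn (-r) ((a *ᵥ σ) i))
    (h2 : ∀ i ∈ S, ∀ j, -(r : ℤ) ≤ j → j < 0 → (R *ᵥ cf (a *ᵥ σ) j) i = 0) (i : ι) :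
    Dn 0 ((a *ᵥ σ) i) := by
  induction r with
  | zero => simpa using h1 i
  | succ r ih =>
    have e : cf (a *ᵥ σ) (-(r + 1 : ℕ)) =
        cf (a *ᵥ ((LaurentPolynomial.T (r + 1 : ℕ) : La) • σ)) 0 := by
      ext l
      simp only [cf, mulVec_smul, Pi.smul_apply, smul_eq_mul, coeff_T_mul, zero_sub]
    have h3 := hi (cf (a *ᵥ σ) (-(r + 1 : ℕ))) (Submodule.subset_span ⟨_, F.smul_mem _ hσ,
      fun l => by rw [mulVec_smul]; exact step_dn_T.2 (by simpa using h1 l), e⟩)
      fun l hl => h2 l hl _ le_rfl (by omega)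
    refine ih (fun l j hj => ?_) fun l hl j j1 j2 => h2 l hl j (by omega) j2
    by_cases h4 : j = -(r + 1 : ℕ)
    · rw [h4]; exact congrFun h3 l
    · exact h1 l j (by omega)

/-- The coefficients in a window. -/
noncomputable def stepPhi (a : Matrix ι ι La) (R : Matrix ι ι ℂ) (B : Submodule ℂ (ι → La))
    (I : Finset (Σ _ : ι, ℤ)) : B →ₗ[ℂ] I → ℂ where
  toFun σ x := (R *ᵥ cf (a *ᵥ σ.1) x.1.2) x.1.1
  map_add' σ τ := by
    ext x
    have : ∀ j, cf (a *ᵥ (σ.1 + τ.1)) j = cf (a *ᵥ σ.1) j + cf (a *ᵥ τ.1) j := fun j => by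
      ext l; simp [cf, mulVec_add]
    simp only [Submodule.coe_add, this]
    simp [mulVec_add]
  map_smul' c σ := by
    ext x
    have : ∀ j, cf (a *ᵥ (c • σ.1)) j = c • cf (a *ᵥ σ.1) j := fun j => by
      ext l; simp [cf, mulVec_smul]
    simp only [Submodule.coe_smul, this]
    simp [mulVec_smul]

theorem step_mem_big {M : ℕ} {k : ℤ} {σ : ι → La} :
    σ ∈ Gam F ((LaurentPolynomial.T M : La) • a) k ↔
      σ ∈ F ∧ (∀ i, Up k (σ i)) ∧ ∀ i, Dn (-M) ((a *ᵥ σ) i) := by
  refine and_congr_right' (and_congr_right' (forall_congr' fun i => ?_))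
  rw [smul_mulVec, Pi.smul_apply, smul_eq_mul, step_dn_T, zero_sub]

theorem step_rank {k0 M : ℕ} (h : ∀ v : ι → ℂ, ∃ σ ∈ F, (∀ i, Up k0 (σ i)) ∧
    (∀ i, Dn 0 ((a *ᵥ σ) i)) ∧ ∀ i ∈ S, (R *ᵥ cf (a *ᵥ σ) 0) i = v i) {k : ℤ} (hk : k0 + M ≤ k)
    [FiniteDimensional ℂ (Gam F ((LaurentPolynomial.T M : La) • a) k)] {m : ι → ℤ}
    (hm : ∀ i, |m i| ≤ M) :
    (finrank ℂ (LinearMap.ker (stepPhi a R (Gam F ((LaurentPolynomial.T M : La) • a) k)
      (S.sigma fun i => Finset.Ico (-M : ℤ) (m i)))) : ℤ) + ∑ i ∈ S, (m i + M) =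
      finrank ℂ (Gam F ((LaurentPolynomial.T M : La) • a) k) := by
  classical
  set I := S.sigma fun i => Finset.Ico (-M : ℤ) (m i)
  have hs : Function.Surjective (stepPhi a R (Gam F ((LaurentPolynomial.T M : La) • a) k) I) := by
    intro c
    obtain ⟨σ, s1, s2, s3, s4⟩ := step_win h M (2 * M)
      fun i j => if hx : (⟨i, j⟩ : Σ _ : ι, ℤ) ∈ I then c ⟨_, hx⟩ else 0
    refine ⟨⟨σ, step_mem_big.2 ⟨s1, fun i => (s2 i).mono hk, fun i => (s3 i).mono (by omega)⟩⟩,
      funext fun x => ?_⟩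
    have h1 := Finset.mem_sigma.1 x.2
    have h2 := Finset.mem_Ico.1 h1.2
    have h3 := (abs_le.1 (hm x.1.1)).2
    exact (s4 _ h1.1 _ (by omega) (by omega)).trans (dif_pos x.2)
  rw [← (stepPhi a R _ I).finrank_range_add_finrank_ker, LinearMap.range_eq_top.2 hs, finrank_top,
    finrank_fintype_fun_eq_card, Fintype.card_coe, Finset.card_sigma]
  push_cast
  rw [add_comm]
  congr 1
  refine Finset.sum_congr rfl fun i _ => ?_
  have := (abs_le.1 (hm i)).1
  rw [Int.card_Ico]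
  omega

theorem step_of (hD : DegStmt) : StepStmt := by
  intro ι _ _ F a m R S δ δ' ha hR hc hi ⟨k1, h1⟩ ⟨k2, h2⟩
  obtain ⟨k0, h0⟩ := step_low hc hi
  obtain ⟨M, hM⟩ : ∃ M : ℕ, ∀ i, |m i| ≤ M := ⟨∑ i, (m i).natAbs, fun i => by
    rw [← Int.natCast_natAbs]
    exact_mod_cast Finset.single_le_sum (f := fun i => (m i).natAbs) (fun _ _ => Nat.zero_le _)
      (Finset.mem_univ i)⟩
  have hu : IsUnit ((LaurentPolynomial.T M : La) • a) := by
    rw [Matrix.isUnit_iff_isUnit_det, det_smul]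
    exact ((LaurentPolynomial.isUnit_T _).pow _).mul ((Matrix.isUnit_iff_isUnit_det _).1 ha)
  set k : ℕ := k0 + M + k1 + k2 with hk
  have := (hD ι _ hu).1 F k
  have e1 := step_rank h0 (k := k) (M := M) (by omega) hM
  have e2 := step_rank h0 (k := k) (M := M) (by omega) (m := fun _ => 0) fun _ => by simp
  have e3 := h1 k (by omega)
  have e4 := h2 k (by omega)
  set B := Gam F ((LaurentPolynomial.T M : La) • a) k
  have key : ∀ (X : Submodule ℂ (ι → La)) (Y : Submodule ℂ B), X ≤ Y.map B.subtype →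
      finrank ℂ X ≤ finrank ℂ Y := fun X Y h => by
    rw [← Submodule.finrank_map_subtype_eq B Y]
    exact Submodule.finrank_mono h
  have e5 : finrank ℂ (LinearMap.ker (stepPhi a R B
      (S.sigma fun _ => Finset.Ico (-M : ℤ) 0))) ≤ finrank ℂ (Gam F a k) := by
    have := (hD ι _ ha).1 F k
    rw [← Submodule.finrank_map_subtype_eq B]
    refine Submodule.finrank_mono ?_
    rintro _ ⟨σ, hσ, rfl⟩
    obtain ⟨s1, s2, s3⟩ := step_mem_big.1 σ.2
    exact ⟨s1, s2, step_ker hi s1 M s3 fun i h j j1 j2 => congrFun hσ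
      ⟨⟨i, j⟩, Finset.mem_sigma.2 ⟨h, Finset.mem_Ico.2 ⟨j1, j2⟩⟩⟩⟩
  have e6 := key (Gam F (dT m * R.map (algebraMap ℂ La) * a) k) (LinearMap.ker (stepPhi a R B
      (S.sigma fun i => Finset.Ico (-M : ℤ) (m i)))) fun σ ⟨s1, s2, s3⟩ => by
    have s4 : ∀ i, Dn (m i) ((R.map (algebraMap ℂ La) *ᵥ (a *ᵥ σ)) i) := fun i => by
      have := s3 i
      rw [← mulVec_mulVec, ← mulVec_mulVec, dT, mulVec_diagonal, step_dn_T] at this
      simpa using this
    refine ⟨⟨σ, step_mem_big.2 ⟨s1, s2, fun i => ?_⟩⟩, funext fun x => ?_, rfl⟩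
    · obtain ⟨R', hR'⟩ := hR.exists_left_inv
      have := step_dn_const R' (fun i => (s4 i).mono (abs_le.1 (hM i)).1) i
      rwa [mulVec_mulVec, ← Matrix.map_mul, hR', Matrix.map_one _ (map_zero _) (map_one _),
        one_mulVec] at this
    · exact (congrFun (cf_const_mulVec R _ _) _).symm.trans
        (s4 _ _ (Finset.mem_Ico.1 (Finset.mem_sigma.1 x.2).2).2)
  rw [Finset.sum_add_distrib] at e1 e2
  rw [Finset.sum_const_zero] at e2
  omega

end Pool.Agent.MP_2a37ed_ag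

end MrgPart4

-- ======== part 5: formerly Pool.Agent.MP_2a37ed_ag.Drift
section MrgPart5

namespace Pool.Agent.MP_2a37ed_ag

open Matrix Polynomial

noncomputable section

variable {ι : Type} [Fintype ι]

/-- Vectors of Laurent polynomials all of whose coefficients lie in `W`. -/
def driftWL (W : Submodule ℂ (ι → ℂ)) : Submodule La (ι → La) where
  carrier := {σ | ∀ τ, (fun i => ev τ (σ i)) ∈ W}
  add_mem' := by
    intro x y hx hy τ
    have := W.add_mem (hx τ) (hy τ)
    convert this using 1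
    funext i
    simp
  zero_mem' := by
    intro τ
    have := W.zero_mem
    convert this using 1
    funext i
    simp
  smul_mem' := by
    intro c x hx τ
    have := W.smul_mem (ev τ c) (hx τ)
    convert this using 1
    funext i
    simp

theorem drift_mem_iff (W : Submodule ℂ (ι → ℂ)) (σ : ι → La) :
    σ ∈ driftWL W ↔ ∀ j, cf σ j ∈ W := (cf_mem_iff W σ).symm

theorem drift_const {W : Submodule ℂ (ι → ℂ)} {R : Matrix ι ι ℂ} (hR : ∀ v ∈ W, R *ᵥ v ∈ W)
    {σ : ι → La} (hσ : σ ∈ driftWL W) : R.map (algebraMap ℂ La) *ᵥ σ ∈ driftWL W := by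
  rw [drift_mem_iff] at hσ ⊢
  intro j
  rw [cf_const_mulVec]
  exact hR _ (hσ j)

theorem drift_low_mono {F F' : Submodule La (ι → La)} (h : F ≤ F') (a : Matrix ι ι La) :
    Low F a ≤ Low F' a := by
  refine Submodule.span_mono ?_
  rintro v ⟨σ, hσ, h1, h2⟩
  exact ⟨σ, h hσ, h1, h2⟩

theorem drift_low_le {W : Submodule ℂ (ι → ℂ)} {F : Submodule La (ι → La)} {a : Matrix ι ι La}
    (hF : F ≤ driftWL W) (ha : ∀ σ ∈ driftWL W, a *ᵥ σ ∈ driftWL W) : Low F a ≤ W := by
  refine Submodule.span_le.2 ?_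
  rintro v ⟨σ, hσ, -, rfl⟩
  exact (drift_mem_iff W _).1 (ha σ (hF hσ)) 0

theorem drift_bot {F : Submodule La (ι → La)} (h : Module.finrank La F = 0) : F = ⊥ := by
  have : IsNoetherianRing La :=
    IsLocalization.isNoetherianRing (Submonoid.powers (X : ℂ[X])) La inferInstance
  exact Submodule.finrank_eq_zero.1 h

theorem drift_dg_bot {F : Submodule La (ι → La)} {a : Matrix ι ι La} {δ : ℤ}
    (h : Module.finrank La F = 0) (hδ : Dg F a δ) : δ = 0 := by
  obtain ⟨k0, hk⟩ := hδ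
  have h1 := hk k0 le_rfl
  have h2 : Gam F a k0 = ⊥ := by
    rw [eq_bot_iff]
    intro σ hσ
    have h3 : σ ∈ F := hσ.1
    rw [drift_bot h] at h3
    simpa using h3
  rw [h2, h] at h1
  simpa using h1.symm

variable [DecidableEq ι]

theorem drift_dT {W : Submodule ℂ (ι → ℂ)} {m : ι → ℤ}
    (hm : ∀ τ : ℂˣ, ∀ v ∈ W, (fun i => (τ : ℂ) ^ m i * v i) ∈ W)
    {σ : ι → La} (hσ : σ ∈ driftWL W) : dT m *ᵥ σ ∈ driftWL W := by
  intro τ
  have := hm τ⁻¹ _ (hσ τ)
  convert this using 1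
  funext i
  simp [dT, Matrix.mulVec_diagonal, mul_comm]

theorem drift_dT_unit (m : ι → ℤ) : IsUnit (dT m) := by
  refine IsUnit.of_mul_eq_one (dT (-m)) ?_
  simp only [dT, Matrix.diagonal_mul_diagonal, ← LaurentPolynomial.T_add, Pi.neg_apply, neg_neg,
    neg_add_cancel, LaurentPolynomial.T_zero]
  exact Matrix.diagonal_one

theorem drift_piv (hP : PlkStmt) (U : Submodule ℂ (ι → ℂ)) {R : Matrix ι ι ℂ} (hR : IsUnit R) :
    ∃ S : Finset ι, S.card = Module.finrank ℂ U ∧
      ∀ v ∈ U, (∀ i ∈ S, (R *ᵥ v) i = 0) → v = 0 := by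
  have hinj : Function.Injective (Matrix.mulVecLin R) := Matrix.mulVec_injective_iff_isUnit.2 hR
  obtain ⟨r, S, B, h⟩ := hP ι (U.map (Matrix.mulVecLin R))
  refine ⟨Finset.univ.image S, ?_, ?_⟩
  · rw [Finset.card_image_of_injective _ h.inj, Finset.card_univ, Fintype.card_fin, ← h.rk]
    exact (Submodule.equivMapOfInjective _ hinj U).finrank_eq.symm
  · intro v hv h0
    have h1 := h.eq (R *ᵥ v) ⟨v, hv, rfl⟩
    have h2 : (fun a => (R *ᵥ v) (S a)) = 0 := by
      funext a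
      exact h0 _ (Finset.mem_image_of_mem _ (Finset.mem_univ a))
    rw [h2, Matrix.mulVec_zero] at h1
    apply hinj
    simpa using h1

/-- The invariant of the potential argument. -/
def DriftInv (W : Submodule ℂ (ι → ℂ)) (Q : ℤ) (a : Matrix ι ι La) (B : ℤ) : Prop :=
  IsUnit a ∧ (∀ σ ∈ driftWL W, a *ᵥ σ ∈ driftWL W) ∧
    ∀ (F : Submodule La (ι → La)) (δ : ℤ), F ≤ driftWL W → Dg F a δ →
      δ + Q * (Module.finrank La F : ℤ) ^ 2 ≤ B

theorem drift_rk_le (hD : DegStmt) (F : Submodule La (ι → La)) :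
    Module.finrank La F ≤ Fintype.card ι := by
  rw [← (hD ι 1 isUnit_one).2.1 F]
  exact (Submodule.finrank_le _).trans (by simp)

theorem drift_near (hD : DegStmt) {W : Submodule ℂ (ι → ℂ)} {C B : ℤ} (hC : 0 ≤ C)
    {a : Matrix ι ι La} (h : DriftInv W (C + 2) a B) {F F' : Submodule La (ι → La)} {δ δ' : ℤ}
    (hF : F ≤ driftWL W) (hF' : F' ≤ driftWL W) (hδ : Dg F a δ) (hδ' : Dg F' a δ')
    (hr : Module.finrank La F = Module.finrank La F')
    (h1 : B - C - 1 ≤ δ + (C + 2) * (Module.finrank La F : ℤ) ^ 2)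
    (h2 : B - C - 1 ≤ δ' + (C + 2) * (Module.finrank La F' : ℤ) ^ 2) : Low F a = Low F' a := by
  obtain ⟨-, hlow, hex, -, -, hsub⟩ := hD ι a h.1
  obtain ⟨ε, hε⟩ := hex (F ⊔ F')
  obtain ⟨ε', hε'⟩ := hex (F ⊓ F')
  obtain ⟨hrk, hs⟩ := hsub F F'
  have h3 := hs δ δ' ε ε' hδ hδ' hε hε'
  have h4 := h.2.2 _ ε (sup_le hF hF') hε
  have h5 := h.2.2 _ ε' (inf_le_left.trans hF) hε'
  have h6 : Module.finrank La ↥(F ⊔ F') = Module.finrank La F := by
    rw [← hr] at h2 hrk
    have hrk' : (Module.finrank La ↥(F ⊔ F') : ℤ) + (Module.finrank La ↥(F ⊓ F') : ℤ) =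
        (Module.finrank La F : ℤ) + (Module.finrank La F : ℤ) := by exact_mod_cast hrk
    generalize (Module.finrank La ↥(F ⊓ F') : ℤ) = y at *
    have key : ∀ x r : ℤ, x + y = r + r → ε + (C + 2) * x ^ 2 ≤ B →
        B - C - 1 ≤ δ + (C + 2) * r ^ 2 → B - C - 1 ≤ δ' + (C + 2) * r ^ 2 → x = r := by
      intro x r e1 e2 e3 e4
      by_contra hne
      have hy : y = 2 * r - x := by linarith
      subst hy
      have hd : 1 ≤ (x - r) ^ 2 := by
        have : x - r ≠ 0 := sub_ne_zero.2 hne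
        have := sq_pos_of_ne_zero this
        omega
      nlinarith
    exact_mod_cast key _ _ hrk' h4 h1 h2
  have e1 : Low F a = Low (F ⊔ F') a :=
    Submodule.eq_of_le_of_finrank_eq (drift_low_mono le_sup_left a) (by rw [hlow, hlow, h6])
  have e2 : Low F' a = Low (F ⊔ F') a :=
    Submodule.eq_of_le_of_finrank_eq (drift_low_mono le_sup_right a) (by rw [hlow, hlow, h6, hr])
  rw [e1, e2]

theorem drift_step (hD : DegStmt) (hS : StepStmt) (hP : PlkStmt) {W : Submodule ℂ (ι → ℂ)}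
    {m : ι → ℤ} {κ : Type} {R : κ → Matrix ι ι ℂ} (hu : ∀ k, IsUnit (R k))
    (hR : ∀ k, ∀ v ∈ W, R k *ᵥ v ∈ W)
    (hm : ∀ τ : ℂˣ, ∀ v ∈ W, (fun i => (τ : ℂ) ^ m i * v i) ∈ W)
    (hU : ∀ (d : ℕ) (U : Fin d → Submodule ℂ (ι → ℂ)), (∀ j, U j ≤ W) →
      ∃ k, ∀ j, U j ≠ ⊥ → ∃ S : Finset ι, S.card = Module.finrank ℂ (U j) ∧ 1 ≤ ∑ i ∈ S, m i ∧
        ∀ v ∈ U j, (∀ i ∈ S, (R k *ᵥ v) i = 0) → v = 0)
    {a : Matrix ι ι La} {B : ℤ} (h : DriftInv W (∑ i, |m i| + 2) a B) :
    ∃ k, DriftInv W (∑ i, |m i| + 2) (dT m * (R k).map (algebraMap ℂ La) * a) (max (B - 1) 0) := by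
  classical
  set C : ℤ := ∑ i, |m i| with hCdef
  have hC : 0 ≤ C := Finset.sum_nonneg fun i _ => abs_nonneg _
  have hch : ∀ j : Fin (Fintype.card ι + 1), ∃ U : Submodule ℂ (ι → ℂ), U ≤ W ∧
      ∀ (F : Submodule La (ι → La)) (δ : ℤ), F ≤ driftWL W → Dg F a δ →
        Module.finrank La F = j → B - C - 1 ≤ δ + (C + 2) * (Module.finrank La F : ℤ) ^ 2 →
        Low F a = U := by
    intro j
    by_cases hj : ∃ (F : Submodule La (ι → La)) (δ : ℤ), F ≤ driftWL W ∧ Dg F a δ ∧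
        Module.finrank La F = j ∧ B - C - 1 ≤ δ + (C + 2) * (Module.finrank La F : ℤ) ^ 2
    · obtain ⟨F0, δ0, h1, h2, h3, h4⟩ := hj
      refine ⟨Low F0 a, drift_low_le h1 h.2.1, fun F δ g1 g2 g3 g4 => ?_⟩
      exact drift_near hD hC h g1 h1 g2 h2 (g3.trans h3.symm) g4 h4
    · exact ⟨⊥, bot_le, fun F δ g1 g2 g3 g4 => absurd ⟨F, δ, g1, g2, g3, g4⟩ hj⟩
  choose U hUW hUF using hch
  obtain ⟨k, hk⟩ := hU _ U hUW
  have hunit : IsUnit (dT m * (R k).map (algebraMap ℂ La) * a) :=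
    ((drift_dT_unit m).mul ((hu k).map (algebraMap ℂ La).mapMatrix)).mul h.1
  refine ⟨k, hunit, ?_, ?_⟩
  · intro σ hσ
    rw [← Matrix.mulVec_mulVec, ← Matrix.mulVec_mulVec]
    exact drift_dT hm (drift_const (hR k) (h.2.1 σ hσ))
  · intro F δ' hF hδ'
    obtain ⟨-, hlow, hex, -⟩ := hD ι a h.1
    obtain ⟨δ, hδ⟩ := hex F
    by_cases h0 : Module.finrank La F = 0
    · rw [drift_dg_bot h0 hδ', h0]
      simp
    refine le_trans ?_ (le_max_left _ _)
    by_cases hn : B - C - 1 ≤ δ + (C + 2) * (Module.finrank La F : ℤ) ^ 2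
    · have e := hUF ⟨Module.finrank La F, Nat.lt_succ_of_le (drift_rk_le hD F)⟩ F δ hF hδ rfl hn
      have hne : Low F a ≠ ⊥ := by
        intro hb
        apply h0
        rw [← hlow F, hb, finrank_bot]
      obtain ⟨S, s1, s2, s3⟩ := hk _ (e ▸ hne)
      rw [← e] at s1 s3
      have h1 := hS ι F a m (R k) S δ δ' h.1 (hu k) s1 s3 hδ hδ'
      have h2 := h.2.2 F δ hF hδ
      linarith
    · obtain ⟨S, s1, s3⟩ := drift_piv hP (Low F a) (hu k)
      have h1 := hS ι F a m (R k) S δ δ' h.1 (hu k) s1 s3 hδ hδ'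
      have h2 : -∑ i ∈ S, m i ≤ C := by
        rw [← Finset.sum_neg_distrib]
        exact (Finset.sum_le_sum fun i _ => neg_le_abs (m i)).trans
          (Finset.sum_le_sum_of_subset_of_nonneg (Finset.subset_univ S)
            fun i _ _ => abs_nonneg _)
      push Not at hn
      linarith

theorem drift_of (hD : DegStmt) (hS : StepStmt) (hP : PlkStmt) : DriftStmt := by
  intro ι _ _ W m κ R hu hR hm hU
  set Q : ℤ := ∑ i, |m i| + 2 with hQ
  have hQ2 : 2 ≤ Q := by
    have : 0 ≤ ∑ i, |m i| := Finset.sum_nonneg fun i _ => abs_nonneg _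
    linarith
  set B0 : ℤ := Q * (Fintype.card ι : ℤ) ^ 2 with hB0
  have main : ∀ N : ℕ, ∃ l : List κ, l.length = N ∧
      DriftInv W Q (l.map fun k => dT m * (R k).map (algebraMap ℂ La)).prod (max (B0 - N) 0) := by
    intro N
    induction N with
    | zero =>
      refine ⟨[], rfl, ?_⟩
      rw [List.map_nil, List.prod_nil]
      refine ⟨isUnit_one, fun σ hσ => by rwa [Matrix.one_mulVec], fun F δ _ hδ => ?_⟩
      have h1 := (hD ι 1 isUnit_one).2.2.2.1 F δ rfl hδ
      have h2 : (Module.finrank La F : ℤ) ≤ Fintype.card ι := by exact_mod_cast drift_rk_le hD F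
      have h3 : (Module.finrank La F : ℤ) ^ 2 ≤ (Fintype.card ι : ℤ) ^ 2 :=
        pow_le_pow_left₀ (by positivity) h2 2
      have h4 := mul_le_mul_of_nonneg_left h3 (by linarith : (0 : ℤ) ≤ Q)
      refine le_trans ?_ (le_max_left _ _)
      simp only [Nat.cast_zero, sub_zero]
      linarith
    | succ N ih =>
      obtain ⟨l, hl, h⟩ := ih
      obtain ⟨k, hk⟩ := drift_step hD hS hP hu hR hm hU h
      refine ⟨k :: l, by simp [hl], ?_⟩
      rw [List.map_cons, List.prod_cons]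
      have e : max (B0 - ((N + 1 : ℕ) : ℤ)) 0 = max (max (B0 - N) 0 - 1) 0 := by
        push_cast
        omega
      rw [e]
      exact hk
  refine ⟨B0.toNat, fun N hN => ?_⟩
  obtain ⟨l, hl, h⟩ := main N
  refine ⟨l, hl, fun σ h1 h2 h3 => ?_⟩
  by_contra hne
  obtain ⟨-, -, hex, -, hsec, -⟩ := hD ι _ h.1
  obtain ⟨e1, e2⟩ := hsec σ ⟨Submodule.mem_top, h2, h3⟩ hne
  obtain ⟨δ, hδ⟩ := hex (Submodule.span La {σ})
  have h4 := h.2.2 _ δ ((Submodule.span_singleton_le_iff_mem _ _).2 ((drift_mem_iff W σ).2 h1)) hδ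
  have h5 := e2 δ hδ
  rw [e1] at h4
  have h6 : max (B0 - N) 0 = 0 := by omega
  rw [h6] at h4
  simp only [Nat.cast_one, one_pow, mul_one] at h4
  linarith

end

end Pool.Agent.MP_2a37ed_ag

end MrgPart5

-- ======== part 6: formerly Pool.Agent.MP_2a37ed_ag.Win
section MrgPart6

namespace Pool.Agent.MP_2a37ed_ag

open Matrix Polynomial

theorem genp_stmt : GenpStmt := by
  intro κ ι _ _ _ Φ
  classical
  refine ⟨fun h => ?_, fun s σ h0 h => ?_⟩
  · let K := FractionRing ℂ[X]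
    let φ := algebraMap ℂ[X] K
    have hφ : Function.Injective φ := IsFractionRing.injective _ _
    have h1 : LinearMap.ker (Φ.map φ).mulVecLin = ⊥ := by
      rw [LinearMap.ker_eq_bot']
      intro v hv
      obtain ⟨b, hb⟩ := IsLocalization.exist_integer_multiples_of_finite (nonZeroDivisors ℂ[X]) v
      choose σ hσ using hb
      have h2 : σ = 0 := h σ (funext fun p => hφ (by
        rw [RingHom.map_mulVec, show φ ∘ σ = (b : ℂ[X]) • v from funext hσ, mulVec_smul,
          show Φ.map φ *ᵥ v = 0 from hv]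
        simp))
      funext i
      have h3 := hσ i
      rw [h2, Pi.zero_apply, map_zero, Algebra.smul_def, eq_comm, mul_eq_zero] at h3
      exact h3.resolve_left fun e => nonZeroDivisors.ne_zero b.2 (hφ (e.trans (map_zero φ).symm))
    obtain ⟨g, hg⟩ := LinearMap.exists_leftInverse_of_injective _ h1
    have h2 : LinearMap.toMatrix' g * Φ.map φ = 1 := by
      rw [← LinearMap.toMatrix'_id, ← hg, LinearMap.toMatrix'_comp]
      congr 1
      exact (LinearMap.toMatrix'_toLin' _).symm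
    obtain ⟨b, hb⟩ := IsLocalization.exist_integer_multiples_of_finite (nonZeroDivisors ℂ[X])
      fun p : ι × κ => LinearMap.toMatrix' g p.1 p.2
    choose L hL using hb
    refine ⟨Matrix.of fun i p => L (i, p), b, nonZeroDivisors.ne_zero b.2, ?_⟩
    ext1 i j
    refine hφ ?_
    have h3 := congrFun (congrFun h2 i) j
    rw [mul_apply] at h3 ⊢
    simp only [map_sum, map_mul, of_apply, show ∀ p, φ (L p) = _ from hL, smul_mul_assoc,
      ← Finset.smul_sum]
    simp only [map_apply] at h3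
    rw [h3, Matrix.smul_apply, one_apply, one_apply]
    split_ifs <;> simp [Algebra.smul_def, φ]
  · obtain ⟨i0, hi0⟩ := Function.ne_iff.1 h0
    obtain ⟨σ', h1, h2⟩ := Finset.extract_gcd σ (s := Finset.univ) ⟨i0, Finset.mem_univ _⟩
    have h3 : σ = Finset.univ.gcd σ • σ' := funext fun i => h1 i (Finset.mem_univ _)
    have h4 : Finset.univ.gcd σ ≠ 0 := fun e => h0 (by rw [h3, e, zero_smul])
    refine ⟨σ', ?_, ?_⟩
    · rw [h3, mulVec_smul] at h
      exact (smul_eq_zero.1 h).resolve_left h4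
    · by_contra hc
      push Not at hc
      exact not_isUnit_X_sub_C s (isUnit_of_dvd_one
        (h2 ▸ Finset.dvd_gcd fun i _ => dvd_iff_isRoot.2 (hc i)))

/-- The coefficient of `t ^ j` as a polynomial in the parameter. -/
noncomputable def win_sw (j : ℤ) (f : La[X]) : ℂ[X] :=
  f.sum fun k c => monomial k (c.coeff j)

theorem win_coeff (j : ℤ) (f : La[X]) (k : ℕ) : (win_sw j f).coeff k = (f.coeff k).coeff j := by
  rw [win_sw, Polynomial.sum, finsetSum_coeff, Finset.sum_eq_single k]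
  · simp
  · exact fun b _ hb => by simp [coeff_monomial, hb]
  · exact fun h => by simp [notMem_support_iff.1 h]

theorem win_add (j : ℤ) (f g : La[X]) : win_sw j (f + g) = win_sw j f + win_sw j g := by
  ext k; simp [win_coeff]

theorem win_sum {α : Type} (s : Finset α) (j : ℤ) (f : α → La[X]) :
    win_sw j (∑ a ∈ s, f a) = ∑ a ∈ s, win_sw j (f a) := by
  ext k; simp only [win_coeff, finsetSum_coeff, coeff_sum]

theorem win_mul (j : ℤ) (p : ℂ[X]) (f : La[X]) :
    win_sw j (p.map (algebraMap ℂ La) * f) = p * win_sw j f := by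
  ext k
  simp only [win_coeff, Polynomial.coeff_mul, coeff_sum, coeff_map, coeff_algebraMap_mul]

theorem win_eval (j : ℤ) (s : ℂ) (f : La[X]) : (win_sw j f).eval s = (evs s f).coeff j := by
  induction f using Polynomial.induction_on' with
  | add p q hp hq => simp [win_add, hp, hq]
  | monomial k c =>
    have : win_sw j (monomial k c) = monomial k (c.coeff j) := by
      ext l; rw [win_coeff, coeff_monomial, coeff_monomial]; split_ifs <;> simp
    rw [this, evs_apply, eval_monomial, eval_monomial, ← map_pow, mul_comm c, coeff_algebraMap_mul,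
      mul_comm]

variable {ι : Type} [Fintype ι] [DecidableEq ι]

/-- Sections with exponents in a window. -/
def win_V (W : Submodule ℂ (ι → ℂ)) (d m : ℤ) : Submodule ℂ (ι → La) where
  carrier := {σ | (∀ j, cf σ j ∈ W) ∧ (∀ i, Up d (σ i)) ∧ ∀ i, Dn m (σ i)}
  add_mem' := fun {x y} hx hy => ⟨fun j => by
      convert W.add_mem (hx.1 j) (hy.1 j) using 1
      funext i; simp [cf],
    fun i => (hx.2.1 i).add (hy.2.1 i), fun i => (hx.2.2 i).add (hy.2.2 i)⟩
  zero_mem' := ⟨fun j => by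
      convert W.zero_mem using 1
      funext i; simp [cf],
    fun _ => up_zero _, fun _ => dn_zero _⟩
  smul_mem' := fun c x hx => ⟨fun j => by
      convert W.smul_mem c (hx.1 j) using 1
      funext i; simp [cf],
    fun i => (hx.2.1 i).smul c, fun i => (hx.2.2 i).smul c⟩

omit [DecidableEq ι] in
theorem win_fin (W : Submodule ℂ (ι → ℂ)) (d m : ℤ) : FiniteDimensional ℂ (win_V W d m) := by
  let f : win_V W d m →ₗ[ℂ] (ι × Finset.Icc m d → ℂ) :=
    { toFun := fun σ p => (σ.1 p.1).coeff p.2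
      map_add' := fun x y => by funext p; simp
      map_smul' := fun c x => by funext p; simp }
  refine Module.Finite.of_injective f ((injective_iff_map_eq_zero f).2 fun σ h => ?_)
  refine Subtype.ext (funext fun i => la_ext fun j => ?_)
  by_cases h1 : d < j
  · simpa using σ.2.2.1 i j h1
  by_cases h2 : j < m
  · simpa using σ.2.2.2 i j h2
  exact congrFun h (i, ⟨j, Finset.mem_Icc.2 ⟨not_lt.1 h2, not_lt.1 h1⟩⟩)

theorem win_of (hG : GenpStmt) : WinStmt := by
  intro ι _ _ W d a a' ha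
  classical
  obtain ⟨M, hM⟩ := exists_boundC fun p : ι × ι => a' p.1 p.2
  obtain ⟨M', hM'⟩ := exists_boundC fun p : ι × ι => a p.1 p.2
  have := win_fin W d (-M)
  let b := Module.finBasis ℂ (win_V W d (-M))
  let κ := ι × Finset.Ico (-(M' : ℤ) + -M) 0
  let Φ : Matrix κ (Fin (Module.finrank ℂ (win_V W d (-M)))) ℂ[X] :=
    Matrix.of fun p α => win_sw p.2 ((a *ᵥ fun i => C ((b α).1 i)) p.1)
  let sg : (Fin (Module.finrank ℂ (win_V W d (-M))) → ℂ[X]) → ι → La[X] :=
    fun c i => ∑ α, (c α).map (algebraMap ℂ La) * C ((b α).1 i)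
  have h1 : ∀ c (p : κ), (Φ *ᵥ c) p = win_sw p.2 ((a *ᵥ sg c) p.1) := fun c p => by
    have : sg c = ∑ α, (c α).map (algebraMap ℂ La) • fun i => (C ((b α).1 i) : La[X]) := by
      funext i; simp [sg]
    rw [this, mulVec_sum, Finset.sum_apply p.1, win_sum]
    change ∑ α, Φ p α * c α = _
    refine Finset.sum_congr rfl fun α _ => ?_
    rw [mulVec_smul, Pi.smul_apply, smul_eq_mul, win_mul, mul_comm]
    rfl
  have h2 : ∀ c k, (fun i => (sg c i).coeff k) = (∑ α, (c α).coeff k • b α).1 := fun c k => by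
    funext i
    simp [sg, coeff_mul_C, Algebra.smul_def]
  have h3 : ∀ c i, DnC (-(M' : ℤ) + -M) ((a *ᵥ sg c) i) := fun c i =>
    dnC_sum _ fun l _ => (hM' (i, l)).2.mul fun k => by
      rw [congrFun (h2 c k) l]; exact (∑ α, (c α).coeff k • b α).2.2.2 l
  have h4 : ∀ s (c : _ → ℂ[X]), (fun i => evs s (sg c i)) = (∑ α, (c α).eval s • b α).1 := by
    intro s c
    funext i
    simp only [sg, evs_apply, eval_finsetSum, eval_mul, eval_C, eval_map, eval₂_hom]
    simp [Algebra.smul_def]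
  have h5 : ∀ s c i, evs s ((a *ᵥ sg c) i) = (a.map (evs s) *ᵥ fun l => evs s (sg c l)) i :=
    fun s c i => RingHom.map_mulVec (evs s : La[X] →+* La) a (sg c) i
  have hI : ∀ s, InjW W d (a.map (evs s)) ↔
      ∀ c, (∀ p, ((Φ *ᵥ c) p).eval s = 0) → ∀ α, (c α).eval s = 0 := fun s => by
    refine ⟨fun h c hc => ?_, fun h σ a1 a2 a3 => ?_⟩
    · have hv := (∑ α, (c α).eval s • b α).2
      rw [← h4] at hv
      have := h _ hv.1 hv.2.1 fun i j hj => by
        rw [← h5]
        by_cases e : j < -(M' : ℤ) + -M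
        · exact (h3 c i).evs s j e
        · rw [← win_eval, ← h1 c (i, ⟨j, Finset.mem_Ico.2 ⟨not_lt.1 e, hj⟩⟩), hc]
      rw [h4] at this
      exact Fintype.linearIndependent_iff.1 b.linearIndependent _ (Subtype.ext this)
    · have e1 : σ = a'.map (evs s) *ᵥ (a.map (evs s) *ᵥ σ) := by
        rw [mulVec_mulVec, ← Matrix.map_mul, ha, Matrix.map_one _ (map_zero _) (map_one _),
          one_mulVec]
      have hv : σ ∈ win_V W d (-M) := ⟨a1, a2, fun i => by
        rw [e1, ← add_zero (-(M : ℤ))]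
        exact Dn.mulVec (fun i l => (hM (i, l)).2.evs s) a3 i⟩
      have e2 := h4 s fun α => C (b.repr ⟨σ, hv⟩ α)
      simp only [eval_C, b.sum_repr] at e2
      have e3 := h (fun α => C (b.repr ⟨σ, hv⟩ α)) fun p => by
        rw [h1, win_eval, h5, e2]
        exact a3 _ _ (Finset.mem_Ico.1 p.2.2).2
      simp only [eval_C] at e3
      exact congrArg Subtype.val (b.forall_coord_eq_zero_iff.1 e3)
  have hP : ∀ e, Pe W d e a ↔
      ∀ c, (∀ p, X ^ (e + 1) ∣ (Φ *ᵥ c) p) → ∀ α, (c α).eval 0 = 0 := fun e => by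
    simp only [← coeff_zero_eq_eval_zero, X_pow_dvd_iff]
    refine ⟨fun h c hc => ?_, fun h σ a1 a2 a3 => ?_⟩
    · have := h (sg c) (fun k j => by rw [h2]; exact (∑ α, (c α).coeff k • b α).2.1 j)
        (fun i k => by rw [congrFun (h2 c k) i]; exact (∑ α, (c α).coeff k • b α).2.2.1 i)
        fun i k hk j hj => by
          by_cases e : j < -(M' : ℤ) + -M
          · exact h3 c i k j e
          · rw [← win_coeff, ← h1 c (i, ⟨j, Finset.mem_Ico.2 ⟨not_lt.1 e, hj⟩⟩),
              hc _ k (Nat.lt_succ_of_le hk)]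
      exact Fintype.linearIndependent_iff.1 b.linearIndependent _
        (Subtype.ext ((h2 c 0).symm.trans (funext this)))
    · have hv : ∀ k ≤ e, (fun i => (σ i).coeff k) ∈ win_V W d (-M) := fun k hk =>
        ⟨a1 k, fun i => a2 i k, fun i => by
          have e1 : σ i = ∑ l, a' i l * (a *ᵥ σ) l := by
            conv_lhs => rw [← one_mulVec σ, ← ha, ← mulVec_mulVec]
            rfl
          simp only [e1, finsetSum_coeff, Polynomial.coeff_mul]
          refine dn_sum _ fun l _ => dn_sum _ fun q hq => ?_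
          rw [← add_zero (-(M : ℤ))]
          exact ((hM (i, l)).2 _).mul (a3 l _ ((Finset.HasAntidiagonal.antidiagonal.snd_le hq).trans hk))⟩
      let c : _ → ℂ[X] := fun α => ∑ k : Fin (e + 1),
        monomial k (b.repr ⟨_, hv k (Nat.le_of_lt_succ k.2)⟩ α)
      have e1 : ∀ k (hk : k ≤ e) α, (c α).coeff k = b.repr ⟨_, hv k hk⟩ α := fun k hk α => by
        rw [finsetSum_coeff, Finset.sum_eq_single (⟨k, Nat.lt_succ_of_le hk⟩ : Fin (e + 1))]
        · simp
        · exact fun l _ hl => by rw [coeff_monomial, if_neg fun e => hl (Fin.ext e)]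
        · simp
      have e2 : ∀ k ≤ e, ∀ i, (sg c i).coeff k = (σ i).coeff k := fun k hk i => by
        rw [congrFun (h2 c k) i]
        simp only [e1 k hk, b.sum_repr]
      have e3 := h c fun p k hk => by
        rw [h1, win_coeff, ← a3 p.1 k (Nat.le_of_lt_succ hk) p.2 (Finset.mem_Ico.1 p.2.2).2]
        simp only [mulVec, dotProduct, finsetSum_coeff, Polynomial.coeff_mul]
        congr 2
        refine Finset.sum_congr rfl fun l _ => Finset.sum_congr rfl fun q hq => ?_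
        rw [e2 _ ((Finset.HasAntidiagonal.antidiagonal.snd_le hq).trans (Nat.le_of_lt_succ hk))]
      simp only [e1 0 (Nat.zero_le e)] at e3
      exact congrFun (congrArg Subtype.val (b.forall_coord_eq_zero_iff.1 e3))
  obtain ⟨g1, g2⟩ := hG κ _ Φ
  have key : ∀ s, (∀ c, Φ *ᵥ c = 0 → ∀ α, (c α).eval s = 0) → ∃ δ : ℂ[X], δ ≠ 0 ∧
      ∀ q c, (∀ p, q ∣ (Φ *ᵥ c) p) → ∀ α, q ∣ δ * c α := fun s h => by
    obtain ⟨L, δ, h0, hL⟩ := g1 fun σ hσ => by
      by_contra e
      obtain ⟨σ', b1, i, b2⟩ := g2 s σ e hσ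
      exact b2 (h σ' b1 i)
    refine ⟨δ, h0, fun q c hc α => ?_⟩
    have : δ * c α = (L *ᵥ (Φ *ᵥ c)) α := by
      rw [mulVec_mulVec, hL, smul_mulVec, one_mulVec]; rfl
    rw [this]
    exact Finset.dvd_sum fun p _ => (hc p).mul_left _
  refine ⟨fun s h => ?_, fun e h => ?_⟩
  · obtain ⟨δ, h0, hδ⟩ := key s fun c hc => (hI s).1 h c fun p => by simp [hc]
    refine ⟨δ.natDegree, (hP _).2 fun c hc α => ?_⟩
    by_contra e
    have := natDegree_le_of_dvd (prime_X.pow_dvd_of_dvd_mul_right _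
      (fun e' => e (by rw [← coeff_zero_eq_eval_zero]; exact X_dvd_iff.1 e')) (hδ _ c hc α)) h0
    simp at this
  · obtain ⟨δ, h0, hδ⟩ := key 0 fun c hc => (hP e).1 h c fun p => by simp [hc]
    refine (finite_setOfPred_isRoot h0).subset fun s hs => ?_
    by_contra e
    refine hs ((hI s).2 fun c hc α => ?_)
    have := dvd_iff_isRoot.1 (hδ (X - C s) c (fun p => dvd_iff_isRoot.2 (hc p)) α)
    rw [IsRoot, eval_mul] at this
    exact (mul_eq_zero.1 this).resolve_left e

end Pool.Agent.MP_2a37ed_ag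

end MrgPart6

-- ======== part 7: formerly Pool.Agent.MP_2a37ed_ag.Trans
section MrgPart7

/-! PROJECT EPI, module TRANS. -/

namespace Pool.Agent.MP_2a37ed_ag

open Matrix Polynomial

variable {n : ℕ}

theorem trans_cancel {A : Type} [CommRing A] (g : GL (Fin n) A) (σ : Fin n → A) :
    g.valᵀ *ᵥ ((g⁻¹).valᵀ *ᵥ σ) = σ := by
  rw [mulVec_mulVec, ← transpose_mul, Units.inv_mul, transpose_one, one_mulVec]

theorem trans_stmt : TransStmt := by
  intro n e y γm b γp hm hp hc hy σ _ hσ hb i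
  obtain ⟨w, hw⟩ := cg_iff_exists.1 hc
  have h0 := hy ((γm⁻¹).valᵀ *ᵥ σ) (fun _ _ => Submodule.mem_top) (fun i => by
    rw [mulVec, dotProduct]
    refine upC_sum _ fun j _ => ?_
    have := (hm j i).2.mul (hσ j)
    rwa [zero_add] at this) fun i k hk => by
      rw [hw, transpose_add, add_mulVec, Units.val_mul, Units.val_mul, transpose_mul,
        transpose_mul, ← mulVec_mulVec, ← mulVec_mulVec, trans_cancel, transpose_smul, smul_mulVec,
        Pi.add_apply, Pi.smul_apply, smul_eq_mul, coeff_add, coeff_X_pow_mul', if_neg (by omega),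
        add_zero, mulVec, dotProduct, finsetSum_coeff]
      refine dn_sum _ fun j _ => ?_
      rw [Polynomial.coeff_mul]
      refine dn_sum _ fun c hc => ?_
      have h1 := Finset.HasAntidiagonal.mem_antidiagonal.1 hc
      have := ((hp j i).1 c.1).mul (hb j c.2 (by omega))
      rwa [zero_add] at this
  rw [← trans_cancel γm σ, mulVec, dotProduct, finsetSum_coeff]
  exact Finset.sum_eq_zero fun j _ => by rw [mul_coeff_zero, h0, mul_zero]

theorem injj_stmt : InjjStmt := by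
  rintro n J y w ⟨K, hK⟩ hJ σ - hσ hp
  set wL : GL (Fin n) La := gm (Algebra.ofId ℂ La) w with hwL
  set j : Matrix (Fin n) (Fin n) La := (wL⁻¹ * y).val - 1 with hj
  have h1 : InL J j := (inL_iff J j).2 fun τ => by
    have e : j.map (ev τ) = (w⁻¹ * gm (ev τ) y).val - 1 := by
      rw [← gm_ofId_self (ev τ) w, ← map_inv, ← map_mul, gm_val, hj, Matrix.map_sub _ (map_sub _),
        Matrix.map_one _ (map_zero _) (map_one _)]
    rw [e]
    exact hJ τ
  have hc : ∀ M : Mat n, ∀ a b, Up 0 ((M.map (algebraMap ℂ La))ᵀ a b) ∧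
      Dn 0 ((M.map (algebraMap ℂ La))ᵀ a b) := fun M a b => ⟨up_algebraMap _, dn_algebraMap _⟩
  have h2 : ∀ i, Up (-1) ((wL.valᵀ *ᵥ σ) i) := fun i => by
    have := Up.mulVec (fun a b => (hc w.val a b).1) hσ i
    rwa [zero_add] at this
  have h3 : y.valᵀ *ᵥ σ = wL.valᵀ *ᵥ σ + jᵀ *ᵥ (wL.valᵀ *ᵥ σ) := by
    rw [mulVec_mulVec, ← transpose_mul, ← add_mulVec, ← transpose_add, hj, mul_sub, mul_one,
      ← Units.val_mul, mul_inv_cancel_left, add_sub_cancel]
  rw [h3] at hp
  suffices h : wL.valᵀ *ᵥ σ = 0 by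
    rw [← trans_cancel wL⁻¹ σ, inv_inv, h, mulVec_zero]
  generalize wL.valᵀ *ᵥ σ = s at h2 hp
  obtain ⟨S, -, hS⟩ := mat_eq_sum j
  have key : ∀ m k, k + m = K → ∀ l : List (Mat n), l.length = k → (∀ x ∈ l, x ∈ J) →
      (l.prod.map (algebraMap ℂ La))ᵀ *ᵥ s = 0 := by
    intro m
    induction m with
    | zero =>
      intro k hk l hl hl'
      rw [hK l (by omega) hl', Matrix.map_zero _ (map_zero _), transpose_zero, zero_mulVec]
    | succ m ih =>
      intro k hk l hl hl'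
      have h4 : (l.prod.map (algebraMap ℂ La))ᵀ *ᵥ (jᵀ *ᵥ s) = 0 := by
        rw [mulVec_mulVec, ← transpose_mul, hS, Finset.sum_mul, transpose_sum, sum_mulVec]
        refine Finset.sum_eq_zero fun i _ => ?_
        have := ih (k + 1) (by omega) (cfM j i :: l) (by rw [List.length_cons, hl])
          (List.forall_mem_cons.2 ⟨h1 i, hl'⟩)
        rw [List.prod_cons, Matrix.map_mul] at this
        rw [smul_mul_assoc, transpose_smul, smul_mulVec, this, smul_zero]
      funext i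
      have h5 := Dn.mulVec (fun a b => (hc l.prod a b).2) hp i
      rw [mulVec_add, h4, add_zero (_ *ᵥ s)] at h5
      exact eq_zero_of_up_dn (Up.mulVec (fun a b => (hc l.prod a b).1) h2 i) h5 (by norm_num)
  have := key K 0 (zero_add K) [] rfl (by simp)
  rwa [List.prod_nil, Matrix.map_one _ (map_zero _) (map_one _), transpose_one, one_mulVec] at this

theorem curve_stmt : CurveStmt := by
  intro n G V Θ l l' hG hV hΘ
  induction l generalizing l' with
  | nil =>
    intro hl _ _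
    obtain rfl := List.length_eq_zero_iff.1 hl.symm
    exact ⟨1, good_one, map_one _, map_one _⟩
  | cons h l ih =>
    intro hl h1 h2
    obtain _ | ⟨g, l'⟩ := l'
    · simp at hl
    obtain ⟨hh, h1⟩ := List.forall_mem_cons.1 h1
    obtain ⟨hg, h2⟩ := List.forall_mem_cons.1 h2
    obtain ⟨y, hy, y0, y1⟩ := ih l' (by simpa using hl) h1 h2
    obtain ⟨x, hx, x0, x1⟩ := exists_curve (W := V) (V := nsp V)
      (fun N hN hN' => Submodule.subset_span ⟨hN, hN'⟩) (fun g hg => hV g (hG hg))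
      (mul_mem (inv_mem hh) hg)
    refine ⟨gm (Algebra.ofId ℂ La[X]) h * x * gm cs Θ * y, (((good_const' (hG hh)).mul hV
      (hx.mono hG le_rfl)).mul hV (good_const hΘ)).mul hV hy, ?_, ?_⟩
    · rw [map_mul, map_mul, map_mul, gm_ofId, x0, gm_evs_cs, y0, mul_one]
      rfl
    · rw [map_mul, map_mul, map_mul, gm_ofId, x1, gm_evs_cs, y1, ← map_mul, mul_inv_cancel_left]
      rfl

/-- The conclusion of `ExpoStmt` with free conditions. -/
def ExpoR (k : ℕ) (Γ : Subgroup (Gl n)) (V' : Submodule ℂ (Mat n)) (a b : Prop)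
    (Z : Matrix (Fin n) (Fin n) La) : Prop :=
  ∃ E : GL (Fin n) La[X], Good Γ V' E ∧ Cg (k + 1) E.val (1 + (X ^ k : La[X]) • Z.map cs) ∧
    (a → NegG E) ∧ (b → PosG E)

section

variable {k : ℕ} {Γ : Subgroup (Gl n)} {V V' : Submodule ℂ (Mat n)} {a b : Prop}

theorem expo_zero : ExpoR k Γ V' a b 0 :=
  ⟨1, good_one, by
    rw [Matrix.map_zero _ (map_zero _), smul_zero, add_zero]
    exact Cg.refl _ _, fun _ => negG_one, fun _ => posG_one⟩

theorem expo_add (hk : 1 ≤ k) (hV : ∀ g ∈ Γ, ∀ A ∈ V', cj g A ∈ V')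
    {Z Z' : Matrix (Fin n) (Fin n) La} (h : ExpoR k Γ V' a b Z) (h' : ExpoR k Γ V' a b Z') :
    ExpoR k Γ V' a b (Z + Z') := by
  obtain ⟨E, e1, e2, e3, e4⟩ := h
  obtain ⟨F, f1, f2, f3, f4⟩ := h'
  refine ⟨E * F, e1.mul hV f1, (e2.mul f2).trans (cg_iff_exists.2 ?_),
    fun h => (e3 h).mul (f3 h), fun h => (e4 h).mul (f4 h)⟩
  obtain ⟨k, rfl⟩ := Nat.exists_eq_add_of_le' hk
  refine ⟨(X ^ k : La[X]) • (Z.map cs * Z'.map cs), ?_⟩
  rw [Matrix.map_add _ (map_add _), smul_add, add_mul, mul_add, mul_add, one_mul, one_mul, mul_one,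
    smul_mul_smul_comm, smul_smul, ← pow_add, ← pow_add, show k + 1 + 1 + k = k + 1 + (k + 1) by omega]
  abel

theorem expo_gen (hk : 1 ≤ k) {j : ℤ} (ha : a → j ≤ 0) (hb : b → 0 ≤ j) {N : Mat n}
    (hN : IsNilpotent N) (h1 : N ∈ V') (h2 : ∀ c : ℂ, expU (c • N) ∈ Γ) :
    ExpoR k Γ V' a b ((LaurentPolynomial.T j : La) • N.map (algebraMap ℂ La)) := by
  refine ⟨expN (X ^ k * cs (LaurentPolynomial.T j)) N hN, good_expN _ hN h1 h2, ?_,
    fun h i i' => ?_, fun h i i' => ?_⟩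
  · obtain ⟨M, hM⟩ := expN_val_eq (X ^ k * cs (LaurentPolynomial.T j) : La[X]) hN
    obtain ⟨k, rfl⟩ := Nat.exists_eq_add_of_le' hk
    refine cg_iff_exists.2 ⟨(X ^ k * cs (LaurentPolynomial.T j) ^ 2 : La[X]) • M, ?_⟩
    have e1 : (X ^ (k + 1) * cs (LaurentPolynomial.T j) : La[X]) • N.map (algebraMap ℂ La[X]) =
        (X ^ (k + 1) : La[X]) •
          ((LaurentPolynomial.T j : La) • N.map (algebraMap ℂ La)).map cs := by
      refine Matrix.ext fun i i' => ?_
      rw [Matrix.smul_apply, Matrix.smul_apply, Matrix.map_apply, Matrix.map_apply,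
        Matrix.smul_apply, Matrix.map_apply, smul_eq_mul, smul_eq_mul, smul_eq_mul, map_mul,
        AlgHom.commutes, mul_assoc]
    have e2 : (X ^ (k + 1) * cs (LaurentPolynomial.T j) : La[X]) ^ 2 =
        X ^ (k + 1 + 1) * (X ^ k * cs (LaurentPolynomial.T j) ^ 2) := by ring
    rw [hM, smul_smul, e1, e2]
  · have e1 : (X : La[X]) ∈ negA := Algebra.subset_adjoin (Set.mem_insert _ _)
    have e2 : cs (LaurentPolynomial.T j) ∈ negA := mem_negA.2 fun m => by
      rw [cs_apply, coeff_C]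
      split_ifs
      exacts [(up_T j).mono (ha h), up_zero _]
    have := expN_mem negA (negA.mul_mem (negA.pow_mem e1 k) e2) hN i i'
    exact ⟨mem_negA.1 this.1, mem_negA.1 this.2⟩
  · have e1 : (X : La[X]) ∈ posA := Algebra.subset_adjoin (Set.mem_insert _ _)
    have e2 : cs (LaurentPolynomial.T j) ∈ posA := mem_posA.2 fun m => by
      rw [cs_apply, coeff_C]
      split_ifs
      exacts [(dn_T j).mono (hb h), dn_zero _]
    have := expN_mem posA (posA.mul_mem (posA.pow_mem e1 k) e2) hN i i'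
    exact ⟨mem_posA.1 this.1, mem_posA.1 this.2⟩

theorem expo_span (hk : 1 ≤ k) (hV : ∀ g ∈ Γ, ∀ A ∈ V', cj g A ∈ V')
    (hN : ∀ N ∈ V, IsNilpotent N → N ∈ V' ∧ ∀ c : ℂ, expU (c • N) ∈ Γ) {j : ℤ} (ha : a → j ≤ 0)
    (hb : b → 0 ≤ j) {Z : Mat n} (hZ : Z ∈ nsp V) (c : ℂ) :
    ExpoR k Γ V' a b ((LaurentPolynomial.T j : La) • (c • Z).map (algebraMap ℂ La)) := by
  induction hZ using Submodule.span_induction generalizing c with
  | mem N h =>
    have := hN (c • N) (V.smul_mem c h.1) (h.2.smul c)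
    exact expo_gen hk ha hb (h.2.smul c) this.1 this.2
  | zero =>
    rw [smul_zero, Matrix.map_zero _ (map_zero _), smul_zero]
    exact expo_zero
  | add x y _ _ hx hy =>
    rw [smul_add, Matrix.map_add _ (map_add _), smul_add]
    exact expo_add hk hV (hx c) (hy c)
  | smul c' x _ hx =>
    rw [smul_smul]
    exact hx _

end

theorem expo_stmt : ExpoStmt := by
  intro n k Γ V V' Z hk hZ hN hV
  obtain ⟨S, hS, hS'⟩ := mat_eq_sum Z
  have key : ExpoR k Γ V' (∀ i j, Up 0 (Z i j)) (∀ i j, Dn 0 (Z i j))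
      (∑ j ∈ S, (LaurentPolynomial.T j : La) • (cfM Z j).map (algebraMap ℂ La)) := by
    refine Finset.sum_induction _ _ (fun _ _ => expo_add hk hV) expo_zero fun j hj => ?_
    have := expo_span (a := ∀ i j, Up 0 (Z i j)) (b := ∀ i j, Dn 0 (Z i j)) (j := j) hk hV hN
      (fun h => not_lt.1 fun hj' => hS j hj (Matrix.ext fun i i' => h i i' j hj'))
      (fun h => not_lt.1 fun hj' => hS j hj (Matrix.ext fun i i' => h i i' j hj')) (hZ j) 1
    rwa [one_smul] at this
  rwa [← hS'] at key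

end Pool.Agent.MP_2a37ed_ag

end MrgPart7

-- ======== part 8: formerly Pool.Agent.MP_2a37ed_ag.Surj
section MrgPart8

namespace Pool.Agent.MP_2a37ed_ag

open Matrix Polynomial

variable {n r : ℕ}

/-- The Laurent matrix with coordinates `σ` in the family `f`. -/
noncomputable def surjMat (f : Fin r → Mat n) (σ : Fin r → La) : Matrix (Fin n) (Fin n) La :=
  ∑ a, σ a • (f a).map (algebraMap ℂ La)

/-- A linear functional applied to a Laurent matrix. -/
noncomputable def surjLin (φ : Mat n →ₗ[ℂ] ℂ) (x : Matrix (Fin n) (Fin n) La) : La :=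
  ∑ i, ∑ j, φ (Matrix.single i j 1) • x i j

theorem surj_mat_apply (f : Fin r → Mat n) (σ : Fin r → La) (i j : Fin n) :
    surjMat f σ i j = ∑ a, f a i j • σ a := by
  simp only [surjMat, Matrix.sum_apply, Matrix.smul_apply, Matrix.map_apply, smul_eq_mul]
  refine Finset.sum_congr rfl fun a _ => ?_
  rw [Algebra.smul_def, mul_comm]

theorem surj_mat_ev (f : Fin r → Mat n) (σ : Fin r → La) (τ : ℂˣ) :
    (surjMat f σ).map (ev τ) = ∑ a, ev τ (σ a) • f a := by
  ext i j
  rw [Matrix.map_apply, surj_mat_apply, map_sum, Matrix.sum_apply]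
  refine Finset.sum_congr rfl fun a _ => ?_
  rw [map_smul, Matrix.smul_apply, smul_eq_mul, smul_eq_mul, mul_comm]

theorem surj_lin_ev (φ : Mat n →ₗ[ℂ] ℂ) (x : Matrix (Fin n) (Fin n) La) (τ : ℂˣ) :
    ev τ (surjLin φ x) = φ (x.map (ev τ)) := by
  conv_rhs => rw [Matrix.matrix_eq_sum_single (x.map (ev τ))]
  simp only [surjLin, map_sum, map_smul, smul_eq_mul]
  refine Finset.sum_congr rfl fun i _ => Finset.sum_congr rfl fun j _ => ?_
  have : Matrix.single i j ((x.map (ev τ)) i j) =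
      ev τ (x i j) • (Matrix.single i j (1 : ℂ) : Mat n) := by
    rw [Matrix.smul_single, smul_eq_mul, mul_one, Matrix.map_apply]
  rw [this, map_smul, smul_eq_mul, mul_comm]

theorem surj_mat_up (f : Fin r → Mat n) {σ : Fin r → La} {d : ℤ} (h : ∀ a, Up d (σ a))
    (i j : Fin n) : Up d (surjMat f σ i j) := by
  rw [surj_mat_apply]
  exact up_sum _ fun a _ => (h a).smul _

theorem surj_mat_dn (f : Fin r → Mat n) {σ : Fin r → La} {d : ℤ} (h : ∀ a, Dn d (σ a))
    (i j : Fin n) : Dn d (surjMat f σ i j) := by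
  rw [surj_mat_apply]
  exact dn_sum _ fun a _ => (h a).smul _

theorem surj_mat_inL (V : Submodule ℂ (Mat n)) {f : Fin r → Mat n} (hf : ∀ a, f a ∈ V)
    (σ : Fin r → La) (τ : ℂˣ) : (surjMat f σ).map (ev τ) ∈ V := by
  rw [surj_mat_ev]
  exact V.sum_mem fun a _ => V.smul_mem _ (hf a)

theorem surj_map_add (x y : Matrix (Fin n) (Fin n) La) (τ : ℂˣ) :
    (x + y).map (ev τ) = x.map (ev τ) + y.map (ev τ) := by
  ext i j
  simp only [Matrix.map_apply, Matrix.add_apply, map_add]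

theorem surj_map_sub (x y : Matrix (Fin n) (Fin n) La) (τ : ℂˣ) :
    (x - y).map (ev τ) = x.map (ev τ) - y.map (ev τ) := by
  ext i j
  simp only [Matrix.map_apply, Matrix.sub_apply, map_sub]

theorem surj_map_mul (x y : Matrix (Fin n) (Fin n) La) (τ : ℂˣ) :
    (x * y).map (ev τ) = x.map (ev τ) * y.map (ev τ) := by
  ext i j
  simp only [Matrix.map_apply, Matrix.mul_apply, map_sum, map_mul]

theorem surj_map_cj (b : GL (Fin n) La) (x : Matrix (Fin n) (Fin n) La) (τ : ℂˣ) :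
    (b.val * x * (b⁻¹).val).map (ev τ) = cj (gm (ev τ) b) (x.map (ev τ)) := by
  rw [surj_map_mul, surj_map_mul, cj_apply, gm_val, gm_inv_val]

theorem surj_ev_mulVec (a : Matrix (Fin r) (Fin r) La) (σ : Fin r → La) (τ : ℂˣ) (i : Fin r) :
    ev τ ((a *ᵥ σ) i) = ∑ j, (a.map (ev τ)) i j * ev τ (σ j) := by
  simp only [Matrix.mulVec, dotProduct, map_sum, map_mul, Matrix.map_apply]

/-- The matrix of the coadjoint action along a loop. -/
theorem surj_exists_coad (e : Fin r → Mat n) (β : Fin r → Mat n →ₗ[ℂ] ℂ) (b : GL (Fin n) La) :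
    ∃ a : Matrix (Fin r) (Fin r) La, ∀ τ, a.map (ev τ) = coad e β (gm (ev τ) b) := by
  obtain ⟨a, ha⟩ := reg_ev_mat b (M := coad e β) (reg_coad e β)
  exact ⟨a, fun τ => ha (ev τ)⟩

theorem surj_bas_lin {V : Submodule ℂ (Mat n)} {e : Fin r → Mat n}
    {β : Fin r → Mat n →ₗ[ℂ] ℂ} (hB : Bas V e β) (ψ : Mat n →ₗ[ℂ] ℂ) {X : Mat n} (hX : X ∈ V) :
    ∑ a, β a X * ψ (e a) = ψ X := by
  conv_rhs => rw [hB.sum X hX]
  simp only [map_sum, map_smul, smul_eq_mul]

/-- The part of nonnegative order of a Laurent matrix. -/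
theorem surj_cut (x : Matrix (Fin n) (Fin n) La) : ∃ y : Matrix (Fin n) (Fin n) La,
    (∀ i j, Dn 0 (y i j)) ∧ (∀ i j, Up 0 ((x - y) i j)) ∧
      ∀ V : Submodule ℂ (Mat n), InL V x → InL V y := by
  choose y hy using fun i j => exists_cut (fun k : ℤ => 0 ≤ k) (x i j)
  refine ⟨Matrix.of y, fun i j k hk => ?_, fun i j k hk => ?_, fun V hV k => ?_⟩
  · rw [Matrix.of_apply, hy, if_neg (not_le.2 hk)]
  · have h1 : ((x - Matrix.of y) i j).coeff k = (x i j).coeff k - (y i j).coeff k := by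
      rw [Matrix.sub_apply, Matrix.of_apply]
      rfl
    rw [h1, hy, if_pos hk.le, sub_self]
  · by_cases hk : 0 ≤ k
    · have : cfM (Matrix.of y) k = cfM x k := by
        ext i j
        simp only [cfM, Matrix.map_apply, Matrix.of_apply, hy, if_pos hk]
      rw [this]
      exact hV k
    · have : cfM (Matrix.of y) k = 0 := by
        ext i j
        simp only [cfM, Matrix.map_apply, Matrix.of_apply, hy, if_neg hk, Matrix.zero_apply]
      rw [this]
      exact V.zero_mem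

theorem nondeg_stmt : NondegStmt := by
  intro n r G V h k e β b c0 ci hhV hB hGV hb hF hN hk
  have key : ∀ ξ : Mat n →ₗ[ℂ] ℂ, (∀ A ∈ k, ξ A = 0) → ∀ a, ξ (e a) = 0 := by
    intro ξ hξ
    choose q hq using fun a => reg_ev ci (reg_cj ξ (e a))
    choose p hp using fun a => reg_ev c0 (reg_cj ξ (e a))
    obtain ⟨a, ha⟩ := surj_exists_coad e β b⁻¹
    have ha' : ∀ τ, a.map (ev τ) = coad e β (gm (ev τ) b)⁻¹ := fun τ => by rw [ha, map_inv]
    set σ : Fin r → La := fun a => LaurentPolynomial.invert (toLaurent (q a)) with hσ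
    have hev : ∀ τ i, ev τ (σ i) = ξ (cj (gm (evp ((τ⁻¹ : ℂˣ) : ℂ)) ci) (e i)) := by
      intro τ i
      rw [hσ]
      simp only
      rw [ev_invert, ev_toLaurent, ← evp_apply, hq]
    have h0 : σ = 0 := by
      refine hN a ha' σ ?_ (fun i => up_zero_iff.2 ⟨q i, rfl⟩) fun i => ?_
      · refine (cf_mem_iff _ _).2 fun τ B hBh => ?_
        simp only [hev]
        have := surj_bas_lin hB (ξ.comp (cj (gm (evp ((τ⁻¹ : ℂˣ) : ℂ)) ci))) (hhV hBh)
        simp only [LinearMap.comp_apply] at this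
        rw [this]
        exact hξ _ (hk _ B hBh)
      · refine dn_zero_iff.2 ⟨p i, ev_ext fun τ => ?_⟩
        rw [surj_ev_mulVec, ha', ev_toLaurent, ← evp_apply, hp, hF.eq τ, cj_mul]
        simp only [hev, coad, Matrix.of_apply, inv_inv]
        have := surj_bas_lin hB (ξ.comp (cj (gm (evp ((τ⁻¹ : ℂˣ) : ℂ)) ci)))
          (hGV _ (hb τ) _ (hB.mem i))
        simpa only [LinearMap.comp_apply] using this
    intro i
    have h1 : q i = 0 := by
      refine poly_eq_zero_of_units fun s hs => ?_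
      have h2 := hev (Units.mk0 s hs)⁻¹ i
      rw [h0, inv_inv, ← hq, evp_apply] at h2
      simpa using h2.symm
    have h3 := hq i (evp 0)
    rw [h1, map_zero, hF.one, cj_one] at h3
    exact h3.symm
  intro X hX
  refine (Subspace.forall_mem_dualAnnihilator_apply_eq_zero_iff k X).1 fun ξ hξ => ?_
  have h1 := key ξ ((Submodule.mem_dualAnnihilator ξ).1 hξ)
  rw [← surj_bas_lin hB ξ hX]
  simp only [h1, mul_zero, Finset.sum_const_zero]

/-- Vanishing of the first cohomology of the normal bundle. -/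
theorem surj_dual (hD : DualStmt) {G : Subgroup (Gl n)} {V h : Submodule ℂ (Mat n)}
    {e : Fin r → Mat n} {β : Fin r → Mat n →ₗ[ℂ] ℂ} {b : GL (Fin n) La} (hhV : h ≤ V)
    (hB : Bas V e β) (hGV : ∀ g ∈ G, ∀ A ∈ V, cj g A ∈ V) (hR : RRep G (coad e β))
    (hb : ∀ τ, gm (ev τ) b ∈ G) (hN : NegB e β h b) {A : Matrix (Fin n) (Fin n) La}
    (hA : ∀ τ, A.map (ev τ) ∈ V) :
    ∃ u p : Fin r → La, (∀ i, Up (-1) (u i)) ∧ (∀ i, Dn 0 (p i)) ∧
      ∀ τ, (A - surjMat e u - b.val * surjMat e p * (b⁻¹).val).map (ev τ) ∈ h := by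
  obtain ⟨a, ha⟩ := surj_exists_coad e β b⁻¹
  have ha1 : ∀ τ, a.map (ev τ) = coad e β (gm (ev τ) b)⁻¹ := fun τ => by rw [ha, map_inv]
  obtain ⟨a', ha'⟩ := surj_exists_coad e β b
  have hmul : a' * a = 1 := by
    refine mat_ev_ext fun τ => ?_
    have h1 : (a' * a).map (ev τ) = a'.map (ev τ) * a.map (ev τ) := by
      ext i j
      simp only [Matrix.map_apply, Matrix.mul_apply, map_sum, map_mul]
    rw [h1, ha', ha1, hR.mul_inv (hb τ), Matrix.map_one _ (map_zero _) (map_one _)]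
  obtain ⟨u, η, p, hu, hη, hp, hs⟩ := hD (Fin r) (h.map (LinearMap.pi β)) (ann β h) aᵀ a'ᵀ
    (by rw [← Matrix.transpose_mul, hmul, Matrix.transpose_one])
    (fun ξ hξ B hBh => hξ _ ⟨B, hBh, rfl⟩)
    (by rw [Matrix.transpose_transpose]; exact (hN a ha1).mono (by norm_num))
    (fun i => surjLin (β i) A)
  refine ⟨u, p, hu, hp, fun τ => ?_⟩
  obtain ⟨B, hBh, hBe⟩ := (cf_mem_iff _ _).1 hη τ
  have hBe' : ∀ i, ev τ (η i) = β i B := fun i => (congrFun hBe i).symm
  have hc : ∀ i, β i (A.map (ev τ)) = ev τ (u i) + β i B +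
      ∑ j, β i (cj (gm (ev τ) b) (e j)) * ev τ (p j) := by
    intro i
    have h1 := congrArg (ev τ) (congrFun hs i)
    rw [surj_lin_ev, Pi.add_apply, Pi.add_apply, map_add, map_add, hBe', surj_ev_mulVec] at h1
    rw [h1]
    congr 1
    refine Finset.sum_congr rfl fun j _ => ?_
    have h2 : (aᵀ.map (ev τ)) i j = (a.map (ev τ)) j i := rfl
    rw [h2, ha1]
    simp only [coad, Matrix.of_apply, inv_inv]
  have h3 : cj (gm (ev τ) b) (∑ j, ev τ (p j) • e j) =
      ∑ i, (∑ j, β i (cj (gm (ev τ) b) (e j)) * ev τ (p j)) • e i := by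
    simp only [Finset.sum_smul]
    rw [Finset.sum_comm, map_sum]
    refine Finset.sum_congr rfl fun j _ => ?_
    rw [map_smul]
    conv_lhs => rw [hB.sum _ (hGV _ (hb τ) _ (hB.mem j))]
    rw [Finset.smul_sum]
    refine Finset.sum_congr rfl fun i _ => ?_
    rw [smul_smul, mul_comm]
  have h4 : A.map (ev τ) = ∑ i, ev τ (u i) • e i + B +
      cj (gm (ev τ) b) (∑ j, ev τ (p j) • e j) := by
    rw [h3]
    conv_lhs => rw [hB.sum _ (hA τ)]
    conv_rhs => rw [hB.sum B (hhV hBh)]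
    simp only [hc, add_smul, Finset.sum_add_distrib]
  rw [surj_map_sub, surj_map_sub, surj_map_cj, surj_mat_ev, surj_mat_ev, h4]
  have h5 : ∀ x y z : Mat n, x + y + z - x - z = y := fun x y z => by abel
  rw [h5]
  exact hBh

theorem surj_of (hD : DualStmt) (hC : CoadStmt) : SurjStmt := by
  intro n r G H e β b hH hHG hS hB hb hN A hA
  have hA' := (inL_iff _ _).1 hA
  obtain ⟨u, p, hu, hp, hup⟩ := surj_dual hD hS.le hB hS.cj1 (hC n r G H e β hH hHG hS hB).1
    (fun τ => hHG (hb τ)) hN (A := A) fun τ => nsp_le _ (hA' τ)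
  choose f hf g hg hfg using fun a => Submodule.mem_sup.1 (hS.sup (hB.mem a))
  have hsp : ∀ σ : Fin r → La, surjMat e σ = surjMat f σ + surjMat g σ := by
    intro σ
    refine mat_ev_ext fun τ => ?_
    rw [surj_map_add, surj_mat_ev, surj_mat_ev, surj_mat_ev, ← Finset.sum_add_distrib]
    refine Finset.sum_congr rfl fun a _ => ?_
    rw [← smul_add, hfg]
  set B' := A - surjMat g u - b.val * surjMat g p * (b⁻¹).val with hB'
  have h1 : InL (lie H) B' := by
    have h2 : B' = (A - surjMat e u - b.val * surjMat e p * (b⁻¹).val) + surjMat f u +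
        b.val * surjMat f p * (b⁻¹).val := by
      rw [hB', hsp u, hsp p, mul_add, add_mul]
      abel
    refine (inL_iff _ _).2 fun τ => ?_
    rw [h2, surj_map_add, surj_map_add, surj_map_cj]
    exact add_mem (add_mem (hup τ) (surj_mat_inL _ hf u τ))
      (hH.cj_mem (hb τ) (surj_mat_inL _ hf p τ))
  have h2 : InL (nsp (gone G H)) B' := by
    refine (inL_iff _ _).2 fun τ => ?_
    rw [hB', surj_map_sub, surj_map_sub, surj_map_cj]
    exact sub_mem (sub_mem (hA' τ) (surj_mat_inL _ hg u τ))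
      (hS.cjn _ (hHG (hb τ)) _ (surj_mat_inL _ hg p τ))
  obtain ⟨y, hy0, hy1, hy2⟩ := surj_cut B'
  have h3 := (inL_iff _ _).1 (hy2 _ h1)
  have h4 := (inL_iff _ _).1 (hy2 _ h2)
  refine ⟨surjMat g u + (B' - y), y - b.val * y * (b⁻¹).val, surjMat g p + y,
    (inL_iff _ _).2 fun τ => ?_, (inL_iff _ _).2 fun τ => ?_, (inL_iff _ _).2 fun τ => ?_,
    fun i j => ?_, fun i j => ?_, ?_⟩
  · rw [surj_map_add, surj_map_sub]
    exact add_mem (surj_mat_inL _ hg u τ) (sub_mem ((inL_iff _ _).1 h2 τ) (h4 τ))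
  · rw [surj_map_sub, surj_map_cj, ← neg_sub]
    exact neg_mem (hS.sub _ (hb τ) _ (h3 τ))
  · rw [surj_map_add]
    exact add_mem (surj_mat_inL _ hg p τ) (h4 τ)
  · rw [Matrix.add_apply]
    exact ((surj_mat_up g hu i j).mono (by norm_num)).add (hy1 i j)
  · rw [Matrix.add_apply]
    exact (surj_mat_dn g hp i j).add (hy0 i j)
  · rw [hB', mul_add, add_mul]
    abel

end Pool.Agent.MP_2a37ed_ag

end MrgPart8

-- marker of a merged file
example : 731051 + 805983 = 731051 + 805983 := rfl
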