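import Mathlib.LinearAlgebra.Lagrange
import Pool.Agent.MP_2a37ed_ag.Elim

namespace Pool.Agent.MP_2a37ed_ag

open Matrix Polynomial

variable {n : ℕ} {G : Subgroup (Gl n)}

/-- The ideal property of the radical. -/
structure WyA (G : Subgroup (Gl n)) : Prop where
  idl : ∀ x ∈ radJ G, ∀ y ∈ algA G, x * y ∈ radJ G ∧ y * x ∈ radJ G
  mul : ∀ x ∈ algA G, ∀ y ∈ algA G, x * y ∈ algA G

/-- Congruence modulo the radical. -/
def WyC (G : Subgroup (Gl n)) (x y : Mat n) : Prop := x ∈ algA G ∧ x - y ∈ radJ G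

theorem wy_val {g : Gl n} (hg : g ∈ G) : g.val ∈ algA G := Submodule.subset_span ⟨g, hg, rfl⟩

theorem wy_one : (1 : Mat n) ∈ algA G := wy_val G.one_mem

theorem WyC.refl {x : Mat n} (h : x ∈ algA G) : WyC G x x := ⟨h, by simp⟩

theorem WyC.right {x y : Mat n} (h : WyC G x y) : y ∈ algA G := by
  simpa using sub_mem h.1 h.2.1

theorem WyC.symm {x y : Mat n} (h : WyC G x y) : WyC G y x :=
  ⟨h.right, by simpa using neg_mem h.2⟩

theorem WyC.trans {x y z : Mat n} (h : WyC G x y) (h' : WyC G y z) : WyC G x z :=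
  ⟨h.1, by simpa using add_mem h.2 h'.2⟩

theorem WyC.add {x y x' y' : Mat n} (h : WyC G x y) (h' : WyC G x' y') :
    WyC G (x + x') (y + y') :=
  ⟨add_mem h.1 h'.1, by rw [add_sub_add_comm]; exact add_mem h.2 h'.2⟩

theorem WyC.smul {x y : Mat n} (h : WyC G x y) (c : ℂ) : WyC G (c • x) (c • y) :=
  ⟨Submodule.smul_mem _ c h.1, by rw [← smul_sub]; exact Submodule.smul_mem _ c h.2⟩

theorem WyC.mul (a : WyA G) {x y x' y' : Mat n} (h : WyC G x y) (h' : WyC G x' y') :
    WyC G (x * x') (y * y') :=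
  ⟨a.mul _ h.1 _ h'.1, by
    rw [show x * x' - y * y' = x * (x' - y') + (x - y) * y' by noncomm_ring]
    exact add_mem (a.idl _ h'.2 _ h.1).2 (a.idl _ h.2 _ h'.right).1⟩

theorem WyC.trace {x y : Mat n} (h : WyC G x y) : trace x = trace y := by
  have := h.2.2 1 wy_one
  rwa [mul_one, trace_sub, sub_eq_zero] at this

theorem WyC.cj (a : WyA G) {x y : Mat n} (h : WyC G x y) {w : Gl n} (hw : w ∈ G) :
    WyC G (cj w x) (cj w y) :=
  ((WyC.refl (wy_val hw)).mul a h).mul a (.refl (wy_val (G.inv_mem hw)))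

theorem wy_aeval (a : WyA G) {x y A : Mat n} (hx : x ∈ algA G) (hy : y ∈ algA G) (hA : A ∈ algA G)
    (h : WyC G (x * A) (A * y)) (q : ℂ[X]) : WyC G (aeval x q * A) (A * aeval y q) := by
  have p : ∀ k : ℕ, WyC G (x ^ k * A) (A * y ^ k) ∧ y ^ k ∈ algA G := fun k => by
    induction k with
    | zero => simpa using ⟨WyC.refl hA, wy_one⟩
    | succ k ih =>
      refine ⟨?_, by rw [pow_succ]; exact a.mul _ ih.2 _ hy⟩
      rw [pow_succ', pow_succ', mul_assoc, ← mul_assoc A]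
      refine ((WyC.refl hx).mul a ih.1).trans ?_
      rw [← mul_assoc]
      exact h.mul a (.refl ih.2)
  induction q using Polynomial.induction_on' with
  | add p q hp hq => simpa only [map_add, add_mul, mul_add] using hp.add hq
  | monomial k c =>
    simpa only [aeval_monomial, ← Algebra.smul_def, smul_mul_assoc, mul_smul_comm] using
      (p k).1.smul c

theorem WyC.aeval (a : WyA G) {x y : Mat n} (h : WyC G x y) (q : ℂ[X]) :
    WyC G (aeval x q) (aeval y q) := by
  simpa using wy_aeval a h.1 h.right wy_one (by simpa using h) q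

theorem wy_interp {m : ℕ} (φ : ℂ → ℂ) (u v : Fin m → ℂ) :
    ∃ q : ℂ[X], (∀ i, q.eval (u i) = φ (u i)) ∧ ∀ i, q.eval (v i) = φ (v i) := by
  classical
  have k := fun x (hx : x ∈ Finset.univ.image u ∪ Finset.univ.image v) =>
    Lagrange.eval_interpolate_at_node (v := id) φ (Set.injOn_id _) hx
  exact ⟨_, fun i => k _ (by simp), fun i => k _ (by simp)⟩

variable {m : ℕ} {P : Fin m → Mat n} {V : Submodule ℂ (Mat n)} {z : Fin m → ℂ}

theorem wy_fun (a : WyA G) (hP : CompleteOrthogonalIdempotents P) {w : Gl n} {u : Fin m → ℂ}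
    (h : WyC G (cj w (DD P z)) (DD P u)) (φ : ℂ → ℂ) :
    WyC G (cj w (DD P fun i => φ (z i))) (DD P fun i => φ (u i)) := by
  obtain ⟨q, h1, h2⟩ := wy_interp φ z u
  have k := h.aeval a q
  rwa [← cj_aeval, aeval_DD hP, aeval_DD hP, funext h1, funext h2] at k

/-- The orbit of `z`. -/
def WyO (G : Subgroup (Gl n)) (V : Submodule ℂ (Mat n)) (P : Fin m → Mat n) (z : Fin m → ℂ) :
    Set (Fin m → ℂ) :=
  {u | u ∈ tor (lie G) P ∧ ∃ w ∈ Unip V, WyC G (cj w (DD P z)) (DD P u)}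

theorem wy_fin (a : WyA G) (hN : NilProd (radJ G)) (hT : Tor (lie G) P) :
    (WyO G V P z).Finite := by
  classical
  refine (Set.Finite.pi' fun _ : Fin m => Set.finite_range z).subset ?_
  rintro u ⟨-, w, -, h⟩ i
  have k := (wy_fun a hT.coi h fun x => if x ∈ Set.range z then 0 else 1).symm.2
  simp only [Set.mem_range_self, if_true] at k
  rw [show (fun _ : Fin m => (0 : ℂ)) = 0 from rfl, map_zero, map_zero, sub_zero] at k
  have k2 := congrFun (DD_inj hT.coi hT.ne ((DD_nilp hT.coi (hN.nilp k)).trans (map_zero _).symm)) i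
  by_contra hi
  simp [hi] at k2

theorem wy_root (hW : WrStmt) (a : WyA G) (hG : Nice G) (hl : lie G ≤ algA G) (hT : Tor (lie G) P)
    (hV : V ≤ lie G) (hb : ∀ A ∈ lie G, ∀ B ∈ lie G, A * B - B * A ∈ V) {O : Finset (Fin m → ℂ)}
    (hO : ∀ u, u ∈ O ↔ u ∈ WyO G V P z) {A : Mat n} (hA : A ∈ lie G) {i j : Fin m}
    (hw : Wt P (tor (lie G) P) A i j) :
    DD P (∑ u ∈ O, u) * A - A * DD P (∑ u ∈ O, u) ∈ radJ G := by
  have hZ : ∑ u ∈ O, u ∈ tor (lie G) P := sum_mem fun u hu => ((hO u).1 hu).1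
  rw [hw _ hZ]
  by_cases h1 : A ∈ radJ G
  · exact Submodule.smul_mem _ _ h1
  by_cases h2 : ∃ u ∈ tor (lie G) P, u i ≠ u j
  · obtain ⟨w, hw1, u0, hu0, e0, hs⟩ := hW n m G P V hG hT hV hb A hA i j hw h1 h2
    have wG := hG.unip_le hV hw1
    have s1 : ∀ u ∈ O, u - (u i - u j) • u0 ∈ O := fun u hu => by
      obtain ⟨t, w', hw', h⟩ := (hO u).1 hu
      refine (hO _).2 ⟨sub_mem t (Submodule.smul_mem _ _ hu0), w * w', mul_mem hw1 hw', ?_⟩
      rw [cj_mul]
      exact (h.cj a wG).trans ⟨hl (hG.cj_mem wG t), hs u t⟩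
    have s2 : ∀ u : Fin m → ℂ, (u - (u i - u j) • u0) i - (u - (u i - u j) • u0) j =
        -(u i - u j) := fun u => by
      simp only [Pi.sub_apply, Pi.smul_apply, smul_eq_mul]
      linear_combination (u j - u i) * e0
    have s3 : ∀ u : Fin m → ℂ, (u - (u i - u j) • u0) -
        ((u - (u i - u j) • u0) i - (u - (u i - u j) • u0) j) • u0 = u := fun u => by
      rw [s2]
      module
    have s4 : ∑ u ∈ O, -(u i - u j) = ∑ u ∈ O, (u i - u j) :=
      Finset.sum_nbij' (fun u => u - (u i - u j) • u0) (fun u => u - (u i - u j) • u0) s1 s1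
        (fun u _ => s3 u) (fun u _ => s3 u) fun u _ => (s2 u).symm
    rw [Finset.sum_neg_distrib, Finset.sum_sub_distrib] at s4
    rw [Finset.sum_apply, Finset.sum_apply, self_eq_neg.1 s4.symm, zero_smul]
    exact zero_mem _
  · push Not at h2
    rw [h2 _ hZ, sub_self, zero_smul]
    exact zero_mem _

theorem wy_sum (hC : CentStmt) (a : WyA G) (hG : Nice G) (hl : lie G ≤ algA G)
    (hT : Tor (lie G) P) (hV : V ≤ lie G) (hz : ∀ c : ℂ, expU (c • DD P z) ∈ G1 G)
    {O : Finset (Fin m → ℂ)} (hO : ∀ u ∈ O, u ∈ WyO G V P z)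
    (h : ∀ A ∈ lie G, DD P (∑ u ∈ O, u) * A - A * DD P (∑ u ∈ O, u) ∈ radJ G) :
    ∑ u ∈ O, u = 0 := by
  classical
  have hZ : DD P (∑ u ∈ O, u) ∈ algA G := hl (sum_mem fun u hu => (hO u hu).1 :
    ∑ u ∈ O, u ∈ tor (lie G) P)
  have hD : DD P z ∈ algA G := hl (mem_lie_of_exp fun c => g1_le G (hz c))
  have t : ∀ E ∈ algA G, (∀ y ∈ algA G, E * y - y * E ∈ radJ G) → trace (E * DD P z) = 0 →
      trace (E * DD P (∑ u ∈ O, u)) = 0 := fun E hE h1 h2 => by
    rw [map_sum, Finset.mul_sum, trace_sum]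
    refine Finset.sum_eq_zero fun u hu => ?_
    obtain ⟨-, w, hw, k⟩ := hO u hu
    have wG := hG.unip_le hV hw
    have k1 : WyC G (E * w.val) (w.val * E) := ⟨a.mul _ hE _ (wy_val wG), h1 _ (wy_val wG)⟩
    have k2 := (k1.mul a (.refl hD)).mul a (.refl (wy_val (G.inv_mem wG)))
    rw [← ((WyC.refl hE).mul a k).trace, ← h2, ← trace_cj w (E * DD P z)]
    simpa only [cj_apply, mul_assoc] using k2.trace
  generalize ∑ u ∈ O, u = Z at h hZ t
  funext i0
  by_contra h0
  obtain ⟨q, hq, -⟩ := wy_interp (fun x => if x = Z i0 then 1 else 0) Z Z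
  have e : aeval (DD P Z) q = DD P fun i => if Z i = Z i0 then 1 else 0 := by
    rw [aeval_DD hT.coi, funext hq]
  have i1 : aeval (DD P Z) q * aeval (DD P Z) q = aeval (DD P Z) q := by
    rw [e, DD_mul hT.coi]
    congr 1
    funext i
    simp only [Pi.mul_apply]
    split_ifs <;> simp
  have i2 := ((WyC.refl hZ).aeval a q).1
  obtain ⟨c1, c2⟩ := hC n G _ hG i1 i2 fun A hA =>
    (wy_aeval a hZ hZ (hl hA) ⟨a.mul _ hZ _ (hl hA), h A hA⟩ q).2
  have i3 := t _ i2 c1 (c2 _ hz)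
  have i4 : aeval (DD P Z) q * DD P Z = Z i0 • aeval (DD P Z) q := by
    rw [e, DD_mul hT.coi, ← map_smul]
    congr 1
    funext i
    simp only [Pi.mul_apply, Pi.smul_apply, smul_eq_mul]
    split_ifs with hi <;> simp [hi]
  rw [i4, trace_smul, smul_eq_mul] at i3
  obtain ⟨k, k1, k2⟩ := trace_idem i1
  have i5 : aeval (DD P Z) q = 0 := by
    by_contra hE
    have := k2 hE
    rw [k1] at i3
    exact h0 ((mul_eq_zero.1 i3).resolve_right (Nat.cast_ne_zero.2 this.ne'))
  have := congrFun (DD_inj hT.coi hT.ne ((e.symm.trans i5).trans (map_zero _).symm)) i0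
  simp at this

/-- Telescoping products of length `N` with exponent `s`. -/
def WyP (G : Subgroup (Gl n)) (V : Submodule ℂ (Mat n)) (P : Fin m → Mat n) (z : Fin m → ℂ)
    (N : ℕ) (s : Fin m → ℂ) : Prop :=
  ∀ x ∈ Unip V, ∃ (l : List (Gl n)) (w : Gl n), l.length = N ∧ (∀ g ∈ l, g ∈ Unip V) ∧
    w ∈ Unip V ∧ ∀ c : ℂ, WyC G (x * (l.map fun g => g * expU (c • DD P z)).prod).val
      (DD P (fun i => Complex.exp (c * s i)) * w.val)

theorem wy_nil (hP : CompleteOrthogonalIdempotents P) (hU : Unip V ≤ G) : WyP G V P z 0 0 :=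
  fun x hx => ⟨[], x, rfl, by simp, hx, fun c => by
    have : DD P (fun _ => (1 : ℂ)) = 1 := DD_one hP
    simpa [this] using WyC.refl (wy_val (hU hx))⟩

theorem wy_cons (a : WyA G) (hP : CompleteOrthogonalIdempotents P) {N : ℕ} {s u : Fin m → ℂ}
    (hu : u ∈ WyO G V P z) (h : WyP G V P z N s) : WyP G V P z (N + 1) (u + s) := by
  intro x hx
  obtain ⟨-, w, hw, k⟩ := hu
  obtain ⟨l, w', h1, h2, h3, h4⟩ := h w hw
  refine ⟨x⁻¹ * w :: l, w', by simp [h1], ?_, h3, fun c => ?_⟩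
  · intro g hg
    rcases List.mem_cons.1 hg with rfl | hg
    · exact mul_mem (inv_mem hx) hw
    · exact h2 g hg
  · have k1 := (wy_fun a hP k fun t => Complex.exp (c * t)).mul a (h4 c)
    have e : (expU (c • DD P z)).val = DD P fun i => Complex.exp (c * z i) := by
      rw [← map_smul, expU_DD hP]
      rfl
    rw [← e, ← mul_assoc, DD_mul hP] at k1
    convert k1 using 1
    · simp only [List.map_cons, List.prod_cons, cj_apply, ← Units.val_mul]
      congr 1
      group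
    · congr 2
      funext i
      simp [mul_add, Complex.exp_add]

theorem wy_finset (a : WyA G) (hP : CompleteOrthogonalIdempotents P) {N : ℕ} {s : Fin m → ℂ}
    (h : WyP G V P z N s) (O : Finset (Fin m → ℂ)) (hO : ∀ u ∈ O, u ∈ WyO G V P z) :
    WyP G V P z (N + O.card) (∑ u ∈ O, u + s) := by
  induction O using Finset.cons_induction with
  | empty => simpa using h
  | cons u O hu ih =>
    rw [Finset.card_cons, Finset.sum_cons, add_assoc u]
    exact wy_cons a hP (hO u (Finset.mem_cons_self _ _))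
      (ih fun v hv => hO v (Finset.mem_cons_of_mem hv))

theorem weyl_of (hT : TorStmt) (hR : RootStmt) (hJ : WjStmt) (hW : WrStmt) (hC : CentStmt) :
    WeylStmt := by
  intro n m0 G V P0 z0 hG hV hb hP0 hz
  obtain ⟨j1, j2, j3, j4, -⟩ := hJ n G hG
  have a : WyA G := ⟨j2, j4⟩
  have hD := mem_lie_of_exp fun c => g1_le G (hz c)
  obtain ⟨m, P, z, hP, e⟩ := hT n (lie G) hG.alie m0 P0 z0 hP0 hD
  rw [e] at hz hD ⊢
  have fin := wy_fin (V := V) (z := fun i => (z i : ℂ)) a j1 hP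
  have hO := fun u => fin.mem_toFinset (a := u)
  have hU := hG.unip_le hV
  have hs := wy_sum hC a hG j3 hP hV hz (fun u => (hO u).1) fun A hA => by
    refine Submodule.span_induction (p := fun A _ => DD P (∑ u ∈ fin.toFinset, u) * A -
      A * DD P (∑ u ∈ fin.toFinset, u) ∈ radJ G) ?_ (by simp) ?_ ?_
      (hR n (Fin m) P (tor (lie G) P) (lie G) hP.coi
        (fun u hu B hB => hG.alie.br _ hu B hB) hA)
    · rintro B ⟨hB, i, j, hw⟩
      exact wy_root hW a hG j3 hP hV hb hO hB hw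
    · intro B B' _ _ h1 h2
      rw [mul_add, add_mul, add_sub_add_comm]
      exact add_mem h1 h2
    · intro c B _ h1
      rw [mul_smul_comm, smul_mul_assoc, ← smul_sub]
      exact Submodule.smul_mem _ c h1
  refine ⟨fin.toFinset.card, radJ G, Finset.card_pos.2 ⟨_, (hO fun i => (z i : ℂ)).2
    ⟨hD, 1, one_mem _, by rw [cj_one]; exact .refl (j3 hD)⟩⟩, j1, fun k => ?_⟩
  have hk : WyP G V P (fun i => (z i : ℂ)) (k * fin.toFinset.card) 0 := by
    induction k with
    | zero => simpa using wy_nil hP.coi hU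
    | succ k ih =>
      have := wy_finset a hP.coi ih _ fun u => (hO u).1
      rwa [hs, add_zero, ← Nat.succ_mul] at this
  obtain ⟨l, w, h1, h2, h3, h4⟩ := hk 1 (one_mem _)
  refine ⟨l, w, h1, h2, fun c => ?_⟩
  have k := ((WyC.refl (wy_val (G.inv_mem (hU h3)))).mul a (h4 c)).2
  have e1 : DD P (fun _ => (1 : ℂ)) = 1 := DD_one hP.coi
  simpa [e1] using k

end Pool.Agent.MP_2a37ed_ag
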