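import Pool.Agent.MP_2a37ed_ag.Elim

namespace Pool.Agent.MP_2a37ed_ag

open Matrix Polynomial

variable {n : ℕ}

theorem wr_cj_self (X : Mat n) (c : ℂ) : cj (expU (c • X)) X = X := by
  have h : (c • X) * X - X * (c • X) = (0 : ℂ) • X := by simp
  simpa using cj_expU_eig h

theorem wr_cj_br (X Z : Mat n) (c : ℂ) :
    X * cj (expU (c • X)) Z - cj (expU (c • X)) Z * X = cj (expU (c • X)) (X * Z - Z * X) := by
  rw [map_sub, cj_mul_mat, cj_mul_mat, wr_cj_self]

open scoped Matrix.Norms.Elementwise in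
theorem wr_step (J : Submodule ℂ (Mat n)) {X Z Z' : Mat n}
    (hJ : ∀ c : ℂ, ∀ x ∈ J, cj (expU (c • X)) x ∈ J) {p p' : ℂ → Mat n}
    (hp : ∀ c, HasDerivAt p (p' c) c) (h0 : p 0 = Z) (hZ : X * Z - Z * X - Z' ∈ J)
    (h : ∀ c : ℂ, cj (expU (c • X)) Z' - p' c ∈ J) (c : ℂ) :
    cj (expU (c • X)) Z - p c ∈ J := by
  have h1 := sub_mem_of_deriv J (γ := fun c => cj (expU (c • X)) Z - p c)
    (γ' := fun c => X * cj (expU (c • X)) Z - cj (expU (c • X)) Z * X - p' c)
    (fun c => (hasDerivAt_cj_expU X Z c).sub (hp c)) (fun c => by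
      have e : X * cj (expU (c • X)) Z - cj (expU (c • X)) Z * X - p' c =
          cj (expU (c • X)) (X * Z - Z * X - Z') + (cj (expU (c • X)) Z' - p' c) := by
        rw [wr_cj_br, map_sub (cj _) (X * Z - Z * X)]
        abel
      rw [e]
      exact J.add_mem (hJ c _ hZ) (h c)) c 0
  simpa [h0] using h1

open scoped Matrix.Norms.Elementwise in
theorem wr_tool (J : Submodule ℂ (Mat n)) {X Z0 Z1 Z2 : Mat n}
    (hJ : ∀ c : ℂ, ∀ x ∈ J, cj (expU (c • X)) x ∈ J)
    (h0 : X * Z0 - Z0 * X - Z1 ∈ J) (h1 : X * Z1 - Z1 * X - Z2 ∈ J) (h2 : X * Z2 - Z2 * X ∈ J) :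
    cj (expU X) Z0 - (Z0 + Z1 + (1 / 2 : ℂ) • Z2) ∈ J := by
  have s2 : ∀ c : ℂ, cj (expU (c • X)) Z2 - Z2 ∈ J :=
    wr_step J hJ (Z' := 0) (p := fun _ => Z2) (p' := fun _ => 0)
      (fun c => hasDerivAt_const c Z2) rfl (by simpa using h2) (fun c => by simp)
  have s1 : ∀ c : ℂ, cj (expU (c • X)) Z1 - (Z1 + c • Z2) ∈ J :=
    wr_step J hJ (Z' := Z2) (p := fun c => Z1 + c • Z2) (p' := fun _ => Z2)
      (fun c => by
        have a := ((hasDerivAt_id c).smul_const Z2).const_add Z1
        rw [one_smul] at a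
        exact a) (by simp) h1 s2
  have s0 := wr_step J hJ (Z := Z0) (Z' := Z1) (p := fun c => Z0 + c • Z1 + (c ^ 2 / 2) • Z2)
    (p' := fun c => Z1 + c • Z2) (fun c => by
      have a1 : HasDerivAt (fun c : ℂ => c ^ 2 / 2) c c := by
        simpa using (hasDerivAt_pow 2 c).div_const 2
      have a2 := (((hasDerivAt_id c).smul_const Z1).const_add Z0).add (a1.smul_const Z2)
      rw [one_smul] at a2
      exact a2) (by simp) h0 s1 1
  simpa using s0

/-- The reflection computed modulo `J`. -/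
theorem wr_refl (J : Submodule ℂ (Mat n)) {A B H N D : Mat n} {a : ℂ}
    (hA : ∀ c : ℂ, ∀ x ∈ J, cj (expU (c • A)) x ∈ J)
    (hB : ∀ c : ℂ, ∀ x ∈ J, cj (expU (c • (-B))) x ∈ J) (hN : N ∈ J)
    (e1 : A * B - B * A = H + N) (e2 : H * A - A * H = (2 : ℂ) • A)
    (e3 : H * B - B * H = (-2 : ℂ) • B) (e4 : D * A - A * D = a • A)
    (e5 : D * B - B * D = (-a) • B) :
    cj (expU A * expU (-B) * expU A) D - (D - a • H) ∈ J := by
  have f1 : A * B = B * A + (H + N) := by rw [← e1]; abel
  have f2 : H * A = A * H + (2 : ℂ) • A := by rw [← e2]; abel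
  have f3 : H * B = B * H + (-2 : ℂ) • B := by rw [← e3]; abel
  have f4 : D * A = A * D + a • A := by rw [← e4]; abel
  have f5 : D * B = B * D + (-a) • B := by rw [← e5]; abel
  have t1 := wr_tool J (X := A) (Z0 := D) (Z1 := -(a • A)) (Z2 := 0) hA
    (by rw [f4]; convert J.zero_mem using 1; abel)
    (by convert J.zero_mem using 1; simp) (by simp)
  have t2 := wr_tool J (X := -B) (Z0 := D - a • A) (Z1 := -(a • B) - a • H)
    (Z2 := (2 * a) • B) hB
    (by
      convert J.smul_mem (-a) hN using 1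
      simp only [mul_sub, sub_mul, neg_mul, mul_neg, mul_smul_comm, smul_mul_assoc, f1, f5]
      module)
    (by
      convert J.zero_mem using 1
      simp only [mul_sub, sub_mul, neg_mul, mul_neg, mul_smul_comm, smul_mul_assoc, f3]
      module)
    (by convert J.zero_mem using 1; simp)
  have t3 := wr_tool J (X := A) (Z0 := D - a • A - a • H) (Z1 := a • A) (Z2 := 0) hA
    (by
      convert J.zero_mem using 1
      simp only [mul_sub, sub_mul, mul_smul_comm, smul_mul_assoc, f2, f4]
      module)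
    (by convert J.zero_mem using 1; simp) (by simp)
  have hA1 : ∀ x ∈ J, cj (expU A) x ∈ J := by simpa using hA 1
  have hB1 : ∀ x ∈ J, cj (expU (-B)) x ∈ J := by simpa only [one_smul] using hB 1
  have u1 : cj (expU A) D - (D - a • A) ∈ J := by
    convert t1 using 2
    module
  have u2 : cj (expU (-B)) (D - a • A) - (D - a • A - a • H) ∈ J := by
    convert t2 using 2
    module
  have u3 : cj (expU A) (D - a • A - a • H) - (D - a • H) ∈ J := by
    convert t3 using 2
    module
  have v := J.add_mem (hA1 _ (J.add_mem (hB1 _ u1) u2)) u3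
  convert v using 1
  rw [cj_mul, cj_mul, map_sub (cj (expU (-B))) (cj (expU A) D), sub_add_sub_cancel,
    map_sub (cj (expU A)) (cj (expU (-B)) _), sub_add_sub_cancel]

theorem wr_of (hR : RootStmt) (hJ : WjStmt) (h0 : W0Stmt) : WrStmt := by
  intro n m G P V hG hT hV hbr A hA i j hW hAJ hu
  obtain ⟨-, hid, hle, -, hrad⟩ := hJ n G hG
  have hcj : ∀ X ∈ lie G, ∀ c : ℂ, ∀ x ∈ radJ G, cj (expU (c • X)) x ∈ radJ G := by
    intro X hX c x hx
    have hg := (hG.mem X).1 hX c
    rw [cj_apply]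
    exact (hid _ (hid x hx _ (Submodule.subset_span ⟨_, hg, rfl⟩)).2 _
      (Submodule.subset_span ⟨_, G.inv_mem hg, rfl⟩)).1
  obtain ⟨B, hB, ⟨i', j', hWB⟩, htr⟩ : ∃ B, B ∈ lie G ∧
      (∃ i j, Wt P (tor (lie G) P) B i j) ∧ trace (A * B) ≠ 0 := by
    by_contra hcon
    refine hAJ (hrad A hA fun B hB => ?_)
    have hsp := hR n (Fin m) P (tor (lie G) P) (lie G) hT.coi
      (fun u hu A hA => hG.alie.br _ hu _ hA) hB
    refine Submodule.span_induction (p := fun B _ => trace (A * B) = 0) ?_ ?_ ?_ ?_ hsp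
    · rintro B ⟨h1, h2⟩
      by_contra h3
      exact hcon ⟨B, h1, h2, h3⟩
    · simp
    · intro x y _ _ hx hy
      rw [mul_add, trace_add, hx, hy, add_zero]
    · intro c x _ hx
      rw [mul_smul_comm, trace_smul, hx, smul_zero]
  have hb : ∀ u ∈ tor (lie G) P, DD P u * B - B * DD P u = (-(u i - u j)) • B := by
    intro u hu
    have e : DD P u * (A * B) - (A * B) * DD P u =
        (DD P u * A - A * DD P u) * B + A * (DD P u * B - B * DD P u) := by noncomm_ring
    have e' := congrArg trace e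
    rw [trace_sub, trace_mul_comm (DD P u), sub_self, hW u hu, hWB u hu, smul_mul_assoc,
      mul_smul_comm, ← add_smul, trace_smul, smul_eq_mul] at e'
    have e'' := (mul_eq_zero.1 e'.symm).resolve_right htr
    rw [hWB u hu, eq_neg_of_add_eq_zero_right e'']
  have hC : ∀ u, DD P u ∈ lie G → Commute (A * B - B * A) (DD P u) := by
    intro u hu
    have e : DD P u * (A * B - B * A) - (A * B - B * A) * DD P u =
        (DD P u * A - A * DD P u) * B + A * (DD P u * B - B * DD P u) -
          ((DD P u * B - B * DD P u) * A + B * (DD P u * A - A * DD P u)) := by noncomm_ring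
    rw [hW u hu, hb u hu] at e
    simp only [smul_mul_assoc, mul_smul_comm, neg_smul, neg_mul, mul_neg, add_neg_cancel,
      neg_add_cancel, sub_self] at e
    exact (sub_eq_zero.1 e).symm
  obtain ⟨v, N, hv, hN, hNn, hCe⟩ := hT.max _ (hG.alie.br A hA B hB) hC
  have hNJ : N ∈ radJ G := by
    refine h0 n m G P hG hT N hN hNn fun u hu => ?_
    have e : N = (A * B - B * A) - DD P v := by rw [hCe]; abel
    rw [e]
    exact (hC u hu).sub_left (DD_commute hT.coi v u)
  have htD : ∀ u ∈ tor (lie G) P, trace (DD P u * DD P v) = (u i - u j) * trace (A * B) := by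
    intro u hu
    have e1 : trace (DD P u * N) = 0 := by
      rw [trace_mul_comm]
      exact hNJ.2 _ (hle hu)
    have e2 : trace (DD P u * (A * B - B * A)) = trace ((DD P u * A - A * DD P u) * B) := by
      rw [mul_sub, sub_mul, trace_sub, trace_sub, ← mul_assoc, ← mul_assoc,
        trace_mul_comm (DD P u * B) A, mul_assoc A]
    rw [hW u hu, smul_mul_assoc, trace_smul, smul_eq_mul, hCe, mul_add, trace_add, e1,
      add_zero] at e2
    exact e2
  have hav : v i - v j ≠ 0 := by
    intro hz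
    have hc := hT.rat v hv (starRingEnd ℂ).toAddMonoidHom
    have e := htD _ hc
    have e0 : starRingEnd ℂ (v i) - starRingEnd ℂ (v j) = 0 := by rw [← map_sub, hz, map_zero]
    have e1 : trace (DD P (fun i => starRingEnd ℂ (v i)) * DD P v) = 0 := by
      refine e.trans ?_
      exact mul_eq_zero_of_left e0 _
    have e2 := DD_eq_zero_of_trace hT.coi e1
    obtain ⟨u, hu, hij⟩ := hu
    have e3 := htD u hu
    rw [e2, mul_zero, trace_zero] at e3
    exact hij (sub_eq_zero.1 ((mul_eq_zero.1 e3.symm).resolve_right htr))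
  set s : ℂ := 2 / (v i - v j) with hs
  have hu0 : s • v ∈ tor (lie G) P := Submodule.smul_mem _ s hv
  have h2 : (s • v) i - (s • v) j = 2 := by
    simp only [Pi.smul_apply, smul_eq_mul, ← mul_sub, hs]
    field_simp
  have hB' : s • B ∈ lie G := Submodule.smul_mem _ s hB
  have hb' : ∀ u ∈ tor (lie G) P,
      DD P u * (s • B) - (s • B) * DD P u = (-(u i - u j)) • s • B := by
    intro u hu
    rw [mul_smul_comm, smul_mul_assoc, ← smul_sub, hb u hu, smul_comm]
  have e1 : A * (s • B) - (s • B) * A = DD P (s • v) + s • N := by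
    rw [mul_smul_comm, smul_mul_assoc, ← smul_sub, hCe, smul_add, map_smul]
  have e2 := hW _ hu0
  have e3 := hb' _ hu0
  rw [h2] at e2 e3
  have hAV : A ∈ V := by
    have := V.smul_mem (1 / 2 : ℂ) (hbr _ hu0 A hA)
    rw [e2, smul_smul] at this
    simpa using this
  have hBV : s • B ∈ V := by
    have := V.smul_mem (-1 / 2 : ℂ) (hbr _ hu0 _ hB')
    rw [e3, smul_smul] at this
    norm_num at this
    exact this
  have hAn : IsNilpotent A := nilp_of_eig two_ne_zero e2
  have hBn : IsNilpotent (s • B) := nilp_of_eig (neg_ne_zero.2 two_ne_zero) e3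
  have wA : expU A ∈ Unip V := by simpa using expU_mem_unip hAV hAn 1
  have wB : expU (-(s • B)) ∈ Unip V := by
    simpa only [neg_one_smul] using expU_mem_unip hBV hBn (-1)
  refine ⟨expU A * expU (-(s • B)) * expU A, mul_mem (mul_mem wA wB) wA, s • v, hu0, h2,
    fun u hu => ?_⟩
  rw [map_sub, map_smul (DD P) (u i - u j)]
  exact wr_refl (radJ G) (hcj A hA) (hcj _ (neg_mem hB')) (Submodule.smul_mem _ s hNJ) e1 e2 e3
    (hW u hu) (hb' u hu)

end Pool.Agent.MP_2a37ed_ag
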