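import Mathlib.Algebra.Group.UniqueProds.VectorSpace
import Mathlib.Algebra.Lie.Engel
import Mathlib.LinearAlgebra.Matrix.Rank
import Mathlib.AlgebraicTopology.FundamentalGroupoid.SimplyConnected
import Mathlib.Analysis.Convex.Contractible
import Mathlib.Analysis.Calculus.InverseFunctionTheorem.FDeriv
import Mathlib.Analysis.Complex.TaylorSeries
import Mathlib.LinearAlgebra.Matrix.Charpoly.Eigs
import Mathlib.Topology.Separation.Lemmas
import Pool.Agent.MP_2a37ed_ag.Elim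
import Pool.Agent.MP_2a37ed_ag.Dual
import Pool.Agent.MP_2a37ed_ag.Surj
import Pool.Agent.MP_2a37ed_ag.Wr
import Pool.Agent.MP_2a37ed_ag.Weyl

-- ======== part 0: formerly Pool.Agent.MP_2a37ed_ag.A1
section MrgPart0

namespace Pool.Agent.MP_2a37ed_ag

open Matrix Polynomial

theorem a1_prod {n : ℕ} {ι : Type} [Fintype ι] [DecidableEq ι] {G : Subgroup (Gl n)}
    {ρ : Gl n → Matrix ι ι ℂ} (rep : RRep G ρ) {κ : Type} (f : κ → Gl n) (hf : ∀ k, f k ∈ G)
    {θ : Gl n} (hθ : θ ∈ G) (l : List κ) :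
    ((l.map f).reverse.map fun h => h * θ).prod ∈ G ∧
    ρ ((l.map f).reverse.map fun h => h * θ).prod⁻¹ =
      (l.map fun k => ρ θ⁻¹ * ρ (f k)⁻¹).prod := by
  induction l with
  | nil => exact ⟨G.one_mem, by simpa using rep.one⟩
  | cons k l ih =>
    simp only [List.map_cons, List.reverse_cons, List.map_append, List.prod_append,
      List.prod_cons, List.map_nil, List.prod_nil, mul_one] at ih ⊢
    refine ⟨G.mul_mem ih.1 (G.mul_mem (hf k) hθ), ?_⟩
    rw [_root_.mul_inv_rev, _root_.mul_inv_rev,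
      rep.mul _ (G.mul_mem (G.inv_mem hθ) (G.inv_mem (hf k))) _ (G.inv_mem ih.1),
      rep.mul _ (G.inv_mem hθ) _ (G.inv_mem (hf k)), ih.2]

theorem a1_of (hT : TorStmt) (hR : RootStmt) (hBa : BasStmt) (hCo : CoadStmt) (hG : GenStmt)
    (hD : DriftStmt) : A1Stmt := by
  intro n G H nH hHG hE st
  classical
  obtain ⟨m, P, -, tr, -⟩ := hT n (lie H) nH.alie 1 (fun _ => 1) (fun _ => 0)
    (CompleteOrthogonalIdempotents.unique_iff.2 rfl) (by
      have : (fun _ : Fin 1 => ((0 : ℤ) : ℂ)) = 0 := by funext i; simp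
      rw [this, map_zero]
      exact zero_mem _)
  have hroot := hR n (Fin m) P (tor (lie H) P) (gone G H) tr.coi fun u hu A hA =>
    st.br _ (st.le' (st.le hu)) _ (st.le' hA)
  obtain ⟨r, e, β, hB, hQ⟩ := hBa n (gone G H) _ hroot
  choose src tgt hwt using hQ
  obtain ⟨rep, nost, hst, hdiag⟩ := hCo n r G H e β nH hHG st hB
  let ω : Fin r → Fin m → ℤ := fun a => Pi.single (tgt a) 1 - Pi.single (src a) 1
  have hω : ∀ a (u : Fin m → ℂ), ∑ i, (ω a i : ℂ) * u i = -(u (src a) - u (tgt a)) := by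
    intro a u
    simp [ω, Pi.single_apply, sub_mul, Finset.sum_sub_distrib]
  have hdg : ∀ u, DD P u ∈ lie H → coad e β (expU (DD P u)) =
      diagonal fun a => Complex.exp (∑ i, (ω a i : ℂ) * u i) := by
    intro u hu
    rw [hdiag (DD P u) (fun a => u (src a) - u (tgt a)) fun a => hwt a u hu]
    simp only [hω]
  obtain ⟨z, hz, hz1, hgen⟩ := hG n m G H P (Fin r) (coad e β) (ann β (lie H)) ω nH hHG hE tr
    rep hst nost hdg
  obtain ⟨Θ, hΘ⟩ := theta_exists tr.coi z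
  have hUH : Unip (lie H) ≤ H := nH.unip_le le_rfl
  let mw : Fin r → ℤ := fun a => ∑ i, ω a i * z i
  have hth : ∀ c : ℂ, coad e β (expU (c • DD P fun i => (z i : ℂ))) =
      diagonal fun a => Complex.exp c ^ mw a := by
    intro c
    rw [← map_smul, hdg _ (by rw [map_smul]; exact Submodule.smul_mem _ c hz)]
    congr 1
    funext a
    rw [← Complex.exp_int_mul]
    congr 1
    simp only [mw, Pi.smul_apply, smul_eq_mul, Int.cast_sum, Int.cast_mul, Finset.sum_mul]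
    exact Finset.sum_congr rfl fun i _ => by ring
  obtain ⟨N0, hN0⟩ := hD (Fin r) (ann β (lie H)) mw (Unip (lie H))
    (fun k => coad e β (k : Gl n)⁻¹)
    (fun k => rep.isUnit (G.inv_mem (hHG (hUH k.2))))
    (fun k => hst _ (H.inv_mem (hUH k.2)))
    (fun τ v hv => by
      obtain ⟨c, hc⟩ := exists_exp τ
      have := hst _ ((nH.mem _).1 hz c) v hv
      rw [hth, ← hc] at this
      have h2 : (fun i => (τ : ℂ) ^ mw i * v i) =
          (diagonal fun a => (τ : ℂ) ^ mw a) *ᵥ v := by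
        funext i
        rw [mulVec_diagonal]
      rw [h2]
      exact this)
    (fun d U hU => by
      obtain ⟨h, hh, hS⟩ := hgen d U hU
      exact ⟨⟨h, hh⟩, hS⟩)
  refine ⟨r, e, β, m, P, z, Θ, N0, hB, tr.coi, hz, hz1, hΘ, fun N hN => ?_⟩
  obtain ⟨l, hlen, hinj⟩ := hN0 N hN
  refine ⟨(l.map Subtype.val).reverse, by simp [hlen], fun h hh => ?_, fun a ha => ?_⟩
  · obtain ⟨k, -, rfl⟩ := List.mem_map.1 (List.mem_reverse.1 hh)
    exact k.2
  · have : a = (l.map fun k : Unip (lie H) =>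
        dT mw * (coad e β (k : Gl n)⁻¹).map (algebraMap ℂ La)).prod := by
      refine mat_ev_ext fun τ => ?_
      obtain ⟨c, hc⟩ := exists_exp τ
      rw [ha, gm_ev_bl, hΘ τ c hc,
        (a1_prod rep _ (fun k : Unip (lie H) => hHG (hUH k.2)) (hHG ((nH.mem _).1 hz c)) l).2]
      have h3 := map_list_prod (ev τ).mapMatrix (l.map fun k : Unip (lie H) =>
        dT mw * (coad e β (k : Gl n)⁻¹).map (algebraMap ℂ La))
      rw [AlgHom.mapMatrix_apply] at h3
      rw [h3, List.map_map]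
      congr 1
      refine List.map_congr_left fun k _ => ?_
      simp only [Function.comp_apply, map_mul, AlgHom.mapMatrix_apply]
      congr 1
      · rw [expU_inv, ← neg_smul, hth, dT, diagonal_map (map_zero _)]
        congr 1
        funext i
        rw [ev_T, hc, Complex.exp_neg, _root_.zpow_neg, _root_.inv_zpow]
      · ext i j
        simp only [map_apply, AlgHom.commutes, Algebra.algebraMap_self, RingHom.id_apply]
    rw [this]
    exact hinj

end Pool.Agent.MP_2a37ed_ag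

end MrgPart0

-- ======== part 1: formerly Pool.Agent.MP_2a37ed_ag.A2
section MrgPart1

namespace Pool.Agent.MP_2a37ed_ag

open Matrix Polynomial

theorem a2_triv {n : ℕ} (y : GL (Fin n) La[X]) (s : ℂ) :
    Triv (gm (evs s) y) ↔ InjW ⊤ (-1) (y.valᵀ.map (evs s)) := by
  rw [Triv, gm_val, transpose_map]

theorem a2_inv {n : ℕ} (y : GL (Fin n) La[X]) : (y⁻¹).valᵀ * y.valᵀ = 1 := by
  rw [← transpose_mul, ← Units.val_mul, mul_inv_cancel, Units.val_one, transpose_one]

theorem a2_of (h1 : A1Stmt) (hW : WeylStmt) (hCu : CurveStmt) (hSu : SurjStmt) (hD : DefStmt)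
    (hI : InjjStmt) (hWi : WinStmt) (hT : TransStmt) (hCh : ChStmt) (hCo : CoadStmt) :
    A2Stmt := by
  intro n G H nG nH hHG hE st
  obtain ⟨r, e, β, m, P, z, Θ, N0, hB, hP, hDh, hD1, hΘ, hl⟩ := h1 n G H nH hHG hE st
  obtain ⟨N1, J, hN1, hJ, hw⟩ := hW n m G (gone G H) P z nG st.le' st.br hP hD1
  obtain ⟨lg, w, hlen, hlg, hwJ⟩ := hw N0
  obtain ⟨lh, hlen', hlh, hneg⟩ := hl (N0 * N1) (Nat.le_mul_of_pos_right _ hN1)
  have hUG : Unip (gone G H) ≤ G := nG.unip_le st.le'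
  have hU1 : Unip (lie H) ≤ G1 G :=
    (hCh n G).2 (lie H) fun A hA c => hHG ((nH.mem A).1 hA c)
  have hΘΓ : ∀ τ, gm (ev τ) Θ ∈ H ⊓ G1 G :=
    hΘ.mem fun c => ⟨(nH.mem _).1 hDh c, hD1 c⟩
  obtain ⟨y, hy, hy0, hy1⟩ := hCu n G (gone G H) Θ lh lg hUG st.cjn
    (fun τ => hHG (hΘΓ τ).1) (hlen'.trans hlen.symm)
    (fun g hg => unip_mono st.le (hlh g hg)) hlg
  have hb0 : ∀ τ, gm (ev τ) (bl Θ lh) ∈ H ⊓ G1 G := by
    intro τ
    rw [gm_ev_bl]
    refine Subgroup.list_prod_mem _ fun x hx => ?_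
    obtain ⟨h, hh, rfl⟩ := List.mem_map.1 hx
    exact Subgroup.mul_mem _ ⟨nH.unip_le le_rfl (hlh h hh), hU1 (hlh h hh)⟩ (hΘΓ τ)
  have hsrj := hSu n r G H e β (bl Θ lh) nH hHG st hB (fun τ => (hb0 τ).1) hneg
  have htriv : Triv (bl Θ lg) := by
    refine hI n J _ w hJ fun τ => ?_
    obtain ⟨c, hc⟩ := exists_exp τ
    rw [gm_ev_bl, hΘ τ c hc]
    exact hwJ c
  obtain ⟨k, hk⟩ := (hWi (Fin n) ⊤ (-1) y.valᵀ (y⁻¹).valᵀ (a2_inv y)).1 1
    ((a2_triv y 1).1 (hy1 ▸ htriv))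
  obtain ⟨γm, b, γp, hγm, hγp, hb, hbe, hcg⟩ := hD n G (H ⊓ G1 G) (gone G H) (lie H) y
    (fun g hg => hHG hg.1) st.cjn
    (fun N hN _ c => (nG.mem N).1 (st.le' hN) c)
    (fun N hN hn => ⟨st.le hN, fun c => ⟨(nH.mem N).1 hN c, hU1 (expU_mem_unip hN hn c)⟩⟩)
    hy (by rw [hy0]; exact hb0) (by rw [hy0]; exact hsrj) k
  have f1 := (hWi (Fin n) ⊤ (-1) b.valᵀ (b⁻¹).valᵀ (a2_inv b)).2 k
    (hT n k y γm b γp hγm hγp hcg hk)
  obtain ⟨rep, -, -, -⟩ := hCo n r G H e β nH hHG st hB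
  obtain ⟨a, ha⟩ := reg_ev_mat b⁻¹ (M := coad e β) (reg_coad e β)
  obtain ⟨a', ha'⟩ := reg_ev_mat b (M := coad e β) (reg_coad e β)
  have haa : a' * a = 1 := by
    refine mat_ev2_ext fun s τ => ?_
    have h2 : (a' * a).map (ev2 s τ) = a'.map (ev2 s τ) * a.map (ev2 s τ) :=
      Matrix.map_mul (f := (ev2 s τ : La[X] →+* ℂ))
    rw [h2, ha, ha', map_inv, rep.mul_inv (hHG (hb s τ).1),
      Matrix.map_one _ (map_zero _) (map_one _)]
  have hav : ∀ s τ, (a.map (evs s)).map (ev τ) = coad e β (gm (ev τ) (gm (evs s) b))⁻¹ := by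
    intro s τ
    rw [← gm_ev2, ← map_inv, ← ha]
    rfl
  obtain ⟨k', hk'⟩ := (hWi (Fin r) (ann β (lie H)) 0 a a' haa).1 0
    (hneg _ fun τ => by rw [hav, hbe, hy0])
  have f2 := (hWi (Fin r) (ann β (lie H)) 0 a a' haa).2 k' hk'
  obtain ⟨s, hs⟩ := (f1.union f2).exists_notMem
  simp only [Set.mem_union, Set.mem_ofPred_eq, not_or, not_not] at hs
  refine ⟨r, e, β, gm (evs s) b, hB, fun τ => by rw [← gm_ev2]; exact hb s τ, fun a1 ha1 => ?_,
    (a2_triv b s).2 hs.1⟩
  have : a1 = a.map (evs s) := mat_ev_ext fun τ => by rw [ha1, hav]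
  rw [this]
  exact hs.2

end Pool.Agent.MP_2a37ed_ag

end MrgPart1

-- ======== part 2: formerly Pool.Agent.MP_2a37ed_ag.Asm2
section MrgPart2

namespace Pool.Agent.MP_2a37ed_ag

open Matrix Polynomial

def Main2Stmt : Prop :=
  ∀ (n : ℕ) (G H : Subgroup (GL (Fin n) ℂ)),
    IsAlg G → IsAlg H → H ≤ G → IsConnected (G : Set (GL (Fin n) ℂ)) →
    IsConnected (H : Set (GL (Fin n) ℂ)) →
    (∀ K : Subgroup (GL (Fin n) ℂ), IsAlg K → H ≤ K → K ≤ G → K ≠ G → ¬ IsVecStab G K) →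
    ∃ (N : ℕ) (ρ : G →* GL (Fin N) ℂ) (w : Fin N → ℂ),
      (∀ i j, ∃ F : GL (Fin n) ℂ → ℂ, IsRegular F ∧
        ∀ g : G, (ρ g).val i j = F (g : GL (Fin n) ℂ)) ∧ w ≠ 0 ∧
      (∀ g : G, (g : GL (Fin n) ℂ) ∈ H ↔ ∃ c : ℂ, (ρ g).val *ᵥ w = c • w) ∧
      ∃ (I : Ideal (MvPolynomial (Fin N) ℂ)) (p : Fin N → ℂ[X]), I.IsPrime ∧
        (∀ v : Fin N → ℂ, (∀ f ∈ I, MvPolynomial.eval v f = 0) ↔
          ∃ c : ℂ, v = c • w ∨ ∃ τ : ℂ, v = c • fun i => (p i).eval τ) ∧
        (∀ τ : ℂ, ∃ g : G, (fun i => (p i).eval τ) = (ρ g).val *ᵥ w) ∧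
        ∀ K : Subgroup (GL (Fin n) ℂ), IsAlg K → H ≤ K → K ≤ G → K ≠ G → ∀ g : G,
          ¬ ∀ v : Fin N → ℂ, (∀ f ∈ I, MvPolynomial.eval v f = 0) →
            ∃ k : G, (k : GL (Fin n) ℂ) ∈ K ∧ ∃ c : ℂ, v = c • ((ρ (g * k)).val *ᵥ w)

/-- A regular representation as a homomorphism. -/
noncomputable def repHom {n N : ℕ} {ρ : Gl n → Matrix (Fin N) (Fin N) ℂ} (h : RRep ⊤ ρ)
    (G : Subgroup (Gl n)) : G →* GL (Fin N) ℂ where
  toFun g := ⟨ρ g, ρ (g : Gl n)⁻¹, h.mul_inv trivial, h.inv_mul trivial⟩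
  map_one' := Units.ext h.one
  map_mul' _ _ := Units.ext (h.mul _ trivial _ trivial)

theorem main2_vec {n N : ℕ} {ρ : Gl n → Matrix (Fin N) (Fin N) ℂ} (h : RRep ⊤ ρ)
    (c : GL (Fin n) ℂ[X]) (w : Fin N → ℂ) :
    ∃ p : Fin N → ℂ[X], ∀ τ : ℂ, (fun i => (p i).eval τ) = ρ (gm (evp τ) c) *ᵥ w := by
  choose p hp using fun i => reg_ev c (reg_mulVec h.reg w i)
  exact ⟨p, fun τ => funext fun i => by rw [← evp_apply, hp]⟩

theorem main2_of (hL : LieStmt) (hR : RepStmt) (hV : VnStmt) (hE : EpiStmt) (hC : CoreStmt)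
    (hEl : ElimStmt) (hT : TrStmt) (hP : PlkStmt) : Main2Stmt := by
  intro n G H hG hH' hHG cG cH h3
  have clG : Clo G := clo_iff.2 hG
  have clH : Clo H := clo_iff.2 hH'
  obtain ⟨N, ρ, w, hρ, hw, hH⟩ := chev_of hT hP clH
  have nG := nice_of hL hR hV clG cG
  have nH := nice_of hL hR hV clH cH
  obtain ⟨b, c0, ci, hb, hfac, hval, hnd⟩ := hC n G H nG nH hHG (hE n G H clG hHG h3)
  have hm : ∀ x y, ρ (x * y) = ρ x * ρ y := fun x y => hρ.mul x trivial y trivial
  have hrel : ∀ τ : ℂ, τ ≠ 0 → ∃ c : ℂ, ρ (gm (evp τ) c0) *ᵥ w =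
      c • (ρ (gm (evp τ⁻¹) ci) *ᵥ w) := by
    intro τ hτ
    obtain ⟨c, hc⟩ := (hH _).1 (hb (Units.mk0 τ hτ))
    refine ⟨c, ?_⟩
    have h1 := hfac.eq (Units.mk0 τ hτ)
    simp only [Units.val_mk0, Units.val_inv_eq_inv_val] at h1
    rw [h1, hm, ← mulVec_mulVec, hc, mulVec_smul]
  obtain ⟨p, hp⟩ := main2_vec hρ c0 w
  obtain ⟨q, hq⟩ := main2_vec hρ ci w
  obtain ⟨I, hI, hZ⟩ := hEl N p q w hw
    (fun i => by
      have := congrFun (hq 0) i
      rw [hfac.one, hρ.one, one_mulVec] at this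
      exact this)
    (fun τ => by rw [hp]; exact chev_ne hρ _ hw)
    (fun τ hτ => by rw [hp, hq]; exact hrel τ hτ)
  refine ⟨N, repHom hρ G, w, fun i j => ⟨_, reg_iff.1 (hρ.reg i j), fun _ => rfl⟩, hw,
    fun g => hH g, I, p, hI, hZ, fun τ => ⟨⟨_, (hval τ).2⟩, hp τ⟩, ?_⟩
  intro K hK hHK hKG hne g hall
  have key : ∀ x : Gl n, (∀ f ∈ I, MvPolynomial.eval (ρ x *ᵥ w) f = 0) →
      (g : Gl n)⁻¹ * x ∈ K := by
    intro x hxI
    obtain ⟨k, hk, c, hc⟩ := hall _ hxI
    have hc' : ρ x *ᵥ w = c • (ρ ((g : Gl n) * k) *ᵥ w) := hc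
    have h1 : ((g : Gl n) * k)⁻¹ * x ∈ H := by
      refine (hH _).2 ⟨c, ?_⟩
      rw [hm, ← mulVec_mulVec, hc', mulVec_smul, mulVec_mulVec, hρ.inv_mul trivial, one_mulVec]
    have h2 : (g : Gl n)⁻¹ * x = k * (((g : Gl n) * k)⁻¹ * x) := by group
    rw [h2]
    exact K.mul_mem hk (hHK h1)
  have hgK : (g : Gl n)⁻¹ ∈ K := by
    have := key 1 ((hZ _).2 ⟨1, Or.inl (by simp [hρ.one])⟩)
    rwa [mul_one] at this
  refine hne (le_antisymm hKG (hnd K (clo_iff.2 hK) hHK hKG fun s => ?_))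
  have h1 : (g : Gl n)⁻¹ * gm (evp s) ci ∈ K := by
    refine key _ ((hZ _).2 ?_)
    by_cases hs : s = 0
    · subst hs
      exact ⟨1, Or.inl (by rw [hfac.one]; simp [hρ.one])⟩
    · obtain ⟨c, hc⟩ := hrel s⁻¹ (inv_ne_zero hs)
      rw [inv_inv] at hc
      have hc0 : c ≠ 0 := by
        rintro rfl
        exact chev_ne hρ _ hw (hc.trans (zero_smul _ _))
      refine ⟨c⁻¹, Or.inr ⟨s⁻¹, ?_⟩⟩
      rw [hp, hc, smul_smul, inv_mul_cancel₀ hc0, one_smul]
  have h2 := K.mul_mem (K.inv_mem hgK) h1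
  rwa [inv_inv, mul_inv_cancel_left] at h2

end Pool.Agent.MP_2a37ed_ag

end MrgPart2

-- ======== part 3: formerly Pool.Agent.MP_2a37ed_ag.Lie
section MrgPart3

namespace Pool.Agent.MP_2a37ed_ag

open Matrix Polynomial

variable {n : ℕ}

/-- The left invariant derivation attached to `A`. -/
noncomputable def lie_D (A : Mat n) (F : Gl n → ℂ) : Gl n → ℂ := fun g => dR F g (g.val * A)

theorem lie_D_zero {G : Subgroup (Gl n)} {A : Mat n} (hA : A ∈ lie G) {F : Gl n → ℂ}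
    (hF : F ∈ Reg n) (h0 : ∀ g ∈ G, F g = 0) : ∀ g ∈ G, lie_D A F g = 0 := by
  intro g hg
  unfold lie_D
  rw [← dR_mul_left hF g A]
  exact hA _ (reg_mul_left hF g) fun x hx => h0 _ (G.mul_mem hg hx)

theorem lie_hasDerivAt (A : Mat n) {F : Gl n → ℂ} (hF : F ∈ Reg n) (c : ℂ) :
    HasDerivAt (fun c : ℂ => F (expU (c • A))) (lie_D A F (expU (c • A))) c := by
  have := hasDerivAt_reg_expU hF 1 A c
  simpa only [one_mul, lie_D] using this

theorem lie_iter {G : Subgroup (Gl n)} {A : Mat n} (hA : A ∈ lie G) (k : ℕ) :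
    ∀ F ∈ Reg n, (∀ g ∈ G, F g = 0) →
      iteratedDeriv k (fun c : ℂ => F (expU (c • A))) 0 = 0 := by
  induction k with
  | zero =>
    intro F _ h0
    simp only [iteratedDeriv_zero, zero_smul, expU_zero]
    exact h0 1 G.one_mem
  | succ k ih =>
    intro F hF h0
    rw [iteratedDeriv_succ']
    have hd : deriv (fun c : ℂ => F (expU (c • A))) = fun c : ℂ => lie_D A F (expU (c • A)) :=
      funext fun c => (lie_hasDerivAt A hF c).deriv
    rw [hd]
    exact ih (lie_D A F) (reg_dR hF A) (lie_D_zero hA hF h0)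

theorem lie_stmt : LieStmt := by
  intro n G hG A hA c
  refine hG _ fun F hF h0 => ?_
  have hd : Differentiable ℂ fun c : ℂ => F (expU (c • A)) :=
    fun c => (lie_hasDerivAt A hF c).differentiableAt
  have := Complex.taylorSeries_eq_of_entire' 0 c hd
  rw [← this]
  simp only [lie_iter hA _ F hF h0, mul_zero, zero_mul, tsum_zero]

theorem inv_of (hL : LieStmt) : InvStmt := by
  intro n H K S hH hK hS hSK
  have h1 : lie H ≤ lie K :=
    hS.trans (Submodule.span_le.2 fun A hA => mem_lie_of_exp (hSK A hA))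
  refine hH.gen.trans ((Subgroup.closure_le K).2 ?_)
  rintro g ⟨A, hA, rfl⟩
  have := hL n K hK A (h1 hA) 1
  rwa [one_smul] at this

/-- The stabiliser of a subspace. -/
def lie_stab {ι : Type} [Fintype ι] [DecidableEq ι] {H : Subgroup (Gl n)}
    {ρ : Gl n → Matrix ι ι ℂ} (hρ : RRep H ρ) (M : Submodule ℂ (ι → ℂ)) : Subgroup (Gl n) where
  carrier := {g | g ∈ H ∧ ∀ v ∈ M, ρ g *ᵥ v ∈ M ∧ ρ g⁻¹ *ᵥ v ∈ M}
  mul_mem' := by
    rintro x y ⟨hx, hx'⟩ ⟨hy, hy'⟩
    refine ⟨H.mul_mem hx hy, fun v hv => ⟨?_, ?_⟩⟩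
    · rw [hρ.mul x hx y hy, ← mulVec_mulVec]
      exact (hx' _ (hy' v hv).1).1
    · rw [_root_.mul_inv_rev, hρ.mul _ (H.inv_mem hy) _ (H.inv_mem hx), ← mulVec_mulVec]
      exact (hy' _ (hx' v hv).2).2
  one_mem' := ⟨H.one_mem, fun v hv => by
    rw [inv_one, hρ.one, one_mulVec]
    exact ⟨hv, hv⟩⟩
  inv_mem' := by
    rintro x ⟨hx, hx'⟩
    refine ⟨H.inv_mem hx, fun v hv => ⟨(hx' v hv).2, ?_⟩⟩
    rw [inv_inv]
    exact (hx' v hv).1

theorem lie_stab_clo {ι : Type} [Fintype ι] [DecidableEq ι] {H : Subgroup (Gl n)} (hH : Clo H)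
    {ρ : Gl n → Matrix ι ι ℂ} (hρ : RRep H ρ) (M : Submodule ℂ (ι → ℂ)) :
    Clo (lie_stab hρ M) := by
  refine clo_of_sub hH {F | ∃ ξ ∈ M.dualAnnihilator, ∃ v ∈ M,
    F = (fun g => ξ (ρ g *ᵥ v)) ∨ F = fun g => ξ (ρ g⁻¹ *ᵥ v)} ?_ fun g => ?_
  · rintro F ⟨ξ, -, v, -, rfl | rfl⟩
    · exact reg_lin_vec (fun i => reg_mulVec hρ.reg v i) ξ
    · exact reg_inv (F := fun g => ξ (ρ g *ᵥ v))
        (reg_lin_vec (fun i => reg_mulVec hρ.reg v i) ξ)
  · constructor
    · rintro ⟨hg, hg'⟩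
      refine ⟨hg, ?_⟩
      rintro F ⟨ξ, hξ, v, hv, rfl | rfl⟩
      · exact (Submodule.mem_dualAnnihilator ξ).1 hξ _ (hg' v hv).1
      · exact (Submodule.mem_dualAnnihilator ξ).1 hξ _ (hg' v hv).2
    · rintro ⟨hg, hg'⟩
      refine ⟨hg, fun v hv => ⟨?_, ?_⟩⟩
      · exact (Subspace.forall_mem_dualAnnihilator_apply_eq_zero_iff M _).1 fun ξ hξ =>
          hg' _ ⟨ξ, hξ, v, hv, Or.inl rfl⟩
      · exact (Subspace.forall_mem_dualAnnihilator_apply_eq_zero_iff M _).1 fun ξ hξ =>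
          hg' _ ⟨ξ, hξ, v, hv, Or.inr rfl⟩

theorem invs_of (hI : InvStmt) : InvsStmt := by
  intro n ι _ _ H ρ M S hH hρ hSH hS hSM h hh v hv
  have hle : H ≤ lie_stab hρ M := by
    refine hI n H _ S hH (lie_stab_clo hH.clo hρ M) hS fun A hA c => ?_
    refine ⟨(hH.mem A).1 (hSH A hA) c, fun w hw => ⟨hSM A hA c w hw, ?_⟩⟩
    rw [expU_inv, ← neg_smul]
    exact hSM A hA (-c) w hw
  exact ((hle hh).2 v hv).1

theorem lie_ch_exp {G : Subgroup (Gl n)} {η : Gl n → ℂ} {A : Mat n} (hη : Ch G η)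
    (hA : ∀ c : ℂ, expU (c • A) ∈ G) : η (expU A) = Complex.exp (dR η 1 A) := by
  set a : ℂ := dR η 1 A with ha
  have h0 : HasDerivAt (fun c : ℂ => η (expU (c • A))) a 0 := by
    have := lie_hasDerivAt A hη.reg 0
    simpa only [lie_D, zero_smul, expU_zero, Units.val_one, one_mul] using this
  have h1 : ∀ c : ℂ, HasDerivAt (fun c : ℂ => η (expU (c • A))) (η (expU (c • A)) * a) c := by
    intro c
    have h2 : HasDerivAt (fun s : ℂ => η (expU ((s - c) • A))) a c := by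
      have h3 : HasDerivAt (fun s : ℂ => η (expU (s • A))) a (c - c) := by
        rwa [sub_self]
      exact h3.comp_sub_const c c
    have h4 := h2.const_mul (η (expU (c • A)))
    refine h4.congr_of_eventuallyEq (Filter.Eventually.of_forall fun s => ?_)
    show η (expU (s • A)) = η (expU (c • A)) * η (expU ((s - c) • A))
    rw [← hη.mul _ (hA c) _ (hA (s - c)), ← expU_add_smul, add_sub_cancel]
  have h5 : ∀ c : ℂ, HasDerivAt (fun c : ℂ => η (expU (c • A)) * Complex.exp (-(c * a))) 0 c := by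
    intro c
    have h6 : HasDerivAt (fun c : ℂ => Complex.exp (-(c * a))) (Complex.exp (-(c * a)) * (-a)) c := by
      have := ((hasDerivAt_id c).mul_const a).neg.cexp
      simpa using this
    have h7 := (h1 c).mul h6
    have h8 : η (expU (c • A)) * a * Complex.exp (-(c * a)) +
        η (expU (c • A)) * (Complex.exp (-(c * a)) * (-a)) = 0 := by ring
    rw [h8] at h7
    exact h7
  have h8 := is_const_of_deriv_eq_zero (fun c => (h5 c).differentiableAt)
    (fun c => (h5 c).deriv) 1 0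
  simp only [one_smul, zero_smul, expU_zero, hη.one, one_mul, zero_mul, neg_zero,
    Complex.exp_zero] at h8
  have h9 : Complex.exp (-a) * Complex.exp a = 1 := by
    rw [← Complex.exp_add, neg_add_cancel, Complex.exp_zero]
  calc η (expU A) = η (expU A) * (Complex.exp (-a) * Complex.exp a) := by rw [h9, mul_one]
    _ = Complex.exp a := by rw [← mul_assoc, h8, one_mul]

theorem ch_stmt : ChStmt := by
  intro n G
  refine ⟨fun η A hη hA => lie_ch_exp hη hA, fun V hV => (Subgroup.closure_le _).2 ?_⟩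
  rintro g ⟨N, hN, hnil, rfl⟩
  have h1 : expU N ∈ G := by
    have := hV N hN 1
    rwa [one_smul] at this
  refine ⟨h1, fun η hη => ?_⟩
  obtain ⟨p, hp⟩ := reg_expU_poly hη.reg hnil
  have hne : ∀ s, p.eval s ≠ 0 := by
    intro s hs
    have := hη.mul_inv (hV N hN s)
    rw [hp s, hs, zero_mul] at this
    exact zero_ne_one this
  have h2 := eval_const_of_ne hne 1
  rw [← hp, ← hp, one_smul, zero_smul, expU_zero, hη.one] at h2
  exact h2

end Pool.Agent.MP_2a37ed_ag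

end MrgPart3

-- ======== part 4: formerly Pool.Agent.MP_2a37ed_ag.Rep
section MrgPart4

namespace Pool.Agent.MP_2a37ed_ag

open Matrix Polynomial

variable {n : ℕ}

/-- One differentiation of a vanishing exponential polynomial. -/
theorem rep_step (S : Finset ℂ) (p : ℂ → ℂ[X]) (a : ℂ)
    (h : ∀ c, ∑ l ∈ S, (p l).eval c * Complex.exp (c * l) = 0) (c : ℂ) :
    ∑ l ∈ S, (derivative (p l) + C (l - a) * p l).eval c * Complex.exp (c * l) = 0 := by
  have h1 : HasDerivAt (fun c => ∑ l ∈ S, (p l).eval c * Complex.exp (c * l))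
      (∑ l ∈ S, ((derivative (p l)).eval c * Complex.exp (c * l) +
        (p l).eval c * (Complex.exp (c * l) * l))) c :=
    HasDerivAt.fun_sum fun l _ => ((p l).hasDerivAt c).mul (hasDerivAt_mul_const l).cexp
  have h2 := h1.unique ((hasDerivAt_const c (0 : ℂ)).congr_of_eventuallyEq (.of_forall h))
  have h3 := congrArg₂ (fun x y => x - a * y) h2 (h c)
  simp only [Finset.mul_sum, ← Finset.sum_sub_distrib, mul_zero, sub_zero] at h3
  refine (Finset.sum_congr rfl fun l _ => ?_).trans h3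
  simp only [eval_add, eval_mul, eval_C]
  ring

theorem rep_inj {b : ℂ} (hb : b ≠ 0) {q : ℂ[X]} (h : derivative q + C b * q = 0) : q = 0 := by
  by_contra h0
  have h1 := degree_derivative_lt h0
  rw [eq_neg_of_add_eq_zero_left h, degree_neg, degree_C_mul hb] at h1
  exact lt_irrefl _ h1

/-- Exponentials are linearly independent over the polynomials. -/
theorem rep_indep (S : Finset ℂ) : ∀ p : ℂ → ℂ[X],
    (∀ c, ∑ l ∈ S, (p l).eval c * Complex.exp (c * l) = 0) → ∀ l ∈ S, p l = 0 := by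
  classical
  induction S using Finset.induction_on with
  | empty => simp
  | insert a S ha ih =>
    intro p h
    let δ : ℂ → ℂ[X] → ℂ[X] := fun l q => derivative q + C (l - a) * q
    have h1 : ∀ (N : ℕ) c, ∑ l ∈ insert a S, ((δ l)^[N] (p l)).eval c * Complex.exp (c * l) = 0 :=
      fun N => by
        induction N with
        | zero => exact h
        | succ N ihN =>
          simp only [Function.iterate_succ_apply']
          exact rep_step _ _ a ihN
    have h2 : δ a = derivative := funext fun q => by simp [δ]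
    have h3 : ∀ l ∈ S, ∀ (N : ℕ) q, (δ l)^[N] q = 0 → q = 0 := fun l hl N => by
      induction N with
      | zero => exact fun _ e => e
      | succ N ihN =>
        intro q e
        rw [Function.iterate_succ_apply'] at e
        exact ihN q (rep_inj (sub_ne_zero.2 fun e' : l = a => ha (e' ▸ hl)) e)
    have h4 : ∀ l ∈ S, p l = 0 := fun l hl => h3 l hl _ _ (ih
      (fun l => (δ l)^[(p a).natDegree + 1] (p l)) (fun c => by
        have := h1 ((p a).natDegree + 1) c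
        rwa [Finset.sum_insert ha, h2, iterate_derivative_eq_zero (Nat.lt_succ_self _), eval_zero,
          zero_mul, zero_add] at this) l hl)
    refine Finset.forall_mem_insert _ _ _ |>.2 ⟨Polynomial.funext fun c => ?_, h4⟩
    have := h c
    rw [Finset.sum_insert ha, Finset.sum_eq_zero fun l hl => by rw [h4 l hl, eval_zero, zero_mul],
      add_zero] at this
    rw [eval_zero]
    exact (mul_eq_zero.1 this).resolve_right (Complex.exp_ne_zero _)

/-- Formal exponential polynomials. -/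
abbrev RepR := AddMonoidAlgebra ℂ[X] ℂ

/-- Evaluation of formal exponential polynomials. -/
noncomputable def repEv (c : ℂ) (φ : ℂ →+ ℂ) : RepR →ₐ[ℂ] ℂ :=
  AddMonoidAlgebra.liftNCAlgHom (evp c)
    { toFun := fun l => Complex.exp (φ l.toAdd)
      map_one' := by simp
      map_mul' := fun a b => by simp [Complex.exp_add] } fun _ _ => Commute.all _ _

theorem repEv_single (c : ℂ) (φ : ℂ →+ ℂ) (l : ℂ) (p : ℂ[X]) :
    repEv c φ (AddMonoidAlgebra.single l p) = p.eval c * Complex.exp (φ l) := by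
  rw [repEv, AddMonoidAlgebra.coe_liftNCAlgHom, AddMonoidAlgebra.liftNC_single, ← evp_apply]
  rfl

theorem repEv_inj {r : RepR} (h : ∀ c, repEv c (AddMonoidHom.mulLeft c) r = 0) : r = 0 := by
  have h1 := rep_indep r.coeff.support r.coeff fun c => by
    rw [← h c]
    conv_rhs => rw [← r.sum_coeff_single, Finsupp.sum, map_sum]
    exact Finset.sum_congr rfl fun l _ => (repEv_single c (AddMonoidHom.mulLeft c) l _).symm
  rw [← r.sum_coeff_single, Finsupp.sum]
  exact Finset.sum_eq_zero fun l hl => by rw [h1 l hl, AddMonoidAlgebra.single_zero]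

/-- The formal torus element. -/
theorem rep_unit {ι : Type} [Fintype ι] {P : ι → Mat n} (hP : CompleteOrthogonalIdempotents P)
    (μ : ι → ℂ) : ∃ x : GL (Fin n) RepR, ∀ c φ,
      gm (repEv c φ) x = expU (DD P fun i => φ (μ i)) := by
  classical
  let M : (ι → ℂ) → Matrix (Fin n) (Fin n) RepR := fun u =>
    ∑ a, (AddMonoidAlgebra.single (u a) 1 : RepR) • (algebraMap ℂ RepR).mapMatrix (P a)
  have hQ := hP.map (algebraMap ℂ RepR).mapMatrix
  have h1 : ∀ u v : ι → ℂ, u + v = 0 → M u * M v = 1 := fun u v h => by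
    rw [← hQ.complete, Finset.sum_mul]
    refine Finset.sum_congr rfl fun a _ => ?_
    rw [Finset.mul_sum, Finset.sum_eq_single a _ (by simp), smul_mul_smul_comm,
      AddMonoidAlgebra.single_mul_single, ← Pi.add_apply, h, mul_one]
    · exact (one_smul _ _).trans (hQ.idem a)
    · intro b _ hb
      rw [smul_mul_smul_comm]
      exact smul_eq_zero_of_right _ (hQ.ortho hb.symm)
  refine ⟨⟨M μ, M (-μ), h1 _ _ (add_neg_cancel μ), h1 _ _ (neg_add_cancel μ)⟩, fun c φ =>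
    Units.ext ?_⟩
  rw [gm_val, expU_DD hP]
  ext i j
  simp [M, DD_apply, Matrix.sum_apply, repEv_single, -AddMonoidAlgebra.coe_algebraMap]

theorem rep_of (hL : LieStmt) : RepStmt := by
  intro n G hG
  refine ⟨fun A hA B hB => ad_of_cj _ fun c => mem_lie_of_exp fun c' => ?_,
    fun ι _ P μ N hP hN hc h => ?_⟩
  · rw [← map_smul, expU_cj]
    exact G.mul_mem (G.mul_mem (hL n G hG A hA c) (hL n G hG B hB c'))
      (G.inv_mem (hL n G hG A hA c))
  obtain ⟨x, hx⟩ := rep_unit hP μ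
  have h1 : ∀ c φ, gm (repEv c φ) (x * expN (AddMonoidAlgebra.single 0 X : RepR) N hN) =
      expU (DD P fun i => φ (μ i)) * expU (c • N) := fun c φ => by
    rw [map_mul, hx, gm_expN_complex, repEv_single]
    simp
  have h2 : ∀ (c : ℂ) (φ : ℂ →+ ℂ), expU (DD P fun i => φ (μ i)) * expU (c • N) ∈ G :=
    fun c φ => hG _ fun F hF h0 => by
      obtain ⟨r, hr⟩ := reg_ev (x * expN (AddMonoidAlgebra.single 0 X : RepR) N hN) hF
      rw [← h1, ← hr, repEv_inj (r := r) fun c' => ?_, map_zero]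
      rw [hr, h1, ← expU_add ((commute_DD hc _).symm.smul_right c')]
      have := hL n G hG _ h c'
      rw [smul_add, ← map_smul] at this
      exact h0 _ this
  refine ⟨mem_lie_of_exp fun c => ?_, fun φ => mem_lie_of_exp fun c => ?_⟩
  · have := h2 c 0
    rwa [show (fun i => (0 : ℂ →+ ℂ) (μ i)) = 0 from rfl, map_zero, expU_zero, one_mul] at this
  · have := h2 0 ((AddMonoidHom.mulLeft c).comp φ)
    rw [zero_smul, expU_zero, mul_one] at this
    rw [← map_smul]
    exact this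

end Pool.Agent.MP_2a37ed_ag

end MrgPart4

-- ======== part 5: formerly Pool.Agent.MP_2a37ed_ag.Vn
section MrgPart5

namespace Pool.Agent.MP_2a37ed_ag

open Matrix Filter Topology

variable {n : ℕ}

theorem vn_proj (V : Submodule ℂ (Mat n)) :
    ∃ p : Mat n →ₗ[ℂ] Mat n, (∀ A, p A ∈ V) ∧ ∀ A ∈ V, p A = A := by
  obtain ⟨f, hf⟩ := V.subtype.exists_leftInverse_of_injective V.ker_subtype
  refine ⟨V.subtype ∘ₗ f, fun A => (f A).2, fun A hA => ?_⟩
  have h := LinearMap.congr_fun hf ⟨A, hA⟩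
  exact congrArg Subtype.val h

section

open scoped Matrix.Norms.Operator

theorem vn_exp : HasStrictFDerivAt (fun A : Mat n => NormedSpace.exp A)
    (ContinuousLinearMap.id ℂ (Mat n)) 0 :=
  hasStrictFDerivAt_exp_zero (𝕂 := ℂ) (𝔸 := Mat n)

theorem vn_map (p : Mat n →ₗ[ℂ] Mat n) :
    map (fun A : Mat n => NormedSpace.exp (p A) * NormedSpace.exp (A - p A)) (𝓝 0) = 𝓝 1 := by
  let P : Mat n →L[ℂ] Mat n := LinearMap.toContinuousLinearMap p
  let R : Mat n →L[ℂ] Mat n := ContinuousLinearMap.id ℂ (Mat n) - P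
  have h0 : ∀ L : Mat n →L[ℂ] Mat n,
      HasStrictFDerivAt (fun A : Mat n => NormedSpace.exp (L A)) L 0 := by
    intro L
    have h1 : HasStrictFDerivAt (fun A : Mat n => NormedSpace.exp A)
        (ContinuousLinearMap.id ℂ (Mat n)) (L 0) := by
      rw [map_zero]
      exact vn_exp
    exact h1.comp (0 : Mat n) L.hasStrictFDerivAt
  have h1 := (h0 P).mul' (h0 R)
  have h2 : HasStrictFDerivAt (fun A : Mat n => NormedSpace.exp (P A) * NormedSpace.exp (R A))
      ((ContinuousLinearEquiv.refl ℂ (Mat n) : Mat n ≃L[ℂ] Mat n) : Mat n →L[ℂ] Mat n) 0 := by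
    refine h1.congr_fderiv ?_
    rw [map_zero, map_zero, NormedSpace.exp_zero, one_smul, MulOpposite.op_one, one_smul]
    exact sub_add_cancel _ _
  have h3 := h2.map_nhds_eq_of_equiv
  simp only [map_zero, NormedSpace.exp_zero, mul_one] at h3
  exact h3

theorem vn_small {F : Gl n → ℂ} (hF : F ∈ Reg n) (h1 : F 1 = 0) {ε : ℝ} (hε : 0 < ε) :
    ∀ᶠ B : Mat n in 𝓝 0, F (expU B) = 0 → ‖dR F 1 B‖ ≤ ε * ‖B‖ := by
  have h2 : HasFDerivAt (xt F) (dR F 1) (NormedSpace.exp (0 : Mat n)) := by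
    rw [NormedSpace.exp_zero]
    exact hasFDerivAt_xt hF 1
  have h3 : HasFDerivAt (fun B : Mat n => xt F (NormedSpace.exp B)) (dR F 1) 0 :=
    h2.comp (0 : Mat n) vn_exp.hasFDerivAt
  have h4 := h3.isLittleO.def hε
  filter_upwards [h4] with B hB h0
  have e1 : xt F (NormedSpace.exp B) = 0 := (xt_val F (expU B)).trans h0
  have e2 : xt F (NormedSpace.exp (0 : Mat n)) = 0 := by
    rw [NormedSpace.exp_zero]
    exact (xt_val F 1).trans h1
  rw [e1, e2, sub_zero, sub_zero, zero_sub, norm_neg] at hB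
  exact hB

theorem vn_isolated {G : Subgroup (Gl n)} (p : Mat n →ₗ[ℂ] Mat n) (hp : ∀ A ∈ lie G, p A = A) :
    ∀ᶠ B : Mat n in 𝓝 0, p B = 0 → expU B ∈ G → B = 0 := by
  by_contra hcon
  have hfr : ∃ᶠ B : Mat n in 𝓝 0, p B = 0 ∧ expU B ∈ G ∧ B ≠ 0 := by
    refine (not_eventually.1 hcon).mono fun B hB => ?_
    push Not at hB
    exact hB
  have hne := frequently_iff_neBot.1 hfr
  obtain ⟨U, hU⟩ := Ultrafilter.exists_le (𝓝 (0 : Mat n) ⊓ 𝓟 {B | p B = 0 ∧ expU B ∈ G ∧ B ≠ 0})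
  have hU1 : (U : Filter (Mat n)) ≤ 𝓝 0 := hU.trans inf_le_left
  have hU2 : ∀ᶠ B in (U : Filter (Mat n)), p B = 0 ∧ expU B ∈ G ∧ B ≠ 0 :=
    le_principal_iff.1 (hU.trans inf_le_right)
  let u : Mat n → Mat n := fun B => ((‖B‖ : ℂ))⁻¹ • B
  have hu : ∀ B, B ≠ 0 → ‖u B‖ = 1 := fun B hB => by
    have := norm_ne_zero_iff.2 hB
    simp only [u, norm_smul, norm_inv, Complex.norm_real, norm_norm]
    exact inv_mul_cancel₀ this
  obtain ⟨B0, hB0, hlim⟩ := (isCompact_sphere (0 : Mat n) 1).ultrafilter_le_nhds (U.map u) (by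
    rw [Ultrafilter.coe_map, le_principal_iff, mem_map]
    filter_upwards [hU2] with B hB
    exact mem_sphere_zero_iff_norm.2 (hu B hB.2.2))
  have hlim' : Tendsto u U (𝓝 B0) := hlim
  have h1 : p B0 = 0 := by
    have h2 := ((LinearMap.toContinuousLinearMap p).continuous.tendsto B0).comp hlim'
    refine tendsto_nhds_unique h2 (tendsto_const_nhds.congr' ?_)
    filter_upwards [hU2] with B hB
    change 0 = p (u B)
    simp only [u, map_smul, hB.1, smul_zero]
  have h2 : B0 ∈ lie G := by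
    intro F hF h0
    have h3 := ((dR F 1).continuous.tendsto B0).comp hlim'
    refine tendsto_nhds_unique h3 ?_
    rw [NormedAddGroup.tendsto_nhds_zero]
    intro ε hε
    filter_upwards [hU2, hU1 (vn_small hF (h0 1 G.one_mem) (half_pos hε))] with B hB hs
    have h4 : ‖dR F 1 B‖ ≤ ε / 2 * ‖B‖ := hs (h0 _ hB.2.1)
    have h5 : 0 < ‖B‖ := norm_pos_iff.2 hB.2.2
    change ‖dR F 1 (u B)‖ < ε
    simp only [u, map_smul, norm_smul, norm_inv, Complex.norm_real, norm_norm]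
    rw [inv_mul_lt_iff₀ h5]
    nlinarith only [h4, mul_pos h5 hε]
  have h3 : B0 = 0 := (hp B0 h2).symm.trans h1
  rw [h3, mem_sphere_zero_iff_norm, norm_zero] at hB0
  exact zero_ne_one hB0

end

theorem vn_nhds (hL : LieStmt) {G : Subgroup (Gl n)} (hG : Clo G) :
    ∀ᶠ x : Mat n in 𝓝 1, ∀ g ∈ G, g.val = x → ∃ A ∈ lie G, g = expU A := by
  obtain ⟨p, hp1, hp2⟩ := vn_proj (lie G)
  rw [← vn_map p, eventually_map]
  have hc : Tendsto (fun A : Mat n => A - p A) (𝓝 0) (𝓝 0) := by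
    have h1 : Continuous fun A : Mat n => A - p A :=
      continuous_id.sub p.continuous_of_finiteDimensional
    have h2 := h1.tendsto 0
    simpa using h2
  filter_upwards [hc.eventually (vn_isolated p hp2)] with A hA g hg he
  have e1 : g = expU (p A) * expU (A - p A) := Units.ext he
  have h1 : expU (p A) ∈ G := by
    have := hL n G hG (p A) (hp1 A) 1
    rwa [one_smul] at this
  have h2 : expU (A - p A) ∈ G := by
    have := G.mul_mem (G.inv_mem h1) hg
    rwa [e1, inv_mul_cancel_left] at this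
  have h3 := hA (by rw [map_sub, hp2 _ (hp1 A), sub_self]) h2
  refine ⟨p A, hp1 A, ?_⟩
  rw [e1, h3, expU_zero, mul_one]

theorem vn_of (hL : LieStmt) : VnStmt := by
  intro n G hG hc
  set G0 := Subgroup.closure {g : Gl n | ∃ A ∈ lie G, g = expU A} with hG0
  have : ConnectedSpace G := isConnected_iff_connectedSpace.1 hc
  have h1 : ((G0.subgroupOf G : Subgroup G) : Set G) ∈ 𝓝 (1 : G) := by
    have h2 : Tendsto (fun g : G => (g : Gl n).val) (𝓝 1) (𝓝 1) :=
      (Units.continuous_val.comp continuous_subtype_val).tendsto' 1 1 rfl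
    filter_upwards [h2.eventually (vn_nhds hL hG)] with g hg
    exact Subgroup.subset_closure (hg g g.2 rfl)
  have h2 := Subgroup.isOpen_of_mem_nhds _ h1
  have h3 := IsClopen.eq_univ ⟨Subgroup.isClosed_of_isOpen _ h2, h2⟩ ⟨1, Subgroup.one_mem _⟩
  intro g hg
  have h4 : (⟨g, hg⟩ : G) ∈ ((G0.subgroupOf G : Subgroup G) : Set G) := h3 ▸ Set.mem_univ _
  exact h4

end Pool.Agent.MP_2a37ed_ag

end MrgPart5

-- ======== part 6: formerly Pool.Agent.MP_2a37ed_ag.Jord
section MrgPart6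

/-! Jordan decomposition with idempotents, and the theorem of Engel. -/

namespace Pool.Agent.MP_2a37ed_ag

open Matrix Polynomial

theorem jord_kill {n : ℕ} (A : Mat n) : ∃ (m K : ℕ) (μ : Fin (m + 1) → ℂ), Function.Injective μ ∧
    aeval A (∏ i, (X - C (μ i)) ^ K) = 0 := by
  classical
  obtain ⟨S, hS⟩ : ∃ S : Finset ℂ, S = insert 0 A.charpoly.roots.toFinset := ⟨_, rfl⟩
  obtain ⟨m, hm⟩ : ∃ m, S.card = m + 1 :=
    Nat.exists_eq_succ_of_ne_zero (Finset.card_ne_zero.2 ⟨0, by simp [hS]⟩)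
  let e := S.equivFinOfCardEq hm
  refine ⟨m, A.charpoly.roots.card, fun i => (e.symm i : ℂ),
    Subtype.val_injective.comp e.symm.injective, ?_⟩
  have d : A.charpoly ∣ ∏ i, (X - C (e.symm i : ℂ)) ^ A.charpoly.roots.card := by
    rw [Finset.prod_pow]
    conv_lhs => rw [(IsAlgClosed.splits A.charpoly).eq_prod_roots_of_monic A.charpoly_monic]
    have := Multiset.prod_dvd_prod_of_dvd (S := A.charpoly.roots) (fun a => X - C a)
      (fun _ => ∏ i, (X - C (e.symm i : ℂ))) fun a ha => by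
        have h : a ∈ S := by simp [hS, ha]
        have := Finset.dvd_prod_of_mem (fun i => X - C (e.symm i : ℂ)) (Finset.mem_univ (e ⟨a, h⟩))
        simpa using this
    simpa using this
  obtain ⟨q, hq⟩ := d
  rw [hq, map_mul, Matrix.aeval_self_charpoly, zero_mul]

theorem spec_stmt : SpecStmt := by
  classical
  intro n A
  obtain ⟨m, K, μ, hμ, h0⟩ := jord_kill A
  have hc : Pairwise (Function.onFun IsCoprime fun i => (X - C (μ i)) ^ K) := fun i j hij =>
    (pairwise_coprime_X_sub_C hμ hij).pow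
  obtain ⟨c, hc⟩ := exists_sum_eq_one_iff_pairwise_coprime'.2 hc
  obtain ⟨e, he⟩ : ∃ e : Fin (m + 1) → ℂ[X],
      e = fun i => c i * ∏ j ∈ {i}ᶜ, (X - C (μ j)) ^ K := ⟨_, rfl⟩
  have kill : ∀ i (p : ℂ[X]), (X - C (μ i)) ^ K ∣ p → aeval A (p * e i) = 0 := by
    rintro i _ ⟨q, rfl⟩
    rw [← Finset.mul_prod_erase _ _ (Finset.mem_univ i), ← Finset.compl_singleton] at h0
    rw [he, show (X - C (μ i)) ^ K * q * (c i * ∏ j ∈ {i}ᶜ, (X - C (μ j)) ^ K) =
      ((X - C (μ i)) ^ K * ∏ j ∈ {i}ᶜ, (X - C (μ j)) ^ K) * (q * c i) by ring, map_mul, h0,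
      zero_mul]
  have cm : ∀ p q : ℂ[X], Commute (aeval A p) (aeval A q) := fun p q =>
    (Commute.all p q).map (aeval A)
  have s1 : ∑ i, e i = 1 := by rw [he]; exact hc
  refine ⟨m + 1, fun i => aeval A (e i), μ, aeval A (∑ i, (X - C (μ i)) * e i), ?_, ?_,
    fun i => cm _ _, ?_, fun i => aeval_mem_adjoin_singleton _ _, aeval_mem_adjoin_singleton _ _⟩
  · refine CompleteOrthogonalIdempotents.iff_ortho_complete.2 ⟨fun i j hij => ?_, ?_⟩
    · refine (map_mul (aeval A) (e i) (e j)).symm.trans (kill j _ ?_)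
      rw [he]
      exact (Finset.dvd_prod_of_mem _ (by simpa using hij.symm)).mul_left _
    · rw [← map_sum, s1, map_one]
  · rw [map_sum]
    refine Commute.isNilpotent_sum (fun i _ => ⟨K + 1, ?_⟩) fun i j _ _ => cm _ _
    rw [← map_pow, show ((X - C (μ i)) * e i) ^ (K + 1) =
      ((X - C (μ i)) ^ K * ((X - C (μ i)) * e i ^ K)) * e i by rw [mul_pow]; ring]
    exact kill i _ (dvd_mul_right _ _)
  · have e1 : DD (fun i => aeval A (e i)) μ = aeval A (∑ i, C (μ i) * e i) := by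
      rw [map_sum]
      change ∑ i, μ i • aeval A (e i) = _
      exact Finset.sum_congr rfl fun i _ => by rw [← smul_eq_C_mul, map_smul]
    rw [e1, ← map_add, ← Finset.sum_add_distrib]
    simp only [← add_mul, add_sub_cancel]
    rw [← Finset.mul_sum, s1, mul_one, aeval_X]

attribute [local instance 100] LieRing.ofAssociativeRing in
theorem eng_stmt : EngStmt := by
  intro n V hb hn
  let φ : Mat n ≃ₐ[ℂ] Module.End ℂ (Fin n → ℂ) := Matrix.toLinAlgEquiv'
  let L : LieSubalgebra ℂ (Module.End ℂ (Fin n → ℂ)) :=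
    { V.comap φ.symm.toLinearMap with
      lie_mem' := fun {x y} hx hy => by
        have := hb _ hx _ hy
        change φ.symm (x * y - y * x) ∈ V
        rw [map_sub, map_mul, map_mul]
        exact this }
  have h1 : LieModule.IsNilpotent L (Fin n → ℂ) :=
    (LieModule.isNilpotent_iff_forall' (R := ℂ)).2 fun x => by
      have := (hn _ x.2).map φ
      change IsNilpotent (φ (φ.symm x.1)) at this
      rw [AlgEquiv.apply_symm_apply] at this
      exact this
  obtain ⟨K, hK⟩ := (LieModule.isNilpotent_iff ℂ L (Fin n → ℂ)).1 h1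
  have key : ∀ l : List (Mat n), (∀ x ∈ l, x ∈ V) → ∀ v,
      φ l.prod v ∈ LieModule.lowerCentralSeries ℂ L (Fin n → ℂ) l.length := by
    intro l
    induction l with
    | nil => intro _ v; simp
    | cons a l ih =>
      intro h v
      have ha : φ a ∈ L := by
        change φ.symm (φ a) ∈ V
        rw [AlgEquiv.symm_apply_apply]
        exact h a (by simp)
      rw [List.prod_cons, map_mul, List.length_cons, LieModule.lowerCentralSeries_succ]
      exact LieSubmodule.lie_mem_lie (LieSubmodule.mem_top (⟨φ a, ha⟩ : L))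
        (ih (fun x hx => h x (by simp [hx])) v)
  refine ⟨K, fun l hl h => φ.injective ?_⟩
  rw [map_zero]
  refine LinearMap.ext fun v => ?_
  have := key l h v
  rw [hl, hK] at this
  simpa using this

end Pool.Agent.MP_2a37ed_ag

end MrgPart6

-- ======== part 7: formerly Pool.Agent.MP_2a37ed_ag.Root
section MrgPart7

namespace Pool.Agent.MP_2a37ed_ag

open Matrix Polynomial

variable {n : ℕ}

section Root

variable {ι : Type} [Fintype ι] {P : ι → Mat n}

theorem root_decomp (hP : CompleteOrthogonalIdempotents P) (A : Mat n) :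
    A = ∑ i, ∑ j, P i * A * P j := by
  simp only [← Finset.mul_sum, ← Finset.sum_mul, hP.complete, one_mul, mul_one]

theorem root_ext (hP : CompleteOrthogonalIdempotents P) {A B : Mat n}
    (h : ∀ i j, P i * A * P j = P i * B * P j) : A = B := by
  rw [root_decomp hP A, root_decomp hP B]
  exact Finset.sum_congr rfl fun i _ => Finset.sum_congr rfl fun j _ => h i j

theorem root_comm (hP : CompleteOrthogonalIdempotents P) (u : ι → ℂ) (A : Mat n) (i j : ι) :
    P i * (DD P u * A - A * DD P u) * P j = (u i - u j) • (P i * A * P j) := by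
  have e1 : P i * (DD P u * A) * P j = u i • (P i * A * P j) := by
    rw [← mul_assoc (P i), P_mul_DD hP, smul_mul_assoc, smul_mul_assoc]
  have e2 : P i * (A * DD P u) * P j = u j • (P i * A * P j) := by
    rw [← mul_assoc (P i), mul_assoc (P i * A), DD_mul_P hP, mul_smul_comm]
  rw [mul_sub, sub_mul, e1, e2, sub_smul]

theorem root_cut (hP : CompleteOrthogonalIdempotents P) (u : ι → ℂ) (A : Mat n) (l : ℂ)
    (i j : ι) : P i * (DD P u * A - A * DD P u - l • A) * P j =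
      (u i - u j - l) • (P i * A * P j) := by
  rw [mul_sub, sub_mul, root_comm hP, mul_smul_comm, smul_mul_assoc, ← sub_smul]

theorem root_aux (hP : CompleteOrthogonalIdempotents P) {t : Set (ι → ℂ)}
    {V : Submodule ℂ (Mat n)} (hV : ∀ u ∈ t, ∀ A ∈ V, DD P u * A - A * DD P u ∈ V)
    (s : Finset (ι × ι)) : ∀ A ∈ V, (∀ p, p ∉ s → P p.1 * A * P p.2 = 0) →
      A ∈ Submodule.span ℂ {A | A ∈ V ∧ ∃ i j, Wt P t A i j} := by
  classical
  induction s using Finset.strongInduction with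
  | H s ih =>
    intro A hA h0
    rcases s.eq_empty_or_nonempty with rfl | ⟨p0, hp0⟩
    · have : A = 0 := root_ext hP fun i j => by
        rw [h0 (i, j) (Finset.notMem_empty _), mul_zero, zero_mul]
      rw [this]
      exact zero_mem _
    by_cases h : ∀ p ∈ s, ∀ u ∈ t, u p.1 - u p.2 = u p0.1 - u p0.2
    · refine Submodule.subset_span ⟨hA, p0.1, p0.2, fun u hu => root_ext hP fun i j => ?_⟩
      rw [root_comm hP, mul_smul_comm, smul_mul_assoc]
      by_cases hs : (i, j) ∈ s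
      · rw [h (i, j) hs u hu]
      · rw [h0 (i, j) hs, smul_zero, smul_zero]
    push Not at h
    obtain ⟨p1, hp1, u, hu, hne⟩ := h
    have key : ∀ q ∈ s, DD P u * A - A * DD P u - (u q.1 - u q.2) • A ∈
        Submodule.span ℂ {A | A ∈ V ∧ ∃ i j, Wt P t A i j} := fun q hq => by
      refine ih (s.erase q) (Finset.erase_ssubset hq) _
        (V.sub_mem (hV u hu A hA) (V.smul_mem _ hA)) fun p hp => ?_
      rw [root_cut hP]
      by_cases hpq : p = q
      · rw [hpq, sub_self, zero_smul]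
      · rw [h0 p fun hs => hp (Finset.mem_erase.2 ⟨hpq, hs⟩), smul_zero]
    have hd : u p1.1 - u p1.2 - (u p0.1 - u p0.2) ≠ 0 := sub_ne_zero.2 hne
    have e : (DD P u * A - A * DD P u - (u p0.1 - u p0.2) • A) -
        (DD P u * A - A * DD P u - (u p1.1 - u p1.2) • A) =
        (u p1.1 - u p1.2 - (u p0.1 - u p0.2)) • A := by
      rw [sub_smul (u p1.1 - u p1.2)]
      abel
    have k := Submodule.sub_mem _ (key p0 hp0) (key p1 hp1)
    rw [e] at k
    exact (Submodule.smul_mem_iff _ hd).1 k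

end Root

theorem root_stmt : RootStmt := by
  intro n ι _ P t V hP hV A hA
  exact root_aux hP hV Finset.univ A hA fun p hp => absurd (Finset.mem_univ p) hp

theorem root_rat_int {m : ℕ} (q : Fin m → ℚ) :
    ∃ (N : ℕ) (z : Fin m → ℤ), N ≠ 0 ∧ ∀ i, (N : ℚ) * q i = z i := by
  refine ⟨∏ i, (q i).den, fun i => (∏ j ∈ Finset.univ.erase i, ((q j).den : ℤ)) * (q i).num,
    Finset.prod_ne_zero_iff.2 fun i _ => (q i).den_nz, fun i => ?_⟩
  rw [← Finset.prod_erase_mul _ _ (Finset.mem_univ i)]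
  push_cast
  rw [mul_assoc, Rat.den_mul_eq_num]

theorem rat_stmt : RatStmt := by
  classical
  intro m t ht u hu
  let b := Module.Basis.ofVectorSpace ℚ ℂ
  let φ : Module.Basis.ofVectorSpaceIndex ℚ ℂ → ℂ →+ ℂ := fun k =>
    (Rat.castHom ℂ).toAddMonoidHom.comp (b.coord k).toAddMonoidHom
  have hφ : ∀ k x, φ k x = ((b.repr x k : ℚ) : ℂ) := fun k x => rfl
  let S := Finset.univ.biUnion fun i => (b.repr (u i)).support
  have e : u = ∑ k ∈ S, b k • fun i => φ k (u i) := by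
    ext i
    have h1 : (b.repr (u i)).support ⊆ S :=
      Finset.subset_biUnion_of_mem (fun i => (b.repr (u i)).support) (Finset.mem_univ i)
    have h2 := b.linearCombination_repr (u i)
    rw [Finsupp.linearCombination_apply,
      Finsupp.sum_of_support_subset _ h1 (fun k a => a • b k) fun k _ => zero_smul _ _] at h2
    rw [Finset.sum_apply]
    refine h2.symm.trans (Finset.sum_congr rfl fun k _ => ?_)
    rw [Pi.smul_apply, hφ, smul_eq_mul, Rat.smul_def, mul_comm]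
  rw [e]
  refine Submodule.sum_mem _ fun k _ => Submodule.smul_mem _ _ ?_
  obtain ⟨N, z, hN, hz⟩ := root_rat_int fun i => b.repr (u i) k
  have hN' : (N : ℂ) ≠ 0 := Nat.cast_ne_zero.2 hN
  refine (Submodule.smul_mem_iff _ hN').1
    (Submodule.subset_span ⟨t.smul_mem _ (ht u hu (φ k)), z, ?_⟩)
  ext i
  rw [Pi.smul_apply, hφ, smul_eq_mul]
  exact_mod_cast hz i

theorem bas_stmt : BasStmt := by
  classical
  intro n V Q hV
  obtain ⟨f, hf, hsp, hli⟩ := Submodule.exists_fun_fin_finrank_span_eq ℂ {A | A ∈ V ∧ Q A}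
  obtain ⟨g, hg⟩ := (Fintype.linearCombination ℂ f).exists_leftInverse_of_injective
    (LinearMap.ker_eq_bot.2 hli.fintypeLinearCombination_injective)
  have hg' : ∀ c, g (Fintype.linearCombination ℂ f c) = c := fun c => LinearMap.congr_fun hg c
  refine ⟨_, f, fun a => LinearMap.proj a ∘ₗ g, ⟨fun a => (hf a).1, fun a b => ?_, fun X hX => ?_⟩,
    fun a => (hf a).2⟩
  · have := hg' (Pi.single b 1)
    rw [Fintype.linearCombination_apply_single, one_smul] at this
    rw [LinearMap.comp_apply, this, LinearMap.proj_apply, Pi.single_apply]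
  · have h1 := hV hX
    rw [← hsp, ← Fintype.range_linearCombination] at h1
    obtain ⟨c, rfl⟩ := h1
    simp only [LinearMap.comp_apply, hg', LinearMap.proj_apply]
    exact Fintype.linearCombination_apply ℂ f c

theorem span_of (hR : RootStmt) : SpanStmt := by
  intro n m a P ha hT
  refine (hR n (Fin m) P (tor a P) a hT.coi fun u hu A hA => ha.br _ hu A hA).trans
    (Submodule.span_le.2 ?_)
  rintro A ⟨hA, i, j, hW⟩
  by_cases h : ∃ u ∈ tor a P, u i ≠ u j
  · obtain ⟨u, hu, hne⟩ := h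
    exact Submodule.subset_span ⟨hA, Or.inl (nilp_of_eig (sub_ne_zero.2 hne) (hW u hu))⟩
  · push Not at h
    obtain ⟨u, N, hu, hN, hn, rfl⟩ := hT.max A hA fun u hu => by
      have := hW u hu
      rw [h u hu, sub_self, zero_smul, sub_eq_zero] at this
      exact this.symm
    exact Submodule.add_mem _ (Submodule.subset_span ⟨hu, Or.inr ⟨u, rfl⟩⟩)
      (Submodule.subset_span ⟨hN, Or.inl hn⟩)

end Pool.Agent.MP_2a37ed_ag

end MrgPart7

-- ======== part 8: formerly Pool.Agent.MP_2a37ed_ag.Plk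
section MrgPart8

namespace Pool.Agent.MP_2a37ed_ag

open Matrix

theorem plk_sel {ι κ : Type} [Fintype ι] [DecidableEq ι] {r : ℕ} (S : Fin r → ι)
    (y : Matrix ι κ ℂ) : (1 : Matrix ι ι ℂ).submatrix S id * y = y.submatrix S id := by
  ext a j
  simp [mul_apply, one_apply]

theorem plk_sel_vec {ι : Type} [Fintype ι] [DecidableEq ι] {r : ℕ} (S : Fin r → ι) (v : ι → ℂ) :
    (1 : Matrix ι ι ℂ).submatrix S id *ᵥ v = fun a => v (S a) := by
  ext a
  simp [mulVec, dotProduct, one_apply]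

theorem plk_of {ι : Type} [Fintype ι] [DecidableEq ι] {r : ℕ} {M : Submodule ℂ (ι → ℂ)}
    {S : Fin r → ι} {B : Matrix ι (Fin r) ℂ} (rk : Module.finrank ℂ M = r)
    (piv : B.submatrix S id = 1) (mem : ∀ c : Fin r → ℂ, B *ᵥ c ∈ M)
    (eq : ∀ v ∈ M, v = B *ᵥ fun a => v (S a)) : Plk M S B := by
  refine ⟨fun a b h => ?_, rk, piv, mem, eq, fun y hy v hv => ?_⟩
  · have h1 : B (S a) a = 1 := by simpa using congrFun (congrFun piv a) a
    have h2 : B (S b) a = (1 : Matrix (Fin r) (Fin r) ℂ) b a := congrFun (congrFun piv b) a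
    by_contra hc
    rw [← h, h1, one_apply_ne (Ne.symm hc)] at h2
    exact one_ne_zero h2
  by_contra hc
  obtain ⟨ξ, h1, h2⟩ : ∃ ξ : Matrix (Fin r) ι ℂ, ξ * B = 1 ∧ ∀ w, ξ *ᵥ w = fun a => w (S a) :=
    ⟨_, (plk_sel S B).trans piv, plk_sel_vec S⟩
  obtain ⟨i, hi⟩ : ∃ i, ((1 - B * ξ) *ᵥ (y *ᵥ v)) i ≠ 0 := by
    by_contra! h
    rw [← funext_iff, sub_mulVec, one_mulVec, ← mulVec_mulVec] at h
    exact hc (sub_eq_zero.1 h ▸ mem _)
  have z : (1 - B * ξ : Matrix ι ι ℂ) i ᵥ* B = 0 := by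
    have : (1 - B * ξ) * B = 0 := by
      rw [Matrix.sub_mul, Matrix.one_mul, Matrix.mul_assoc, h1, Matrix.mul_one, sub_self]
    exact congrFun this i
  refine hy (ξ + vecMulVec (-(((1 - B * ξ) *ᵥ (y *ᵥ v)) i)⁻¹ • ξ *ᵥ (y *ᵥ v))
    ((1 - B * ξ : Matrix ι ι ℂ) i))
    (by rw [Matrix.add_mul, vecMulVec_mul, z, vecMulVec_zero, add_zero, h1, det_one]) ?_
  refine exists_mulVec_eq_zero_iff.1 ⟨fun a => v (S a), fun h => hc ?_, ?_⟩
  · rw [eq v hv, h, mulVec_zero, mulVec_zero]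
    exact M.zero_mem
  · rw [← mulVec_mulVec, ← eq v hv, ← mulVec_mulVec, add_mulVec, vecMulVec_mulVec, op_smul_eq_smul,
      smul_smul]
    change _ + (((1 - B * ξ) *ᵥ (y *ᵥ v)) i * _) • _ = _
    rw [mul_neg, mul_inv_cancel₀ hi, neg_one_smul, add_neg_cancel]

theorem plk_stmt : PlkStmt := by
  intro ι _ _ M
  obtain ⟨r, hr⟩ : ∃ r, Module.finrank ℂ M = r := ⟨_, rfl⟩
  let b := Module.finBasisOfFinrankEq ℂ M hr
  obtain ⟨C, hC⟩ : ∃ C : Matrix ι (Fin r) ℂ, ∀ a, Cᵀ.row a = (b a : ι → ℂ) :=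
    ⟨Matrix.of fun i a => (b a : ι → ℂ) i, fun _ => rfl⟩
  have e : ∀ c : Fin r → ℂ, C *ᵥ c = ((∑ a, c a • b a : M) : ι → ℂ) := fun c => by
    rw [mulVec_eq_sum, Submodule.coe_sum]
    exact Finset.sum_congr rfl fun a _ => by
      rw [op_smul_eq_smul, Submodule.coe_smul, ← hC]
      rfl
  have li : LinearIndependent ℂ Cᵀ.row := by
    rw [funext hC]
    exact b.linearIndependent.map' M.subtype M.ker_subtype
  have rk : Module.finrank ℂ (Submodule.span ℂ (Set.range C.row)) = r := by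
    rw [← rank_eq_finrank_span_row, ← rank_transpose, li.rank_matrix, Fintype.card_fin]
  have key : ∀ r', Module.finrank ℂ (Submodule.span ℂ (Set.range C.row)) = r' →
      ∃ f : Fin r' → Fin r → ℂ, (∀ a, f a ∈ Set.range C.row) ∧ LinearIndependent ℂ f := by
    rintro _ rfl
    obtain ⟨f, h1, -, h2⟩ := Submodule.exists_fun_fin_finrank_span_eq ℂ (Set.range C.row)
    exact ⟨f, h1, h2⟩
  obtain ⟨f, h1, h2⟩ := key r rk
  choose S hS using h1
  have u : IsUnit (C.submatrix S id).det := by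
    rw [← isUnit_iff_isUnit_det, ← linearIndependent_rows_iff_isUnit]
    exact (funext hS : (C.submatrix S id).row = f) ▸ h2
  refine ⟨r, S, C * (C.submatrix S id)⁻¹, plk_of hr ?_ (fun c => ?_) fun v hv => ?_⟩
  · rw [← plk_sel, ← Matrix.mul_assoc, plk_sel, mul_nonsing_inv _ u]
  · rw [← mulVec_mulVec, e]
    exact Submodule.coe_mem _
  · have k : v = C *ᵥ b.repr ⟨v, hv⟩ := by rw [e, b.sum_repr]
    generalize (b.repr ⟨v, hv⟩ : Fin r → ℂ) = c at k
    subst k
    rw [← plk_sel_vec, mulVec_mulVec c, plk_sel, mulVec_mulVec, Matrix.mul_assoc,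
      nonsing_inv_mul _ u, Matrix.mul_one]

theorem plk_reg {n r : ℕ} {ι : Type} [Fintype ι] {ρ : Gl n → Matrix ι ι ℂ}
    (h : ∀ i j, (fun g => ρ g i j) ∈ Reg n) (ξ : Matrix (Fin r) ι ℂ) (B : Matrix ι (Fin r) ℂ) :
    (fun x => (ξ * ρ x * B).det) ∈ Reg n := by
  have e : (fun x => (ξ * ρ x * B).det) = ∑ σ : Equiv.Perm (Fin r), (Equiv.Perm.sign σ : ℂ) •
      ∏ a, ∑ j, B j a • ∑ i, ξ (σ a) i • fun g => ρ g i j := by
    ext x
    simp [det_apply', mul_apply, mul_comm]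
  rw [e]
  exact sum_mem fun σ _ => Subalgebra.smul_mem _ (prod_mem fun a _ => sum_mem fun j _ =>
    Subalgebra.smul_mem _ (sum_mem fun i _ => Subalgebra.smul_mem _ (h i j) _) _) _

theorem pch_stmt : PchStmt := by
  intro n r ι _ _ Γ K ρ M S B hρ hK hP hM
  have h2 : ∀ k ∈ K, ρ k * B = B * (ρ k * B).submatrix S id := fun k hk => by
    ext i a
    have := congrFun (hP.eq _ (hM k hk _ (hP.mem (Pi.single a 1)))) i
    simp only [mulVec_single_one] at this
    exact this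
  have h3 : ∀ (ξ : Matrix (Fin r) ι ℂ), ∀ x ∈ Γ, ∀ k ∈ K,
      (ξ * ρ (x * k) * B).det = (ξ * ρ x * B).det * pdet S B (ρ k) := fun ξ x hx k hk => by
    rw [hρ.mul x hx k (hK hk), pdet, ← det_mul, Matrix.mul_assoc (ξ * ρ x), ← h2 k hk]
    simp only [Matrix.mul_assoc]
  have e : ∀ y, pdet S B y = ((1 : Matrix ι ι ℂ).submatrix S id * y * B).det := fun y => by
    rw [Matrix.mul_assoc, plk_sel, pdet]
  refine ⟨⟨?_, ?_, fun x hx y hy => ?_⟩, h2, fun ξ => ⟨plk_reg hρ.reg ξ B, h3 ξ⟩⟩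
  · simp only [e]
    exact plk_reg hρ.reg _ B
  · rw [hρ.one, pdet, Matrix.one_mul, hP.piv, det_one]
  · rw [e, h3 _ x (hK hx) y hy, ← e]

theorem plk_gordan {V : Type} [AddCommGroup V] [Module ℚ V] : ∀ (k : ℕ) (L : Submodule ℚ V)
    (f : Fin k → V →ₗ[ℚ] ℚ), (∃ u ∈ L, ∀ j, 0 < f j u) ∨
      ∃ a : Fin k → ℚ, (∀ j, 0 ≤ a j) ∧ a ≠ 0 ∧ ∀ u ∈ L, ∑ j, a j * f j u = 0
  | 0, L, _ => Or.inl ⟨0, L.zero_mem, fun j => j.elim0⟩
  | k + 1, L, f => by
    have ne : ∀ (c : ℚ) (a : Fin k → ℚ), a ≠ 0 → (Fin.cons c a : Fin (k + 1) → ℚ) ≠ 0 :=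
      fun c a ha h => ha (funext fun j => congrFun h j.succ)
    rcases plk_gordan k L fun j => f j.succ with ⟨u, hu, h⟩ | ⟨a, a0, a1, h⟩
    swap
    · exact Or.inr ⟨Fin.cons 0 a, Fin.cases le_rfl a0, ne 0 a a1, fun u hu => by
        simpa [Fin.sum_univ_succ] using h u hu⟩
    by_cases h0 : 0 < f 0 u
    · exact Or.inl ⟨u, hu, Fin.cases h0 h⟩
    rcases plk_gordan k (L ⊓ LinearMap.ker (f 0)) fun j => f j.succ with
      ⟨w, ⟨hw, w0⟩, h'⟩ | ⟨a, a0, a1, h'⟩
    · by_cases hz : ∀ v ∈ L, f 0 v = 0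
      · exact Or.inr ⟨Fin.cons 1 0, Fin.cases zero_le_one fun _ => le_rfl,
          fun e => one_ne_zero (congrFun e 0), fun v hv => by simp [Fin.sum_univ_succ, hz v hv]⟩
      obtain ⟨v, hv, v0⟩ : ∃ v ∈ L, 0 < f 0 v := by
        push Not at hz
        obtain ⟨v, hv, v0⟩ := hz
        rcases lt_or_gt_of_ne v0 with c | c
        · exact ⟨-v, L.neg_mem hv, by rwa [map_neg, neg_pos]⟩
        · exact ⟨v, hv, c⟩
      refine Or.inl ⟨(1 + ∑ j : Fin k, |f j.succ v| / f j.succ w) • w + v,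
        L.add_mem (L.smul_mem _ hw) hv, Fin.cases ?_ fun j => ?_⟩
      · rwa [map_add, map_smul, LinearMap.mem_ker.1 w0, smul_zero, zero_add]
      · have k1 : |f j.succ v| / f j.succ w ≤ ∑ j : Fin k, |f j.succ v| / f j.succ w :=
          Finset.single_le_sum (f := fun j : Fin k => |f j.succ v| / f j.succ w)
            (fun i _ => div_nonneg (abs_nonneg _) (h' i).le) (Finset.mem_univ j)
        rw [div_le_iff₀ (h' j)] at k1
        rw [map_add, map_smul, smul_eq_mul, add_mul]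
        linarith [h' j, neg_abs_le (f j.succ v)]
    · have g0 : 0 < ∑ j, a j * f j.succ u := by
        obtain ⟨j, hj⟩ := Function.ne_iff.1 a1
        exact Finset.sum_pos' (fun i _ => mul_nonneg (a0 i) (h i).le)
          ⟨j, Finset.mem_univ j, mul_pos ((a0 j).lt_of_ne' hj) (h j)⟩
      have l0 : f 0 u < 0 := (not_lt.1 h0).lt_of_ne fun e => g0.ne' (h' u ⟨hu, e⟩)
      refine Or.inr ⟨Fin.cons ((∑ j, a j * f j.succ u) / -f 0 u) a,
        Fin.cases (div_nonneg g0.le (neg_nonneg.2 l0.le)) a0, ne _ a a1, fun x hx => ?_⟩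
      have k1 := h' (x - (f 0 x / f 0 u) • u) ⟨L.sub_mem hx (L.smul_mem _ hu), by
        change f 0 _ = 0
        rw [map_sub, map_smul, smul_eq_mul, div_mul_cancel₀ _ l0.ne, sub_self]⟩
      simp only [map_sub, map_smul, smul_eq_mul, mul_sub, Finset.sum_sub_distrib,
        mul_left_comm _ (f 0 x / f 0 u), ← Finset.mul_sum] at k1
      rw [Fin.sum_univ_succ, Fin.cons_zero]
      simp only [Fin.cons_succ]
      rw [sub_eq_zero.1 k1, div_neg]
      ring

theorem gor_stmt : GorStmt := by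
  intro m k L f
  rcases plk_gordan k L fun j => dotProductBilin ℚ ℚ (f j) with h | ⟨a, a0, a1, h⟩
  · exact Or.inl h
  have e : ∀ j, (((a j).num.toNat * ∏ i ∈ Finset.univ.erase j, (a i).den : ℕ) : ℚ) =
      a j * (∏ i, (a i).den : ℕ) := fun j => by
    have : (((a j).num.toNat : ℕ) : ℚ) = a j * (a j).den := by
      rw [Rat.mul_den_eq_num, ← Int.cast_natCast, Int.toNat_of_nonneg (Rat.num_nonneg.2 (a0 j))]
    rw [← Finset.mul_prod_erase _ _ (Finset.mem_univ j), Nat.cast_mul, Nat.cast_mul, this,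
      mul_assoc]
  have p : ((∏ i, (a i).den : ℕ) : ℚ) ≠ 0 :=
    Nat.cast_ne_zero.2 (Finset.prod_ne_zero_iff.2 fun i _ => (a i).den_nz)
  refine Or.inr ⟨fun j => (a j).num.toNat * ∏ i ∈ Finset.univ.erase j, (a i).den,
    fun z => a1 (funext fun j => ?_), fun u hu => ?_⟩
  · have := e j
    rw [show (a j).num.toNat * ∏ i ∈ Finset.univ.erase j, (a i).den = 0 from congrFun z j,
      Nat.cast_zero] at this
    exact (mul_eq_zero.1 this.symm).resolve_right p
  · have := h u hu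
    simp only [dotProductBilin_apply_apply] at this
    simp only [e, mul_right_comm _ ((∏ i, (a i).den : ℕ) : ℚ), ← Finset.sum_mul, this, zero_mul]

end Pool.Agent.MP_2a37ed_ag

end MrgPart8

-- ======== part 9: formerly Pool.Agent.MP_2a37ed_ag.Tr
section MrgPart9

namespace Pool.Agent.MP_2a37ed_ag

open Matrix Polynomial

variable {n : ℕ}

/-- The right translates of a regular function span a space of finite dimension. -/
theorem tr_fg {F : Gl n → ℂ} (hF : F ∈ Reg n) :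
    ∃ E : Submodule ℂ (Gl n → ℂ), E.FG ∧ ∀ y, (fun x => F (x * y)) ∈ E := by
  induction hF using Algebra.adjoin_induction with
  | mem F h =>
    obtain ⟨i, j, rfl | rfl⟩ := h
    · refine ⟨Submodule.span ℂ (Set.range fun k => fun g : Gl n => g.val i k),
        Submodule.fg_span (Set.finite_range _), fun y => ?_⟩
      refine (Submodule.mem_span_range_iff_exists_fun ℂ).2 ⟨fun k => y.val k j, funext fun x => ?_⟩
      simp [Matrix.mul_apply, mul_comm]
    · refine ⟨Submodule.span ℂ (Set.range fun k => fun g : Gl n => (g⁻¹).val k j),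
        Submodule.fg_span (Set.finite_range _), fun y => ?_⟩
      refine (Submodule.mem_span_range_iff_exists_fun ℂ).2
        ⟨fun k => (y⁻¹).val i k, funext fun x => ?_⟩
      change _ = ((x * y)⁻¹).val i j
      rw [_root_.mul_inv_rev, Units.val_mul, Matrix.mul_apply, Finset.sum_apply]
      rfl
  | algebraMap c =>
    exact ⟨Submodule.span ℂ {algebraMap ℂ _ c}, Submodule.fg_span (Set.finite_singleton _),
      fun y => Submodule.subset_span rfl⟩
  | add F F' _ _ h h' =>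
    obtain ⟨E, h1, h2⟩ := h
    obtain ⟨E', h1', h2'⟩ := h'
    exact ⟨E ⊔ E', h1.sup h1', fun y => Submodule.add_mem_sup (h2 y) (h2' y)⟩
  | mul F F' _ _ h h' =>
    obtain ⟨E, h1, h2⟩ := h
    obtain ⟨E', h1', h2'⟩ := h'
    exact ⟨E * E', h1.mul h1', fun y => Submodule.mul_mem_mul (h2 y) (h2' y)⟩

theorem tr_stmt : TrStmt := by
  intro n Γ F hF
  obtain ⟨E, hE, hE'⟩ := tr_fg hF
  let φ : Γ → Γ → ℂ := fun y x => F (x * y)
  have h1 : Module.Finite ℂ (Submodule.span ℂ (Set.range φ)) := by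
    have h2 := Module.Finite.iff_fg.2 (hE.map (LinearMap.funLeft ℂ ℂ (Subtype.val : Γ → Gl n)))
    refine Submodule.finiteDimensional_of_le (S₂ := E.map (LinearMap.funLeft ℂ ℂ Subtype.val))
      (Submodule.span_le.2 ?_)
    rintro _ ⟨y, rfl⟩
    exact ⟨_, hE' y, rfl⟩
  obtain ⟨f, h2, h3, h4⟩ := Submodule.exists_fun_fin_finrank_span_eq ℂ (Set.range φ)
  choose y hy using h2
  obtain rfl : f = fun j => φ (y j) := funext fun j => (hy j).symm
  have h5 := span_flip_eq_top_iff_linearIndependent.2 h4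
  choose c hc using fun i => Finsupp.mem_span_range_iff_exists_finsupp.1
    (h5.ge (Submodule.mem_top (x := Pi.single i (1 : ℂ))))
  let lam := fun i (g : Γ → ℂ) => ∑ x ∈ (c i).support, c i x * g x
  have h6 : ∀ i j, lam i (φ (y j)) = (1 : Matrix _ _ ℂ) i j := fun i j => by
    have h := congrFun (hc i) j
    rw [Finsupp.sum, Finset.sum_apply, Pi.single_apply] at h
    rw [Matrix.one_apply, if_congr eq_comm rfl rfl]
    exact h
  have h7 : ∀ i (a : _ → ℂ) (g : _ → Γ → ℂ),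
      lam i (fun x => ∑ k : Fin (Module.finrank ℂ (Submodule.span ℂ (Set.range φ))),
        a k * g k x) = ∑ k, lam i (g k) * a k := fun i a g => by
    simp only [lam, Finset.mul_sum, Finset.sum_mul]
    rw [Finset.sum_comm]
    exact Finset.sum_congr rfl fun _ _ => Finset.sum_congr rfl fun _ _ => by ring
  have h8 : ∀ z x : Γ, F (x * z) = ∑ k, lam k (φ z) * F (x * y k) := fun z x => by
    obtain ⟨a, ha⟩ := (Submodule.mem_span_range_iff_exists_fun ℂ).1
      (h3.ge (Submodule.subset_span ⟨z, rfl⟩))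
    have h9 : φ z = fun x => ∑ k, a k * φ (y k) x := by
      rw [← ha]
      exact funext fun x => by simp
    have h10 : ∀ k, lam k (φ z) = a k := fun k => by
      rw [h9, h7]
      simp [h6, Matrix.one_apply]
    simp only [h10]
    exact congrFun h9 x
  let ρ := fun g : Gl n => Matrix.of fun i j => lam i fun x => F (x * (g * y j))
  have h9 : ∀ g ∈ Γ, ∀ u, (fun j => F (y j)) ⬝ᵥ (ρ g *ᵥ u) = ∑ j, u j * F (g * y j) :=
    fun g hg u => by
      rw [dotProduct_mulVec, dotProduct_comm]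
      refine Finset.sum_congr rfl fun j _ => congrArg (u j * ·) ?_
      have h := h8 (⟨g, hg⟩ * y j) 1
      simp only [Subgroup.coe_one, one_mul] at h
      exact (h.trans (Finset.sum_congr rfl fun k _ => mul_comm _ _)).symm
  refine ⟨_, ρ, fun i => lam i (φ 1), fun j => F (y j), ⟨fun i j => ?_, ?_, fun g hg g' hg' => ?_⟩,
    fun g hg => ?_, fun u hu => ?_⟩
  · exact reg_sum _ fun x _ => reg_mul (reg_const _) (reg_mul_right (reg_mul_left hF x) (y j))
  · ext i j
    rw [← h6]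
    simp only [ρ, one_mul]
    rfl
  · ext i j
    rw [Matrix.mul_apply]
    refine Eq.trans (congrArg (lam i) (funext fun x => ?_)) (h7 i _ _)
    have h := h8 (⟨g', hg'⟩ * y j) (x * ⟨g, hg⟩)
    simp only [Subgroup.coe_mul, mul_assoc] at h ⊢
    exact h
  · rw [h9 g hg]
    simpa using h8 1 ⟨g, hg⟩
  · refine funext (Fintype.linearIndependent_iff.1 h4 u (funext fun x => ?_))
    rw [Finset.sum_apply]
    exact (h9 x x.2 u).symm.trans (hu x x.2)

theorem epi_of (hT : TrStmt) : EpiStmt := by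
  intro n G H hG hH h F hF hi g hg
  obtain ⟨N, ρ, v, l, h1, h2, h3⟩ := hT n G F hF
  let K : Subgroup (Gl n) :=
    { carrier := {g | g ∈ G ∧ ρ g *ᵥ v = v}
      mul_mem' := fun {x y} hx hy => ⟨G.mul_mem hx.1 hy.1, by
        rw [h1.mul x hx.1 y hy.1, ← mulVec_mulVec, hy.2, hx.2]⟩
      one_mem' := ⟨G.one_mem, by rw [h1.one, one_mulVec]⟩
      inv_mem' := fun {x} hx => ⟨G.inv_mem hx.1, by
        have h4 := congrArg (ρ x⁻¹ *ᵥ ·) hx.2
        simp only [mulVec_mulVec, h1.inv_mul hx.1, one_mulVec] at h4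
        exact h4.symm⟩ }
  have h4 : K = G := by
    by_contra hn
    refine h K (clo_iff.1 (clo_of_sub hG (Set.range fun i g => (ρ g *ᵥ v) i - v i) ?_ fun x => ?_))
      (fun x hx => ⟨hH hx, sub_eq_zero.1 (h3 _ fun z hz => ?_)⟩) (fun x hx => hx.1) hn
      ⟨N, MonoidHom.mk' (fun x : G => ⟨ρ x, ρ x.1⁻¹, h1.mul_inv x.2, h1.inv_mul x.2⟩)
        fun x y => Units.ext (h1.mul x x.2 y y.2), v, fun i j => ⟨_, reg_iff.1 (h1.reg i j),
          fun _ => rfl⟩, fun x => and_iff_right x.2⟩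
    · rintro _ ⟨i, rfl⟩
      exact reg_sub (reg_mulVec h1.reg v i) (reg_const _)
    · rw [Set.forall_mem_range]
      exact and_congr_right' ⟨fun h i => sub_eq_zero.2 (congrFun h i),
        fun h => funext fun i => sub_eq_zero.1 (h i)⟩
    · rw [mulVec_sub, dotProduct_sub, mulVec_mulVec, ← h1.mul z hz x (hH hx),
        ← h2 _ (G.mul_mem hz (hH hx)), ← h2 z hz, hi z hz x hx, sub_self]
  rw [h2 g hg, h2 1 G.one_mem, (h4.ge hg).2, h1.one, one_mulVec]

theorem gval_of (hT : TrStmt) (hP : PlkStmt) (hC : PchStmt) : GvalStmt := by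
  intro n G b c0 ci hG hb hf
  have key : ∀ s, gm (evp s) ci ∈ G := fun s => hG _ fun F hF h0 => by
    obtain ⟨N, ρ, v, l, h1, h2, -⟩ := hT n ⊤ F hF
    let M : Submodule ℂ (Fin N → ℂ) :=
      { carrier := {u | ∀ k ∈ G, l ⬝ᵥ (ρ k *ᵥ u) = 0}
        add_mem' := fun hx hy k hk => by
          rw [mulVec_add, dotProduct_add, hx k hk, hy k hk, add_zero]
        zero_mem' := fun k _ => by rw [mulVec_zero, dotProduct_zero]
        smul_mem' := fun c x hx k hk => by
          rw [mulVec_smul, dotProduct_smul, hx k hk, smul_zero] }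
    obtain ⟨r, S, B, h3⟩ := hP _ M
    obtain ⟨h4, -, h5⟩ := hC n r _ ⊤ G ρ M S B h1 le_top h3 fun k hk u hu k' hk' => by
      rw [mulVec_mulVec, ← h1.mul k' trivial k trivial]
      exact hu _ (G.mul_mem hk' hk)
    have h6 := h3.stab (ρ (gm (evp s) ci)) (fun ξ hξ => ?_) v
      (fun k hk => (h2 k trivial).symm.trans (h0 k hk)) 1 G.one_mem
    · rwa [h1.one, one_mulVec, ← h2 _ trivial] at h6
    obtain ⟨p, hp⟩ := reg_ev ci (h5 ξ).1
    obtain ⟨q, hq⟩ := reg_ev c0 (h5 ξ).1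
    have h7 := (liou (p := p) (q := q) (fun τ hτ => by
      have h8 := hf.eq (Units.mk0 τ hτ)
      rw [Units.val_inv_eq_inv_val, Units.val_mk0] at h8
      rw [← evp_apply, ← evp_apply, hp, hq, h8, (h5 ξ).2 _ trivial _ (hb _).1,
        (hb _).2 _ h4, mul_one]) s).1
    rw [← evp_apply, ← evp_apply, hp, hp, hf.one, h1.one, Matrix.mul_one, hξ] at h7
    rw [h7]
    exact one_ne_zero
  refine fun s => ⟨key s, hG _ fun F hF h0 => ?_⟩
  obtain ⟨q, hq⟩ := reg_ev c0 hF
  rw [← hq, poly_eq_zero_of_units (p := q) fun τ hτ => ?_, map_zero]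
  rw [← evp_apply, hq]
  exact h0 _ ((hf.eq (Units.mk0 τ hτ)).symm ▸ G.mul_mem (key _) (hb _).1)

end Pool.Agent.MP_2a37ed_ag

end MrgPart9

-- ======== part 10: formerly Pool.Agent.MP_2a37ed_ag.Kst
section MrgPart10

namespace Pool.Agent.MP_2a37ed_ag

open Matrix Polynomial

theorem kst_root {ι κ : Type} [Fintype ι] [DecidableEq ι] [Fintype κ] [DecidableEq κ]
    {y : Matrix ι ι ℂ} {m : Matrix κ κ ℂ} {B : Matrix ι κ ℂ} {S : κ → ι}
    (hB : B.submatrix S id = 1) (h : y * B = B * m) {μ : ℂ} (hμ : m.charpoly.IsRoot μ) :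
    y.charpoly.IsRoot μ := by
  rw [IsRoot.def, Matrix.eval_charpoly, ← Matrix.exists_mulVec_eq_zero_iff] at hμ ⊢
  obtain ⟨c, c0, hc⟩ := hμ
  refine ⟨B *ᵥ c, fun e => c0 ?_, ?_⟩
  · have e' : B.submatrix S id *ᵥ c = fun a => (B *ᵥ c) (S a) := rfl
    rw [hB, one_mulVec, e] at e'
    exact e'
  · have e : (Matrix.scalar ι μ - y) * B = B * (Matrix.scalar κ μ - m) := by
      rw [Matrix.sub_mul, Matrix.mul_sub, h, Matrix.scalar_apply, Matrix.scalar_apply,
        ← Matrix.smul_one_eq_diagonal, ← Matrix.smul_one_eq_diagonal, Matrix.smul_mul,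
        Matrix.mul_smul, Matrix.one_mul, Matrix.mul_one]
    rw [mulVec_mulVec, e, ← mulVec_mulVec, hc, mulVec_zero]

theorem kst_const {φ : ℂ → ℂ} (hφ : Continuous φ) (R : Finset ℂ)
    (h : ∀ c, ∃ s : Multiset ℂ, (∀ x ∈ s, x ∈ R) ∧ φ c = s.prod) (c c' : ℂ) : φ c = φ c' := by
  have k : (Set.range fun s : Multiset R => (s.map Subtype.val).prod).Countable :=
    Set.countable_range _
  refine k.isTotallyDisconnected (Set.range φ) ?_ (isPreconnected_range hφ) ⟨c, rfl⟩ ⟨c', rfl⟩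
  rintro _ ⟨d, rfl⟩
  obtain ⟨s, hs, e⟩ := h d
  lift s to Multiset R using hs
  exact ⟨s, e.symm⟩

theorem kst_of (hT : TrStmt) (hP : PlkStmt) (hC : PchStmt) : KstStmt := by
  intro n G H K hG hHG hE hK hKG hc g0 hg0
  refine hK g0 fun F hF h0 => ?_
  obtain ⟨N, ρ, v, l, hρ, hl, -⟩ := hT n G F hF
  let M : Submodule ℂ (Fin N → ℂ) :=
    { carrier := {u | ∀ k ∈ K, l ⬝ᵥ (ρ k *ᵥ u) = 0}
      add_mem' := fun hx hy k hk => by
        rw [mulVec_add, dotProduct_add, hx k hk, hy k hk, add_zero]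
      zero_mem' := fun k _ => by simp
      smul_mem' := fun c x hx k hk => by
        rw [mulVec_smul, dotProduct_smul, hx k hk, smul_zero] }
  have vM : v ∈ M := fun k hk => by rw [← hl k (hKG hk), h0 k hk]
  have st : ∀ k ∈ K, ∀ u ∈ M, ρ k *ᵥ u ∈ M := fun k hk u hu k' hk' => by
    rw [mulVec_mulVec, ← hρ.mul k' (hKG hk') k (hKG hk)]
    exact hu _ (K.mul_mem hk' hk)
  obtain ⟨r, S, B, hB⟩ := hP (Fin N) M
  obtain ⟨hχ, hm, hξ⟩ := hC n r (Fin N) G K ρ M S B hρ hKG hB st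
  have hHK : ∀ h ∈ H, h ∈ K := fun h hh => by simpa using hc 1 G.one_mem h hh
  have cA : ∀ h ∈ H, ∀ g ∈ G, pdet S B (ρ (g * h * g⁻¹)) = pdet S B (ρ h) := fun h hh => by
    have ct : Continuous fun g : Gl n => pdet S B (ρ (g * h * g⁻¹)) :=
      continuous_reg (reg_conj hχ.reg h)
    have fin : ∀ g ∈ G, ∃ s : Multiset ℂ, (∀ x ∈ s, x ∈ (ρ h).charpoly.roots.toFinset) ∧
        pdet S B (ρ (g * h * g⁻¹)) = s.prod := fun g hg => by
      refine ⟨_, fun x hx => ?_, Matrix.det_eq_prod_roots_charpoly _⟩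
      have k := kst_root hB.piv (hm _ (hc g hg h hh)) (isRoot_of_mem_roots hx)
      rw [hρ.mul _ (G.mul_mem hg (hHG hh)) _ (G.inv_mem hg), hρ.mul g hg h (hHG hh),
        Matrix.charpoly_mul_comm, ← Matrix.mul_assoc, hρ.inv_mul hg, Matrix.one_mul] at k
      rw [Multiset.mem_toFinset, mem_roots (Matrix.charpoly_monic _).ne_zero]
      exact k
    refine hG.induction (Q := fun g => pdet S B (ρ (g * h * g⁻¹)) = pdet S B (ρ h))
      (by simp) fun g hg A hA ih => ?_
    have k := kst_const (φ := fun c : ℂ =>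
      pdet S B (ρ (g * expU (c • A) * h * (g * expU (c • A))⁻¹)))
      (ct.comp (continuous_const.mul (continuous_expU_smul A))) _
      (fun c => fin _ (G.mul_mem hg ((hG.mem A).1 hA c))) 1 0
    simp only [one_smul, zero_smul, expU_zero, mul_one] at k
    exact k.trans ih
  have cB : ∀ ξ : Matrix (Fin r) (Fin N) ℂ, (ξ * B).det = 1 → (ξ * ρ g0 * B).det ≠ 0 := by
    intro ξ h1
    obtain ⟨f1, f2⟩ := hξ ξ
    have k := hE (fun g => (ξ * ρ g * B).det * (ξ * ρ g⁻¹ * B).det) (reg_mul f1 (reg_inv f1))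
      (fun g hg h hh => by
        have e : (g * h)⁻¹ = g⁻¹ * (g * h⁻¹ * g⁻¹) := by group
        have e2 := hχ.mul_inv (hHK h hh)
        rw [e, f2 g hg h (hHK h hh), f2 _ (G.inv_mem hg) _ (hc g hg _ (H.inv_mem hh)),
          cA _ (H.inv_mem hh) g hg]
        linear_combination (ξ * ρ g * B).det * (ξ * ρ g⁻¹ * B).det * e2) g0 hg0
    simp only [inv_one, hρ.one, Matrix.mul_one, h1, mul_one] at k
    exact left_ne_zero_of_mul_eq_one k
  have k := hB.stab (ρ g0) cB v vM 1 K.one_mem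
  rwa [hρ.one, one_mulVec, ← hl g0 hg0] at k

theorem rel_of (hC : PchStmt) : RelStmt := by
  intro n d G H ι _ _ ρ M r S B a η hHG hE hρ hB st hM hN hη he
  have key : ∀ ξ : ∀ j, Matrix (Fin (r j)) (ι j) ℂ, (∀ j, (ξ j * B j).det = 1) → ∀ g ∈ G,
      ∏ j, (ξ j * ρ j g * B j).det ^ a j ≠ 0 := fun ξ h1 g0 hg0 => by
    have f := fun j => (hC n (r j) (ι j) G H (ρ j) (M j) (S j) (B j) (hρ j) hHG (hB j)
      (st j)).2.2 (ξ j)
    have k := hE (fun g => (∏ j, (ξ j * ρ j g * B j).det ^ a j) * η g⁻¹)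
      (reg_mul (reg_prod _ fun j _ => reg_pow (f j).1 _) (reg_inv hη.reg))
      (fun g hg h hh => by
        have e2 := hη.mul_inv (hHG hh)
        simp only [fun j => (f j).2 g hg h hh, mul_pow, Finset.prod_mul_distrib, he h hh]
        rw [_root_.mul_inv_rev, hη.mul _ (G.inv_mem (hHG hh)) _ (G.inv_mem hg)]
        linear_combination (∏ j, (ξ j * ρ j g * B j).det ^ a j) * η g⁻¹ * e2) g0 hg0
    simp only [inv_one, fun j => (hρ j).one, Matrix.mul_one, h1, one_pow, Finset.prod_const_one,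
      hη.one, mul_one] at k
    exact left_ne_zero_of_mul_eq_one k
  funext j0
  by_contra h0
  refine hM j0 ((Submodule.eq_bot_iff _).2 fun p hp => hN j0 p fun g hg => ?_)
  refine (hB j0).stab _ (fun ξ h1 => ?_) p hp
  have k := key (Function.update
    (fun j => (1 : Matrix (ι j) (ι j) ℂ).submatrix (S j) id) j0 ξ) (fun j => by
      rcases eq_or_ne j j0 with rfl | hj
      · rwa [Function.update_self]
      · have e : (1 : Matrix (ι j) (ι j) ℂ).submatrix (S j) id * B j =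
            ((1 : Matrix (ι j) (ι j) ℂ) * B j).submatrix (S j) id := rfl
        rw [Function.update_of_ne hj, e, Matrix.one_mul, (hB j).piv, det_one]) g hg
  have k2 := Finset.prod_ne_zero_iff.1 k j0 (Finset.mem_univ _)
  rw [Function.update_self] at k2
  exact fun e => k2 (by rw [e]; exact zero_pow h0)

end Pool.Agent.MP_2a37ed_ag

end MrgPart10

-- ======== part 11: formerly Pool.Agent.MP_2a37ed_ag.Str
section MrgPart11

namespace Pool.Agent.MP_2a37ed_ag

open Matrix Polynomial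

variable {n : ℕ} {G H : Subgroup (Gl n)} {V : Submodule ℂ (Mat n)}

theorem str_ind (hG : Nice G) (hV : ∀ y ∈ G, ∀ A ∈ V, cj y A ∈ V) {D : Mat n}
    (h : ∀ X ∈ lie G, X * D - D * X ∈ V) : ∀ y ∈ G, cj y D - D ∈ V := by
  refine hG.induction (by simp) fun g hg A hA ih => ?_
  have k : cj (expU A) D - D ∈ V := cj_sub_of_ad V fun c => by
    have y := (hG.mem A).1 hA c
    simpa only [map_sub, cj_mul_mat, cj_cj_inv] using
      hV _ y _ (h _ (hG.cj_mem (G.inv_mem y) hA))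
  have := add_mem (hV g hg _ k) ih
  rwa [map_sub, ← cj_mul, sub_add_sub_cancel] at this

theorem str_key (hS : SpecStmt) (hR : RootStmt) (hG : Nice G)
    (hV : ∀ y ∈ G, ∀ A ∈ V, cj y A ∈ V) (hl : V ≤ lie G) {a : Submodule ℂ (Mat n)}
    (ha : AlgLie a) (haV : a ≤ V) {B : Mat n} (hB : B ∈ a) : ∀ y ∈ G, cj y B - B ∈ nsp V := by
  obtain ⟨m, P, μ, N, hP, hN, hc, rfl, -⟩ := hS n B
  obtain ⟨h1, h2⟩ := ha.rep _ P μ N hP hN hc hB
  have hD : DD P μ ∈ V := haV (h2 (AddMonoidHom.id ℂ))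
  have k := str_ind (D := DD P μ) hG (fun y hy => cj_nsp (hV y hy)) fun X hX => by
    refine Submodule.span_induction (p := fun X _ => X * DD P μ - DD P μ * X ∈ nsp V) ?_
      (by simp) ?_ ?_ (hR n (Fin m) P {μ} (lie G) hP
        (fun u hu Y hY => hG.alie.br _ (by rw [hu]; exact hl hD) Y hY) hX)
    · rintro Y ⟨hY, i, j, hw⟩
      have e := hw μ rfl
      have e2 : Y * DD P μ - DD P μ * Y = (-(μ i - μ j)) • Y := by rw [neg_smul, ← e, neg_sub]
      refine mem_nsp (ad_of_cj V fun c => hV _ ((hG.mem Y).1 hY c) _ hD) ?_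
      rw [e2]
      rcases eq_or_ne (μ i - μ j) 0 with h0 | h0
      · simp [h0]
      · exact (nilp_of_eig h0 e).smul _
    · intro Y Y' _ _ h1 h2
      rw [mul_add, add_mul, add_sub_add_comm]
      exact add_mem h1 h2
    · intro c Y _ h1
      rw [mul_smul_comm, smul_mul_assoc, ← smul_sub]
      exact Submodule.smul_mem _ c h1
  intro y hy
  rw [map_add, add_sub_add_comm]
  exact add_mem (k y hy) (sub_mem (mem_nsp (hV y hy _ (haV h1)) (cj_nilp y hN))
    (mem_nsp (haV h1) hN))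

open scoped Matrix.Norms.Elementwise in
theorem str_der (X A : Mat n) :
    HasDerivAt (fun c : ℂ => cj (expU (c • X)) A - A) (X * A - A * X) 0 := by
  have h := (hasDerivAt_cj_expU X A 0).sub_const A
  rwa [zero_smul, expU_zero, cj_one] at h

theorem str_of (hS : SpecStmt) (hR : RootStmt) : StrStmt := by
  intro n G H hG hH hHG hE
  have le : lie H ≤ gone G H := fun B hB =>
    Submodule.subset_span ⟨1, one_mem _, B, hB, (cj_one B).symm⟩
  have le' : gone G H ≤ lie G := Submodule.span_le.2 (by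
    rintro _ ⟨g, hg, B, hB, rfl⟩
    exact hG.cj_mem hg (lie_mono hHG hB))
  have cj1 : ∀ g ∈ G, ∀ A ∈ gone G H, cj g A ∈ gone G H := fun g hg A hA => by
    have : gone G H ≤ (gone G H).comap (cj g) := Submodule.span_le.2 (by
      rintro _ ⟨x, hx, B, hB, rfl⟩
      exact Submodule.subset_span ⟨g * x, mul_mem hg hx, B, hB, (cj_mul g x B).symm⟩)
    exact this hA
  refine ⟨le, le', cj1, fun g hg => cj_nsp (cj1 g hg), fun X hX A hA => ?_,
    Submodule.span_le.2 ?_, fun y hy A hA =>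
      str_key hS hR hH (fun y hy A hA => hH.cj_mem hy hA) le_rfl hH.alie le_rfl hA y hy⟩
  · have k1 := str_ind (D := A) hH (fun y hy => cj1 y (hHG hy)) fun B hB => by
      rw [← neg_sub]
      exact neg_mem (ad_of_cj _ fun c => cj1 _ ((hG.mem A).1 hA c) _ (le hB))
    have k2 : ∀ g ∈ G, cj g A - A ∈ gone G H := fun g hg => by
      refine (Subspace.forall_mem_dualAnnihilator_apply_eq_zero_iff _ _).1 fun ξ hξ => ?_
      have k := hE _ (reg_cj ξ A) (fun g hg h hh => by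
        have := (Submodule.mem_dualAnnihilator ξ).1 hξ _ (cj1 g hg _ (k1 h hh))
        rwa [map_sub, map_sub, ← cj_mul, sub_eq_zero] at this) g hg
      simp only [cj_one] at k
      rw [map_sub, k, sub_self]
    exact deriv_mem _ (str_der X A) fun c => k2 _ ((hG.mem X).1 hX c)
  · rintro _ ⟨g, hg, B, hB, rfl⟩
    have := Submodule.add_mem_sup hB (str_key hS hR hG cj1 le' hH.alie le hB g hg)
    rwa [add_sub_cancel] at this

theorem coad_pair {r : ℕ} {e : Fin r → Mat n} {β : Fin r → Mat n →ₗ[ℂ] ℂ} (hb : Bas V e β)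
    (g : Gl n) (ξ : Fin r → ℂ) {X : Mat n} (hX : X ∈ V) :
    ∑ a, β a X * (coad e β g *ᵥ ξ) a = ∑ b, β b (cj g⁻¹ X) * ξ b := by
  conv_rhs => rw [hb.sum X hX]
  simp only [map_sum, map_smul, smul_eq_mul, Finset.sum_mul, coad, mulVec, dotProduct, of_apply,
    Finset.mul_sum, mul_assoc]
  exact Finset.sum_comm

theorem coad_stmt : CoadStmt := by
  intro n r G H e β hH hHG hS hb
  refine ⟨⟨reg_coad e β, ?_, fun x hx y _ => ?_⟩, fun p hp => ?_, fun h hh v hv B hB => ?_,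
    fun D w hw => ?_⟩
  · ext a b
    simp [coad, hb.dual, one_apply, eq_comm]
  · ext a c
    rw [mul_apply, coad, of_apply, _root_.mul_inv_rev, cj_mul,
      hb.sum _ (hS.cj1 _ (G.inv_mem hx) _ (hb.mem a))]
    simp only [map_sum, map_smul, smul_eq_mul, coad, of_apply]
  · have k : gone G H ≤ LinearMap.ker (∑ b, p b • β b) := Submodule.span_le.2 (by
      rintro _ ⟨g, hg, B, hB, rfl⟩
      have := hp g⁻¹ (G.inv_mem hg) B hB
      rw [coad_pair hb _ _ (hS.le hB), inv_inv] at this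
      simpa [mul_comm] using this)
    funext a
    simpa [hb.dual] using k (hb.mem a)
  · rw [coad_pair hb _ _ (hS.le hB)]
    exact hv _ (hH.cj_mem (H.inv_mem hh) hB)
  · ext a b
    rw [coad, of_apply, expU_inv, cj_expU_eig (c := -w a) (by
      rw [neg_smul, ← hw a]; noncomm_ring), map_smul, hb.dual, diagonal_apply]
    by_cases h : a = b
    · simp [h]
    · simp [h, Ne.symm h]

end Pool.Agent.MP_2a37ed_ag

end MrgPart11

-- ======== part 12: formerly Pool.Agent.MP_2a37ed_ag.Char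
section MrgPart12

namespace Pool.Agent.MP_2a37ed_ag

open Matrix Polynomial

variable {n : ℕ}

theorem char_clear {m : ℕ} (u : Fin m → ℚ) :
    ∃ (D : ℕ) (z : Fin m → ℤ), 0 < D ∧ ∀ i, (z i : ℚ) = D * u i := by
  have h : ∀ i, ∃ z : ℤ, (z : ℚ) = ((∏ j, (u j).den : ℕ) : ℚ) * u i := fun i => by
    obtain ⟨c, hc⟩ : (u i).den ∣ ∏ j, (u j).den := Finset.dvd_prod_of_mem _ (Finset.mem_univ i)
    refine ⟨c * (u i).num, ?_⟩
    rw [hc, Int.cast_mul, Nat.cast_mul, ← Rat.den_mul_eq_num]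
    push_cast
    ring
  choose z hz using h
  exact ⟨_, z, Finset.prod_pos fun j _ => (u j).den_pos, hz⟩

theorem char_one (G : Subgroup (Gl n)) : Ch G fun _ => 1 :=
  ⟨reg_const 1, rfl, fun _ _ _ _ => (one_mul _).symm⟩

theorem char_zpow {G : Subgroup (Gl n)} {η : Gl n → ℂ} (h : Ch G η) (k : ℤ) :
    ∃ η', Ch G η' ∧ ∀ g ∈ G, η' g = η g ^ k := by
  obtain ⟨j, rfl | rfl⟩ := Int.eq_nat_or_neg k
  · exact ⟨_, h.pow j, fun g _ => (zpow_natCast _ _).symm⟩
  · refine ⟨_, h.inv.pow j, fun g hg => ?_⟩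
    rw [_root_.zpow_neg, zpow_natCast, ← inv_pow, eq_inv_of_mul_eq_one_right (h.mul_inv hg)]

/-- The coordinatewise inclusion of rational vectors. -/
noncomputable def charCast (m : ℕ) : (Fin m → ℚ) →ₗ[ℚ] (Fin m → ℂ) where
  toFun u := fun i => (u i : ℂ)
  map_add' u v := by ext i; simp
  map_smul' c u := by ext i; simp [Rat.smul_def]

theorem charCast_smul {m : ℕ} (q : ℚ) (u : Fin m → ℚ) :
    charCast m (q • u) = (q : ℂ) • charCast m u := by
  ext i
  simp [charCast, Rat.smul_def]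

theorem charCast_int {m : ℕ} (z : Fin m → ℤ) :
    charCast m (fun i => (z i : ℚ)) = fun i => (z i : ℂ) := by
  ext i
  simp [charCast]

theorem char_clear' {m : ℕ} (u : Fin m → ℚ) : ∃ (D : ℕ) (z : Fin m → ℤ), 0 < D ∧
    (fun i => (z i : ℚ)) = (D : ℚ) • u ∧ (fun i => (z i : ℂ)) = (D : ℂ) • charCast m u := by
  obtain ⟨D, z, hD, hz⟩ := char_clear u
  have h1 : (fun i => (z i : ℚ)) = (D : ℚ) • u := funext hz
  exact ⟨D, z, hD, h1, by rw [← charCast_int, h1, charCast_smul, Rat.cast_natCast]⟩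

section

variable {m : ℕ} {G H : Subgroup (Gl n)} {P : Fin m → Mat n} {η : Gl n → ℂ}

theorem char_exp (hC : ChStmt) (hHG : H ≤ G) (hH : Nice H) (hη : Ch G η) {A : Mat n}
    (hA : A ∈ lie H) (c : ℂ) : η (expU (c • A)) = Complex.exp (c * dR η 1 A) := by
  rw [(hC n G).1 η (c • A) hη fun c' => hHG ((hH.mem _).1 ((lie H).smul_mem c hA) c'),
    map_smul, smul_eq_mul]

theorem char_int (hC : ChStmt) (hHG : H ≤ G) (hH : Nice H)
    (hP : CompleteOrthogonalIdempotents P) (hη : Ch G η) {z : Fin m → ℤ}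
    (hz : DD P (fun i => (z i : ℂ)) ∈ lie H) :
    ∃ k : ℤ, dR η 1 (DD P fun i => (z i : ℂ)) = k := by
  have h1 : expU ((2 * Real.pi * Complex.I : ℂ) • DD P fun i => (z i : ℂ)) = 1 := by
    refine Units.ext ?_
    rw [← map_smul, expU_DD hP, Units.val_one, ← DD_one hP]
    congr 1
    ext i
    rw [Pi.smul_apply, smul_eq_mul, mul_comm]
    exact Complex.exp_int_mul_two_pi_mul_I _
  have h2 := char_exp hC hHG hH hη hz (2 * Real.pi * Complex.I)
  rw [h1, hη.one] at h2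
  obtain ⟨k, hk⟩ := Complex.exp_eq_one_iff.1 h2.symm
  exact ⟨k, mul_left_cancel₀ Complex.two_pi_I_ne_zero (hk.trans (mul_comm _ _))⟩

theorem char_rat (hC : ChStmt) (hHG : H ≤ G) (hH : Nice H)
    (hP : CompleteOrthogonalIdempotents P) (hη : Ch G η) {u : Fin m → ℚ}
    (hu : DD P (charCast m u) ∈ lie H) : ∃ q : ℚ, dR η 1 (DD P (charCast m u)) = q := by
  obtain ⟨D, z, hD, -, hz⟩ := char_clear' u
  have h1 : DD P (fun i => (z i : ℂ)) ∈ lie H := by
    rw [hz, map_smul]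
    exact (lie H).smul_mem _ hu
  obtain ⟨k, hk⟩ := char_int hC hHG hH hP hη h1
  rw [hz, map_smul, map_smul, smul_eq_mul] at hk
  have h2 : (D : ℂ) ≠ 0 := Nat.cast_ne_zero.2 hD.ne'
  refine ⟨k / D, ?_⟩
  push_cast
  rw [← hk]
  field_simp

end

theorem char_of (hR : RatStmt) (hC : ChStmt) : CharStmt := by
  intro n m G H P f hHG hH hT hf
  let L : Submodule ℚ (Fin m → ℚ) :=
    ((tor (lie H) P).restrictScalars ℚ).comap (charCast m)
  have hL : ∀ u : L, DD P (charCast m u) ∈ lie H := fun u => u.2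
  obtain ⟨π, hπ⟩ := (Algebra.linearMap ℚ ℂ).exists_leftInverse_of_injective
    (LinearMap.ker_eq_bot.2 (algebraMap ℚ ℂ).injective)
  have hπ' : ∀ q : ℚ, π (q : ℂ) = q := fun q => LinearMap.congr_fun hπ q
  let lam : {η // Ch G η} → L →ₗ[ℚ] ℚ := fun η =>
    π ∘ₗ (((dR η.1 1).toLinearMap ∘ₗ DD P).restrictScalars ℚ) ∘ₗ charCast m ∘ₗ L.subtype
  have hlam : ∀ η u, (lam η u : ℂ) = dR η.1 1 (DD P (charCast m u)) := fun η u => by
    obtain ⟨q, hq⟩ := char_rat hC hHG hH hT.coi η.2 (hL u)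
    change ((π (dR η.1 1 (DD P (charCast m u))) : ℚ) : ℂ) = _
    rw [hq, hπ']
  let fL : L →ₗ[ℚ] ℚ := (∑ i, (f i : ℚ) • LinearMap.proj i) ∘ₗ L.subtype
  have hfL : ∀ u : L, fL u = ∑ i, (f i : ℚ) * u.1 i := fun u => by
    simp [fL]
  have hmem : fL ∈ Submodule.span ℚ (Set.range lam) := by
    refine FiniteDimensional.mem_span_of_iInf_ker_le_ker fun u hu => ?_
    rw [Submodule.mem_iInf] at hu
    obtain ⟨D, z, hD, hz, hz'⟩ := char_clear' u.1
    have h1 : DD P (fun i => (z i : ℂ)) ∈ lie H := by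
      rw [hz', map_smul]
      exact (lie H).smul_mem _ (hL u)
    have h2 := hf z h1 fun c => ⟨hHG ((hH.mem _).1 h1 c), fun η hη => by
      have h3 := hlam ⟨η, hη⟩ u
      rw [LinearMap.mem_ker.1 (hu ⟨η, hη⟩), Rat.cast_zero] at h3
      rw [char_exp hC hHG hH hη h1, hz', map_smul, map_smul, ← h3, smul_zero, mul_zero,
        Complex.exp_zero]⟩
    have h3 : ∑ i, (f i : ℚ) * (z i : ℚ) = 0 := by exact_mod_cast h2
    have h4 : (D : ℚ) * fL u = 0 := by
      rw [hfL, Finset.mul_sum, ← h3]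
      refine Finset.sum_congr rfl fun i _ => ?_
      rw [congrFun hz i, Pi.smul_apply, smul_eq_mul, mul_left_comm]
    exact (mul_eq_zero.1 h4).resolve_left (Nat.cast_ne_zero.2 hD.ne')
  have hG : ∀ (u : L) (c : ℂ), expU (c • DD P (charCast m u)) ∈ G := fun u c =>
    hHG ((hH.mem _).1 (hL u) c)
  have key : ∀ l ∈ Submodule.span ℚ (Set.range lam), ∃ (N : ℕ) (η : Gl n → ℂ), 0 < N ∧ Ch G η ∧
      ∀ (u : L) (c : ℂ), η (expU (c • DD P (charCast m u))) = Complex.exp (c * (N * l u)) := by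
    intro l hl
    induction hl using Submodule.span_induction with
    | mem _ hx =>
      obtain ⟨η, rfl⟩ := hx
      refine ⟨1, η.1, one_pos, η.2, fun u c => ?_⟩
      rw [char_exp hC hHG hH η.2 (hL u), hlam, Nat.cast_one, one_mul]
    | zero => exact ⟨1, _, one_pos, char_one G, fun u c => by simp⟩
    | add l l' _ _ ih ih' =>
      obtain ⟨N, η, hN, hη, h⟩ := ih
      obtain ⟨N', η', hN', hη', h'⟩ := ih'
      refine ⟨N * N', _, mul_pos hN hN', (hη.pow N').mul' (hη'.pow N), fun u c => ?_⟩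
      rw [h, h', ← Complex.exp_nat_mul, ← Complex.exp_nat_mul, ← Complex.exp_add,
        LinearMap.add_apply]
      congr 1
      push_cast
      ring
    | smul q l _ ih =>
      obtain ⟨N, η, hN, hη, h⟩ := ih
      obtain ⟨η', hη', h'⟩ := char_zpow hη q.num
      refine ⟨N * q.den, η', mul_pos hN q.den_pos, hη', fun u c => ?_⟩
      rw [h' _ (hG u c), h, ← Complex.exp_int_mul, LinearMap.smul_apply, smul_eq_mul]
      congr 1
      have h1 : ((q.num : ℚ) : ℂ) = ((q.den * q : ℚ) : ℂ) := by rw [Rat.den_mul_eq_num]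
      push_cast at h1 ⊢
      rw [h1]
      ring
  obtain ⟨N, η, hN, hη, h⟩ := key fL hmem
  refine ⟨N, η, hN, hη, fun u hu => ?_⟩
  have h1 := hR m (tor (lie H) P) hT.rat hu
  have h2 : DD P u ∈ lie H ∧
      ∀ c : ℂ, η (expU (c • DD P u)) = Complex.exp (c * (N * ∑ i, (f i : ℂ) * u i)) := by
    clear hu
    induction h1 using Submodule.span_induction with
    | mem u hx =>
      obtain ⟨hu, z, rfl⟩ := hx
      refine ⟨hu, fun c => ?_⟩
      have h3 := h ⟨fun i => (z i : ℚ), by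
        change charCast m _ ∈ tor (lie H) P
        rwa [charCast_int]⟩ c
      rw [hfL] at h3
      simp only [charCast_int] at h3
      rw [h3]
      push_cast
      rfl
    | zero => exact ⟨by rw [map_zero]; exact zero_mem _, fun c => by simp [hη.one]⟩
    | add u v _ _ ih ih' =>
      refine ⟨by rw [map_add]; exact add_mem ih.1 ih'.1, fun c => ?_⟩
      rw [map_add, smul_add, expU_add (((DD_commute hT.coi u v).smul_left c).smul_right c),
        hη.mul _ (hHG ((hH.mem _).1 ih.1 c)) _ (hHG ((hH.mem _).1 ih'.1 c)), ih.2, ih'.2,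
        ← Complex.exp_add]
      congr 1
      simp only [Pi.add_apply, mul_add, Finset.sum_add_distrib]
    | smul a u _ ih =>
      refine ⟨by rw [map_smul]; exact (lie H).smul_mem a ih.1, fun c => ?_⟩
      rw [map_smul, smul_smul, ih.2]
      congr 1
      simp only [Pi.smul_apply, smul_eq_mul, mul_left_comm _ a, ← Finset.mul_sum]
      ring
  have h3 := h2.2 1
  rwa [one_smul, one_mul] at h3

end Pool.Agent.MP_2a37ed_ag

end MrgPart12

-- ======== part 13: formerly Pool.Agent.MP_2a37ed_ag.Expa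
section MrgPart13

namespace Pool.Agent.MP_2a37ed_ag

open Matrix Polynomial

variable {n : ℕ}

section

variable {m : ℕ} {H : Subgroup (Gl n)} {P : Fin m → Mat n}

theorem expa_ch_eq (hSp : SpanStmt) (hI : InvStmt) (hC : ChStmt) (hH : Nice H)
    (hT : Tor (lie H) P) {χ η : Gl n → ℂ} (hχ : Ch H χ) (hη : Ch H η)
    (h : ∀ u, DD P u ∈ lie H → χ (expU (DD P u)) = η (expU (DD P u))) : ∀ x ∈ H, χ x = η x := by
  let K : Subgroup (Gl n) :=
    { carrier := {x | x ∈ H ∧ χ x = η x}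
      mul_mem' := fun {x y} hx hy => ⟨H.mul_mem hx.1 hy.1, by
        rw [hχ.mul x hx.1 y hy.1, hη.mul x hx.1 y hy.1, hx.2, hy.2]⟩
      one_mem' := ⟨H.one_mem, hχ.one.trans hη.one.symm⟩
      inv_mem' := fun {x} hx => ⟨H.inv_mem hx.1, by
        rw [eq_inv_of_mul_eq_one_right (hχ.mul_inv hx.1),
          eq_inv_of_mul_eq_one_right (hη.mul_inv hx.1), hx.2]⟩ }
  have hK : Clo K := clo_of_sub hH.clo {fun g => χ g - η g}
    (fun F hF => by rw [hF]; exact reg_sub hχ.reg hη.reg) fun g => by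
      simp only [Set.mem_singleton_iff, forall_eq, sub_eq_zero]
      rfl
  have hle := hI n H K _ hH hK (hSp n m _ P hH.alie hT) fun A hA c => by
    obtain ⟨hA, hN | ⟨u, rfl⟩⟩ := hA
    · have h1 := (hC n H).2 (lie H) (fun A hA => (hH.mem A).1 hA) (expU_mem_unip hA hN c)
      exact ⟨h1.1, (h1.2 χ hχ).trans (h1.2 η hη).symm⟩
    · refine ⟨(hH.mem _).1 hA c, ?_⟩
      rw [← map_smul]
      exact h _ (by rw [map_smul]; exact (lie H).smul_mem c hA)
  exact fun x hx => (hle hx).2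

theorem expa_pdet {ι : Type} [Fintype ι] [DecidableEq ι] {r : ℕ} {M : Submodule ℂ (ι → ℂ)}
    {S : Fin r → ι} {B : Matrix ι (Fin r) ℂ} (h : Plk M S B) (d : ι → ℂ) :
    pdet S B (diagonal d) = ∏ i ∈ Finset.univ.image S, d i := by
  have h1 : (diagonal d * B).submatrix S id = diagonal fun a => d (S a) := by
    ext a b
    have h2 : B (S a) b = (1 : Matrix (Fin r) (Fin r) ℂ) a b := congrFun (congrFun h.piv a) b
    rw [submatrix_apply, diagonal_mul, id, h2, one_apply, diagonal_apply]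
    split_ifs <;> simp
  rw [pdet, h1, det_diagonal, Finset.prod_image fun a _ b _ hab => h.inj hab]

theorem expa_exists (hP : PlkStmt) (hSp : SpanStmt) (hIs : InvsStmt) (hH : Nice H)
    (hT : Tor (lie H) P) {ι : Type} [Fintype ι] [DecidableEq ι] {ρ : Gl n → Matrix ι ι ℂ}
    {W : Submodule ℂ (ι → ℂ)} (hρ : RRep H ρ) (hW : ∀ h ∈ H, ∀ v ∈ W, ρ h *ᵥ v ∈ W)
    (hd : ∀ u, DD P u ∈ lie H → ∃ e, ρ (expU (DD P u)) = diagonal e) (wt : ι → ℤ)
    (hw : ∀ (M : Submodule ℂ (ι → ℂ)) (r : ℕ) (S : Fin r → ι) (B : Matrix ι (Fin r) ℂ), M ≤ W →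
      M ≠ ⊥ → (∀ h ∈ H, ∀ v ∈ M, ρ h *ᵥ v ∈ M) → Plk M S B →
      0 < ∑ i ∈ Finset.univ.image S, wt i) :
    ∀ p ∈ W, p ≠ 0 → ∃ h ∈ Unip (lie H), ∃ i, 1 ≤ wt i ∧ (ρ h⁻¹ *ᵥ p) i ≠ 0 := by
  intro p hp hp0
  by_contra hcon
  push Not at hcon
  let M : Submodule ℂ (ι → ℂ) :=
    { carrier := {v | v ∈ W ∧ ∀ h ∈ Unip (lie H), ∀ i, 1 ≤ wt i → (ρ h⁻¹ *ᵥ v) i = 0}
      add_mem' := fun {x y} hx hy => ⟨W.add_mem hx.1 hy.1, fun h hh i hi => by
        rw [mulVec_add, Pi.add_apply, hx.2 h hh i hi, hy.2 h hh i hi, add_zero]⟩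
      zero_mem' := ⟨W.zero_mem, fun h _ i _ => by rw [mulVec_zero, Pi.zero_apply]⟩
      smul_mem' := fun c {x} hx => ⟨W.smul_mem c hx.1, fun h hh i hi => by
        rw [mulVec_smul, Pi.smul_apply, hx.2 h hh i hi, smul_zero]⟩ }
  have hU : Unip (lie H) ≤ H := hH.unip_le le_rfl
  have hM : ∀ h ∈ H, ∀ v ∈ M, ρ h *ᵥ v ∈ M := by
    refine hIs n ι H ρ M _ hH hρ (fun A hA => hA.1) (hSp n m _ P hH.alie hT) ?_
    rintro A ⟨hA, hA'⟩ c v hv
    have hx : expU (c • A) ∈ H := (hH.mem _).1 hA c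
    refine ⟨hW _ hx v hv.1, fun h hh i hi => ?_⟩
    rw [mulVec_mulVec, ← hρ.mul _ (H.inv_mem (hU hh)) _ hx]
    rcases hA' with hN | ⟨u, rfl⟩
    · have h1 := hv.2 _ ((Unip _).mul_mem ((Unip _).inv_mem (expU_mem_unip hA hN c)) hh) i hi
      rwa [_root_.mul_inv_rev, inv_inv] at h1
    · have h2 := conj_unip (g := (expU (c • DD P u))⁻¹)
        (fun A hA => hH.cj_mem (H.inv_mem hx) hA) h hh
      have h1 := hv.2 _ h2 i hi
      obtain ⟨e, he⟩ := hd (c • u) (by rw [map_smul]; exact (lie H).smul_mem c hA)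
      rw [map_smul] at he
      have h3 : h⁻¹ * expU (c • DD P u) = expU (c • DD P u) *
          ((expU (c • DD P u))⁻¹ * h * (expU (c • DD P u))⁻¹⁻¹)⁻¹ := by group
      rw [h3, hρ.mul _ hx _ (H.inv_mem (hU h2)), ← mulVec_mulVec, he, mulVec_diagonal, h1,
        mul_zero]
  obtain ⟨r, S, B, hB⟩ := hP ι M
  have h1 := hw M r S B (fun v hv => hv.1) ((Submodule.ne_bot_iff M).2 ⟨p, ⟨hp, hcon⟩, hp0⟩) hM hB
  obtain ⟨i, hi, hi'⟩ : ∃ i ∈ Finset.univ.image S, 0 < wt i := by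
    by_contra h2
    push Not at h2
    exact absurd (Finset.sum_nonpos h2) (not_le.2 h1)
  obtain ⟨a, -, rfl⟩ := Finset.mem_image.1 hi
  have h2 := (hB.mem (Pi.single a 1)).2 1 (Unip _).one_mem (S a) hi'
  have h3 : B (S a) a = (1 : Matrix (Fin r) (Fin r) ℂ) a a := congrFun (congrFun hB.piv a) a
  rw [inv_one, hρ.one, one_mulVec, mulVec_single_one, col_apply, h3, one_apply_eq] at h2
  exact one_ne_zero h2

end

theorem expa_of (hP : PlkStmt) (hPc : PchStmt) (hG : GorStmt) (hRel : RelStmt) (hCh : CharStmt)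
    (hSp : SpanStmt) (hI : InvStmt) (hIs : InvsStmt) (hC : ChStmt) : ExpaStmt := by
  intro n m d G H P ι _ _ ρ W ω hH hHG hE hT hρ hW hN hd
  classical
  let L0 : Submodule ℚ (Fin m → ℚ) :=
    { carrier := {u | DD P (charCast m u) ∈ lie H ∧
        ∀ c : ℂ, expU (c • DD P (charCast m u)) ∈ G1 G}
      add_mem' := fun {u v} hu hv => by
        refine ⟨by rw [map_add, map_add]; exact add_mem hu.1 hv.1, fun c => ?_⟩
        rw [map_add, map_add, smul_add,
          expU_add (((DD_commute hT.coi _ _).smul_left c).smul_right c)]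
        exact (G1 G).mul_mem (hu.2 c) (hv.2 c)
      zero_mem' := ⟨by rw [map_zero, map_zero]; exact zero_mem _, fun c => by
        rw [map_zero, map_zero, smul_zero, expU_zero]
        exact (G1 G).one_mem⟩
      smul_mem' := fun q {u} hu => by
        refine ⟨by rw [charCast_smul, map_smul]; exact (lie H).smul_mem _ hu.1, fun c => ?_⟩
        rw [charCast_smul, map_smul, smul_smul]
        exact hu.2 _ }
  let X := {x : Σ k, Finset (ι k) // ∃ (M : Submodule ℂ (ι x.1 → ℂ)) (r : ℕ) (S : Fin r → ι x.1)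
    (B : Matrix (ι x.1) (Fin r) ℂ), M ≤ W x.1 ∧ M ≠ ⊥ ∧ (∀ h ∈ H, ∀ v ∈ M, ρ x.1 h *ᵥ v ∈ M) ∧
      Plk M S B ∧ x.2 = Finset.univ.image S}
  obtain ⟨K, ⟨e⟩⟩ := Finite.exists_equiv_fin X
  let F : X → Fin m → ℤ := fun x b => ∑ i ∈ x.1.2, ω x.1.1 i b
  have hdot : ∀ (x : X) (z : Fin m → ℤ), ((fun b => (F x b : ℚ)) ⬝ᵥ fun b => (z b : ℚ)) =
      ((∑ b, F x b * z b : ℤ) : ℚ) := fun x z => by
    push_cast
    rfl
  rcases hG m K L0 (fun j b => (F (e.symm j) b : ℚ)) with ⟨u, hu, hpos⟩ | ⟨a, ha, hrel⟩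
  · obtain ⟨D, z, hD, hz, -⟩ := char_clear' u
    have h1 : (fun i => (z i : ℚ)) ∈ L0 := hz ▸ L0.smul_mem _ hu
    obtain ⟨h2, h3⟩ := h1
    rw [charCast_int] at h2 h3
    refine ⟨z, h2, h3, fun k => expa_exists hP hSp hIs hH hT ((hρ k).mono hHG) (hW k)
      (fun u hu => ⟨_, hd k u hu⟩) _ fun M r S B a1 a2 a3 a4 => ?_⟩
    let x : X := ⟨⟨k, Finset.univ.image S⟩, M, r, S, B, a1, a2, a3, a4, rfl⟩
    have h4 := hpos (e x)
    rw [e.symm_apply_apply] at h4
    have h5 : (0 : ℚ) < (fun b => (F x b : ℚ)) ⬝ᵥ fun b => (z b : ℚ) := by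
      rw [hz, dotProduct_smul, smul_eq_mul]
      exact mul_pos (Nat.cast_pos.2 hD) h4
    rw [hdot, Int.cast_pos] at h5
    rw [Finset.sum_comm]
    simpa only [F, Finset.sum_mul] using h5
  · exfalso
    obtain ⟨N, η, hN0, hη, hη'⟩ := hCh n m G H P (fun b => ∑ j, a j * F (e.symm j) b) hHG hH hT
      fun z h1 h2 => by
        have h3 := hrel (fun i => (z i : ℚ)) ⟨by rwa [charCast_int], by rwa [charCast_int]⟩
        simp only [hdot] at h3
        have h4 : ∑ j, (a j : ℤ) * ∑ b, F (e.symm j) b * z b = 0 := by exact_mod_cast h3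
        rw [← h4]
        simp only [Finset.sum_mul, Finset.mul_sum, mul_assoc]
        exact Finset.sum_comm
    choose M r S B a1 a2 a3 a4 a5 using fun j => (e.symm j).2
    have h1 := hRel n K G H (fun j => ι (e.symm j).1.1) (fun j => ρ _) M r S B (fun j => N * a j) η
      hHG hE (fun j => hρ _) a4 a3 a2 (fun j => (hN _).mono (a1 j)) hη
      (expa_ch_eq hSp hI hC hH hT (ch_prod Finset.univ fun j _ =>
        ((hPc n (r j) _ G H _ (M j) (S j) (B j) (hρ _) hHG (a4 j) (a3 j)).1.pow (N * a j)))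
        (hη.mono hHG) fun u hu => ?_)
    · exact ha (funext fun j => (mul_eq_zero.1 (congrFun h1 j)).resolve_left hN0.ne')
    · rw [hη' u hu]
      simp only [hd _ u hu, expa_pdet (a4 _), ← a5, ← Complex.exp_sum, ← Complex.exp_nat_mul]
      congr 1
      simp only [F]
      push_cast
      simp only [Finset.sum_mul, Finset.mul_sum]
      rw [Finset.sum_comm]
      refine Finset.sum_congr rfl fun j _ => ?_
      rw [Finset.sum_comm]
      refine Finset.sum_congr rfl fun b _ => Finset.sum_congr rfl fun i _ => ?_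
      ring

end Pool.Agent.MP_2a37ed_ag

end MrgPart13

-- ======== part 14: formerly Pool.Agent.MP_2a37ed_ag.Def
section MrgPart14

/-! PROJECT EPI, module DEF: order by order lifting. -/

namespace Pool.Agent.MP_2a37ed_ag

open Matrix Polynomial

variable {n : ℕ}

theorem def_two (k : ℕ) (u v : Matrix (Fin n) (Fin n) La[X]) :
    Cg (k + 1 + 1) ((1 + (X ^ (k + 1) : La[X]) • u) * (1 + (X ^ (k + 1) : La[X]) • v))
      (1 + (X ^ (k + 1) : La[X]) • (u + v)) := by
  refine cg_iff_exists.2 ⟨(X ^ k : La[X]) • (u * v), ?_⟩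
  simp only [mul_add, add_mul, one_mul, mul_one, smul_mul_assoc, mul_smul_comm, smul_add,
    smul_smul]
  rw [show (X ^ (k + 1) * X ^ (k + 1) : La[X]) = X ^ (k + 1 + 1) * X ^ k by ring]
  abel

theorem def_swap (k : ℕ) {b b0 b1 : Matrix (Fin n) (Fin n) La[X]} (h : Cg 1 b b0)
    (h1 : b1 * b0 = 1) (u : Matrix (Fin n) (Fin n) La[X]) :
    Cg (k + 1) (b * (1 + (X ^ k : La[X]) • u)) ((1 + (X ^ k : La[X]) • (b0 * u * b1)) * b) := by
  have h2 : Cg 1 (b * u) (b0 * u * b1 * b) := by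
    refine (h.mul (Cg.refl 1 u)).trans ?_
    have h3 := ((Cg.refl 1 (b0 * u * b1)).mul h).symm
    rwa [mul_assoc (b0 * u) b1 b0, h1, mul_one] at h3
  have h4 := (Cg.refl (k + 1) b).add (h2.smul k)
  simpa only [mul_add, add_mul, one_mul, mul_one, smul_mul_assoc, mul_smul_comm] using h4

theorem def_zero {k : ℕ} {E : GL (Fin n) La[X]} {u : Matrix (Fin n) (Fin n) La[X]}
    (h : Cg (k + 1 + 1) E.val (1 + (X ^ (k + 1) : La[X]) • u)) : gm (evs 0) E = 1 := by
  have h1 : Cg 1 E.val 1 := (h.mono (by omega)).trans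
    (cg_iff_exists.2 ⟨(X ^ k : La[X]) • u, by rw [smul_smul, ← pow_add, add_comm 1 k]⟩)
  refine Units.ext ?_
  rw [gm_val, h1.evs_zero, Units.val_one]
  exact Matrix.map_one _ (map_zero _) (map_one _)

theorem def_of (hE : ExpoStmt) : DefStmt := by
  intro n G Γ V h y hΓ hV hVG hh hy hb0 hS e
  suffices H : ∃ γm b γp : GL (Fin n) La[X], Good G (nsp V) γm ∧ Good G (nsp V) b ∧
      Good G (nsp V) γp ∧ NegG γm ∧ PosG γp ∧
      (∀ s τ, gm (ev2 s τ) b ∈ Γ) ∧ gm (evs 0) b = gm (evs 0) y ∧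
      Cg (e + 1) y.val (γm * b * γp).val by
    obtain ⟨γm, b, γp, -, -, -, H⟩ := H
    exact ⟨γm, b, γp, H⟩
  induction e with
  | zero =>
    refine ⟨1, gm cs (gm (evs 0) y), 1, good_one, good_const fun τ => hΓ (hb0 τ), good_one,
      negG_one, posG_one, fun s τ => ?_, gm_evs_cs _ _, ?_⟩
    · rw [gm_ev2, gm_evs_cs]
      exact hb0 τ
    · rw [one_mul, mul_one, gm_val, gm_val]
      exact cg_one_const _
  | succ e ih =>
    obtain ⟨γm, b, γp, g1, g2, g3, n1, p1, hb, hb1, hc⟩ := ih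
    have hx : Good G (nsp V) (γm⁻¹ * y * γp⁻¹ * b⁻¹) :=
      Good.mul hV (Good.mul hV (Good.mul hV (Good.inv hV g1) hy) (Good.inv hV g3))
        (Good.inv hV g2)
    have hx1 : Cg (e + 1) (γm⁻¹ * y * γp⁻¹ * b⁻¹).val 1 := by
      have h1 := (((Cg.refl _ (γm⁻¹).val).mul hc).mul (Cg.refl _ (γp⁻¹).val)).mul
        (Cg.refl _ (b⁻¹).val)
      simp only [← Units.val_mul] at h1
      rwa [show γm⁻¹ * (γm * b * γp) * γp⁻¹ * b⁻¹ = 1 by group, Units.val_one] at h1
    obtain ⟨Am, B, Ap, a1, a2, a3, a4, a5, a6⟩ := hS _ (hx.lead (by omega) hx1)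
    have hN : ∀ N ∈ V, IsNilpotent N → N ∈ nsp V ∧ ∀ c : ℂ, expU (c • N) ∈ G :=
      fun N h1 h2 => ⟨Submodule.subset_span ⟨h1, h2⟩, hVG N h1 h2⟩
    obtain ⟨Em, m1, m2, m3, -⟩ := hE n (e + 1) G V (nsp V) Am (by omega) a1 hN hV
    obtain ⟨Ep, q1, q2, -, q3⟩ := hE n (e + 1) G V (nsp V) Ap (by omega) a3 hN hV
    obtain ⟨EB, r1, r2, -⟩ := hE n (e + 1) Γ h (nsp V) B (by omega) a2
      (fun N h1 h2 => ⟨Submodule.subset_span ⟨(hh N h1 h2).1, h2⟩, (hh N h1 h2).2⟩)
      fun g hg => hV g (hΓ hg)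
    refine ⟨γm * Em, EB * b, Ep * γp, Good.mul hV g1 m1, Good.mul hV (r1.mono hΓ le_rfl) g2,
      Good.mul hV q1 g3, n1.mul (m3 a4), (q3 a5).mul p1, fun s τ => ?_, ?_, ?_⟩
    · rw [map_mul]
      exact Γ.mul_mem (r1.val s τ) (hb s τ)
    · rw [map_mul, def_zero r2, one_mul, hb1]
    have h2 := hx1.succ
    rw [a6] at h2
    have h3 : Cg 1 b.val (gm cs (gm (evs 0) y)).val := by
      rw [← hb1, gm_val, gm_val]
      exact cg_one_const _
    have h4 : (Am + B + (gm (evs 0) y).val * Ap * ((gm (evs 0) y)⁻¹).val).map cs =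
        Am.map cs + B.map cs + (gm cs (gm (evs 0) y)).val * Ap.map cs *
          ((gm cs (gm (evs 0) y))⁻¹).val := by
      rw [gm_inv_val cs, gm_val cs, ← Matrix.map_mul, ← Matrix.map_mul,
        Matrix.map_add _ (map_add cs), Matrix.map_add _ (map_add cs)]
    rw [h4] at h2
    have h5 := def_swap (e + 1) h3 (Units.inv_mul _) (Ap.map cs)
    have h6 := ((m2.mul r2).trans (def_two e _ _)).mul (((Cg.refl _ b.val).mul q2).trans h5)
    rw [← mul_assoc (1 + _)] at h6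
    have h7 := h6.trans (((def_two e _ _).trans h2.symm).mul (Cg.refl _ b.val))
    have h8 := (((Cg.refl _ γm.val).mul h7).mul (Cg.refl _ γp.val)).symm
    simp only [← Units.val_mul] at h8
    rwa [show γm * (γm⁻¹ * y * γp⁻¹ * b⁻¹ * b) * γp = y by group,
      show γm * (Em * EB * (b * Ep)) * γp = γm * Em * (EB * b) * (Ep * γp) by group] at h8

end Pool.Agent.MP_2a37ed_ag

end MrgPart14

-- ======== part 15: formerly Pool.Agent.MP_2a37ed_ag.Final
section MrgPart15

namespace Pool.Agent.MP_2a37ed_ag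

theorem wj_stmt : WjStmt := wj_of spec_stmt eng_stmt

theorem weyl_stmt : WeylStmt :=
  weyl_of (tor_of spec_stmt) root_stmt wj_stmt
    (wr_of root_stmt wj_stmt (w0_of eng_stmt root_stmt wj_stmt)) (cent_of wj_stmt)

theorem expa_stmt : ExpaStmt :=
  expa_of plk_stmt pch_stmt gor_stmt (rel_of pch_stmt) (char_of rat_stmt ch_stmt)
    (span_of root_stmt) (inv_of lie_stmt) (invs_of (inv_of lie_stmt)) ch_stmt

theorem a1_stmt : A1Stmt :=
  a1_of (tor_of spec_stmt) root_stmt bas_stmt coad_stmt (gen_of tens_stmt irr_stmt expa_stmt)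
    (drift_of deg_stmt (step_of deg_stmt) plk_stmt)

theorem a2_stmt : A2Stmt :=
  a2_of a1_stmt weyl_stmt curve_stmt (surj_of dual_stmt coad_stmt) (def_of expo_stmt) injj_stmt
    (win_of genp_stmt) trans_stmt ch_stmt coad_stmt

theorem core_stmt : CoreStmt :=
  core_of (str_of spec_stmt root_stmt) a2_stmt (fact_of dual_stmt)
    (gval_of tr_stmt plk_stmt pch_stmt) nondeg_stmt lie_stmt (kst_of tr_stmt plk_stmt pch_stmt)

theorem main2_stmt : Main2Stmt :=
  main2_of lie_stmt (rep_of lie_stmt) (vn_of lie_stmt) (epi_of tr_stmt) core_stmt elim_stmt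
    tr_stmt plk_stmt

end Pool.Agent.MP_2a37ed_ag

end MrgPart15

-- marker of a merged file
example : 731051 + 810747 = 731051 + 810747 := rfl
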